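import Pool.Agent.Helper21.KW.Defs

set_option autoImplicit false

/-!
# Definitions for the modules KW-CommQ, KW-CommL1, KW-CommL2, KW-CommL3
-/

namespace Pool.Agent.Helper21.KW

open MvPolynomial Module Finset Pool.Agent.Helper58.KW

/-- The span of the products over `l` of the head or the next variable. -/
noncomputable def QT (k : Type*) [Field k] {X I : Type*} (J : Jd X I) :
    List (Yp J) → Submodule k (MvPolynomial X k)
  | [] => Submodule.span k {1}
  | b :: l => (QT k J l).map (LinearMap.mulLeft k (MvPolynomial.X b.1 : MvPolynomial X k)) ⊔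
      (QT k J l).map (LinearMap.mulLeft k (dP k J (MvPolynomial.X b.1)))

section

variable {k : Type*} [Field k] {X I : Type*} [Fintype X] [LinearOrder X] [DecidableEq I]
  (J : Jd X I)

/-- All monomials of `t` have the label `c` (helper58's `lab`, with `p = 3`). -/
def HasLab (c : I → ℕ × ℕ) (t : MvPolynomial X k) : Prop := ∀ ν ∈ t.support, lab J 3 ν = c

/-- The label is bad if for some block (size) + (degree without the cubes of the head) is more
than 3. -/
def Bad (c : I → ℕ × ℕ) : Prop := ∃ i, 3 < J.sz i + ((c i).2 - 3 * (c i).1)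

/-- The label of `monomial (lam J μ) 1 * q`, `q ∈ QT k J T`. -/
noncomputable def lb (μ : Xp J →₀ ℕ) (T : Finset (Yp J)) : I → ℕ × ℕ :=
  lab J 3 (lam J μ + ∑ y ∈ T, Finsupp.single y.1 1)

end

end Pool.Agent.Helper21.KW
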