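import Pool.Agent.Helper21.KW.CommDefs

set_option autoImplicit false

/-!
# MODULE KW-CommL1: bad labels

`t` with label `c` bad.  As in the proof of helper58's `Lft.main` (Helper58/KW/Label.lean):
`t = monomial (tau J 3 a) 1 * r`, `a i = (c i).1`, `DX (tau) = 0`, so `dP r = 0`, and `transport`
(Helper58/KW/Blocks.lean) gives `g` with `dP (dP g) = r` for the bad block `i`.  Then replace
`monomial (tau) * g` by its component `comp (lab J 3) c` (`comp`, `coeff_comp`, `sum_comp`,
`comp_ker`, `lab_DX`: `dP` preserves the labels).  The second statement follows from the first: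
`dP (dP t) = 0` gives `dP t = dP (dP g)`, `dP (t - dP g) = 0`, `t - dP g = dP (dP g')`.
(`good_second` in Helper58/KW/Der.lean is the general form.)
-/

namespace Pool.Agent.Helper21.KW

open MvPolynomial Module Finset Pool.Agent.Helper58.KW

section

variable {k : Type*} [Field k] [CharP k 3] {X I : Type*} [Fintype X] [LinearOrder X] [Fintype I]
  [DecidableEq I] (J : Jd X I)

private theorem supp_dP_aux (t : MvPolynomial X k) {μ : X →₀ ℕ} (hμ : μ ∈ (dP k J t).support) :
    ∃ ν ∈ t.support, lab J 3 μ = lab J 3 ν := by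
  classical
  rw [t.as_sum, map_sum] at hμ
  obtain ⟨ν, hν, h1⟩ := Finset.mem_biUnion.1 (MvPolynomial.support_sum hμ)
  exact ⟨ν, hν, lab_DX J 3 ν _ μ h1⟩

/-- `dP` preserves the labels. -/
theorem hasLab_dP {c : I → ℕ × ℕ} {t : MvPolynomial X k} (ht : HasLab J c t) :
    HasLab J c (dP k J t) := by
  intro μ hμ
  obtain ⟨ν, hν, h1⟩ := supp_dP_aux J t hμ
  rw [h1, ht ν hν]

omit [CharP k 3] in
private theorem hasLab_comp_aux (c : I → ℕ × ℕ) (t : MvPolynomial X k) :
    HasLab J c (comp (lab J 3) c t) := by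
  intro ν hν
  rw [MvPolynomial.mem_support_iff, coeff_comp] at hν
  by_contra h1
  rw [if_neg h1] at hν
  exact hν rfl

omit [CharP k 3] in
private theorem comp_of_hasLab_aux {c : I → ℕ × ℕ} {t : MvPolynomial X k} (ht : HasLab J c t) :
    comp (lab J 3) c t = t := by
  ext μ
  rw [coeff_comp]
  by_cases h : lab J 3 μ = c
  · rw [if_pos h]
  · rw [if_neg h]
    by_contra h2
    exact h (ht μ (MvPolynomial.mem_support_iff.2 (Ne.symm h2)))

/-- The component with a given label commutes with `dP`. -/
theorem comp_dP (c : I → ℕ × ℕ) (t : MvPolynomial X k) :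
    comp (lab J 3) c (dP k J t) = dP k J (comp (lab J 3) c t) := by
  ext μ
  rw [coeff_comp]
  by_cases h : lab J 3 μ = c
  · rw [if_pos h]
    have h1 : coeff μ (dP k J (t - comp (lab J 3) c t)) = 0 := by
      by_contra h2
      obtain ⟨ν, hν, h3⟩ := supp_dP_aux J _ (MvPolynomial.mem_support_iff.2 h2)
      rw [MvPolynomial.mem_support_iff, coeff_sub, coeff_comp, if_pos (h3.symm.trans h),
        sub_self] at hν
      exact hν rfl
    rw [map_sub, coeff_sub, sub_eq_zero] at h1
    exact h1
  · rw [if_neg h]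
    by_contra h2
    exact h (hasLab_dP J (hasLab_comp_aux J c t) μ
      (MvPolynomial.mem_support_iff.2 (Ne.symm h2)))

omit [Fintype I] [DecidableEq I] in
private theorem dP_tau_mul_aux (a : I → ℕ) (f : MvPolynomial X k) :
    dP k J (monomial (tau J 3 a) 1 * f) = monomial (tau J 3 a) 1 * dP k J f := by
  show DX k J.nx (monomial (tau J 3 a) 1 * f) = monomial (tau J 3 a) 1 * DX k J.nx f
  rw [Derivation.leibniz, DX_tau, smul_zero, add_zero, smul_eq_mul]

theorem bad_ker (hsz : ∀ i, J.sz i ≤ 3) {c : I → ℕ × ℕ} (hc : Bad J c) {t : MvPolynomial X k}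
    (ht : HasLab J c t) (h : dP k J t = 0) : ∃ g, HasLab J c g ∧ t = dP k J (dP k J g) := by
  classical
  by_cases ht0 : t = 0
  · refine ⟨0, ?_, by rw [ht0, map_zero, map_zero]⟩
    intro ν hν
    rw [MvPolynomial.mem_support_iff, coeff_zero] at hν
    exact absurd rfl hν
  set a : I → ℕ := fun i => (c i).1 with ha
  set r := t.divMonomial (tau J 3 a) with hr
  have htop : ∀ ν ∈ t.support, ∀ x, J.pos x = 0 → ν x / 3 = a (J.blk x) := by
    intro ν hν x hx
    have h1 := congrFun (ht ν hν) (J.blk x)
    have h2 : J.att (J.blk x) 0 = some x := (J.att_iff _ _ _).2 ⟨rfl, hx⟩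
    have h3 := congrArg Prod.fst h1
    unfold lab at h3
    rw [h2] at h3
    exact h3
  have hle : ∀ ν ∈ t.support, tau J 3 a ≤ ν := by
    intro ν hν x
    rw [tau_apply]
    by_cases hx : J.pos x = 0
    · rw [if_pos hx, ← htop ν hν x hx]
      exact Nat.div_mul_le_self _ _
    · rw [if_neg hx, zero_mul]
      exact Nat.zero_le _
  have hfac : t = monomial (tau J 3 a) 1 * r := by
    have h1 := divMonomial_add_modMonomial t (tau J 3 a)
    have h2 : t.modMonomial (tau J 3 a) = 0 := by
      ext μ
      rw [coeff_zero]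
      by_cases h3 : tau J 3 a ≤ μ
      · rw [coeff_modMonomial_of_le _ h3]
      · rw [coeff_modMonomial_of_not_le _ h3]
        by_contra h4
        exact h3 (hle μ (MvPolynomial.mem_support_iff.2 h4))
    rw [h2, add_zero] at h1
    exact h1.symm
  have hDr : DX k J.nx r = 0 := by
    have h1 := h
    rw [hfac, dP_tau_mul_aux] at h1
    exact (mul_eq_zero.1 h1).resolve_left fun h => one_ne_zero (monomial_eq_zero.1 h)
  have hrs : ∀ μ ∈ r.support, tau J 3 a + μ ∈ t.support := by
    intro μ hμ
    rw [MvPolynomial.mem_support_iff, hr, coeff_divMonomial] at hμ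
    exact MvPolynomial.mem_support_iff.2 hμ
  have hrtop : ∀ μ ∈ r.support, ∀ x, J.pos x = 0 → μ x < 3 := by
    intro μ hμ x hx
    have h1 := htop _ (hrs μ hμ) x hx
    rw [Finsupp.add_apply, tau_apply, if_pos hx, mul_comm, Nat.mul_add_div (by norm_num)] at h1
    omega
  set b : I → ℕ := fun i => (c i).2 - ∑ x ∈ univ.filter (fun x => J.blk x = i), tau J 3 a x with hb
  have hrb : ∀ μ ∈ r.support, ∀ i, ∑ x ∈ univ.filter (fun x => J.blk x = i), μ x = b i := by
    intro μ hμ i
    have h1 := congrArg Prod.snd (congrFun (ht _ (hrs μ hμ)) i)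
    unfold lab at h1
    simp only [Finsupp.add_apply, Finset.sum_add_distrib] at h1
    show _ = (c i).2 - _
    rw [← h1]
    omega
  obtain ⟨i, hi⟩ := hc
  have hbi : 3 < J.sz i + b i := by
    rcases Nat.eq_zero_or_pos (J.sz i) with h0 | h0
    · exfalso
      obtain ⟨μ, hμ⟩ := MvPolynomial.support_nonempty.2 ht0
      have h1 := congrArg Prod.snd (congrFun (ht μ hμ) i)
      unfold lab at h1
      have h2 : univ.filter (fun x => J.blk x = i) = ∅ := by
        rw [Finset.filter_eq_empty_iff]
        intro x _ hx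
        have := J.pos_lt x
        rw [hx, h0] at this
        omega
      simp only [h2, Finset.sum_empty] at h1
      rw [h0, ← h1] at hi
      omega
    · have hex : ∃ x, J.att i 0 = some x := by
        cases hh : J.att i 0 with
        | none =>
          rw [J.att_none] at hh
          omega
        | some x => exact ⟨x, rfl⟩
      obtain ⟨x, hx⟩ := hex
      obtain ⟨h1, h2⟩ := (J.att_iff _ _ _).1 hx
      have h3 : ∑ z ∈ univ.filter (fun z => J.blk z = i), tau J 3 a z = a i * 3 := by
        rw [Finset.sum_eq_single x]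
        · rw [tau_apply, if_pos h2, h1]
        · intro z hz hzx
          rw [Finset.mem_filter] at hz
          rw [tau_apply, if_neg, zero_mul]
          intro h4
          exact hzx (J.inj (by rw [hz.2, h1]) (by rw [h4, h2]))
        · intro hx2
          exact (hx2 (Finset.mem_filter.2 ⟨Finset.mem_univ _, h1⟩)).elim
      show 3 < J.sz i + ((c i).2 - ∑ x ∈ univ.filter (fun x => J.blk x = i), tau J 3 a x)
      rw [h3]
      show 3 < J.sz i + ((c i).2 - (c i).1 * 3)
      omega
  obtain ⟨g, hg⟩ := transport J 3 hsz i hbi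
    (fun μ hμ => ⟨hrb μ hμ i, fun x _ hx => hrtop μ hμ x hx⟩) hDr
  have hg2 : dP k J (dP k J g) = r := by
    rw [← hg]
    rfl
  refine ⟨comp (lab J 3) c (monomial (tau J 3 a) 1 * g), hasLab_comp_aux J c _, ?_⟩
  rw [← comp_dP, ← comp_dP, dP_tau_mul_aux, dP_tau_mul_aux, hg2, ← hfac]
  exact (comp_of_hasLab_aux J ht).symm

omit [CharP k 3] in
private theorem hasLab_sub_aux {c : I → ℕ × ℕ} {s t : MvPolynomial X k} (hs : HasLab J c s)
    (ht : HasLab J c t) : HasLab J c (s - t) := by
  classical
  intro ν hν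
  rcases Finset.mem_union.1 (MvPolynomial.support_sub _ _ _ hν) with h | h
  · exact hs ν h
  · exact ht ν h

theorem bad_ker2 (hsz : ∀ i, J.sz i ≤ 3) {c : I → ℕ × ℕ} (hc : Bad J c) {t : MvPolynomial X k}
    (ht : HasLab J c t) (h : dP k J (dP k J t) = 0) : ∃ g, HasLab J c g ∧ t = dP k J g := by
  obtain ⟨g, hg, hg2⟩ := bad_ker J hsz hc (hasLab_dP J ht) h
  have h1 : dP k J (t - dP k J g) = 0 := by
    rw [map_sub, hg2, sub_self]
  obtain ⟨g', hg', hg2'⟩ := bad_ker J hsz hc (hasLab_sub_aux J ht (hasLab_dP J hg)) h1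
  refine ⟨g + dP k J g', ?_, ?_⟩
  · classical
    intro ν hν
    rcases Finset.mem_union.1 (MvPolynomial.support_add hν) with h | h
    · exact hg ν h
    · exact hasLab_dP J hg' ν h
  · rw [map_add, ← hg2']
    abel

end

end Pool.Agent.Helper21.KW
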