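import Pool.Agent.Helper21.KW.CommDefs

set_option autoImplicit false

/-!
# MODULE KW-CommL2 (stub): good labels

Blocks of size at most 3 (empty blocks allowed).  The label of a monomial `ν` is, for every block,
(exponent of the head) / 3 and the degree in the block.  Not bad means: blocks of size 3: the block
part of `ν` is a power `b ^ (3 a)` of the head; of size 2: `b ^ (3 a)` or `b ^ (3 a) b` or
`b ^ (3 a) c`; size 1: no condition.
-/

namespace Pool.Agent.Helper21.KW

open MvPolynomial Module Finset Pool.Agent.Helper58.KW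

section

variable {k : Type*} [Field k] {X I : Type*} [Fintype X] [LinearOrder X] [DecidableEq I]
  (J : Jd X I)

private theorem cl_sumT {x : X} {T : Finset (Yp J)} (f : Yp J → Prop) [DecidablePred f]
    (hf : ∀ y ∈ T, f y → y.1 = x)
    [Decidable (∃ h : J.pos x = 0 ∧ J.sz (J.blk x) = 2, (⟨x, h⟩ : Yp J) ∈ T ∧ f ⟨x, h⟩)] :
    ∑ y ∈ T, (if f y then 1 else 0) =
      if (∃ h : J.pos x = 0 ∧ J.sz (J.blk x) = 2, (⟨x, h⟩ : Yp J) ∈ T ∧ f ⟨x, h⟩)
        then 1 else 0 := by
  classical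
  by_cases h : ∃ h : J.pos x = 0 ∧ J.sz (J.blk x) = 2, (⟨x, h⟩ : Yp J) ∈ T ∧ f ⟨x, h⟩
  · rw [if_pos h]
    obtain ⟨hx, hxT, hfx⟩ := h
    rw [Finset.sum_eq_single_of_mem (⟨x, hx⟩ : Yp J) hxT, if_pos hfx]
    intro y hy hne
    rw [if_neg]
    intro hfy
    exact hne (Subtype.ext (hf y hy hfy))
  · rw [if_neg h]
    refine Finset.sum_eq_zero fun y hy => ?_
    rw [if_neg]
    intro hfy
    have h1 := hf y hy hfy
    obtain ⟨y1, hy1⟩ := y
    simp only at h1
    subst h1
    exact h ⟨hy1, hy, hfy⟩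

open Classical in
/-- The indicator of `T` at `x`. -/
private noncomputable def cl_e (T : Finset (Yp J)) (x : X) : ℕ :=
  if (∃ h : J.pos x = 0 ∧ J.sz (J.blk x) = 2, (⟨x, h⟩ : Yp J) ∈ T) then 1 else 0

/-- A choice of the head or of the next variable. -/
private def ClV (ch : Yp J → X) : Prop := ∀ y : Yp J, ch y = y.1 ∨ J.nx y.1 = some (ch y)

private theorem cl_blk {ch : Yp J → X} (hch : ClV J ch) (y : Yp J) :
    J.blk (ch y) = J.blk y.1 := by
  rcases hch y with h | h
  · rw [h]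
  · exact (J.nx_some h).1

private theorem cl_head {ch : Yp J → X} (hch : ClV J ch) (y : Yp J) {x : X} (hx : J.pos x = 0)
    (h : ch y = x) : y.1 = x := by
  rcases hch y with h1 | h1
  · rw [← h1, h]
  · have h2 := (J.nx_some h1).2
    rw [h, hx] at h2
    omega

private theorem cl_eq_head {x : X} (hx : J.pos x = 0) (y : Yp J)
    (h : J.blk y.1 = J.blk x) : y.1 = x :=
  J.inj h (by rw [y.2.1, hx])

private theorem cl_lam_head (μ : Xp J →₀ ℕ) {x : X} (hx : J.pos x = 0) :
    lam J μ x = wt J ⟨x, hx⟩ * μ ⟨x, hx⟩ := by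
  show (if h : J.pos x = 0 then wt J ⟨x, h⟩ * μ ⟨x, h⟩ else 0) = _
  rw [dif_pos hx]

private theorem cl_lam_ne (μ : Xp J →₀ ℕ) {x : X} (hx : J.pos x ≠ 0) : lam J μ x = 0 := by
  show (if h : J.pos x = 0 then wt J ⟨x, h⟩ * μ ⟨x, h⟩ else 0) = _
  rw [dif_neg hx]

/-- The value at a point of the sum of the chosen variables. -/
private theorem cl_sum_apply {ch : Yp J → X} (hch : ClV J ch) (T : Finset (Yp J)) {x z : X}
    (hx : J.pos x = 0) (hz : J.blk z = J.blk x)
    [Decidable (∃ h : J.pos x = 0 ∧ J.sz (J.blk x) = 2, (⟨x, h⟩ : Yp J) ∈ T ∧ ch ⟨x, h⟩ = z)] :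
    (∑ y ∈ T, (Finsupp.single (ch y) 1 : X →₀ ℕ)) z =
      if (∃ h : J.pos x = 0 ∧ J.sz (J.blk x) = 2, (⟨x, h⟩ : Yp J) ∈ T ∧ ch ⟨x, h⟩ = z)
        then 1 else 0 := by
  classical
  rw [Finsupp.finsetSum_apply]
  rw [← cl_sumT J (fun y => ch y = z)]
  · refine Finset.sum_congr rfl fun y _ => ?_
    rw [Finsupp.single_apply]
  · intro y _ hy
    refine cl_eq_head J hx y ?_
    rw [← cl_blk J hch y, hy, hz]

private theorem cl_block_single (i : I) (w : X) :
    ∑ z ∈ univ.filter (fun z => J.blk z = i), (Finsupp.single w 1 : X →₀ ℕ) z =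
      if J.blk w = i then 1 else 0 := by
  classical
  have h1 : ∀ z, (Finsupp.single w 1 : X →₀ ℕ) z = if w = z then 1 else 0 := fun z =>
    Finsupp.single_apply
  rw [Finset.sum_congr rfl fun z _ => h1 z, Finset.sum_ite_eq]
  by_cases h : J.blk w = i
  · rw [if_pos h, if_pos]
    exact Finset.mem_filter.2 ⟨Finset.mem_univ _, h⟩
  · rw [if_neg h, if_neg]
    intro h2
    exact h (Finset.mem_filter.1 h2).2

private theorem cl_block_lam (μ : Xp J →₀ ℕ) {x : X} (hx : J.pos x = 0) :
    ∑ z ∈ univ.filter (fun z => J.blk z = J.blk x), lam J μ z =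
      wt J ⟨x, hx⟩ * μ ⟨x, hx⟩ := by
  have hxm : x ∈ univ.filter (fun z => J.blk z = J.blk x) :=
    Finset.mem_filter.2 ⟨Finset.mem_univ _, rfl⟩
  rw [Finset.sum_eq_single_of_mem x hxm, cl_lam_head J μ hx]
  intro z hz hzx
  refine cl_lam_ne J μ fun h => hzx ?_
  exact J.inj (Finset.mem_filter.1 hz).2 (by rw [h, hx])

private theorem cl_wt2 {x : X} (h : J.pos x = 0 ∧ J.sz (J.blk x) = 2) : wt J ⟨x, h.1⟩ = 3 := by
  unfold wt
  rw [if_neg]
  show ¬ J.sz (J.blk x) = 1
  rw [h.2]
  norm_num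

/-- The label at the block of `x`. -/
private theorem cl_lab {ch : Yp J → X} (hch : ClV J ch) (μ : Xp J →₀ ℕ) (T : Finset (Yp J))
    {x : X} (hx : J.pos x = 0) :
    lab J 3 (lam J μ + ∑ y ∈ T, Finsupp.single (ch y) 1) (J.blk x) =
      ((wt J ⟨x, hx⟩ * μ ⟨x, hx⟩ + cl_e J T x) / 3, wt J ⟨x, hx⟩ * μ ⟨x, hx⟩ + cl_e J T x) := by
  classical
  have hatt : J.att (J.blk x) 0 = some x := (J.att_iff _ _ _).2 ⟨rfl, hx⟩
  unfold lab
  rw [hatt, Option.elim_some]
  congr 1
  · rw [Finsupp.add_apply, cl_lam_head J μ hx, cl_sum_apply J hch T hx rfl]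
    unfold cl_e
    by_cases h : ∃ h : J.pos x = 0 ∧ J.sz (J.blk x) = 2, (⟨x, h⟩ : Yp J) ∈ T
    · rw [if_pos h]
      obtain ⟨h2, h3⟩ := h
      rw [cl_wt2 J h2]
      split_ifs <;> omega
    · rw [if_neg h, if_neg]
      rintro ⟨h2, h3, -⟩
      exact h ⟨h2, h3⟩
  · simp only [Finsupp.add_apply, Finset.sum_add_distrib, cl_block_lam J μ hx,
      Finsupp.finsetSum_apply]
    congr 1
    rw [Finset.sum_comm]
    have h1 : ∀ y ∈ T, ∑ z ∈ univ.filter (fun z => J.blk z = J.blk x),
        (Finsupp.single (ch y) 1 : X →₀ ℕ) z = if J.blk y.1 = J.blk x then 1 else 0 := by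
      intro y _
      rw [cl_block_single, cl_blk J hch y]
    rw [Finset.sum_congr rfl h1, cl_sumT J (fun y => J.blk y.1 = J.blk x) (x := x)
      (fun y _ h => cl_eq_head J hx y h)]
    unfold cl_e
    by_cases h : ∃ h : J.pos x = 0 ∧ J.sz (J.blk x) = 2, (⟨x, h⟩ : Yp J) ∈ T
    · rw [if_pos h, if_pos]
      obtain ⟨h2, h3⟩ := h
      exact ⟨h2, h3, rfl⟩
    · rw [if_neg h, if_neg]
      rintro ⟨h2, h3, -⟩
      exact h ⟨h2, h3⟩

private theorem cl_id : ClV J (fun y => y.1) := fun _ => Or.inl rfl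

private theorem cl_lb (μ : Xp J →₀ ℕ) (T : Finset (Yp J)) {x : X} (hx : J.pos x = 0) :
    lb J μ T (J.blk x) =
      ((wt J ⟨x, hx⟩ * μ ⟨x, hx⟩ + cl_e J T x) / 3, wt J ⟨x, hx⟩ * μ ⟨x, hx⟩ + cl_e J T x) :=
  cl_lab J (cl_id J) μ T hx

/-- Two labels agree if they agree at the blocks with a head. -/
private theorem cl_ext {ν ν' : X →₀ ℕ}
    (h : ∀ x, J.pos x = 0 → lab J 3 ν (J.blk x) = lab J 3 ν' (J.blk x)) :
    lab J 3 ν = lab J 3 ν' := by
  funext i
  cases hi : J.att i 0 with
  | none =>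
    have h0 : univ.filter (fun x => J.blk x = i) = ∅ := by
      rw [Finset.filter_eq_empty_iff]
      intro x _ hx
      have h1 := J.pos_lt x
      rw [hx] at h1
      have h2 := (J.att_none i 0).1 hi
      omega
    unfold lab
    rw [hi, h0, Finset.sum_empty, Finset.sum_empty]
    rfl
  | some x =>
    obtain ⟨h1, h2⟩ := (J.att_iff _ _ _).1 hi
    rw [← h1]
    exact h x h2

private theorem cl_lab_eq {ch : Yp J → X} (hch : ClV J ch) (μ : Xp J →₀ ℕ)
    (T : Finset (Yp J)) :
    lab J 3 (lam J μ + ∑ y ∈ T, Finsupp.single (ch y) 1) = lb J μ T := by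
  unfold lb
  refine cl_ext J fun x hx => ?_
  rw [cl_lab J hch μ T hx, cl_lab J (cl_id J) μ T hx]

private theorem cl_e_le (T : Finset (Yp J)) (x : X) : cl_e J T x ≤ 1 := by
  unfold cl_e
  split_ifs <;> omega

private theorem cl_exists_head (z : X) : ∃ x, J.pos x = 0 ∧ J.blk x = J.blk z := by
  cases hh : J.att (J.blk z) 0 with
  | none =>
    rw [J.att_none] at hh
    have := J.pos_lt z
    omega
  | some x =>
    obtain ⟨h1, h2⟩ := (J.att_iff _ _ _).1 hh
    exact ⟨x, h2, h1⟩

private theorem cl_wt_cases {x : X} (hx : J.pos x = 0) :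
    (J.sz (J.blk x) = 1 ∧ wt J ⟨x, hx⟩ = 1) ∨ (J.sz (J.blk x) ≠ 1 ∧ wt J ⟨x, hx⟩ = 3) := by
  unfold wt
  by_cases h : J.sz (J.blk x) = 1
  · exact Or.inl ⟨h, if_pos h⟩
  · exact Or.inr ⟨h, if_neg h⟩

/-- The monomials with a given good label. -/
private theorem cl_analysis (hsz : ∀ i, J.sz i ≤ 3) {μ : Xp J →₀ ℕ} {T : Finset (Yp J)}
    {ν : X →₀ ℕ} (hν : lab J 3 ν = lb J μ T) :
    ∃ ch, ClV J ch ∧ ν = lam J μ + ∑ y ∈ T, Finsupp.single (ch y) 1 := by
  classical
  let ch : Yp J → X := fun y =>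
    if ν y.1 = 3 * μ ⟨y.1, y.2.1⟩ then (J.nx y.1).getD y.1 else y.1
  have hch : ClV J ch := by
    intro y
    show (if ν y.1 = 3 * μ ⟨y.1, y.2.1⟩ then (J.nx y.1).getD y.1 else y.1) = y.1 ∨
      J.nx y.1 = some (if ν y.1 = 3 * μ ⟨y.1, y.2.1⟩ then (J.nx y.1).getD y.1 else y.1)
    by_cases h : ν y.1 = 3 * μ ⟨y.1, y.2.1⟩
    · rw [if_pos h]
      cases hn : J.nx y.1 with
      | none => exact Or.inl rfl
      | some c => exact Or.inr rfl
    · rw [if_neg h]
      exact Or.inl rfl
  refine ⟨ch, hch, ?_⟩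
  ext z
  obtain ⟨x, hx, hxz⟩ := cl_exists_head J z
  have hatt : J.att (J.blk x) 0 = some x := (J.att_iff _ _ _).2 ⟨rfl, hx⟩
  have h1 := congrFun hν (J.blk x)
  rw [cl_lb J μ T hx] at h1
  unfold lab at h1
  rw [hatt, Option.elim_some, Prod.mk.injEq] at h1
  obtain ⟨hq, hs⟩ := h1
  have he := cl_e_le J T x
  rw [Finsupp.add_apply, cl_sum_apply J hch T hx hxz.symm]
  have hxm : x ∈ univ.filter (fun w => J.blk w = J.blk x) :=
    Finset.mem_filter.2 ⟨Finset.mem_univ _, rfl⟩
  have hzm : z ∈ univ.filter (fun w => J.blk w = J.blk x) :=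
    Finset.mem_filter.2 ⟨Finset.mem_univ _, hxz.symm⟩
  rw [← Finset.add_sum_erase _ _ hxm] at hs
  have hposz : J.pos z < J.sz (J.blk x) := by
    rw [hxz]
    exact J.pos_lt z
  have hs3 := hsz (J.blk x)
  -- no odd variable in the block
  have hno : J.sz (J.blk x) ≠ 2 → cl_e J T x = 0 := by
    intro h2
    unfold cl_e
    rw [if_neg]
    rintro ⟨h3, -⟩
    exact h2 h3.2
  have hno' : J.sz (J.blk x) ≠ 2 →
      ¬ ∃ h : J.pos x = 0 ∧ J.sz (J.blk x) = 2, (⟨x, h⟩ : Yp J) ∈ T ∧ ch ⟨x, h⟩ = z := by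
    rintro h2 ⟨h3, -⟩
    exact h2 h3.2
  rcases cl_wt_cases J hx with ⟨h4, h5⟩ | ⟨h4, h5⟩
  · -- size 1
    have hpz : J.pos z = 0 := by omega
    have hzx : z = x := J.inj hxz.symm (by rw [hpz, hx])
    have h6 : (univ.filter (fun w => J.blk w = J.blk x)).erase x = ∅ := by
      rw [Finset.eq_empty_iff_forall_notMem]
      intro w hw
      rw [Finset.mem_erase, Finset.mem_filter] at hw
      apply hw.1
      have h7 := J.pos_lt w
      rw [hw.2.2, h4] at h7
      exact J.inj hw.2.2 (by rw [hx]; omega)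
    rw [h6, Finset.sum_empty, h5, hno (by omega)] at hs
    rw [if_neg (hno' (by omega)), hzx, cl_lam_head J μ hx, h5]
    exact hs
  · rw [h5] at hq hs
    have hq' : ν x / 3 = μ ⟨x, hx⟩ := by
      rw [hq]
      omega
    have hge : 3 * μ ⟨x, hx⟩ ≤ ν x := by omega
    by_cases hzx : z = x
    · rw [hzx, cl_lam_head J μ hx, h5]
      by_cases h2 : J.sz (J.blk x) = 2
      · by_cases hT : (⟨x, ⟨hx, h2⟩⟩ : Yp J) ∈ T
        · by_cases hνx : ν x = 3 * μ ⟨x, hx⟩
          · -- the next variable is chosen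
            rw [if_neg]
            · omega
            · rintro ⟨h6, -, h7⟩
              have h8 : ch ⟨x, h6⟩ = (J.nx x).getD x := if_pos hνx
              rw [h8] at h7
              cases hn : J.nx x with
              | none =>
                have h9 : J.att (J.blk x) (J.pos x + 1) = none := hn
                rw [J.att_none] at h9
                omega
              | some c =>
                rw [hn, Option.getD_some] at h7
                have h9 := (J.nx_some hn).2
                rw [h7] at h9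
                omega
          · rw [if_pos]
            · have hrest : 0 ≤ ∑ w ∈ (univ.filter (fun w => J.blk w = J.blk x)).erase x, ν w :=
                Nat.zero_le _
              omega
            · refine ⟨⟨hx, h2⟩, hT, ?_⟩
              exact if_neg hνx
        · have h6 : cl_e J T x = 0 := by
            unfold cl_e
            rw [if_neg]
            rintro ⟨h7, h8⟩
            exact hT h8
          rw [if_neg]
          · omega
          · rintro ⟨h7, h8, -⟩
            exact hT h8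
      · rw [if_neg]
        · have h6 := hno h2
          omega
        · rintro ⟨h7, -⟩
          exact h2 h7.2
    · have hpz : J.pos z ≠ 0 := fun h => hzx (J.inj hxz.symm (by rw [h, hx]))
      rw [cl_lam_ne J μ hpz, zero_add]
      have hze : z ∈ (univ.filter (fun w => J.blk w = J.blk x)).erase x :=
        Finset.mem_erase.2 ⟨hzx, hzm⟩
      have hle : ν z ≤ ∑ w ∈ (univ.filter (fun w => J.blk w = J.blk x)).erase x, ν w :=
        Finset.single_le_sum (f := fun w => ν w) (fun _ _ => Nat.zero_le _) hze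
      by_cases h2 : J.sz (J.blk x) = 2
      · have hpz1 : J.pos z = 1 := by omega
        have hnx : J.nx x = some z := by
          show J.att (J.blk x) (J.pos x + 1) = some z
          rw [J.att_iff]
          exact ⟨hxz.symm, by omega⟩
        have hsing : (univ.filter (fun w => J.blk w = J.blk x)).erase x = {z} := by
          ext w
          rw [Finset.mem_erase, Finset.mem_filter, Finset.mem_singleton]
          constructor
          · rintro ⟨h6, -, h7⟩
            have h8 := J.pos_lt w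
            rw [h7, h2] at h8
            have h9 : J.pos w ≠ 0 := fun h => h6 (J.inj h7 (by rw [h, hx]))
            exact J.inj (h7.trans hxz) (by omega)
          · rintro rfl
            exact ⟨hzx, Finset.mem_univ _, hxz.symm⟩
        rw [hsing, Finset.sum_singleton] at hs
        by_cases hT : (⟨x, ⟨hx, h2⟩⟩ : Yp J) ∈ T
        · have h6 : cl_e J T x = 1 := by
            unfold cl_e
            rw [if_pos]
            exact ⟨⟨hx, h2⟩, hT⟩
          by_cases hνx : ν x = 3 * μ ⟨x, hx⟩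
          · rw [if_pos]
            · omega
            · refine ⟨⟨hx, h2⟩, hT, ?_⟩
              have h8 : ch ⟨x, ⟨hx, h2⟩⟩ = (J.nx x).getD x := if_pos hνx
              rw [h8, hnx, Option.getD_some]
          · rw [if_neg]
            · omega
            · rintro ⟨h7, -, h8⟩
              have h9 : ch ⟨x, h7⟩ = x := if_neg hνx
              exact hzx (h8.symm.trans h9)
        · have h6 : cl_e J T x = 0 := by
            unfold cl_e
            rw [if_neg]
            rintro ⟨h7, h8⟩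
            exact hT h8
          rw [if_neg]
          · omega
          · rintro ⟨h7, h8, -⟩
            exact hT h8
      · rw [if_neg (hno' h2)]
        have h6 := hno h2
        omega

private theorem cl_dPX (x : X) :
    dP k J (MvPolynomial.X x) = (J.nx x).elim 0 MvPolynomial.X := DX_X J.nx x

private theorem cl_mem_QT {ch : Yp J → X} (hch : ClV J ch) (l : List (Yp J)) :
    (l.map fun y => (MvPolynomial.X (ch y) : MvPolynomial X k)).prod ∈ QT k J l := by
  induction l with
  | nil => exact Submodule.subset_span rfl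
  | cons b l ih =>
    rw [List.map_cons, List.prod_cons]
    rcases hch b with h | h
    · refine Submodule.mem_sup_left ⟨_, ih, ?_⟩
      rw [h]
      rfl
    · refine Submodule.mem_sup_right ⟨_, ih, ?_⟩
      have h1 : dP k J (MvPolynomial.X b.1) = MvPolynomial.X (ch b) := by
        rw [cl_dPX, h]
        rfl
      rw [← h1]
      rfl

private theorem cl_prod_sort {M : Type*} [CommMonoid M] (T : Finset (Yp J)) (f : Yp J → M) :
    ∏ y ∈ T, f y = ((T.sort (· ≤ ·)).map f).prod := by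
  classical
  rw [← List.prod_toFinset f (T.sort_nodup (· ≤ ·)), Finset.sort_toFinset]

private theorem cl_sum_sort {M : Type*} [AddCommMonoid M] (T : Finset (Yp J)) (f : Yp J → M) :
    ∑ y ∈ T, f y = ((T.sort (· ≤ ·)).map f).sum := by
  classical
  rw [← List.sum_toFinset f (T.sort_nodup (· ≤ ·)), Finset.sort_toFinset]

private theorem cl_mono {ch : Yp J → X} (μ : Xp J →₀ ℕ) (T : Finset (Yp J)) (a : k) :
    monomial (lam J μ + ∑ y ∈ T, Finsupp.single (ch y) 1) a =
      monomial (lam J μ) 1 * (a • ((T.sort (· ≤ ·)).map fun y =>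
        (MvPolynomial.X (ch y) : MvPolynomial X k)).prod) := by
  rw [← cl_prod_sort J T (fun y => (MvPolynomial.X (ch y) : MvPolynomial X k)),
    MvPolynomial.smul_eq_C_mul]
  have h1 : (monomial (∑ y ∈ T, (Finsupp.single (ch y) 1 : X →₀ ℕ)) a : MvPolynomial X k) =
      C a * ∏ y ∈ T, MvPolynomial.X (ch y) := by
    rw [MvPolynomial.monomial_sum_index]
    rfl
  rw [← h1, MvPolynomial.monomial_mul, one_mul]

/-- The monomials of the elements of `QT`. -/
private theorem cl_QT_supp (l : List (Yp J)) (hl : l.Nodup) {r : MvPolynomial X k}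
    (hr : r ∈ QT k J l) {ν : X →₀ ℕ} (hν : ν ∈ r.support) :
    ∃ ch, ClV J ch ∧ ν = (l.map fun y => (Finsupp.single (ch y) 1 : X →₀ ℕ)).sum := by
  classical
  induction l generalizing r ν with
  | nil =>
    refine ⟨fun y => y.1, cl_id J, ?_⟩
    obtain ⟨a, ha⟩ := Submodule.mem_span_singleton.1 (show r ∈ Submodule.span k {1} from hr)
    rw [List.map_nil, List.sum_nil]
    rw [MvPolynomial.mem_support_iff, ← ha, coeff_smul, coeff_one] at hν
    by_contra h0
    rw [if_neg (Ne.symm h0)] at hν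
    exact hν (smul_zero a)
  | cons b l ih =>
    rw [List.nodup_cons] at hl
    have hX : ∀ (w : X) (r₁ : MvPolynomial X k), r₁ ∈ QT k J l →
        (w = b.1 ∨ J.nx b.1 = some w) → ν ∈ (MvPolynomial.X w * r₁).support →
        ∃ ch, ClV J ch ∧ ν = ((b :: l).map fun y => (Finsupp.single (ch y) 1 : X →₀ ℕ)).sum := by
      intro w r₁ hr₁ hw hν₁
      rw [MvPolynomial.support_X_mul, Finset.mem_map] at hν₁
      obtain ⟨ν₁, hν₁, h1⟩ := hν₁
      obtain ⟨ch, hch, h2⟩ := ih hl.2 hr₁ hν₁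
      refine ⟨Function.update ch b w, ?_, ?_⟩
      · intro y
        by_cases hy : y = b
        · rw [hy, Function.update_self]
          exact hw
        · rw [Function.update_of_ne hy]
          exact hch y
      · rw [List.map_cons, List.sum_cons, Function.update_self]
        have h3 : (l.map fun y => (Finsupp.single (Function.update ch b w y) 1 : X →₀ ℕ)) =
            l.map fun y => (Finsupp.single (ch y) 1 : X →₀ ℕ) := by
          refine List.map_congr_left fun y hy => ?_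
          have hyb : y ≠ b := fun h => hl.1 (h ▸ hy)
          rw [Function.update_of_ne hyb]
        rw [h3, ← h2, ← h1]
        rfl
    obtain ⟨u, hu, v, hv, huv⟩ := Submodule.mem_sup.1 (show r ∈ _ ⊔ _ from hr)
    obtain ⟨r₁, hr₁, rfl⟩ := hu
    obtain ⟨r₂, hr₂, rfl⟩ := hv
    rw [← huv] at hν
    rcases Finset.mem_union.1 (MvPolynomial.support_add hν) with h | h
    · exact hX b.1 r₁ hr₁ (Or.inl rfl) h
    · have h' : ν ∈ (dP k J (MvPolynomial.X b.1) * r₂).support := h
      rw [cl_dPX] at h'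
      cases hn : J.nx b.1 with
      | none =>
        rw [hn] at h'
        have h'' : ν ∈ ((0 : MvPolynomial X k) * r₂).support := h'
        rw [zero_mul, MvPolynomial.support_zero] at h''
        exact absurd h'' (Finset.notMem_empty _)
      | some w =>
        rw [hn] at h'
        exact hX w r₂ hr₂ (Or.inr hn) h'

/-- The polynomials with label `lb J μ T`. -/
theorem lb_form (hsz : ∀ i, J.sz i ≤ 3) {μ : Xp J →₀ ℕ} {T : Finset (Yp J)}
    {t : MvPolynomial X k} (ht : HasLab J (lb J μ T) t) :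
    ∃ r ∈ QT k J (T.sort (· ≤ ·)), t = monomial (lam J μ) 1 * r := by
  classical
  have h1 : ∀ ν : t.support, ∃ ch, ClV J ch ∧
      (ν : X →₀ ℕ) = lam J μ + ∑ y ∈ T, Finsupp.single (ch y) 1 := fun ν =>
    cl_analysis J hsz (ht ν ν.2)
  choose ch hch hν using h1
  refine ⟨∑ ν ∈ t.support.attach, coeff (ν : X →₀ ℕ) t • ((T.sort (· ≤ ·)).map fun y =>
    (MvPolynomial.X (ch ν y) : MvPolynomial X k)).prod, ?_, ?_⟩
  · exact Submodule.sum_mem _ fun ν _ => Submodule.smul_mem _ _ (cl_mem_QT J (hch ν) _)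
  · rw [Finset.mul_sum]
    conv_lhs => rw [t.as_sum, ← Finset.sum_attach]
    refine Finset.sum_congr rfl fun ν _ => ?_
    rw [← cl_mono, ← hν ν]

theorem lb_of_form (hsz : ∀ i, J.sz i ≤ 3) (μ : Xp J →₀ ℕ) (T : Finset (Yp J))
    {r : MvPolynomial X k} (hr : r ∈ QT k J (T.sort (· ≤ ·))) :
    HasLab J (lb J μ T) (monomial (lam J μ) 1 * r) := by
  classical
  intro ν hν
  obtain ⟨a, ha, b, hb, hab⟩ := Finset.mem_add.1 (MvPolynomial.support_mul _ _ hν)
  have ha' : a = lam J μ := Finset.mem_singleton.1 (MvPolynomial.support_monomial_subset ha)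
  obtain ⟨ch, hch, h1⟩ := cl_QT_supp J _ (T.sort_nodup (· ≤ ·)) hr hb
  rw [← hab, ha', h1, ← cl_sum_sort J T (fun y => (Finsupp.single (ch y) 1 : X →₀ ℕ))]
  exact cl_lab_eq J hch μ T

/-- Good labels are of this form. -/
theorem exists_lb (hsz : ∀ i, J.sz i ≤ 3) {c : I → ℕ × ℕ} (hc : ¬ Bad J c)
    {t : MvPolynomial X k} (ht : HasLab J c t) (h0 : t ≠ 0) : ∃ μ T, c = lb J μ T := by
  classical
  obtain ⟨ν, hν⟩ := MvPolynomial.support_nonempty.2 h0
  have hc1 := ht ν hν
  let μ : Xp J →₀ ℕ := Finsupp.equivFunOnFinite.symm fun x =>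
    if J.sz (J.blk x.1) = 1 then (c (J.blk x.1)).2 else (c (J.blk x.1)).1
  have hμ : ∀ x : Xp J, μ x =
      if J.sz (J.blk x.1) = 1 then (c (J.blk x.1)).2 else (c (J.blk x.1)).1 := fun _ => rfl
  let T : Finset (Yp J) := univ.filter fun y =>
    (c (J.blk y.1)).2 - 3 * (c (J.blk y.1)).1 = 1
  have hT : ∀ y : Yp J, y ∈ T ↔ (c (J.blk y.1)).2 - 3 * (c (J.blk y.1)).1 = 1 := fun y => by
    simp only [T, Finset.mem_filter, Finset.mem_univ, true_and]
  refine ⟨μ, T, ?_⟩
  rw [← hc1]
  show lab J 3 ν = lab J 3 (lam J μ + ∑ y ∈ T, Finsupp.single y.1 1)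
  refine cl_ext J fun x hx => ?_
  have hcx : lab J 3 ν (J.blk x) = c (J.blk x) := congrFun hc1 _
  have h1 : lab J 3 (lam J μ + ∑ y ∈ T, Finsupp.single y.1 1) (J.blk x) =
      ((wt J ⟨x, hx⟩ * μ ⟨x, hx⟩ + cl_e J T x) / 3, wt J ⟨x, hx⟩ * μ ⟨x, hx⟩ + cl_e J T x) :=
    cl_lb J μ T hx
  rw [h1, hcx]
  have hatt : J.att (J.blk x) 0 = some x := (J.att_iff _ _ _).2 ⟨rfl, hx⟩
  have hf : (c (J.blk x)).1 = ν x / 3 := by
    rw [← hcx]
    unfold lab
    rw [hatt]
    rfl
  have hs : ν x ≤ (c (J.blk x)).2 := by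
    rw [← hcx]
    show ν x ≤ ∑ z ∈ univ.filter (fun z => J.blk z = J.blk x), ν z
    exact Finset.single_le_sum (f := fun z => ν z) (fun _ _ => Nat.zero_le _)
      (Finset.mem_filter.2 ⟨Finset.mem_univ _, rfl⟩)
  have hnb : J.sz (J.blk x) + ((c (J.blk x)).2 - 3 * (c (J.blk x)).1) ≤ 3 := by
    by_contra h
    exact hc ⟨J.blk x, by omega⟩
  have hpos := J.pos_lt x
  have hs3 := hsz (J.blk x)
  rcases cl_wt_cases J hx with ⟨h4, h5⟩ | ⟨h4, h5⟩
  · have h6 : cl_e J T x = 0 := by
      unfold cl_e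
      rw [if_neg]
      rintro ⟨h7, -⟩
      omega
    have h7 : (c (J.blk x)).2 = ν x := by
      rw [← hcx]
      show ∑ z ∈ univ.filter (fun z => J.blk z = J.blk x), ν z = ν x
      have hxm : x ∈ univ.filter (fun z => J.blk z = J.blk x) :=
        Finset.mem_filter.2 ⟨Finset.mem_univ _, rfl⟩
      rw [Finset.sum_eq_single_of_mem x hxm]
      intro z hz hzx
      exfalso
      apply hzx
      have h8 := J.pos_lt z
      rw [(Finset.mem_filter.1 hz).2, h4] at h8
      exact J.inj (Finset.mem_filter.1 hz).2 (by omega)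
    have h8 : μ ⟨x, hx⟩ = (c (J.blk x)).2 := by
      rw [hμ]
      exact if_pos h4
    rw [h6, h5, h8, one_mul, add_zero]
    refine Prod.ext ?_ rfl
    show (c (J.blk x)).1 = (c (J.blk x)).2 / 3
    rw [hf, h7]
  · have h8 : μ ⟨x, hx⟩ = (c (J.blk x)).1 := by
      rw [hμ]
      exact if_neg h4
    rw [h5, h8]
    by_cases h2 : J.sz (J.blk x) = 2
    · have h9 : cl_e J T x = (c (J.blk x)).2 - 3 * (c (J.blk x)).1 := by
        unfold cl_e
        by_cases h10 : (c (J.blk x)).2 - 3 * (c (J.blk x)).1 = 1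
        · rw [if_pos, h10]
          exact ⟨⟨hx, h2⟩, (hT ⟨x, ⟨hx, h2⟩⟩).2 h10⟩
        · rw [if_neg]
          · omega
          · rintro ⟨h11, h12⟩
            exact h10 ((hT ⟨x, h11⟩).1 h12)
      rw [h9]
      refine Prod.ext ?_ ?_
      · show (c (J.blk x)).1 = (3 * (c (J.blk x)).1 + ((c (J.blk x)).2 - 3 * (c (J.blk x)).1)) / 3
        omega
      · show (c (J.blk x)).2 = 3 * (c (J.blk x)).1 + ((c (J.blk x)).2 - 3 * (c (J.blk x)).1)
        omega
    · have h9 : cl_e J T x = 0 := by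
        unfold cl_e
        rw [if_neg]
        rintro ⟨h7, -⟩
        exact h2 h7.2
      rw [h9]
      refine Prod.ext ?_ ?_
      · show (c (J.blk x)).1 = (3 * (c (J.blk x)).1 + 0) / 3
        omega
      · show (c (J.blk x)).2 = 3 * (c (J.blk x)).1 + 0
        omega

theorem lb_inj (hsz : ∀ i, J.sz i ≤ 3) {μ μ' : Xp J →₀ ℕ} {T T' : Finset (Yp J)}
    (h : lb J μ T = lb J μ' T') : μ = μ' ∧ T = T' := by
  classical
  have key : ∀ x, (hx : J.pos x = 0) → μ ⟨x, hx⟩ = μ' ⟨x, hx⟩ ∧ cl_e J T x = cl_e J T' x := by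
    intro x hx
    have h1 := congrFun h (J.blk x)
    rw [cl_lb J μ T hx, cl_lb J μ' T' hx, Prod.mk.injEq] at h1
    obtain ⟨h2, h3⟩ := h1
    have he := cl_e_le J T x
    have he' := cl_e_le J T' x
    have _ := hsz (J.blk x)
    rcases cl_wt_cases J hx with ⟨h4, h5⟩ | ⟨h4, h5⟩
    · have h6 : ∀ T : Finset (Yp J), cl_e J T x = 0 := by
        intro T
        unfold cl_e
        rw [if_neg]
        rintro ⟨h7, -⟩
        omega
      rw [h5, h6 T, h6 T'] at h3
      rw [h6 T, h6 T']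
      exact ⟨by omega, rfl⟩
    · rw [h5] at h2 h3
      constructor <;> omega
  refine ⟨?_, ?_⟩
  · ext x
    exact (key x.1 x.2).1
  · have hmem : ∀ (T : Finset (Yp J)) (y : Yp J), y ∈ T ↔ cl_e J T y.1 = 1 := by
      intro T y
      unfold cl_e
      constructor
      · intro hy
        rw [if_pos]
        exact ⟨y.2, hy⟩
      · intro hy
        by_contra hn
        rw [if_neg] at hy
        · exact absurd hy (by norm_num)
        · rintro ⟨h1, h2⟩
          exact hn h2
    ext y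
    rw [hmem T y, hmem T' y, (key y.1 y.2.1).2]

/-- The monomial factor is killed by `dP` (characteristic 3). -/
theorem dP_lam [CharP k 3] (μ : Xp J →₀ ℕ) (r : MvPolynomial X k) :
    dP k J (monomial (lam J μ) 1 * r) = monomial (lam J μ) 1 * dP k J r := by
  have h0 : DX k J.nx (monomial (lam J μ) (1 : k)) = 0 := by
    by_contra hne
    obtain ⟨ν, hν⟩ := MvPolynomial.support_nonempty.2 hne
    obtain ⟨x, y, h1, -, h2, -⟩ := wd_support _ _ hν
    apply h1
    by_cases hx : J.pos x = 0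
    · rw [cl_lam_head J μ hx]
      rcases cl_wt_cases J hx with ⟨h4, -⟩ | ⟨-, h5⟩
      · exfalso
        obtain ⟨h6, h7⟩ := J.nx_some h2
        have h8 := J.pos_lt y
        rw [h6, h4] at h8
        omega
      · rw [h5, Nat.cast_mul]
        have h3 : ((3 : ℕ) : k) = 0 := CharP.cast_eq_zero k 3
        rw [h3, zero_mul]
    · rw [cl_lam_ne J μ hx, Nat.cast_zero]
  show DX k J.nx (monomial (lam J μ) 1 * r) = monomial (lam J μ) 1 * DX k J.nx r
  rw [Derivation.leibniz, h0, smul_zero, add_zero, smul_eq_mul]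

end

end Pool.Agent.Helper21.KW
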