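import Pool.Agent.Helper21.KW.CommQ
import Pool.Agent.Helper21.KW.CommL1
import Pool.Agent.Helper21.KW.CommL2

set_option autoImplicit false
set_option linter.unusedSectionVars false

/-!
# MODULE KW-CommL3: the kernel of `δ` and of `δ²` on the polynomial ring, characteristic 3

Use the modules CommQ, CommL1, CommL2.
Blocks of size at most 3.  `q = ∑_c comp (lab J 3) c q` (`sum_comp`), every component is killed
(`comp_dP`).  Bad components: `bad_ker`, `bad_ker2`.  Good components: `exists_lb`, `lb_form`,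
`dP_lam`, multiplication by `monomial (lam J μ) 1` is injective, `QT_ker_even`, `QT_ker_odd`,
`QT_ker2`.
Homogeneity in `comm_a`, `comm_b`: take the homogeneous components of degree `d` of all terms
(`wP k J T` is homogeneous of degree `T.card`, `dP` preserves the degree: `DX_hom`, `pow_DX_hom` in
Helper58/KW/Lift.lean).
Independence: take the component with label `lb J μ T` of the relation (`lb_of_form`, `lb_inj`,
`comp_dP`, `lb_form` for `comp _ g`, `comp _ κ`), divide by the monomial, `QT_indep_even`,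
`QT_indep_odd`.
-/

namespace Pool.Agent.Helper21.KW

open MvPolynomial Module Finset Pool.Agent.Helper58.KW

section hom

variable {k : Type*} [Field k] {X I : Type*} (J : Jd X I)

/-- `dP` preserves the degree. -/
theorem cl3_dP_hom {d : ℕ} {q : MvPolynomial X k} (hq : q.IsHomogeneous d) :
    (dP k J q).IsHomogeneous d := DX_hom J.nx hq

/-- `dP` commutes with the homogeneous components. -/
theorem hc_dP (d : ℕ) (f : MvPolynomial X k) :
    homogeneousComponent d (dP k J f) = dP k J (homogeneousComponent d f) := by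
  conv_lhs => rw [← sum_homogeneousComponent f]
  rw [map_sum, map_sum]
  have h2 : ∀ j ∈ Finset.range (f.totalDegree + 1),
      homogeneousComponent d (dP k J (homogeneousComponent j f)) =
        if j = d then dP k J (homogeneousComponent j f) else 0 := by
    intro j _
    refine (homogeneousComponent_of_mem
      (cl3_dP_hom J (homogeneousComponent_isHomogeneous j f))).trans ?_
    by_cases h4 : j = d
    · rw [if_pos h4.symm, if_pos h4]
    · rw [if_neg (Ne.symm h4), if_neg h4]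
  rw [Finset.sum_congr rfl h2, Finset.sum_ite_eq']
  split_ifs with h3
  · rfl
  · rw [Finset.mem_range, not_lt] at h3
    rw [homogeneousComponent_eq_zero _ _ (by omega), map_zero]

theorem cl3_wL_hom (l : List (Yp J)) : (wL k J l).IsHomogeneous l.length := by
  induction l with
  | nil => exact isHomogeneous_one X k
  | cons b l ih =>
    have hb : (MvPolynomial.X b.1 : MvPolynomial X k).IsHomogeneous 1 := isHomogeneous_X k b.1
    have h1 : wL k J (b :: l) = if Even l.length then (MvPolynomial.X b.1) * wL k J l else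
        (MvPolynomial.X b.1) * dP k J (wL k J l) - dP k J (MvPolynomial.X b.1) * wL k J l := by
      unfold wL
      simp only [List.map_cons, wdp, List.length_map]
    rw [h1, List.length_cons, add_comm l.length 1]
    split_ifs
    · exact hb.mul ih
    · exact (hb.mul (cl3_dP_hom J ih)).sub ((cl3_dP_hom J hb).mul ih)

end hom

section

variable {k : Type*} [Field k] [CharP k 3] {X I : Type*} [Fintype X] [LinearOrder X] [Fintype I]
  [DecidableEq I] (J : Jd X I)

/-- The span of the products of all degrees. -/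
noncomputable def SPa (k : Type*) [Field k] {X I : Type*} [Fintype X] [LinearOrder X]
    (J : Jd X I) (b : ℕ) : Submodule k (MvPolynomial X k) :=
  Submodule.span k {f | ∃ (μ : Xp J →₀ ℕ) (T : Finset (Yp J)), T.card % 2 = b ∧
    f = monomial (lam J μ) 1 * wP k J T}

omit [CharP k 3] [Fintype I] [DecidableEq I] in
theorem wP_hom (T : Finset (Yp J)) : (wP k J T).IsHomogeneous T.card := by
  have h := cl3_wL_hom (k := k) J (T.sort (· ≤ ·))
  rwa [Finset.length_sort] at h

omit [CharP k 3] [Fintype I] [DecidableEq I] in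
theorem hc_SPa {b : ℕ} (d : ℕ) {f : MvPolynomial X k} (hf : f ∈ SPa k J b) :
    homogeneousComponent d f ∈ SP k J b d := by
  unfold SPa at hf
  induction hf using Submodule.span_induction with
  | mem f hf =>
    obtain ⟨μ, T, hT, rfl⟩ := hf
    have h1 : (monomial (lam J μ) (1 : k) * wP k J T).IsHomogeneous
        ((lam J μ).degree + T.card) :=
      (isHomogeneous_monomial _ rfl).mul (wP_hom J T)
    rw [homogeneousComponent_of_mem h1]
    split_ifs with h
    · exact Submodule.subset_span ⟨μ, T, hT, h.symm, rfl⟩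
    · exact Submodule.zero_mem _
  | zero =>
    rw [map_zero]
    exact Submodule.zero_mem _
  | add x y _ _ hx hy =>
    rw [map_add]
    exact Submodule.add_mem _ hx hy
  | smul c x _ hx =>
    rw [map_smul]
    exact Submodule.smul_mem _ _ hx

omit [CharP k 3] in
theorem hasLab_comp (c : I → ℕ × ℕ) (q : MvPolynomial X k) :
    HasLab J c (comp (lab J 3) c q) := by
  intro ν hν
  rw [MvPolynomial.mem_support_iff, coeff_comp] at hν
  by_contra h
  rw [if_neg h] at hν
  exact hν rfl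

omit [CharP k 3] in
theorem comp_zero' (c : I → ℕ × ℕ) : comp (lab J 3) c (0 : MvPolynomial X k) = 0 := by
  ext μ
  rw [coeff_comp]
  simp

omit [CharP k 3] in
theorem comp_add' (c : I → ℕ × ℕ) (p q : MvPolynomial X k) :
    comp (lab J 3) c (p + q) = comp (lab J 3) c p + comp (lab J 3) c q := by
  ext μ
  rw [coeff_add, coeff_comp, coeff_comp, coeff_comp, coeff_add]
  split_ifs
  · rfl
  · rw [add_zero]

omit [CharP k 3] in
theorem comp_sum' {ι : Type*} (c : I → ℕ × ℕ) (s : Finset ι) (f : ι → MvPolynomial X k) :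
    comp (lab J 3) c (∑ i ∈ s, f i) = ∑ i ∈ s, comp (lab J 3) c (f i) := by
  classical
  induction s using Finset.induction_on with
  | empty =>
    rw [Finset.sum_empty, Finset.sum_empty]
    exact comp_zero' J c
  | insert a s ha ih => rw [Finset.sum_insert ha, Finset.sum_insert ha, comp_add', ih]

omit [CharP k 3] in
theorem comp_self' {c : I → ℕ × ℕ} {q : MvPolynomial X k} (h : HasLab J c q) :
    comp (lab J 3) c q = q := by
  ext μ
  rw [coeff_comp]
  split_ifs with h1
  · rfl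
  · by_contra h2
    exact h1 (h μ (MvPolynomial.mem_support_iff.2 (fun h3 => h2 h3.symm)))

omit [CharP k 3] in
theorem comp_ne' {c c' : I → ℕ × ℕ} (hc : c' ≠ c) {q : MvPolynomial X k} (h : HasLab J c' q) :
    comp (lab J 3) c q = 0 := by
  ext μ
  rw [coeff_comp, coeff_zero]
  split_ifs with h1
  · by_contra h2
    exact hc ((h μ (MvPolynomial.mem_support_iff.2 h2)).symm.trans h1)
  · rfl

omit [CharP k 3] in
theorem hasLab_smul {c : I → ℕ × ℕ} {q : MvPolynomial X k} (h : HasLab J c q) (r : k) :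
    HasLab J c (r • q) := by
  intro ν hν
  refine h ν ?_
  rw [MvPolynomial.mem_support_iff] at hν ⊢
  intro h1
  rw [coeff_smul, h1, smul_zero] at hν
  exact hν rfl

omit [CharP k 3] [Fintype X] [LinearOrder X] [Fintype I] [DecidableEq I] in
theorem mon_ne (ν : X →₀ ℕ) : (monomial ν (1 : k)) ≠ 0 :=
  fun h => one_ne_zero (monomial_eq_zero.1 h)

/-- All degrees, one component, kernel of `δ`. -/
theorem ker_comp (hsz : ∀ i, J.sz i ≤ 3) {c : I → ℕ × ℕ} {t : MvPolynomial X k}
    (ht : HasLab J c t) (h : dP k J t = 0) : ∃ f₀ ∈ SPa k J 0, ∃ f₁ ∈ SPa k J 1,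
      ∃ g : MvPolynomial X k, t = f₀ + dP k J f₁ + dP k J (dP k J g) := by
  by_cases ht0 : t = 0
  · exact ⟨0, Submodule.zero_mem _, 0, Submodule.zero_mem _, 0, by simp [ht0]⟩
  by_cases hc : Bad J c
  · obtain ⟨g, -, hg⟩ := bad_ker J hsz hc ht h
    exact ⟨0, Submodule.zero_mem _, 0, Submodule.zero_mem _, g, by simpa using hg⟩
  · obtain ⟨μ, T, rfl⟩ := exists_lb J hsz hc ht ht0
    obtain ⟨r, hr, rfl⟩ := lb_form J hsz ht
    rw [dP_lam] at h
    have hr0 : dP k J r = 0 := (mul_eq_zero.1 h).resolve_left (mon_ne _)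
    have hnd : (T.sort (· ≤ ·)).Nodup := Finset.sort_nodup _ _
    rcases Nat.mod_two_eq_zero_or_one T.card with hT | hT
    · obtain ⟨ρ, g, -, hg⟩ := QT_ker_even J hnd (by rw [Finset.length_sort]; exact hT) hr hr0
      refine ⟨ρ • (monomial (lam J μ) 1 * wP k J T),
        Submodule.smul_mem _ _ (Submodule.subset_span ⟨μ, T, hT, rfl⟩), 0,
        Submodule.zero_mem _, monomial (lam J μ) 1 * g, ?_⟩
      rw [dP_lam, dP_lam, hg, map_zero, add_zero, mul_add, mul_smul_comm]
      rfl
    · obtain ⟨ρ, g, -, hg⟩ := QT_ker_odd J hnd (by rw [Finset.length_sort]; exact hT) hr hr0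
      refine ⟨0, Submodule.zero_mem _, ρ • (monomial (lam J μ) 1 * wP k J T),
        Submodule.smul_mem _ _ (Submodule.subset_span ⟨μ, T, hT, rfl⟩),
        monomial (lam J μ) 1 * g, ?_⟩
      rw [dP_lam, dP_lam, hg, map_smul, dP_lam, zero_add, mul_add, mul_smul_comm]
      rfl

/-- All degrees, one component, kernel of `δ²`. -/
theorem ker2_comp (hsz : ∀ i, J.sz i ≤ 3) {c : I → ℕ × ℕ} {t : MvPolynomial X k}
    (ht : HasLab J c t) (h : dP k J (dP k J t) = 0) : ∃ f₁ ∈ SPa k J 1,
      ∃ κ g : MvPolynomial X k, dP k J κ = 0 ∧ t = f₁ + κ + dP k J g := by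
  by_cases ht0 : t = 0
  · exact ⟨0, Submodule.zero_mem _, 0, 0, map_zero _, by simp [ht0]⟩
  by_cases hc : Bad J c
  · obtain ⟨g, -, hg⟩ := bad_ker2 J hsz hc ht h
    exact ⟨0, Submodule.zero_mem _, 0, g, map_zero _, by simpa using hg⟩
  · obtain ⟨μ, T, rfl⟩ := exists_lb J hsz hc ht ht0
    obtain ⟨r, hr, rfl⟩ := lb_form J hsz ht
    rw [dP_lam, dP_lam] at h
    have hr0 : dP k J (dP k J r) = 0 := (mul_eq_zero.1 h).resolve_left (mon_ne _)
    have hnd : (T.sort (· ≤ ·)).Nodup := Finset.sort_nodup _ _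
    obtain ⟨ρ, g, -, hg⟩ := QT_ker2 J hnd hr hr0
    rcases Nat.mod_two_eq_zero_or_one T.card with hT | hT
    · refine ⟨0, Submodule.zero_mem _, ρ • (monomial (lam J μ) 1 * wP k J T),
        monomial (lam J μ) 1 * g, ?_, ?_⟩
      · have hw : dP k J (wP k J T) = 0 :=
          wL_even (k := k) J (l := T.sort (· ≤ ·)) (by rw [Finset.length_sort]; exact hT)
        rw [map_smul, dP_lam, hw, mul_zero, smul_zero]
      · rw [dP_lam, hg, zero_add, mul_add, mul_smul_comm]
        rfl
    · refine ⟨ρ • (monomial (lam J μ) 1 * wP k J T),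
        Submodule.smul_mem _ _ (Submodule.subset_span ⟨μ, T, hT, rfl⟩), 0,
        monomial (lam J μ) 1 * g, map_zero _, ?_⟩
      rw [dP_lam, hg, add_zero, mul_add, mul_smul_comm]
      rfl

theorem ker_all (hsz : ∀ i, J.sz i ≤ 3) {q : MvPolynomial X k}
    (h : dP k J q = 0) : ∃ f₀ ∈ SPa k J 0, ∃ f₁ ∈ SPa k J 1,
      ∃ g : MvPolynomial X k, q = f₀ + dP k J f₁ + dP k J (dP k J g) := by
  classical
  have h1 : ∀ c : I → ℕ × ℕ, ∃ f₀ ∈ SPa k J 0, ∃ f₁ ∈ SPa k J 1, ∃ g : MvPolynomial X k,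
      comp (lab J 3) c q = f₀ + dP k J f₁ + dP k J (dP k J g) := by
    intro c
    refine ker_comp J hsz (hasLab_comp J c q) ?_
    rw [← comp_dP, h]
    exact comp_zero' J c
  choose f₀ h0 f₁ h2 g hg using h1
  have e := sum_comp (lab J 3) q
  refine ⟨∑ c ∈ q.support.image (lab J 3), f₀ c, Submodule.sum_mem _ fun c _ => h0 c,
    ∑ c ∈ q.support.image (lab J 3), f₁ c, Submodule.sum_mem _ fun c _ => h2 c,
    ∑ c ∈ q.support.image (lab J 3), g c, ?_⟩
  rw [map_sum, map_sum, map_sum, ← Finset.sum_add_distrib, ← Finset.sum_add_distrib]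
  conv_lhs => rw [e]
  exact Finset.sum_congr (by congr) fun c _ => (by convert hg c)

theorem ker2_all (hsz : ∀ i, J.sz i ≤ 3) {q : MvPolynomial X k}
    (h : dP k J (dP k J q) = 0) : ∃ f₁ ∈ SPa k J 1,
      ∃ κ g : MvPolynomial X k, dP k J κ = 0 ∧ q = f₁ + κ + dP k J g := by
  classical
  have h1 : ∀ c : I → ℕ × ℕ, ∃ f₁ ∈ SPa k J 1, ∃ κ g : MvPolynomial X k, dP k J κ = 0 ∧
      comp (lab J 3) c q = f₁ + κ + dP k J g := by
    intro c
    refine ker2_comp J hsz (hasLab_comp J c q) ?_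
    rw [← comp_dP, ← comp_dP, h]
    exact comp_zero' J c
  choose f₁ h2 κ g hκ hg using h1
  have e := sum_comp (lab J 3) q
  refine ⟨∑ c ∈ q.support.image (lab J 3), f₁ c, Submodule.sum_mem _ fun c _ => h2 c,
    ∑ c ∈ q.support.image (lab J 3), κ c,
    ∑ c ∈ q.support.image (lab J 3), g c, ?_, ?_⟩
  · rw [map_sum]
    exact Finset.sum_eq_zero fun c _ => hκ c
  rw [map_sum, ← Finset.sum_add_distrib, ← Finset.sum_add_distrib]
  conv_lhs => rw [e]
  exact Finset.sum_congr (by congr) fun c _ => (by convert hg c)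

theorem comm_a (hsz : ∀ i, J.sz i ≤ 3) {d : ℕ} {q : MvPolynomial X k} (hq : q.IsHomogeneous d)
    (h : dP k J q = 0) : ∃ f₀ ∈ SP k J 0 d, ∃ f₁ ∈ SP k J 1 d, ∃ g : MvPolynomial X k,
      g.IsHomogeneous d ∧ q = f₀ + dP k J f₁ + dP k J (dP k J g) := by
  obtain ⟨f₀, h0, f₁, h1, g, hg⟩ := ker_all J hsz h
  refine ⟨homogeneousComponent d f₀, hc_SPa J d h0, homogeneousComponent d f₁, hc_SPa J d h1,
    homogeneousComponent d g, homogeneousComponent_isHomogeneous d g, ?_⟩
  have h2 : homogeneousComponent d q = q := by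
    rw [homogeneousComponent_of_mem hq, if_pos rfl]
  rw [← hc_dP, ← hc_dP, ← hc_dP, ← map_add, ← map_add, ← hg, h2]

theorem comm_b (hsz : ∀ i, J.sz i ≤ 3) {d : ℕ} {q : MvPolynomial X k} (hq : q.IsHomogeneous d)
    (h : dP k J (dP k J q) = 0) : ∃ f₁ ∈ SP k J 1 d, ∃ κ g : MvPolynomial X k,
      κ.IsHomogeneous d ∧ g.IsHomogeneous d ∧ dP k J κ = 0 ∧ q = f₁ + κ + dP k J g := by
  obtain ⟨f₁, h1, κ, g, hκ, hg⟩ := ker2_all J hsz h
  refine ⟨homogeneousComponent d f₁, hc_SPa J d h1, homogeneousComponent d κ,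
    homogeneousComponent d g, homogeneousComponent_isHomogeneous d κ,
    homogeneousComponent_isHomogeneous d g, ?_, ?_⟩
  · rw [← hc_dP, hκ, map_zero]
  have h2 : homogeneousComponent d q = q := by
    rw [homogeneousComponent_of_mem hq, if_pos rfl]
  rw [← hc_dP, ← map_add, ← map_add, ← hg, h2]

/-- The component of the relation. -/
theorem comp_rel (hsz : ∀ i, J.sz i ≤ 3) (s : Finset ((Xp J →₀ ℕ) × Finset (Yp J)))
    (c : (Xp J →₀ ℕ) × Finset (Yp J) → k) {p₀ : (Xp J →₀ ℕ) × Finset (Yp J)} (hp : p₀ ∈ s) :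
    comp (lab J 3) (lb J p₀.1 p₀.2)
      (∑ p ∈ s, c p • (monomial (lam J p.1) 1 * wP k J p.2)) =
      monomial (lam J p₀.1) 1 * (c p₀ • wL k J (p₀.2.sort (· ≤ ·))) := by
  have hl : ∀ p : (Xp J →₀ ℕ) × Finset (Yp J), HasLab J (lb J p.1 p.2)
      (c p • (monomial (lam J p.1) 1 * wP k J p.2)) := fun p =>
    hasLab_smul J (lb_of_form J hsz p.1 p.2 (wL_mem J _)) _
  rw [comp_sum', Finset.sum_eq_single p₀]
  · rw [comp_self' J (hl p₀), mul_smul_comm]
    rfl
  · intro p _ hne
    refine comp_ne' J ?_ (hl p)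
    intro h
    obtain ⟨h1, h2⟩ := lb_inj J hsz h
    exact hne (Prod.ext h1 h2)
  · intro h
    exact absurd hp h

theorem comm_c0 (hsz : ∀ i, J.sz i ≤ 3) (s : Finset ((Xp J →₀ ℕ) × Finset (Yp J)))
    (c : (Xp J →₀ ℕ) × Finset (Yp J) → k) (hs : ∀ p ∈ s, p.2.card % 2 = 0)
    (g : MvPolynomial X k)
    (h : ∑ p ∈ s, c p • (monomial (lam J p.1) 1 * wP k J p.2) = dP k J g) :
    ∀ p ∈ s, c p = 0 := by
  intro p hp
  have h1 := comp_rel (k := k) J hsz s c hp
  rw [h, comp_dP] at h1
  obtain ⟨r, hr, hr2⟩ := lb_form J hsz (hasLab_comp J (lb J p.1 p.2) g)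
  rw [hr2, dP_lam] at h1
  have h2 := mul_left_cancel₀ (mon_ne _) h1
  exact QT_indep_even J (Finset.sort_nodup _ _)
    (by rw [Finset.length_sort]; exact hs p hp) hr h2.symm

theorem comm_c1 (hsz : ∀ i, J.sz i ≤ 3) (s : Finset ((Xp J →₀ ℕ) × Finset (Yp J)))
    (c : (Xp J →₀ ℕ) × Finset (Yp J) → k) (hs : ∀ p ∈ s, p.2.card % 2 = 1)
    (κ g : MvPolynomial X k) (hκ : dP k J κ = 0)
    (h : ∑ p ∈ s, c p • (monomial (lam J p.1) 1 * wP k J p.2) = κ + dP k J g) :
    ∀ p ∈ s, c p = 0 := by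
  intro p hp
  have h1 := comp_rel (k := k) J hsz s c hp
  rw [h, comp_add', comp_dP] at h1
  obtain ⟨r, hr, hr2⟩ := lb_form J hsz (hasLab_comp J (lb J p.1 p.2) g)
  obtain ⟨m, hm, hm2⟩ := lb_form J hsz (hasLab_comp J (lb J p.1 p.2) κ)
  have h3 : dP k J m = 0 := by
    have h4 : dP k J (comp (lab J 3) (lb J p.1 p.2) κ) = 0 := by
      rw [← comp_dP, hκ]
      exact comp_zero' J _
    rw [hm2, dP_lam] at h4
    exact (mul_eq_zero.1 h4).resolve_left (mon_ne _)
  rw [hr2, hm2, dP_lam, ← mul_add] at h1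
  have h2 := mul_left_cancel₀ (mon_ne _) h1
  exact QT_indep_odd J (Finset.sort_nodup _ _)
    (by rw [Finset.length_sort]; exact hs p hp) hm h3 hr h2.symm

end

end Pool.Agent.Helper21.KW
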