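import Pool.Agent.Helper21.KW.CommDefs

set_option autoImplicit false

/-!
# MODULE KW-CommQ (stub): the tensor powers of the block of size 2, in characteristic 3

`QT k J l` (CommDefs) is the span of the products over the heads `b` in the list `l` of `b` or of the next
variable `c = δ b`.  With `w = wL k J l` (`δ w = 0` if `l.length` is even, `δ (δ w) = 0` if it is
odd): on `Q = QT k J l`,
* even: `ker δ = k w + δ² Q`, `ker δ² = k w + δ Q`, `k w ∩ δ Q = 0`;
* odd: `ker δ = k δ w + δ² Q`, `ker δ² = k w + δ Q`, `k w ∩ (ker δ + δ Q) = 0`.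

PROOF: induction on `l`.  For `b :: l`, `c = δ b`: `Q' = b Q ⊕ c Q` (unique: `Q` does not involve
`b`, `c`; apply `pderiv`), and for `q, q' ∈ Q`, `b * q := b δ q - c q`:
(1) `δ (b q + c q') = 0 ↔ δ q = 0, q = - δ q'`, so `ker δ = {b * q' : δ (δ q') = 0}` up to sign;
(2) `δ² (b q + c q') = 0 ↔ δ² q = 0, δ q = δ² q'`, so `q = δ q' + n`, `δ n = 0` and
    `b q + c q' = b n + δ (b q')`: `ker δ² = b ker δ + δ (b Q)`;
(3) `δ² (b q) = b * δ q`, `b δ² q = δ² (b q) - 2 δ (c q)`, `b w` for `l` even is `wL (b :: l)`,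
    `δ (b w) = c w`, `b * w = - c w = - δ (b w)`;
    for `l` odd: `wL (b :: l) = b * w = b δ w - c w`, `δ (b w) = c w + b δ w`, so
    `b δ w = 2 (b * w) + 2 δ (b w)`.
(4) independence: `l` even (`l'` odd): if `r b w = κ + δ (b q + c q')`, `δ κ = 0`, then
    `κ = b * m` up to sign with `δ² m = 0`, compare: the coefficient of `b` gives
    `r w ∈ δ Q` so `r = 0`.  `l` odd (`l'` even): `r (b * w) = δ (b q + c q') = b δ q + c (q + δ q')`:
    `r δ w = δ q`, `- r w = q + δ q'`, hence `- 2 r δ w = δ² q'`, `δ (r w - δ q') = 0`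
    (`-2 = 1`), so `r w ∈ ker δ + δ Q`, `r = 0`.
-/

namespace Pool.Agent.Helper21.KW

open MvPolynomial Module Finset Pool.Agent.Helper58.KW

section

variable {k : Type*} [Field k] {X I : Type*} (J : Jd X I)

theorem dP_mul' (p q : MvPolynomial X k) :
    dP k J (p * q) = dP k J p * q + p * dP k J q := by
  have h := (DX k J.nx : Derivation k (MvPolynomial X k) (MvPolynomial X k)).leibniz p q
  have h2 : dP k J (p * q) = p • dP k J q + q • dP k J p := h
  rw [h2, smul_eq_mul, smul_eq_mul]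
  ring

theorem dP_C_mul (r : k) (q : MvPolynomial X k) :
    dP k J (MvPolynomial.C r * q) = MvPolynomial.C r * dP k J q := by
  rw [← MvPolynomial.smul_eq_C_mul, map_smul, MvPolynomial.smul_eq_C_mul]

theorem Yp_next (y : Yp J) : ∃ y' : X, J.nx y.1 = some y' ∧ J.nx y' = none ∧
    J.blk y' = J.blk y.1 ∧ J.pos y' = 1 ∧
    dP k J (MvPolynomial.X y.1) = MvPolynomial.X y' := by
  have h1 : J.nx y.1 ≠ none := by
    intro h
    have h2 := (J.att_none (J.blk y.1) (J.pos y.1 + 1)).1 h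
    rw [y.2.1, y.2.2] at h2
    omega
  obtain ⟨y', hy'⟩ := Option.ne_none_iff_exists'.1 h1
  have h2 := J.nx_some hy'
  have h3 : J.pos y' = 1 := by rw [h2.2, y.2.1]
  refine ⟨y', hy', ?_, h2.1, h3, ?_⟩
  · show J.att (J.blk y') (J.pos y' + 1) = none
    rw [J.att_none, h2.1, y.2.2, h3]
  · have h4 : dP k J (MvPolynomial.X y.1) = (J.nx y.1).elim 0 MvPolynomial.X := DX_X J.nx y.1
    rw [h4, hy']
    rfl

theorem dP_dP_X (y : Yp J) : dP k J (dP k J (MvPolynomial.X y.1)) = 0 := by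
  obtain ⟨y', -, h2, -, -, h5⟩ := Yp_next (k := k) J y
  rw [h5]
  have h4 : dP k J (MvPolynomial.X y') = (J.nx y').elim 0 MvPolynomial.X := DX_X J.nx y'
  rw [h4, h2]
  rfl

theorem mem_QT_cons {y : Yp J} {l : List (Yp J)} {q : MvPolynomial X k} :
    q ∈ QT k J (y :: l) ↔ ∃ q1 ∈ QT k J l, ∃ q2 ∈ QT k J l,
      q = MvPolynomial.X y.1 * q1 + dP k J (MvPolynomial.X y.1) * q2 := by
  rw [QT, Submodule.mem_sup]
  constructor
  · rintro ⟨a, ha, b, hb, rfl⟩
    obtain ⟨q1, h1, rfl⟩ := ha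
    obtain ⟨q2, h2, rfl⟩ := hb
    exact ⟨q1, h1, q2, h2, rfl⟩
  · rintro ⟨q1, h1, q2, h2, rfl⟩
    exact ⟨_, ⟨q1, h1, rfl⟩, _, ⟨q2, h2, rfl⟩, rfl⟩

theorem mem_QT_nil {q : MvPolynomial X k} :
    q ∈ QT k J [] ↔ ∃ r : k, q = MvPolynomial.C r := by
  rw [QT, Submodule.mem_span_singleton]
  constructor
  · rintro ⟨r, rfl⟩
    exact ⟨r, by rw [MvPolynomial.smul_eq_C_mul, mul_one]⟩
  · rintro ⟨r, rfl⟩
    exact ⟨r, by rw [MvPolynomial.smul_eq_C_mul, mul_one]⟩

theorem dP_C (r : k) : dP k J (MvPolynomial.C r) = 0 := by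
  have h := (DX k J.nx : Derivation k (MvPolynomial X k) (MvPolynomial X k)).map_algebraMap r
  exact h

theorem wL_nil : wL k J [] = 1 := rfl

theorem wL_cons_even {y : Yp J} {l : List (Yp J)} (h : l.length % 2 = 0) :
    wL k J (y :: l) = MvPolynomial.X y.1 * wL k J l := by
  have h2 : Even (l.map fun y => (MvPolynomial.X y.1 : MvPolynomial X k)).length := by
    rw [List.length_map, Nat.even_iff]
    exact h
  show wdp (dP k J) (MvPolynomial.X y.1 :: l.map fun y => (MvPolynomial.X y.1 : MvPolynomial X k)) = _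
  rw [wdp, if_pos h2]
  rfl

theorem wL_cons_odd {y : Yp J} {l : List (Yp J)} (h : l.length % 2 = 1) :
    wL k J (y :: l) = MvPolynomial.X y.1 * dP k J (wL k J l) -
      dP k J (MvPolynomial.X y.1) * wL k J l := by
  have h2 : ¬ Even (l.map fun y => (MvPolynomial.X y.1 : MvPolynomial X k)).length := by
    rw [List.length_map, Nat.even_iff]
    omega
  show wdp (dP k J) (MvPolynomial.X y.1 :: l.map fun y => (MvPolynomial.X y.1 : MvPolynomial X k)) = _
  rw [wdp, if_neg h2]
  rfl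

theorem pderiv_QT (x : X) (l : List (Yp J)) :
    (∀ z ∈ l, x ≠ z.1 ∧ J.nx z.1 ≠ some x) → ∀ {q : MvPolynomial X k}, q ∈ QT k J l →
      MvPolynomial.pderiv x q = 0 := by
  induction l with
  | nil =>
    intro _ q hq
    obtain ⟨r, rfl⟩ := (mem_QT_nil J).1 hq
    exact MvPolynomial.pderiv_C
  | cons z l ih =>
    intro hz q hq
    obtain ⟨q1, h1, q2, h2, rfl⟩ := (mem_QT_cons J).1 hq
    have h3 : ∀ {q : MvPolynomial X k}, q ∈ QT k J l → MvPolynomial.pderiv x q = 0 :=
      ih (fun z' hz' => hz z' (List.mem_cons_of_mem _ hz'))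
    obtain ⟨z', e1, -, -, -, e5⟩ := Yp_next (k := k) J z
    have h4 := hz z (List.mem_cons_self)
    have h5 : z' ≠ x := by
      intro h6
      exact h4.2 (by rw [e1, h6])
    rw [e5, map_add, MvPolynomial.pderiv_mul, MvPolynomial.pderiv_mul, h3 h1, h3 h2,
      MvPolynomial.pderiv_X_of_ne h4.1.symm, MvPolynomial.pderiv_X_of_ne h5]
    ring

theorem QT_coeff {y : Yp J} {l : List (Yp J)} (hy : y ∉ l) {q1 q2 p1 p2 : MvPolynomial X k}
    (h1 : q1 ∈ QT k J l) (h2 : q2 ∈ QT k J l) (h3 : p1 ∈ QT k J l) (h4 : p2 ∈ QT k J l)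
    (h : MvPolynomial.X y.1 * q1 + dP k J (MvPolynomial.X y.1) * q2 =
      MvPolynomial.X y.1 * p1 + dP k J (MvPolynomial.X y.1) * p2) : q1 = p1 ∧ q2 = p2 := by
  obtain ⟨y', e1, e2, e3, e4, e5⟩ := Yp_next (k := k) J y
  have hne : y' ≠ y.1 := by
    intro h6
    have h7 := y.2.1
    rw [← h6, e4] at h7
    exact absurd h7 (by norm_num)
  have d1 : ∀ {q : MvPolynomial X k}, q ∈ QT k J l → MvPolynomial.pderiv y.1 q = 0 := by
    apply pderiv_QT
    intro z hz
    refine ⟨fun h6 => hy ?_, fun h6 => ?_⟩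
    · have h7 : y = z := Subtype.ext h6
      rw [h7]
      exact hz
    · have h7 := (J.nx_some h6).2
      rw [y.2.1] at h7
      omega
  have d2 : ∀ {q : MvPolynomial X k}, q ∈ QT k J l → MvPolynomial.pderiv y' q = 0 := by
    apply pderiv_QT
    intro z hz
    refine ⟨fun h6 => ?_, fun h6 => hy ?_⟩
    · have h7 := z.2.1
      rw [← h6, e4] at h7
      exact absurd h7 (by norm_num)
    · have h7 := (J.nx_some h6).1
      have h8 : y = z := by
        apply Subtype.ext
        apply J.inj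
        · rw [← e3, h7]
        · rw [y.2.1, z.2.1]
      rw [h8]
      exact hz
  rw [e5] at h
  constructor
  · have h6 := congrArg (MvPolynomial.pderiv y.1) h
    rw [map_add, map_add, MvPolynomial.pderiv_mul, MvPolynomial.pderiv_mul,
      MvPolynomial.pderiv_mul, MvPolynomial.pderiv_mul, d1 h1, d1 h2, d1 h3, d1 h4,
      MvPolynomial.pderiv_X_self, MvPolynomial.pderiv_X_of_ne hne] at h6
    linear_combination h6
  · have h6 := congrArg (MvPolynomial.pderiv y') h
    rw [map_add, map_add, MvPolynomial.pderiv_mul, MvPolynomial.pderiv_mul,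
      MvPolynomial.pderiv_mul, MvPolynomial.pderiv_mul, d2 h1, d2 h2, d2 h3, d2 h4,
      MvPolynomial.pderiv_X_self, MvPolynomial.pderiv_X_of_ne hne.symm] at h6
    linear_combination h6

/-- `QT` is stable and contains `wL`. -/
theorem QT_stable (l : List (Yp J)) {q : MvPolynomial X k} (hq : q ∈ QT k J l) :
    dP k J q ∈ QT k J l := by
  induction l generalizing q with
  | nil =>
    obtain ⟨r, rfl⟩ := (mem_QT_nil J).1 hq
    rw [dP_C]
    exact Submodule.zero_mem _
  | cons y l ih =>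
    obtain ⟨q1, h1, q2, h2, rfl⟩ := (mem_QT_cons J).1 hq
    refine (mem_QT_cons J).2 ⟨dP k J q1, ih h1, q1 + dP k J q2, Submodule.add_mem _ h1 (ih h2), ?_⟩
    rw [map_add, dP_mul', dP_mul', dP_dP_X]
    ring

theorem wL_mem (l : List (Yp J)) : wL k J l ∈ QT k J l := by
  induction l with
  | nil => exact (mem_QT_nil J).2 ⟨1, by rw [wL_nil, MvPolynomial.C_1]⟩
  | cons y l ih =>
    rcases Nat.mod_two_eq_zero_or_one l.length with h | h
    · rw [wL_cons_even J h]
      exact (mem_QT_cons J).2 ⟨_, ih, 0, Submodule.zero_mem _, by ring⟩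
    · rw [wL_cons_odd J h]
      exact (mem_QT_cons J).2 ⟨_, QT_stable J l ih, -wL k J l, Submodule.neg_mem _ ih, by ring⟩

theorem wL_both (l : List (Yp J)) : (l.length % 2 = 0 → dP k J (wL k J l) = 0) ∧
    (l.length % 2 = 1 → dP k J (dP k J (wL k J l)) = 0) := by
  induction l with
  | nil =>
    refine ⟨fun _ => ?_, fun h => absurd h (by simp)⟩
    rw [wL_nil, ← MvPolynomial.C_1, dP_C]
  | cons y l ih =>
    rw [List.length_cons]
    refine ⟨fun h => ?_, fun h => ?_⟩
    · have h1 : l.length % 2 = 1 := by omega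
      rw [wL_cons_odd J h1, map_sub, dP_mul', dP_mul', ih.2 h1, dP_dP_X]
      ring
    · have h1 : l.length % 2 = 0 := by omega
      rw [wL_cons_even J h1, dP_mul', ih.1 h1, mul_zero, add_zero, dP_mul', ih.1 h1, dP_dP_X]
      ring

theorem wL_even [CharP k 3] {l : List (Yp J)} (hl : l.length % 2 = 0) : dP k J (wL k J l) = 0 := by
  exact (wL_both J l).1 hl

theorem wL_odd [CharP k 3] {l : List (Yp J)} (hl : l.length % 2 = 1) :
    dP k J (dP k J (wL k J l)) = 0 := by
  exact (wL_both J l).2 hl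

theorem three_eq_zero [CharP k 3] : (3 : MvPolynomial X k) = 0 := by
  have h : ((3 : ℕ) : k) = 0 := CharP.cast_eq_zero k 3
  have h2 : (MvPolynomial.C ((3 : ℕ) : k) : MvPolynomial X k) = ((3 : ℕ) : MvPolynomial X k) :=
    map_natCast _ 3
  rw [h, MvPolynomial.C_0] at h2
  exact_mod_cast h2.symm

/-- The statements for a list. -/
structure QTP (k : Type*) [Field k] {X I : Type*} (J : Jd X I) (l : List (Yp J)) : Prop where
  ke : l.length % 2 = 0 → ∀ q ∈ QT k J l, dP k J q = 0 →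
    ∃ (r : k), ∃ g ∈ QT k J l, q = MvPolynomial.C r * wL k J l + dP k J (dP k J g)
  ko : l.length % 2 = 1 → ∀ q ∈ QT k J l, dP k J q = 0 →
    ∃ (r : k), ∃ g ∈ QT k J l, q = MvPolynomial.C r * dP k J (wL k J l) + dP k J (dP k J g)
  k2 : ∀ q ∈ QT k J l, dP k J (dP k J q) = 0 →
    ∃ (r : k), ∃ g ∈ QT k J l, q = MvPolynomial.C r * wL k J l + dP k J g
  ie : l.length % 2 = 0 → ∀ (r : k), ∀ g ∈ QT k J l,
    MvPolynomial.C r * wL k J l = dP k J g → r = 0
  io : l.length % 2 = 1 → ∀ (r : k), ∀ κ ∈ QT k J l, dP k J κ = 0 → ∀ g ∈ QT k J l,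
    MvPolynomial.C r * wL k J l = κ + dP k J g → r = 0

/-- The kernel in terms of the coefficients. -/
theorem QT_ker_cons {y : Yp J} {l : List (Yp J)} (hy : y ∉ l) {q1 q2 : MvPolynomial X k}
    (h1 : q1 ∈ QT k J l) (h2 : q2 ∈ QT k J l)
    (h : dP k J (MvPolynomial.X y.1 * q1 + dP k J (MvPolynomial.X y.1) * q2) = 0) :
    q1 = -dP k J q2 ∧ dP k J (dP k J q2) = 0 := by
  have h3 : MvPolynomial.X y.1 * dP k J q1 + dP k J (MvPolynomial.X y.1) * (q1 + dP k J q2) =
      MvPolynomial.X y.1 * 0 + dP k J (MvPolynomial.X y.1) * 0 := by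
    rw [map_add, dP_mul', dP_mul', dP_dP_X] at h
    linear_combination h
  obtain ⟨h4, h5⟩ := QT_coeff J hy (QT_stable J l h1) (Submodule.add_mem _ h1 (QT_stable J l h2))
    (Submodule.zero_mem _) (Submodule.zero_mem _) h3
  have h6 : q1 = -dP k J q2 := by linear_combination h5
  refine ⟨h6, ?_⟩
  rw [h6, map_neg, neg_eq_zero] at h4
  exact h4

theorem QTP_cons [CharP k 3] {y : Yp J} {l : List (Yp J)} (hy : y ∉ l) (h : QTP k J l) :
    QTP k J (y :: l) := by
  have h3 : (3 : MvPolynomial X k) = 0 := three_eq_zero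
  have hw := wL_mem (k := k) J l
  refine ⟨?_, ?_, ?_, ?_, ?_⟩
  · intro hl q hq hq0
    rw [List.length_cons] at hl
    have hl' : l.length % 2 = 1 := by omega
    obtain ⟨q1, h1, q2, h2, rfl⟩ := (mem_QT_cons J).1 hq
    obtain ⟨h4, h5⟩ := QT_ker_cons J hy h1 h2 hq0
    obtain ⟨r, g, hg, h6⟩ := h.k2 q2 h2 h5
    refine ⟨-r, MvPolynomial.X y.1 * (-g) + dP k J (MvPolynomial.X y.1) * 0,
      (mem_QT_cons J).2 ⟨-g, Submodule.neg_mem _ hg, 0, Submodule.zero_mem _, rfl⟩, ?_⟩
    rw [wL_cons_odd J hl', h4, h6]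
    simp only [map_add, map_neg, dP_mul', dP_dP_X, mul_zero, zero_mul,
      add_zero, dP_C]
    linear_combination (dP k J (MvPolynomial.X y.1) * dP k J g) * h3
  · intro hl q hq hq0
    rw [List.length_cons] at hl
    have hl' : l.length % 2 = 0 := by omega
    obtain ⟨q1, h1, q2, h2, rfl⟩ := (mem_QT_cons J).1 hq
    obtain ⟨h4, h5⟩ := QT_ker_cons J hy h1 h2 hq0
    obtain ⟨r, g, hg, h6⟩ := h.k2 q2 h2 h5
    refine ⟨r, MvPolynomial.X y.1 * (-g) + dP k J (MvPolynomial.X y.1) * 0,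
      (mem_QT_cons J).2 ⟨-g, Submodule.neg_mem _ hg, 0, Submodule.zero_mem _, rfl⟩, ?_⟩
    rw [wL_cons_even J hl', h4, h6]
    have h7 := (wL_both (k := k) J l).1 hl'
    simp only [map_add, map_neg, dP_mul', dP_dP_X, mul_zero, zero_mul,
      add_zero, h7, dP_C]
    linear_combination (dP k J (MvPolynomial.X y.1) * dP k J g) * h3
  · intro q hq hq0
    obtain ⟨q1, h1, q2, h2, rfl⟩ := (mem_QT_cons J).1 hq
    have h4 : MvPolynomial.X y.1 * dP k J (dP k J q1) +
        dP k J (MvPolynomial.X y.1) * (dP k J (dP k J q2) - dP k J q1) =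
        MvPolynomial.X y.1 * 0 + dP k J (MvPolynomial.X y.1) * 0 := by
      simp only [map_add, dP_mul', dP_dP_X, zero_mul, zero_add] at hq0
      linear_combination hq0 - (dP k J (MvPolynomial.X y.1) * dP k J q1) * h3
    obtain ⟨h5, h6⟩ := QT_coeff J hy (QT_stable J l (QT_stable J l h1))
      (Submodule.sub_mem _ (QT_stable J l (QT_stable J l h2)) (QT_stable J l h1))
      (Submodule.zero_mem _) (Submodule.zero_mem _) h4
    have hn : dP k J (q1 - dP k J q2) = 0 := by
      rw [map_sub]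
      linear_combination -h6
    have hnQ : q1 - dP k J q2 ∈ QT k J l := Submodule.sub_mem _ h1 (QT_stable J l h2)
    rcases Nat.mod_two_eq_zero_or_one l.length with hl | hl
    · obtain ⟨r, g, hg, h7⟩ := h.ke hl _ hnQ hn
      refine ⟨r, MvPolynomial.X y.1 * (dP k J g + q2) + dP k J (MvPolynomial.X y.1) * (g + g),
        (mem_QT_cons J).2 ⟨_, Submodule.add_mem _ (QT_stable J l hg) h2, _,
          Submodule.add_mem _ hg hg, rfl⟩, ?_⟩
      have h8 : q1 = dP k J q2 + (MvPolynomial.C r * wL k J l + dP k J (dP k J g)) := by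
        rw [← h7]
        ring
      rw [wL_cons_even J hl, h8]
      simp only [map_add, dP_mul', dP_dP_X, zero_mul]
      linear_combination (-(dP k J (MvPolynomial.X y.1) * dP k J g)) * h3
    · obtain ⟨r, g, hg, h7⟩ := h.ko hl _ hnQ hn
      refine ⟨2 * r, MvPolynomial.X y.1 * (dP k J g + q2 + MvPolynomial.C (2 * r) * wL k J l) +
          dP k J (MvPolynomial.X y.1) * (g + g),
        (mem_QT_cons J).2 ⟨_, Submodule.add_mem _ (Submodule.add_mem _ (QT_stable J l hg) h2) ?_, _,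
          Submodule.add_mem _ hg hg, rfl⟩, ?_⟩
      · rw [← MvPolynomial.smul_eq_C_mul]
        exact Submodule.smul_mem _ _ hw
      · have h8 : q1 = dP k J q2 +
            (MvPolynomial.C r * dP k J (wL k J l) + dP k J (dP k J g)) := by
          rw [← h7]
          ring
        rw [wL_cons_odd J hl, h8]
        have h9 : (MvPolynomial.C (2 * r) : MvPolynomial X k) = 2 * MvPolynomial.C r := by
          rw [map_mul, map_ofNat]
        simp only [map_add, dP_mul', dP_dP_X, zero_mul, dP_C]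
        rw [h9]
        linear_combination (-(dP k J (MvPolynomial.X y.1) * dP k J g) -
          MvPolynomial.X y.1 * MvPolynomial.C r * dP k J (wL k J l)) * h3
  · intro hl r g hg he
    rw [List.length_cons] at hl
    have hl' : l.length % 2 = 1 := by omega
    obtain ⟨q1, h1, q2, h2, rfl⟩ := (mem_QT_cons J).1 hg
    rw [wL_cons_odd J hl', map_add, dP_mul', dP_mul', dP_dP_X] at he
    have hCw : MvPolynomial.C r * wL k J l ∈ QT k J l := by
      rw [← MvPolynomial.smul_eq_C_mul]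
      exact Submodule.smul_mem _ _ hw
    have hCdw : MvPolynomial.C r * dP k J (wL k J l) ∈ QT k J l := by
      rw [← MvPolynomial.smul_eq_C_mul]
      exact Submodule.smul_mem _ _ (QT_stable J l hw)
    have h4 : MvPolynomial.X y.1 * (MvPolynomial.C r * dP k J (wL k J l)) +
        dP k J (MvPolynomial.X y.1) * (-(MvPolynomial.C r * wL k J l)) =
        MvPolynomial.X y.1 * dP k J q1 + dP k J (MvPolynomial.X y.1) * (q1 + dP k J q2) := by
      linear_combination he
    obtain ⟨h5, h6⟩ := QT_coeff J hy hCdw (Submodule.neg_mem _ hCw) (QT_stable J l h1)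
      (Submodule.add_mem _ h1 (QT_stable J l h2)) h4
    have h7 := congrArg (dP k J) h6
    rw [map_neg, map_add, dP_C_mul] at h7
    refine h.io hl' r (MvPolynomial.C r * wL k J l - dP k J q2)
      (Submodule.sub_mem _ hCw (QT_stable J l h2)) ?_ q2 h2 (by ring)
    rw [map_sub, dP_C_mul]
    linear_combination h7 - h5 + (MvPolynomial.C r * dP k J (wL k J l)) * h3
  · intro hl r κ hκ hκ0 g hg he
    rw [List.length_cons] at hl
    have hl' : l.length % 2 = 0 := by omega
    obtain ⟨m1, hm1, m2, hm2, rfl⟩ := (mem_QT_cons J).1 hκ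
    obtain ⟨h4, h5⟩ := QT_ker_cons J hy hm1 hm2 hκ0
    obtain ⟨q1, h1, q2, h2, rfl⟩ := (mem_QT_cons J).1 hg
    rw [wL_cons_even J hl', map_add, dP_mul', dP_mul', dP_dP_X, h4] at he
    have hCw : MvPolynomial.C r * wL k J l ∈ QT k J l := by
      rw [← MvPolynomial.smul_eq_C_mul]
      exact Submodule.smul_mem _ _ hw
    have h6 : MvPolynomial.X y.1 * (MvPolynomial.C r * wL k J l) +
        dP k J (MvPolynomial.X y.1) * 0 =
        MvPolynomial.X y.1 * (dP k J (q1 - m2)) +
          dP k J (MvPolynomial.X y.1) * (m2 + q1 + dP k J q2) := by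
      rw [map_sub]
      linear_combination he
    obtain ⟨h7, -⟩ := QT_coeff J hy hCw (Submodule.zero_mem _)
      (QT_stable J l (Submodule.sub_mem _ h1 hm2))
      (Submodule.add_mem _ (Submodule.add_mem _ hm2 h1) (QT_stable J l h2)) h6
    exact h.ie hl' r _ (Submodule.sub_mem _ h1 hm2) h7

theorem QTP_all [CharP k 3] (l : List (Yp J)) : l.Nodup → QTP k J l := by
  induction l with
  | nil =>
    intro _
    refine ⟨?_, ?_, ?_, ?_, ?_⟩
    · intro _ q hq _
      obtain ⟨r, rfl⟩ := (mem_QT_nil J).1 hq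
      exact ⟨r, 0, Submodule.zero_mem _, by rw [wL_nil, map_zero, map_zero, mul_one, add_zero]⟩
    · intro h
      exact absurd h (by simp)
    · intro q hq _
      obtain ⟨r, rfl⟩ := (mem_QT_nil J).1 hq
      exact ⟨r, 0, Submodule.zero_mem _, by rw [wL_nil, map_zero, mul_one, add_zero]⟩
    · intro _ r g hg h
      obtain ⟨s, rfl⟩ := (mem_QT_nil J).1 hg
      rw [wL_nil, dP_C, mul_one, MvPolynomial.C_eq_zero] at h
      exact h
    · intro h
      exact absurd h (by simp)
  | cons y l ih =>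
    intro hn
    rw [List.nodup_cons] at hn
    exact QTP_cons J hn.1 (ih hn.2)

theorem QT_ker_even [CharP k 3] {l : List (Yp J)} (hn : l.Nodup) (hl : l.length % 2 = 0)
    {q : MvPolynomial X k} (hq : q ∈ QT k J l) (h : dP k J q = 0) :
    ∃ (r : k), ∃ g ∈ QT k J l, q = r • wL k J l + dP k J (dP k J g) := by
  obtain ⟨r, g, hg, h1⟩ := (QTP_all J l hn).ke hl q hq h
  exact ⟨r, g, hg, by rw [h1, MvPolynomial.smul_eq_C_mul]⟩

theorem QT_ker_odd [CharP k 3] {l : List (Yp J)} (hn : l.Nodup) (hl : l.length % 2 = 1)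
    {q : MvPolynomial X k} (hq : q ∈ QT k J l) (h : dP k J q = 0) :
    ∃ (r : k), ∃ g ∈ QT k J l, q = r • dP k J (wL k J l) + dP k J (dP k J g) := by
  obtain ⟨r, g, hg, h1⟩ := (QTP_all J l hn).ko hl q hq h
  exact ⟨r, g, hg, by rw [h1, MvPolynomial.smul_eq_C_mul]⟩

theorem QT_ker2 [CharP k 3] {l : List (Yp J)} (hn : l.Nodup)
    {q : MvPolynomial X k} (hq : q ∈ QT k J l) (h : dP k J (dP k J q) = 0) :
    ∃ (r : k), ∃ g ∈ QT k J l, q = r • wL k J l + dP k J g := by
  obtain ⟨r, g, hg, h1⟩ := (QTP_all J l hn).k2 q hq h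
  exact ⟨r, g, hg, by rw [h1, MvPolynomial.smul_eq_C_mul]⟩

theorem QT_indep_even [CharP k 3] {l : List (Yp J)} (hn : l.Nodup) (hl : l.length % 2 = 0)
    {r : k} {g : MvPolynomial X k} (hg : g ∈ QT k J l) (h : r • wL k J l = dP k J g) : r = 0 := by
  rw [MvPolynomial.smul_eq_C_mul] at h
  exact (QTP_all J l hn).ie hl r g hg h

theorem QT_indep_odd [CharP k 3] {l : List (Yp J)} (hn : l.Nodup) (hl : l.length % 2 = 1)
    {r : k} {κ g : MvPolynomial X k} (hκ : κ ∈ QT k J l) (hκ0 : dP k J κ = 0) (hg : g ∈ QT k J l)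
    (h : r • wL k J l = κ + dP k J g) : r = 0 := by
  rw [MvPolynomial.smul_eq_C_mul] at h
  exact (QTP_all J l hn).io hl r κ hκ hκ0 g hg h

end

end Pool.Agent.Helper21.KW
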