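import Pool.Agent.Helper58.KW.PBWEnv

set_option autoImplicit false

/-!
# MODULE KW-Dbl1: helper56's enveloping algebra of a Lie algebra

* `env_lift`: the universal property (`Env g = FA k X ⧸ Jid g`, and `Jid g` is spanned by the
  products `u * rho x y * v`; Helper56/SKW/Quot.lean, Diamond.lean).
* `exists_alg`: a Lie bracket gives an even `Alg` (all signs are 1, `tw x = id`, `pr = id`).
-/

namespace Pool.Agent.Helper21.KW

open MvPolynomial Module Finset Pool.Agent.Helper58.KW Pool.Agent.Helper56.SKW.PBW
  Pool.Agent.Helper56.SKU Pool.Agent.Helper56.SKR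

theorem Dbl1_eps {k : Type*} [Field k] {X : Type*} {par : X → Bool} (hev : ∀ x, par x = false)
    (x y : X) : eps k par x y = 1 := by
  unfold eps
  rw [hev x]
  simp

/-- The map of the free algebra. -/
noncomputable def Dbl1_F {k : Type*} [Field k] {X : Type*} {B : Type*} [Ring B] [Algebra k B]
    (f : X → B) : FA k X →ₐ[k] B :=
  MonoidAlgebra.lift k B (FreeMonoid X) (FreeMonoid.lift f)

theorem Dbl1_F_W {k : Type*} [Field k] {X : Type*} {B : Type*} [Ring B] [Algebra k B]
    (f : X → B) (l : List X) : Dbl1_F (k := k) f (W k l) = (l.map f).prod := by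
  unfold Dbl1_F W
  rw [MonoidAlgebra.lift_single, one_smul, FreeMonoid.lift_apply]
  rfl

theorem env_lift {k : Type*} [Field k] {X : Type*} [Fintype X] [LinearOrder X]
    {L : Type*} [AddCommGroup L] [Module k L] (g : Alg k X L) (hev : ∀ x, g.par x = false)
    {B : Type*} [Ring B] [Algebra k B] (f : L →ₗ[k] B)
    (hf : ∀ v w, f (g.br v w) = f v * f w - f w * f v) :
    ∃ Φ : Env g →ₐ[k] B, ∀ v, Φ (tau g v) = f v := by
  have hlam : ∀ v, Dbl1_F (k := k) (fun x => f (g.e x)) (g.lam v) = f v := by
    have h1 : (Dbl1_F (k := k) (fun x => f (g.e x))).toLinearMap ∘ₗ g.lam = f := by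
      refine g.e.ext fun x => ?_
      show Dbl1_F (k := k) (fun x => f (g.e x)) (g.lam (g.e x)) = f (g.e x)
      rw [g.lam_e, Dbl1_F_W]
      simp
    exact fun v => LinearMap.congr_fun h1 v
  have hrho : ∀ x y, Dbl1_F (k := k) (fun x => f (g.e x)) (g.rho x y) = 0 := by
    intro x y
    unfold Alg.rho
    rw [map_sub, map_sub, map_smul, Dbl1_F_W, Dbl1_F_W, hlam, hf, Dbl1_eps hev, one_smul]
    simp
  have hJ : ∀ a ∈ g.J, Dbl1_F (k := k) (fun x => f (g.e x)) a = 0 := by
    intro a ha
    unfold Alg.J Alg.IS at ha
    induction ha using Submodule.span_induction with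
    | mem a ha =>
      obtain ⟨u, x, y, v, -, -, rfl⟩ := ha
      rw [map_mul, map_mul, hrho, mul_zero, zero_mul]
    | zero => exact map_zero _
    | add a b _ _ ha hb => rw [map_add, ha, hb, add_zero]
    | smul c a _ ha => rw [map_smul, ha, smul_zero]
  refine ⟨Ideal.Quotient.liftₐ (Jid g) (Dbl1_F (k := k) (fun x => f (g.e x))) hJ, fun v => ?_⟩
  exact hlam v

theorem exists_alg {k : Type*} [Field k] {X : Type*} {L : Type*} [AddCommGroup L] [Module k L]
    (e : Basis X k L) (br : L →ₗ[k] L →ₗ[k] L) (halt : ∀ v, br v v = 0)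
    (hjac : ∀ u v w, br u (br v w) = br (br u v) w + br v (br u w)) :
    ∃ g : Alg k X L, g.e = e ∧ g.br = br ∧ ∀ x, g.par x = false := by
  have hanti : ∀ v w, br v w = -br w v := by
    intro v w
    have h1 := halt (v + w)
    simp only [map_add, LinearMap.add_apply, halt v, halt w, zero_add, add_zero] at h1
    exact eq_neg_of_add_eq_zero_right h1
  have heps : ∀ x y : X, eps k (fun _ : X => false) x y = 1 := Dbl1_eps (fun _ => rfl)
  refine ⟨{
    e := e
    br := br
    par := fun _ => false
    tw := fun _ => LinearMap.id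
    tw_e := ?_
    tw_br := ?_
    anti := ?_
    self := ?_
    jac := ?_
    anti2 := ?_
    jac3 := ?_
    pr := LinearMap.id
    pr_e := ?_
    pr_br := ?_ }, rfl, rfl, fun _ => rfl⟩
  · intro x y
    rw [heps, one_smul, LinearMap.id_apply]
  · intro x y z
    rw [heps, heps, one_mul, one_smul, LinearMap.id_apply]
  · intro x y
    rw [heps, one_smul]
    exact hanti _ _
  · intro x _
    exact halt _
  · intro x y z
    rw [heps, one_smul]
    exact hjac _ _ _
  · intro x y z
    rw [heps, heps, one_mul, one_smul]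
    exact hanti _ _
  · intro x hx
    exact absurd hx (by simp)
  · intro x
    simp
  · intro x y
    simp

/-- The bracket in the enveloping algebra. -/
theorem tau_br {k : Type*} [Field k] {X : Type*} [Fintype X] [LinearOrder X]
    {L : Type*} [AddCommGroup L] [Module k L] (g : Alg k X L) (hev : ∀ x, g.par x = false)
    (v w : L) : tau g (g.br v w) = tau g v * tau g w - tau g w * tau g v := by
  have h1 : ∀ w, tau g (g.br v w) = tau g v * tau g w - tau g w * tau g v := by
    intro w
    have hv := g.e.mem_span v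
    have hw := g.e.mem_span w
    induction hv using Submodule.span_induction with
    | mem a ha =>
      obtain ⟨x, rfl⟩ := ha
      induction hw using Submodule.span_induction with
      | mem b hb =>
        obtain ⟨y, rfl⟩ := hb
        have h2 := tau_comm g x y
        rw [Dbl1_eps hev, one_smul] at h2
        rw [h2]
        abel
      | zero => simp
      | add a b _ _ ha hb =>
        rw [map_add, map_add, ha, hb, map_add, mul_add, add_mul]
        abel
      | smul c a _ ha =>
        rw [map_smul, map_smul, ha, map_smul, mul_smul_comm, smul_mul_assoc, smul_sub]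
    | zero => simp
    | add a b _ _ ha hb =>
      rw [map_add, LinearMap.add_apply, map_add, ha, hb, map_add, mul_add, add_mul]
      abel
    | smul c a _ ha =>
      rw [map_smul, LinearMap.smul_apply, map_smul, ha, map_smul, mul_smul_comm, smul_mul_assoc,
        smul_sub]
  exact h1 w

theorem Dbl1_anti {k : Type*} [Field k] {X : Type*} {L : Type*} [AddCommGroup L] [Module k L]
    (g : Alg k X L) (hev : ∀ x, g.par x = false) (v w : L) : g.br v w = -g.br w v := by
  have hv := g.e.mem_span v
  have hw := g.e.mem_span w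
  induction hv using Submodule.span_induction with
  | mem a ha =>
    obtain ⟨x, rfl⟩ := ha
    induction hw using Submodule.span_induction with
    | mem b hb =>
      obtain ⟨y, rfl⟩ := hb
      have h2 := g.anti x y
      rwa [Dbl1_eps hev, one_smul] at h2
    | zero => simp
    | add a b _ _ ha hb =>
      rw [map_add, map_add, LinearMap.add_apply, ha, hb]
      abel
    | smul c a _ ha =>
      rw [map_smul, map_smul, LinearMap.smul_apply, ha, smul_neg]
  | zero => simp
  | add a b _ _ ha hb =>
    rw [map_add, LinearMap.add_apply, ha, hb, map_add]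
    abel
  | smul c a _ ha =>
    rw [map_smul, map_smul, LinearMap.smul_apply, ha, smul_neg]

/-- The bracket is a Lie bracket. -/
theorem alg_alt {k : Type*} [Field k] {X : Type*} {L : Type*} [AddCommGroup L] [Module k L]
    (g : Alg k X L) (hev : ∀ x, g.par x = false) (v : L) : g.br v v = 0 := by
  have hv := g.e.mem_span v
  induction hv using Submodule.span_induction with
  | mem a ha =>
    obtain ⟨x, rfl⟩ := ha
    exact g.self x (hev x)
  | zero => simp
  | add a b _ _ ha hb =>
    simp only [map_add, LinearMap.add_apply, ha, hb]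
    rw [Dbl1_anti g hev a b]
    abel
  | smul c a _ ha =>
    simp only [map_smul, LinearMap.smul_apply, ha, smul_zero]

theorem alg_jac {k : Type*} [Field k] {X : Type*} {L : Type*} [AddCommGroup L] [Module k L]
    (g : Alg k X L) (hev : ∀ x, g.par x = false) (u v w : L) :
    g.br u (g.br v w) = g.br (g.br u v) w + g.br v (g.br u w) := by
  have hu := g.e.mem_span u
  have hv := g.e.mem_span v
  have hw := g.e.mem_span w
  induction hu using Submodule.span_induction with
  | mem a ha =>
    obtain ⟨x, rfl⟩ := ha
    induction hv using Submodule.span_induction with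
    | mem b hb =>
      obtain ⟨y, rfl⟩ := hb
      induction hw using Submodule.span_induction with
      | mem c hc =>
        obtain ⟨z, rfl⟩ := hc
        have h2 := g.jac x y z
        rwa [Dbl1_eps hev, one_smul] at h2
      | zero => simp
      | add a b _ _ ha hb =>
        simp only [map_add, ha, hb]
        abel
      | smul c a _ ha =>
        simp only [map_smul, ha, smul_add]
    | zero => simp
    | add a b _ _ ha hb =>
      simp only [map_add, LinearMap.add_apply, ha, hb]
      abel
    | smul c a _ ha =>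
      simp only [map_smul, LinearMap.smul_apply, ha, smul_add]
  | zero => simp
  | add a b _ _ ha hb =>
    simp only [map_add, LinearMap.add_apply, ha, hb]
    abel
  | smul c a _ ha =>
    simp only [map_smul, LinearMap.smul_apply, ha, smul_add]

/-- The symbol of a product of letters. -/
theorem Dbl1_symb_list {k : Type*} [Field k] {X : Type*} {V : Type*} [AddCommGroup V] [Module k V]
    {A : Type*} [Ring A] [Algebra k A] {ι : V →ₗ[k] A} {e : Basis X k V}
    {symb : MvPolynomial X k →ₗ[k] A} (h : PBW ι e symb) (l : List X) :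
    ((l.map fun x => (MvPolynomial.X x : MvPolynomial X k)).prod).IsHomogeneous l.length ∧
      symb (l.map fun x => (MvPolynomial.X x : MvPolynomial X k)).prod -
        (l.map fun x => ι (e x)).prod ∈ G ι l.length := by
  induction l with
  | nil =>
    refine ⟨MvPolynomial.isHomogeneous_one _ _, ?_⟩
    simp only [List.map_nil, List.prod_nil, h.symb_one, sub_self]
    exact Submodule.zero_mem _
  | cons x l ih =>
    obtain ⟨ih1, ih2⟩ := ih
    have hX : (MvPolynomial.X x : MvPolynomial X k).IsHomogeneous 1 :=
      MvPolynomial.isHomogeneous_X k x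
    constructor
    · rw [List.map_cons, List.prod_cons, List.length_cons, add_comm]
      exact hX.mul ih1
    · rw [List.map_cons, List.prod_cons, List.map_cons, List.prod_cons, List.length_cons]
      have h1 := h.symb_mul hX ih1
      have h2 : ι (e x) * (symb (l.map fun x => (MvPolynomial.X x : MvPolynomial X k)).prod -
          (l.map fun x => ι (e x)).prod) ∈ G ι (1 + l.length) :=
        G_mul ι (iota_mem_G ι (e x) (by omega)) ih2
      rw [h.symb_X] at h1
      have h3 := Submodule.sub_mem _ h2 h1
      rw [add_comm 1 l.length] at h3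
      convert h3 using 1
      rw [mul_sub]
      abel

theorem Dbl1_monomial {k : Type*} [Field k] {X : Type*} (ν : X →₀ ℕ) :
    ∃ l : List X, l.length = ν.degree ∧
      (l.map fun x => (MvPolynomial.X x : MvPolynomial X k)).prod = monomial ν 1 := by
  classical
  refine ⟨(Finsupp.toMultiset ν).toList, ?_, ?_⟩
  · rw [Multiset.length_toList, Finsupp.card_toMultiset]
    rfl
  · rw [monomial_eq, map_one, one_mul]
    rw [← Multiset.prod_coe, ← Multiset.map_coe, Multiset.coe_toList]
    rw [Finsupp.toMultiset_map, Finsupp.prod_toMultiset]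
    rw [Finsupp.prod_mapDomain_index (fun _ => pow_zero _) (fun _ _ _ => pow_add _ _ _)]

theorem Dbl1_Phi_G {k : Type*} [Field k] {V : Type*} [AddCommGroup V] [Module k V]
    {A B : Type*} [Ring A] [Algebra k A] [Ring B] [Algebra k B] {τ : V →ₗ[k] A} {ι : V →ₗ[k] B}
    (Φ : A →ₐ[k] B) (hΦ : ∀ v, Φ (τ v) = ι v) {d : ℕ} {a : A} (ha : a ∈ G τ d) :
    Φ a ∈ G ι d := by
  induction ha using Submodule.span_induction with
  | mem a ha =>
    obtain ⟨l, hl, rfl⟩ := ha
    rw [map_list_prod, List.map_map]
    have : (Φ ∘ τ : V → B) = ι := funext hΦ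
    rw [this]
    exact prod_mem_G ι hl
  | zero =>
    rw [map_zero]
    exact Submodule.zero_mem _
  | add x y _ _ hx hy =>
    rw [map_add]
    exact Submodule.add_mem _ hx hy
  | smul c x _ hx =>
    rw [map_smul]
    exact Submodule.smul_mem _ _ hx

/-- The two symbol maps agree up to lower terms. -/
theorem Dbl1_symb_cmp {k : Type*} [Field k] {X : Type*} {V : Type*} [AddCommGroup V] [Module k V]
    {A B : Type*} [Ring A] [Algebra k A] [Ring B] [Algebra k B] {τ : V →ₗ[k] A} {ι : V →ₗ[k] B}
    {e : Basis X k V} {s1 : MvPolynomial X k →ₗ[k] A} {s2 : MvPolynomial X k →ₗ[k] B}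
    (h1 : PBW τ e s1) (h2 : PBW ι e s2) (Φ : A →ₐ[k] B) (hΦ : ∀ v, Φ (τ v) = ι v) {d : ℕ}
    {q : MvPolynomial X k} (hq : q.IsHomogeneous d) : Φ (s1 q) - s2 q ∈ G ι d := by
  have key : ∀ ν : X →₀ ℕ, ν.degree = d →
      Φ (s1 (monomial ν 1)) - s2 (monomial ν 1) ∈ G ι d := by
    intro ν hν
    obtain ⟨l, hl, hl2⟩ := Dbl1_monomial (k := k) ν
    rw [← hl2]
    have e1 := Dbl1_Phi_G Φ hΦ (Dbl1_symb_list h1 l).2
    have e2 := (Dbl1_symb_list h2 l).2
    have e3 : (Φ ∘ fun x => τ (e x) : X → B) = fun x => ι (e x) := funext fun x => hΦ _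
    rw [map_sub, map_list_prod Φ (l.map fun x => τ (e x)), List.map_map, e3] at e1
    have e4 := Submodule.sub_mem _ e1 e2
    rw [sub_sub_sub_cancel_right] at e4
    rwa [hl, hν] at e4
  have hsum : Φ (s1 q) - s2 q = ∑ ν ∈ q.support,
      coeff ν q • (Φ (s1 (monomial ν 1)) - s2 (monomial ν 1)) := by
    have e5 : q = ∑ ν ∈ q.support, coeff ν q • (monomial ν 1 : MvPolynomial X k) := by
      conv_lhs => rw [q.as_sum]
      refine Finset.sum_congr rfl fun ν _ => ?_
      rw [smul_monomial, smul_eq_mul, mul_one]
    conv_lhs => rw [e5]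
    rw [map_sum, map_sum, map_sum, ← Finset.sum_sub_distrib]
    refine Finset.sum_congr rfl fun ν _ => ?_
    rw [map_smul, map_smul, map_smul, smul_sub]
  rw [hsum]
  refine Submodule.sum_mem _ fun ν hν => Submodule.smul_mem _ _ (key ν ?_)
  rw [MvPolynomial.mem_support_iff] at hν
  have h3 := hq hν
  have h4 := congrArg (fun f : (X →₀ ℕ) →+ ℕ => f ν) (Finsupp.degree_eq_weight_one (σ := X) (R := ℕ))
  exact h4.trans h3

/-- A pair with the PBW theorem is the enveloping algebra. -/
theorem env_equiv {k : Type*} [Field k] (h2 : (2 : k) ≠ 0) {X : Type*} [Fintype X]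
    [LinearOrder X] {L : Type*} [AddCommGroup L] [Module k L] (g : Alg k X L)
    (hev : ∀ x, g.par x = false) {A : Type*} [Ring A] [Algebra k A] (ι : L →ₗ[k] A)
    (hι : ∀ v w, ι (g.br v w) = ι v * ι w - ι w * ι v) (symb : MvPolynomial X k →ₗ[k] A)
    (h : PBW ι g.e symb) : ∃ Φ : Env g ≃ₐ[k] A, ∀ v, Φ (tau g v) = ι v := by
  obtain ⟨Φ, hΦ⟩ := env_lift g hev ι hι
  have hE := PBW_env g h2 hev
  have hinj : ∀ d : ℕ, ∀ u ∈ G (tau g) d, Φ u = 0 → u = 0 := by
    intro d
    induction d with
    | zero =>
      intro u hu _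
      rwa [G_zero, Submodule.mem_bot] at hu
    | succ d ih =>
      intro u hu hu0
      obtain ⟨q, hq, hq2⟩ := hE.symb_surj hu
      have e1 := Dbl1_Phi_G Φ hΦ hq2
      rw [map_sub, hu0, zero_sub] at e1
      have e2 := Dbl1_symb_cmp hE h Φ hΦ hq
      have e3 := Submodule.add_mem _ e1 e2
      have e4 : -Φ (Pool.Agent.Helper56.SKR.symb g q) + (Φ (Pool.Agent.Helper56.SKR.symb g q) -
          symb q) = -symb q := by abel
      rw [e4, Submodule.neg_mem_iff] at e3
      have e5 := h.symb_lead hq e3
      rw [e5, map_zero, sub_zero] at hq2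
      exact ih u hq2 hu0
  have hbij : Function.Bijective Φ := by
    constructor
    · rw [injective_iff_map_eq_zero]
      intro u hu
      obtain ⟨d, hd⟩ := hE.exhaust u
      exact hinj d u hd hu
    · intro a
      obtain ⟨d, hd⟩ := h.exhaust a
      have h1 : G ι d ≤ LinearMap.range Φ.toLinearMap := by
        refine Submodule.span_le.2 ?_
        rintro a ⟨l, -, rfl⟩
        refine ⟨(l.map (tau g)).prod, ?_⟩
        show Φ (l.map (tau g)).prod = _
        rw [map_list_prod, List.map_map]
        have : (Φ ∘ tau g : L → A) = ι := funext hΦ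
        rw [this]
      obtain ⟨u, hu⟩ := h1 hd
      exact ⟨u, hu⟩
  exact ⟨AlgEquiv.ofBijective Φ hbij, hΦ⟩

end Pool.Agent.Helper21.KW
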