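import Pool.Agent.Helper21.KW.Defs
import Pool.Agent.Helper21.KW.Dbl1
import Pool.Agent.Helper34.KW.Inst

set_option autoImplicit false

/-!
# MODULE KW-Dbl2: the double `L ⋉ L*` of a Lie algebra in characteristic 3

`g : Alg k X L` (helper56) a Lie algebra (`par = false`) in which `(ad v) ^ 3` is inner.  Let
`L̂ = L × Dual k L`, `[(v, f), (w, h)] = ([v, w], v·h - w·f)`, `v·f = - f ∘ ad v`, and
`κ ((v, f), (w, h)) = f w + h v` (nondegenerate, symmetric, invariant).

* `exists_alg`, `PBW_env` (helper58), `env_lift`.  The basis of `L̂` is indexed by `Fin n`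
  (any linear order).
* `cube`: with `(ad v) ^ 3 = ad v'`, `(v, f)' = (v', v·v·f)`: `(ad (v, f)) ^ 3 = ad (v', v·v·f)`,
  since in characteristic 3 the operators satisfy
  `v v w + v (v w - w v) + (v v w - 2 v w v + w v v) = w v v`; and for `b = ι (v, f)`:
  `(ad b) ^ 3 = ad (b ^ 3)` on `Â`, so `b ^ 3 - ι (v, f)'` commutes with `ι L̂`, is central, and
  `D = ad (ι (x, 0))` kills it.
-/

namespace Pool.Agent.Helper21.KW

open MvPolynomial Module Finset Pool.Agent.Helper58.KW Pool.Agent.Helper56.SKW.PBW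
  Pool.Agent.Helper56.SKU Pool.Agent.Helper56.SKR

universe u

section dbl

variable {k : Type*} [Field k] {L : Type*} [AddCommGroup L] [Module k L]

/-- The bracket of the double. -/
def dbr (b : L →ₗ[k] L →ₗ[k] L) : (L × Dual k L) →ₗ[k] (L × Dual k L) →ₗ[k] (L × Dual k L) :=
  LinearMap.mk₂ k (fun u v => (b u.1 v.1, u.2 ∘ₗ b v.1 - v.2 ∘ₗ b u.1))
    (by
      intro u u' v
      refine Prod.ext ?_ ?_
      · simp only [Prod.fst_add, map_add, LinearMap.add_apply]
      · simp only [Prod.fst_add, Prod.snd_add, map_add, LinearMap.add_comp, LinearMap.comp_add]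
        abel)
    (by
      intro c u v
      refine Prod.ext ?_ ?_
      · simp only [Prod.smul_fst, map_smul, LinearMap.smul_apply]
      · simp only [Prod.smul_fst, Prod.smul_snd, map_smul, LinearMap.smul_comp,
          LinearMap.comp_smul, smul_sub])
    (by
      intro u v v'
      refine Prod.ext ?_ ?_
      · simp only [Prod.fst_add, map_add]
      · simp only [Prod.fst_add, Prod.snd_add, map_add, LinearMap.add_comp, LinearMap.comp_add]
        abel)
    (by
      intro c u v
      refine Prod.ext ?_ ?_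
      · simp only [Prod.smul_fst, map_smul]
      · simp only [Prod.smul_fst, Prod.smul_snd, map_smul, LinearMap.smul_comp,
          LinearMap.comp_smul, smul_sub])

theorem dbr_fst (b : L →ₗ[k] L →ₗ[k] L) (u v : L × Dual k L) : (dbr b u v).1 = b u.1 v.1 := rfl

theorem dbr_snd (b : L →ₗ[k] L →ₗ[k] L) (u v : L × Dual k L) (z : L) :
    (dbr b u v).2 z = u.2 (b v.1 z) - v.2 (b u.1 z) := rfl

theorem dbr_alt (b : L →ₗ[k] L →ₗ[k] L) (halt : ∀ v, b v v = 0) (v : L × Dual k L) :
    dbr b v v = 0 := by
  refine Prod.ext ?_ ?_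
  · rw [dbr_fst, halt]
    rfl
  · apply LinearMap.ext
    intro z
    rw [dbr_snd, sub_self]
    rfl

theorem dbr_jac (b : L →ₗ[k] L →ₗ[k] L)
    (hjac : ∀ u v w, b u (b v w) = b (b u v) w + b v (b u w)) (u v w : L × Dual k L) :
    dbr b u (dbr b v w) = dbr b (dbr b u v) w + dbr b v (dbr b u w) := by
  refine Prod.ext ?_ ?_
  · rw [Prod.fst_add]
    simp only [dbr_fst]
    exact hjac _ _ _
  · apply LinearMap.ext
    intro z
    rw [Prod.snd_add, LinearMap.add_apply]
    simp only [dbr_snd, dbr_fst]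
    rw [hjac u.1 v.1 z, hjac v.1 w.1 z, hjac u.1 w.1 z]
    simp only [map_add]
    ring

/-- The invariant form. -/
def dka (k L : Type*) [Field k] [AddCommGroup L] [Module k L] :
    (L × Dual k L) →ₗ[k] (L × Dual k L) →ₗ[k] k :=
  LinearMap.mk₂ k (fun u v => u.2 v.1 + v.2 u.1)
    (by
      intro u u' v
      simp only [Prod.fst_add, Prod.snd_add, map_add, LinearMap.add_apply]
      ring)
    (by
      intro c u v
      simp only [Prod.smul_fst, Prod.smul_snd, map_smul, LinearMap.smul_apply, smul_add])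
    (by
      intro u v v'
      simp only [Prod.fst_add, Prod.snd_add, map_add, LinearMap.add_apply]
      ring)
    (by
      intro c u v
      simp only [Prod.smul_fst, Prod.smul_snd, map_smul, LinearMap.smul_apply, smul_add])

theorem dka_apply (u v : L × Dual k L) : dka k L u v = u.2 v.1 + v.2 u.1 := rfl

theorem dka_nondeg (v : L × Dual k L) (h : ∀ w, dka k L v w = 0) : v = 0 := by
  refine Prod.ext ?_ ?_
  · refine (Module.forall_dual_apply_eq_zero_iff k v.1).1 fun f => ?_
    have := h (0, f)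
    rw [dka_apply] at this
    simpa using this
  · apply LinearMap.ext
    intro z
    have := h (z, 0)
    rw [dka_apply] at this
    simpa using this

theorem dka_inv (b : L →ₗ[k] L →ₗ[k] L) (halt : ∀ v, b v v = 0) (u v w : L × Dual k L) :
    dka k L (dbr b u v) w + dka k L v (dbr b u w) = 0 := by
  have h1 : b v.1 w.1 = - b w.1 v.1 := by
    have h2 := halt (v.1 + w.1)
    simp only [map_add, LinearMap.add_apply, halt, zero_add, add_zero] at h2
    rw [eq_neg_iff_add_eq_zero, add_comm]
    exact h2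
  simp only [dka_apply, dbr_snd, dbr_fst]
  rw [h1, map_neg]
  ring

/-- The cube of an adjoint map of the double. -/
theorem dbr_cube [CharP k 3] (b : L →ₗ[k] L →ₗ[k] L)
    (hjac : ∀ u v w, b u (b v w) = b (b u v) w + b v (b u w)) {v v' : L}
    (hv : ∀ w, b v (b v (b v w)) = b v' w) (f : Dual k L) (w : L × Dual k L) :
    dbr b (v', (f ∘ₗ b v) ∘ₗ b v) w = dbr b (v, f) (dbr b (v, f) (dbr b (v, f) w)) := by
  have h3 : (3 : k) = 0 := by
    have := CharP.cast_eq_zero k 3
    exact_mod_cast this
  refine Prod.ext ?_ ?_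
  · simp only [dbr_fst]
    exact (hv _).symm
  · apply LinearMap.ext
    intro z
    simp only [dbr_snd, dbr_fst]
    show f (b v (b v (b w.1 z))) - w.2 (b v' z) = _
    have e1 : b (b v w.1) z = b v (b w.1 z) - b w.1 (b v z) := by
      rw [hjac v w.1 z]
      abel
    have e2 : b (b v (b v w.1)) z = b v (b (b v w.1) z) - b (b v w.1) (b v z) := by
      rw [hjac v (b v w.1) z]
      abel
    have e3 : b (b v w.1) (b v z) = b v (b w.1 (b v z)) - b w.1 (b v (b v z)) := by
      rw [hjac v w.1 (b v z)]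
      abel
    rw [e2, e1, e3, hv]
    simp only [map_sub]
    linear_combination (f (b v (b w.1 (b v z))) - f (b w.1 (b v (b v z)))) * h3

end dbl

theorem exists_double {k : Type u} [Field k] [CharP k 3] {X : Type} [Fintype X] [LinearOrder X]
    {L : Type u} [AddCommGroup L] [Module k L] (g : Alg k X L) (hev : ∀ x, g.par x = false)
    (hp : ∀ v, ∃ v', ∀ w, g.br v (g.br v (g.br v w)) = g.br v' w) :
    ∃ (A : Type u) (_ : Ring A) (_ : Algebra k A) (ι : (L × Dual k L) →ₗ[k] A)
      (br : (L × Dual k L) →ₗ[k] (L × Dual k L) →ₗ[k] (L × Dual k L))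
      (κ : (L × Dual k L) →ₗ[k] (L × Dual k L) →ₗ[k] k) (m : ℕ)
      (e : Basis (Fin m) k (L × Dual k L)) (symb : MvPolynomial (Fin m) k →ₗ[k] A)
      (Φ : Env g →ₐ[k] A), PBW ι e symb ∧ (∀ v, Φ (tau g v) = ι (v, 0)) ∧
      ∀ x : L, QD ι br κ (br (x, 0)) (LinearMap.mulLeft k (ι (x, 0)) -
        LinearMap.mulRight k (ι (x, 0))) ∧
        ∀ v f, br (x, 0) (v, f) = (g.br x v, - (f ∘ₗ g.br x)) := by
  classical
  have hp3 : Fact (Nat.Prime 3) := ⟨Nat.prime_three⟩
  have h2 : (2 : k) ≠ 0 := by
    intro h0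
    have h1 : ((2 : ℕ) : k) = 0 := by exact_mod_cast h0
    rw [CharP.cast_eq_zero_iff k 3] at h1
    omega
  have halt := alg_alt g hev
  have hjac := alg_jac g hev
  let e0 : Basis (X ⊕ X) k (L × Dual k L) := g.e.prod g.e.dualBasis
  let e1 : Basis (Fin (Fintype.card (X ⊕ X))) k (L × Dual k L) :=
    e0.reindex (Fintype.equivFin (X ⊕ X))
  obtain ⟨G, hGe, hGbr, hGev⟩ := exists_alg e1 (dbr g.br) (dbr_alt g.br halt)
    (dbr_jac g.br hjac)
  have hτ : ∀ v w, tau G (G.br v w) = tau G v * tau G w - tau G w * tau G v :=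
    Pool.Agent.Helper34.KW.tau_br G hGev
  obtain ⟨Φ, hΦ⟩ := env_lift g hev (tau G ∘ₗ LinearMap.inl k L (Dual k L)) (fun v w => by
    have h3 := hτ (v, 0) (w, 0)
    have h4 : G.br (v, 0) (w, 0) = (g.br v w, 0) := by
      rw [hGbr]
      refine Prod.ext rfl ?_
      apply LinearMap.ext
      intro z
      rw [dbr_snd]
      simp
    rw [h4] at h3
    exact h3)
  refine ⟨Env G, inferInstance, inferInstance, tau G, G.br, dka k L, _, G.e,
    Pool.Agent.Helper56.SKR.symb G, Φ, PBW_env G h2 hGev, hΦ, fun x => ⟨?_, fun v f => ?_⟩⟩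
  · have hcube : ∀ v : L × Dual k L, ∃ v', ∀ a, (tau G v ^ 3 - tau G v') * a =
        a * (tau G v ^ 3 - tau G v') := by
      rintro ⟨v, f⟩
      obtain ⟨v', hv'⟩ := hp v
      refine ⟨(v', (f ∘ₗ g.br v) ∘ₗ g.br v), ?_⟩
      refine Pool.Agent.Helper34.KW.pow_cen (p := 3) h2 hGev fun w => ?_
      have h5 := dbr_cube g.br hjac hv' f w
      rw [← hGbr] at h5
      rw [h5, pow_succ', pow_succ', pow_one]
      rfl
    exact
      { br_eq := hτ
        symm := fun v w => by
          rw [dka_apply, dka_apply, add_comm]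
        nondeg := dka_nondeg
        inv := by
          rw [hGbr]
          exact dka_inv g.br halt
        skew := fun v w => by
          rw [hGbr]
          exact dka_inv g.br halt _ _ _
        der := fun a b => by
          simp only [LinearMap.sub_apply, LinearMap.mulLeft_apply, LinearMap.mulRight_apply]
          noncomm_ring
        Dι := fun v => by
          rw [hτ]
          rfl
        cube := fun v => by
          obtain ⟨v', hv'⟩ := hcube v
          refine ⟨v', hv', ?_⟩
          rw [LinearMap.sub_apply, LinearMap.mulLeft_apply, LinearMap.mulRight_apply, hv',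
            sub_self] }
  · rw [hGbr]
    refine Prod.ext rfl ?_
    apply LinearMap.ext
    intro z
    rw [dbr_snd]
    simp

end Pool.Agent.Helper21.KW
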