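import Pool.Agent.Helper58.KW.Final

set_option autoImplicit false

/-!
# Project KW, step (4): definitions

`A` is an algebra in characteristic 3 with a derivation `δ`, `δ ^ 3 = 0`.  `SData δ S` says that `S`
is the superalgebra attached to `(A, δ)`: its even part is `ker δ / (ker δ ∩ im δ)`, its odd part
`ker δ² / (ker δ + ker δ² ∩ im δ)`, with the product `w * w' = w δ w' - δ w w'` of odd elements.
-/

namespace Pool.Agent.Helper21.KW

open MvPolynomial Module Finset Pool.Agent.Helper58.KW

section wdp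

variable {k : Type*} [Field k] {A : Type*} [Ring A] [Algebra k A]

/-- The product of a list of odd elements in the superalgebra attached to `(A, δ)`. -/
def wdp (δ : A →ₗ[k] A) : List A → A
  | [] => 1
  | b :: l => if Even l.length then b * wdp δ l else b * δ (wdp δ l) - δ b * wdp δ l

/-- `S` is the superalgebra attached to `(A, δ)`.  The values of `c0` outside `ker δ`, and of `c1`
outside `ker δ²`, have no meaning. -/
structure SData (δ : A →ₗ[k] A) (S : Type*) [Ring S] [Algebra k S] where
  c0 : A →ₗ[k] S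
  c1 : A →ₗ[k] S
  one : c0 1 = 1
  mul00 : ∀ n n', δ n = 0 → δ n' = 0 → c0 n * c0 n' = c0 (n * n')
  mul01 : ∀ n w, δ n = 0 → δ (δ w) = 0 → c0 n * c1 w = c1 (n * w)
  mul10 : ∀ w n, δ (δ w) = 0 → δ n = 0 → c1 w * c0 n = c1 (w * n)
  mul11 : ∀ w w', δ (δ w) = 0 → δ (δ w') = 0 → c1 w * c1 w' = c0 (w * δ w' - δ w * w')
  surj : ∀ s, ∃ n w, δ n = 0 ∧ δ (δ w) = 0 ∧ s = c0 n + c1 w
  ker : ∀ n w, δ n = 0 → δ (δ w) = 0 →
    (c0 n + c1 w = 0 ↔ (∃ a, δ a = n) ∧ ∃ n' a, δ n' = 0 ∧ w = n' + δ a)
  σ : S →ₐ[k] S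
  σ0 : ∀ n, δ n = 0 → σ (c0 n) = c0 n
  σ1 : ∀ w, δ (δ w) = 0 → σ (c1 w) = -c1 w

end wdp

section blocks

variable (k : Type*) [Field k] {X I : Type*} (J : Jd X I)

/-- The heads of the blocks: the even variables of the superalgebra (for a block of size 1 the
variable itself, of weight 1; otherwise its cube, of weight 3). -/
abbrev Xp : Type _ := {x : X // J.pos x = 0}

/-- The heads of the blocks of size 2: the odd variables of the superalgebra. -/
abbrev Yp : Type _ := {x : X // J.pos x = 0 ∧ J.sz (J.blk x) = 2}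

/-- The weight of an even variable. -/
def wt (x : Xp J) : ℕ := if J.sz (J.blk x.1) = 1 then 1 else 3

/-- The exponent of a monomial in the even variables. -/
noncomputable def lam [Fintype X] (μ : Xp J →₀ ℕ) : X →₀ ℕ :=
  Finsupp.equivFunOnFinite.symm fun x => if h : J.pos x = 0 then wt J ⟨x, h⟩ * μ ⟨x, h⟩ else 0

/-- The derivation of the polynomial ring, as a linear map. -/
noncomputable def dP : MvPolynomial X k →ₗ[k] MvPolynomial X k :=
  ((DX k J.nx : Derivation k (MvPolynomial X k) (MvPolynomial X k)) :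
    MvPolynomial X k →ₗ[k] MvPolynomial X k)

/-- The product of the odd variables of a list. -/
noncomputable def wL (l : List (Yp J)) : MvPolynomial X k :=
  wdp (dP k J) (l.map fun y => (MvPolynomial.X y.1 : MvPolynomial X k))

/-- The product of the odd variables of a set. -/
noncomputable def wP [LinearOrder X] (T : Finset (Yp J)) : MvPolynomial X k :=
  wL k J (T.sort (· ≤ ·))

/-- The span of the products `monomial (lam J μ) 1 * wP k J T` of degree `d` with
`T.card % 2 = b`. -/
noncomputable def SP [Fintype X] [LinearOrder X] (b d : ℕ) : Submodule k (MvPolynomial X k) :=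
  Submodule.span k {f | ∃ (μ : Xp J →₀ ℕ) (T : Finset (Yp J)), T.card % 2 = b ∧
    (lam J μ).degree + T.card = d ∧ f = monomial (lam J μ) 1 * wP k J T}

end blocks

section omon

variable {X : Type*} [Fintype X] [LinearOrder X] {A : Type*} [Ring A]

/-- The ordered monomial. -/
noncomputable def omon (f : X → A) (ν : X →₀ ℕ) : A :=
  ((Finset.univ.sort (· ≤ ·)).map fun x => f x ^ ν x).prod

end omon

section QD

variable {k : Type*} [Field k] {V : Type*} [AddCommGroup V] [Module k V] {A : Type*} [Ring A]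
  [Algebra k A]

/-- A Lie algebra `V` with a nondegenerate invariant symmetric form `κ`, in its enveloping algebra
`A`, a skew derivation `D₀` that extends to `A`, and cubes up to `D`-invariant central elements. -/
structure QD (ι : V →ₗ[k] A) (br : V →ₗ[k] V →ₗ[k] V) (κ : V →ₗ[k] V →ₗ[k] k)
    (D₀ : V →ₗ[k] V) (D : A →ₗ[k] A) : Prop where
  br_eq : ∀ v w, ι (br v w) = ι v * ι w - ι w * ι v
  symm : ∀ v w, κ v w = κ w v
  nondeg : ∀ v, (∀ w, κ v w = 0) → v = 0
  inv : ∀ u v w, κ (br u v) w + κ v (br u w) = 0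
  skew : ∀ v w, κ (D₀ v) w + κ v (D₀ w) = 0
  der : ∀ a b, D (a * b) = D a * b + a * D b
  Dι : ∀ v, D (ι v) = ι (D₀ v)
  cube : ∀ v, ∃ v', (∀ a, (ι v ^ 3 - ι v') * a = a * (ι v ^ 3 - ι v')) ∧ D (ι v ^ 3 - ι v') = 0

end QD

end Pool.Agent.Helper21.KW
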