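import Pool.Agent.Helper21.KW.Jor1
import Pool.Agent.Helper58.KW.Der

set_option autoImplicit false

/-!
# MODULE KW-Jor2 (stub): the reduction to nilpotent `ad x`

Uses the (sorried, being proved in parallel) module Jor1.
Let `T = br x` on `V`, `D = ad (ι x)` on `A`, `Ts`, `c`, `r` from `exists_jor`,
`Ds = ∑ c_i D ^ (p ^ (i+1))` on `A`.
`D ^ (p ^ i)` is a derivation of `A` (`leib_char` in Helper58/KW/Der.lean), it extends
`T ^ (p ^ i) = br x_i` (`hp`), hence equals `ad (ι x_i)` (`hgen`); so `Ds = ad (ι xs)` with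
`xs = ∑ c_i x_{i+1}`, `D - Ds = ad (ι xn)`, `xn = x - xs`, `br xn = T - Ts` is nilpotent.  The
derivation `Ds - ∑ c_i Ds ^ (p ^ (i+1))` vanishes on `ι V`, so on `A`.  Let
`e₀ = 1 - ∑ c_i Ds ^ (p ^ (i+1) - 1)` (on `A` and on `V`): `Ds e₀ = 0`, `e₀ = 1` on `ker Ds`.  If
`D u = ι y` then `D (e₀ u) = ι (e₀ y)`, `Ds (e₀ u) = 0`, so `ad (ι xn) (e₀ u) = ι (e₀ y)`: by `hE`
there is `z` with `br xn z = e₀ y`, and `e₀ y = e₀ (e₀ y) = (T - Ts) (e₀ z) = T (e₀ z)`.  Finally
`y - e₀ y = ∑ c_i Ts ^ (p ^ (i+1) - 1) y` is in the range of `Ts`, which is in the range of `T`.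
-/

namespace Pool.Agent.Helper21.KW

open Module Finset

section jaux

variable {k : Type*} [Field k] {A : Type*} [Ring A] [Algebra k A]

/-- The inner derivation. -/
def jadL (k : Type*) [Field k] {A : Type*} [Ring A] [Algebra k A] (a : A) : A →ₗ[k] A :=
  LinearMap.mulLeft k a - LinearMap.mulRight k a

theorem jadL_apply (a b : A) : jadL k a b = a * b - b * a := rfl

theorem jadL_leib (a b c : A) : jadL k a (b * c) = jadL k a b * c + b * jadL k a c := by
  simp only [jadL_apply]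
  noncomm_ring

theorem jder_pow (p : ℕ) [Fact p.Prime] [CharP k p] (D : A →ₗ[k] A)
    (hD : ∀ a b, D (a * b) = D a * b + a * D b) (i : ℕ) :
    ∀ a b, (D ^ (p ^ i)) (a * b) = (D ^ (p ^ i)) a * b + a * (D ^ (p ^ i)) b := by
  induction i with
  | zero => simpa using hD
  | succ i ih =>
    intro a b
    rw [pow_succ, pow_mul]
    exact Pool.Agent.Helper58.KW.leib_char p (D ^ (p ^ i)) ih a b

theorem jder_ext {V : Type*} [AddCommGroup V] [Module k V] (ι : V →ₗ[k] A)
    (hgen : Algebra.adjoin k (Set.range ι) = ⊤) (D E : A →ₗ[k] A)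
    (hD : ∀ a b, D (a * b) = D a * b + a * D b) (hE : ∀ a b, E (a * b) = E a * b + a * E b)
    (h : ∀ v, D (ι v) = E (ι v)) : D = E := by
  ext a
  have ha : a ∈ Algebra.adjoin k (Set.range ι) := by
    rw [hgen]
    trivial
  induction ha using Algebra.adjoin_induction with
  | mem x hx =>
    obtain ⟨v, rfl⟩ := hx
    exact h v
  | algebraMap r =>
    rw [Algebra.algebraMap_eq_smul_one, map_smul, map_smul,
      Pool.Agent.Helper58.KW.leib_one D hD, Pool.Agent.Helper58.KW.leib_one E hE]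
  | add x y _ _ hx hy => rw [map_add, map_add, hx, hy]
  | mul x y _ _ hx hy => rw [hD, hE, hx, hy]

theorem jder_sum (S : Finset ℕ) (c : ℕ → k) (D : ℕ → A →ₗ[k] A)
    (hD : ∀ i a b, D i (a * b) = D i a * b + a * D i b) (a b : A) :
    (∑ i ∈ S, c i • D i) (a * b) =
      (∑ i ∈ S, c i • D i) a * b + a * (∑ i ∈ S, c i • D i) b := by
  simp only [LinearMap.sum_apply, LinearMap.smul_apply, Finset.sum_mul, Finset.mul_sum, hD,
    smul_add, Finset.sum_add_distrib, smul_mul_assoc, mul_smul_comm]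

/-- The projection on the kernel. -/
def jE {W : Type*} [AddCommGroup W] [Module k W] (S : W →ₗ[k] W) (r p : ℕ) (c : ℕ → k) :
    W →ₗ[k] W := 1 - ∑ j ∈ range r, c j • S ^ (p ^ (j + 1) - 1)

theorem jE_mul {W : Type*} [AddCommGroup W] [Module k W] (S : W →ₗ[k] W) (r p : ℕ) (hp : 0 < p)
    (c : ℕ → k) (h : S = ∑ j ∈ range r, c j • S ^ (p ^ (j + 1))) (w : W) :
    S (jE S r p c w) = 0 := by
  have h1 : S * jE S r p c = 0 := by
    unfold jE
    rw [mul_sub, mul_one, Finset.mul_sum]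
    have h2 : ∀ j ∈ range r, S * (c j • S ^ (p ^ (j + 1) - 1)) = c j • S ^ (p ^ (j + 1)) := by
      intro j _
      rw [mul_smul_comm, ← pow_succ', Nat.sub_add_cancel (Nat.one_le_pow _ _ hp)]
    rw [Finset.sum_congr rfl h2, ← h, sub_self]
  have h3 := LinearMap.congr_fun h1 w
  simpa using h3

theorem jE_two {p : ℕ} (hp : 2 ≤ p) (j : ℕ) : ∃ m, p ^ (j + 1) - 1 = m + 1 := by
  have h1 : p ^ 1 ≤ p ^ (j + 1) := Nat.pow_le_pow_right (by omega) (by omega)
  rw [pow_one] at h1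
  exact ⟨p ^ (j + 1) - 2, by omega⟩

theorem jE_ker {W : Type*} [AddCommGroup W] [Module k W] (S : W →ₗ[k] W) (r p : ℕ) (hp : 2 ≤ p)
    (c : ℕ → k) {w : W} (hw : S w = 0) : jE S r p c w = w := by
  unfold jE
  rw [LinearMap.sub_apply, Module.End.one_apply, LinearMap.sum_apply, Finset.sum_eq_zero,
    sub_zero]
  intro j _
  obtain ⟨m, hm⟩ := jE_two hp j
  rw [LinearMap.smul_apply, hm, pow_succ, Module.End.mul_apply, hw, map_zero, smul_zero]

theorem jE_comm {W : Type*} [AddCommGroup W] [Module k W] (S D : W →ₗ[k] W) (r p : ℕ)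
    (c : ℕ → k) (h : Commute D S) (w : W) : D (jE S r p c w) = jE S r p c (D w) := by
  have h1 : Commute D (jE S r p c) :=
    (Commute.one_right D).sub_right
      (Commute.sum_right _ _ _ fun j _ => (h.pow_right _).smul_right _)
  have h2 := LinearMap.congr_fun h1.eq w
  simpa using h2

theorem jE_range {W : Type*} [AddCommGroup W] [Module k W] (S : W →ₗ[k] W) (r p : ℕ)
    (hp : 2 ≤ p) (c : ℕ → k) (y : W) : ∃ w, y - jE S r p c y = S w := by
  refine ⟨(∑ j ∈ range r, c j • S ^ (p ^ (j + 1) - 1 - 1)) y, ?_⟩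
  have h : S * (∑ j ∈ range r, c j • S ^ (p ^ (j + 1) - 1 - 1)) =
      ∑ j ∈ range r, c j • S ^ (p ^ (j + 1) - 1) := by
    rw [Finset.mul_sum]
    refine Finset.sum_congr rfl fun j _ => ?_
    obtain ⟨m, hm⟩ := jE_two hp j
    rw [mul_smul_comm, ← pow_succ', hm]
    rfl
  rw [← Module.End.mul_apply, h]
  unfold jE
  rw [LinearMap.sub_apply, Module.End.one_apply, sub_sub_cancel]

theorem jE_rel {V : Type*} [AddCommGroup V] [Module k V] (ι : V →ₗ[k] A) (D : A →ₗ[k] A)
    (S : V →ₗ[k] V) (r p : ℕ) (c : ℕ → k) (h : S = ∑ j ∈ range r, c j • S ^ (p ^ (j + 1)))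
    (hι : ∀ (n : ℕ) (v : V), (D ^ n) (ι v) = ι ((S ^ n) v)) (v : V) :
    ι (S v) = (∑ j ∈ range r, c j • D ^ (p ^ (j + 1))) (ι v) := by
  rw [LinearMap.sum_apply]
  have h1 := LinearMap.congr_fun h v
  rw [h1, LinearMap.sum_apply, map_sum]
  refine Finset.sum_congr rfl fun j _ => ?_
  rw [LinearMap.smul_apply, LinearMap.smul_apply, map_smul, hι]

end jaux

theorem E_of_nil (p : ℕ) [Fact p.Prime] {k : Type*} [Field k] [CharP k p] [PerfectRing k p]
    {V : Type*} [AddCommGroup V] [Module k V] [FiniteDimensional k V] {A : Type*} [Ring A]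
    [Algebra k A] (ι : V →ₗ[k] A) (hinj : Function.Injective ι)
    (hgen : Algebra.adjoin k (Set.range ι) = ⊤) (br : V →ₗ[k] V →ₗ[k] V)
    (hbr : ∀ v w, ι (br v w) = ι v * ι w - ι w * ι v)
    (hp : ∀ v, ∃ v', (br v) ^ p = br v')
    (hE : ∀ (x : V) (s : ℕ), (br x) ^ (p ^ s) = 0 → ∀ (u : A) (y : V),
      ι x * u - u * ι x = ι y → ∃ z, br x z = y)
    (x : V) (u : A) (y : V) (hu : ι x * u - u * ι x = ι y) : ∃ z, br x z = y := by
  classical
  have hp2 : 2 ≤ p := (Fact.out : p.Prime).two_le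
  obtain ⟨r, s, c, hnil, hTs⟩ := exists_jor p (br x)
  set T : V →ₗ[k] V := br x with hT
  set D : A →ₗ[k] A := jadL k (ι x) with hD
  have hDl : ∀ a b, D (a * b) = D a * b + a * D b := jadL_leib _
  have hDι : ∀ v, D (ι v) = ι (T v) := fun v => by rw [hD, jadL_apply, hT, hbr]
  have hpow : ∀ (D' : A →ₗ[k] A) (T' : V →ₗ[k] V), (∀ v, D' (ι v) = ι (T' v)) →
      ∀ (n : ℕ) (v : V), (D' ^ n) (ι v) = ι ((T' ^ n) v) := by
    intro D' T' h n
    induction n with
    | zero => intro v; simp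
    | succ n ih =>
      intro v
      rw [pow_succ, pow_succ, Module.End.mul_apply, Module.End.mul_apply, h, ih]
  have hx : ∀ i : ℕ, ∃ v, T ^ (p ^ i) = br v := by
    intro i
    induction i with
    | zero => exact ⟨x, by rw [pow_zero, pow_one]⟩
    | succ i ih =>
      obtain ⟨v, hv⟩ := ih
      obtain ⟨v', hv'⟩ := hp v
      exact ⟨v', by rw [pow_succ, pow_mul, hv, hv']⟩
  choose xi hxi using hx
  have hDi : ∀ i, D ^ (p ^ i) = jadL k (ι (xi i)) := fun i =>
    jder_ext ι hgen _ _ (jder_pow p D hDl i) (jadL_leib _)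
      (fun v => by rw [hpow D T hDι, hxi, hbr, jadL_apply])
  set xs : V := ∑ i ∈ range r, c i • xi (i + 1) with hxs
  have hbrs : br xs = ∑ i ∈ range r, c i • T ^ (p ^ (i + 1)) := by
    rw [hxs, map_sum]
    exact Finset.sum_congr rfl fun i _ => by rw [map_smul, hxi]
  set Ts : V →ₗ[k] V := ∑ i ∈ range r, c i • T ^ (p ^ (i + 1)) with hTsd
  set Ds : A →ₗ[k] A := ∑ i ∈ range r, c i • D ^ (p ^ (i + 1)) with hDsd
  have hDsad : Ds = jadL k (ι xs) := by
    ext a
    rw [hDsd, LinearMap.sum_apply]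
    simp only [LinearMap.smul_apply, hDi, jadL_apply, hxs, map_sum, map_smul, Finset.sum_mul,
      Finset.mul_sum, smul_mul_assoc, mul_smul_comm, smul_sub, Finset.sum_sub_distrib]
  have hDsl : ∀ a b, Ds (a * b) = Ds a * b + a * Ds b := by
    rw [hDsad]
    exact jadL_leib _
  have hDsι : ∀ v, Ds (ι v) = ι (Ts v) := by
    intro v
    rw [hDsad, jadL_apply, ← hbr, hbrs]
  have hDsrel : Ds = ∑ j ∈ range r, c j • Ds ^ (p ^ (j + 1)) := by
    refine jder_ext ι hgen _ _ hDsl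
      (jder_sum _ _ _ fun i => jder_pow p Ds hDsl (i + 1)) fun v => ?_
    rw [hDsι]
    exact jE_rel ι Ds Ts r p c hTs (hpow Ds Ts hDsι) v
  have hcA : Commute D Ds :=
    Commute.sum_right _ _ _ fun i _ => ((Commute.refl D).pow_right _).smul_right _
  have hcV : Commute T Ts :=
    Commute.sum_right _ _ _ fun i _ => ((Commute.refl T).pow_right _).smul_right _
  have heι : ∀ v, jE Ds r p c (ι v) = ι (jE Ts r p c v) := by
    intro v
    unfold jE
    rw [LinearMap.sub_apply, LinearMap.sub_apply, Module.End.one_apply, Module.End.one_apply,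
      LinearMap.sum_apply, LinearMap.sum_apply, map_sub, map_sum]
    congr 1
    refine Finset.sum_congr rfl fun j _ => ?_
    rw [LinearMap.smul_apply, LinearMap.smul_apply, map_smul, hpow Ds Ts hDsι]
  have hDu : D u = ι y := hu
  have h1 : D (jE Ds r p c u) = ι (jE Ts r p c y) := by
    rw [jE_comm Ds D r p c hcA, hDu, heι]
  have h2 : Ds (jE Ds r p c u) = 0 := jE_mul Ds r p (by omega) c hDsrel u
  have hbrn : br (x - xs) = T - Ts := by rw [map_sub, hbrs]
  have h3 : ι (x - xs) * jE Ds r p c u - jE Ds r p c u * ι (x - xs) = ι (jE Ts r p c y) := by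
    have h4 : ι (x - xs) * jE Ds r p c u - jE Ds r p c u * ι (x - xs) =
        D (jE Ds r p c u) - Ds (jE Ds r p c u) := by
      rw [hDsad, hD, jadL_apply, jadL_apply, map_sub]
      noncomm_ring
    rw [h4, h1, h2, sub_zero]
  obtain ⟨z, hz⟩ := hE (x - xs) s (by rw [hbrn]; exact hnil) _ _ h3
  rw [hbrn] at hz
  have h5 : Ts (jE Ts r p c y) = 0 := jE_mul Ts r p (by omega) c hTs y
  have h6 : jE Ts r p c y = T (jE Ts r p c z) := by
    rw [← jE_ker Ts r p hp2 c h5, ← hz, LinearMap.sub_apply, map_sub,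
      ← jE_comm Ts T r p c hcV, ← jE_comm Ts Ts r p c (Commute.refl _),
      jE_mul Ts r p (by omega) c hTs z, sub_zero]
  have h7 : ∀ w, ∃ w', T w' = Ts w := by
    intro w
    refine ⟨(∑ i ∈ range r, c i • T ^ (p ^ (i + 1) - 1)) w, ?_⟩
    rw [hTsd, LinearMap.sum_apply, LinearMap.sum_apply, map_sum]
    refine Finset.sum_congr rfl fun i _ => ?_
    rw [LinearMap.smul_apply, LinearMap.smul_apply, map_smul, ← Module.End.mul_apply,
      ← pow_succ', Nat.sub_add_cancel (Nat.one_le_pow _ _ (by omega))]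
  have h8 : ∃ w, y - jE Ts r p c y = Ts w := jE_range Ts r p hp2 c y
  obtain ⟨w, hw⟩ := h8
  obtain ⟨w', hw'⟩ := h7 w
  refine ⟨jE Ts r p c z + w', ?_⟩
  rw [map_add, ← h6, hw', ← hw]
  abel

end Pool.Agent.Helper21.KW
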