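import Pool.Agent.Helper21.KW.Step
import Pool.Agent.Helper21.KW.Dbl2
import Pool.Agent.Helper21.KW.Jor2

set_option autoImplicit false

/-!
# Project KW: the property (E) for all restricted Lie algebras in characteristic 3
-/

namespace Pool.Agent.Helper21.KW

open MvPolynomial Module Finset Pool.Agent.Helper58.KW Pool.Agent.Helper56.SKW.PBW
  Pool.Agent.Helper56.SKU Pool.Agent.Helper56.SKR

universe u

section

variable {k : Type u} [Field k] [CharP k 3] {X : Type} [Fintype X] [LinearOrder X]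
  {L : Type u} [AddCommGroup L] [Module k L]

theorem adjoin_tau (g : Alg k X L) : Algebra.adjoin k (Set.range (tau g)) = ⊤ := by
  rw [eq_top_iff]
  intro a _
  have h1 : a ∈ (⊤ : Submodule k (Env g)) := trivial
  rw [← env_gen g] at h1
  refine (Submodule.span_le (p := Subalgebra.toSubmodule (Algebra.adjoin k (Set.range (tau g))))).2
    ?_ h1
  rintro _ ⟨l, rfl⟩
  show (l.map fun x => tau g (g.e x)).prod ∈ Algebra.adjoin k (Set.range (tau g))
  apply Subalgebra.list_prod_mem
  intro a ha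
  rw [List.mem_map] at ha
  obtain ⟨x, -, rfl⟩ := ha
  exact Algebra.subset_adjoin ⟨_, rfl⟩

/-- (E) for nilpotent `ad x`. -/
theorem E_nil (g : Alg k X L) (hev : ∀ x, g.par x = false)
    (hp : ∀ v, ∃ v', ∀ w, g.br v (g.br v (g.br v w)) = g.br v' w) (x : L) (s : ℕ)
    (hs : (g.br x) ^ (3 ^ s) = 0) (u : Env g) (y : L)
    (hu : tau g x * u - u * tau g x = tau g y) : ∃ z, g.br x z = y := by
  obtain ⟨A, _, _, ι, br, κ, m, e, symb, Φ, hP, hΦ, hQ⟩ := exists_double g hev hp
  obtain ⟨hq, hbr⟩ := hQ x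
  have h1 : ∀ (n : ℕ) (v : L) (f : Dual k L), ((br (x, 0)) ^ n) (v, f) =
      (((g.br x) ^ n) v, (-1 : k) ^ n • (f ∘ₗ (g.br x) ^ n)) := by
    intro n
    induction n with
    | zero =>
      intro v f
      simp
      rfl
    | succ n ih =>
      intro v f
      rw [pow_succ', Module.End.mul_apply, ih, hbr]
      refine Prod.ext ?_ ?_
      · show g.br x (((g.br x) ^ n) v) = ((g.br x) ^ (n + 1)) v
        rw [pow_succ', Module.End.mul_apply]
      · show -(((-1 : k) ^ n • (f ∘ₗ (g.br x) ^ n)) ∘ₗ g.br x) =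
          (-1 : k) ^ (n + 1) • (f ∘ₗ (g.br x) ^ (n + 1))
        ext w
        simp only [LinearMap.neg_apply, LinearMap.comp_apply, LinearMap.smul_apply, smul_eq_mul]
        rw [pow_succ (g.br x), Module.End.mul_apply]
        ring
  have h2 : (br (x, 0)) ^ (3 ^ s) = 0 := by
    apply LinearMap.ext
    rintro ⟨v, f⟩
    rw [h1, hs]
    simp
  have h3 : (LinearMap.mulLeft k (ι (x, 0)) - LinearMap.mulRight k (ι (x, 0))) (Φ u) =
      ι (y, 0) := by
    rw [LinearMap.sub_apply, LinearMap.mulLeft_apply, LinearMap.mulRight_apply, ← hΦ, ← hΦ,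
      ← map_mul, ← map_mul, ← map_sub, hu]
  obtain ⟨⟨z, f⟩, hz⟩ := all_Pq k s _ _ _ _ _ _ (Fin m) inferInstance ι e symb br κ _ _ hP hq h2 _ _ h3
  rw [hbr] at hz
  exact ⟨z, congrArg Prod.fst hz⟩

/-- (E): `[x, U] ∩ L = [x, L]` for every `x`. -/
theorem E_all [PerfectRing k 3] (g : Alg k X L) (hev : ∀ x, g.par x = false)
    (hp : ∀ v, ∃ v', ∀ w, g.br v (g.br v (g.br v w)) = g.br v' w) (x : L) (u : Env g) (y : L)
    (hu : tau g x * u - u * tau g x = tau g y) : ∃ z, g.br x z = y := by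
  haveI : Fact (Nat.Prime 3) := ⟨by norm_num⟩
  haveI : FiniteDimensional k L := Module.Finite.of_basis g.e
  have h2 : (2 : k) ≠ 0 := by
    intro h
    have h3 : ((3 : ℕ) : k) = 0 := CharP.cast_eq_zero k 3
    have h4 : (1 : k) = ((3 : ℕ) : k) - 2 := by push_cast; ring
    rw [h3, h, sub_zero] at h4
    exact one_ne_zero h4
  refine E_of_nil 3 (tau g) ?_ (adjoin_tau g) g.br (tau_br g hev) ?_ ?_ x u y hu
  · intro a b hab
    rw [← sub_eq_zero]
    refine tau_inj g h2 _ ?_
    rw [map_sub, hab, sub_self]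
  · intro v
    obtain ⟨v', hv'⟩ := hp v
    refine ⟨v', ?_⟩
    apply LinearMap.ext
    intro w
    rw [← hv' w, pow_succ, pow_two]
    rfl
  · intro x s hs u y hu
    exact E_nil g hev hp x s hs u y hu

end

/-- (E) in any universe. -/
theorem E_all' {k : Type u} [Field k] [CharP k 3] [PerfectRing k 3] {X : Type} [Fintype X]
    [LinearOrder X] {L : Type*} [AddCommGroup L] [Module k L] (g : Alg k X L)
    (hev : ∀ x, g.par x = false)
    (hp : ∀ v, ∃ v', ∀ w, g.br v (g.br v (g.br v w)) = g.br v' w) (x : L) (u : Env g) (y : L)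
    (hu : tau g x * u - u * tau g x = tau g y) : ∃ z, g.br x z = y := by
  let φ : L ≃ₗ[k] (X → k) := g.e.equivFun
  let br' : (X → k) →ₗ[k] (X → k) →ₗ[k] (X → k) :=
    LinearMap.mk₂ k (fun a b => φ (g.br (φ.symm a) (φ.symm b)))
      (fun a a' b => by simp only [map_add, LinearMap.add_apply])
      (fun c a b => by simp only [map_smul, LinearMap.smul_apply])
      (fun a b b' => by simp only [map_add])
      (fun c a b => by simp only [map_smul])
  have hbr' : ∀ a b, br' a b = φ (g.br (φ.symm a) (φ.symm b)) := fun _ _ => rfl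
  obtain ⟨g', -, hg'br, hg'par⟩ := exists_alg (Pi.basisFun k X) br'
    (fun v => by rw [hbr', alg_alt g hev, map_zero])
    (fun a b c => by
      simp only [hbr', LinearEquiv.symm_apply_apply]
      rw [alg_jac g hev, map_add])
  obtain ⟨Φ, hΦ⟩ := env_lift g hev (tau g' ∘ₗ φ.toLinearMap) (fun v w => by
    show tau g' (φ (g.br v w)) = tau g' (φ v) * tau g' (φ w) - tau g' (φ w) * tau g' (φ v)
    rw [← tau_br g' hg'par, hg'br, hbr', LinearEquiv.symm_apply_apply,
      LinearEquiv.symm_apply_apply])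
  have h1 : tau g' (φ x) * Φ u - Φ u * tau g' (φ x) = tau g' (φ y) := by
    have h2 := congrArg Φ hu
    rw [map_sub, map_mul, map_mul, hΦ, hΦ] at h2
    exact h2
  obtain ⟨z, hz⟩ := E_all g' hg'par (fun v => by
    obtain ⟨v', hv'⟩ := hp (φ.symm v)
    refine ⟨φ v', fun w => ?_⟩
    rw [hg'br]
    simp only [hbr', LinearEquiv.symm_apply_apply]
    rw [hv']) (φ x) (Φ u) (φ y) h1
  refine ⟨φ.symm z, ?_⟩
  apply φ.injective
  rw [← hz, hg'br, hbr', LinearEquiv.symm_apply_apply]

end Pool.Agent.Helper21.KW
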