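import Pool.Agent.Helper21.KW.Defs

set_option autoImplicit false

/-!
# MODULE KW-Form1 (stub): coordinates in a Jordan basis of `δ₀`, `δ₀ ^ 3 = 0`

(1) if `δ₀ u = 0` then `e.repr u x = 0` for all `x` with `J.nx x ≠ none` (`δ₀ u =
`∑_x e.repr u x • e (nx x)`, `nx` is injective where defined: `Jd.nx_some`, `Jd.inj`); an `x` with
`J.nx x = none` is in a block of size 1 or `x` is the image `J.nx x' = some x`.
(2) if `δ₀ (δ₀ u) = 0` then `u` is a combination of the heads `e y` (`y : Yp J`) of the blocks of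
size 2, an element of `ker δ₀` (blocks of size 1) and one of `range δ₀`.
(3) `κ` nondegenerate symmetric, `δ₀` skew: the orthogonal of `ker δ₀` is `range δ₀` (dimension),
so a `u` in the span of the blocks of size 1 orthogonal to them is orthogonal to `ker δ₀` (by (1)
and skewness), lies in `range δ₀`, is 0 (coordinates).
-/

namespace Pool.Agent.Helper21.KW

open Module Finset Pool.Agent.Helper58.KW

section

variable {k : Type*} [Field k] {X I : Type*} [Fintype X] {J : Jd X I}
  {V : Type*} [AddCommGroup V] [Module k V] {e : Basis X k V} {δ₀ : V →ₗ[k] V}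

/-- The predecessor of a basis vector (`0` for the heads). -/
private noncomputable def form1Pr (J : Jd X I) (e : Basis X k V) (y : X) : V :=
  if J.pos y = 0 then 0 else (J.att (J.blk y) (J.pos y - 1)).elim 0 e

private theorem form1_pr_head {y : X} (h : J.pos y = 0) : form1Pr J e y = 0 := if_pos h

private theorem form1_pr (hnx : ∀ x, δ₀ (e x) = (J.nx x).elim 0 e) {y : X} (h : J.pos y ≠ 0) :
    δ₀ (form1Pr J e y) = e y := by
  have hlt := J.pos_lt y
  cases hx : J.att (J.blk y) (J.pos y - 1) with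
  | none =>
    have := (J.att_none _ _).1 hx
    omega
  | some x =>
    obtain ⟨h1, h2⟩ := (J.att_iff _ _ _).1 hx
    have h3 : J.nx x = some y := by
      rw [Jd.nx, J.att_iff]
      exact ⟨h1.symm, by omega⟩
    rw [form1Pr, if_neg h, hx]
    show δ₀ (e x) = e y
    rw [hnx, h3]
    rfl

omit [Fintype X] in
private theorem form1_repr_nx (hnx : ∀ x, δ₀ (e x) = (J.nx x).elim 0 e) {x y : X}
    (h : J.nx x = some y) (u : V) : e.repr (δ₀ u) y = e.repr u x := by
  classical
  have key : (Finsupp.lapply y ∘ₗ e.repr.toLinearMap ∘ₗ δ₀ : V →ₗ[k] k) =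
      Finsupp.lapply x ∘ₗ e.repr.toLinearMap := by
    refine e.ext fun z => ?_
    simp only [LinearMap.comp_apply, LinearEquiv.coe_coe, Finsupp.lapply_apply, hnx]
    by_cases hzx : z = x
    · subst hzx
      rw [h]
      simp
    · have h1 : e.repr (e z) x = 0 := by
        rw [e.repr_self, Finsupp.single_apply, if_neg hzx]
      rw [h1]
      cases hz : J.nx z with
      | none => simp
      | some w =>
        have hwy : w ≠ y := by
          rintro rfl
          obtain ⟨a1, a2⟩ := J.nx_some h
          obtain ⟨b1, b2⟩ := J.nx_some hz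
          exact hzx (J.inj (b1.symm.trans a1) (by omega))
        show e.repr (e w) y = 0
        rw [e.repr_self, Finsupp.single_apply, if_neg hwy]
  have := LinearMap.congr_fun key u
  simpa using this

private theorem form1_sum_sub {M : Type*} [AddCommMonoid M] (P : X → Prop) [DecidablePred P]
    (f : X → M) : ∑ x : {x // P x}, f x.1 = ∑ x, if P x then f x else 0 := by
  rw [← Finset.sum_filter]
  exact (Finset.sum_subtype (univ.filter P) (by simp) f).symm

/-- heads plus `range δ₀` -/
private theorem form1_dec (hnx : ∀ x, δ₀ (e x) = (J.nx x).elim 0 e) (u : V) :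
    u = ∑ x, (if J.pos x = 0 then e.repr u x • e x else 0) +
      δ₀ (∑ y, e.repr u y • form1Pr J e y) := by
  conv_lhs => rw [← e.sum_repr u]
  rw [map_sum, ← Finset.sum_add_distrib]
  refine Finset.sum_congr rfl fun x _ => ?_
  rw [map_smul]
  by_cases h : J.pos x = 0
  · rw [if_pos h, form1_pr_head h, map_zero, smul_zero, add_zero]
  · rw [if_neg h, form1_pr hnx h, zero_add]

private theorem form1_nx_of_sz {x : X} (h : J.pos x + 1 < J.sz (J.blk x)) :
    ∃ y, J.nx x = some y := by
  cases hx : J.nx x with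
  | none =>
    have := (J.att_none _ _).1 hx
    omega
  | some y => exact ⟨y, rfl⟩

private theorem form1_last (hnx : ∀ x, δ₀ (e x) = (J.nx x).elim 0 e) {x : X}
    (h : J.sz (J.blk x) ≤ J.pos x + 1) : δ₀ (e x) = 0 := by
  have : J.nx x = none := (J.att_none _ _).2 h
  rw [hnx, this]
  rfl

theorem form_ker1 (hnx : ∀ x, δ₀ (e x) = (J.nx x).elim 0 e) {u : V}
    (hu : δ₀ u = 0) :
    ∃ z, u - ∑ x : Xp J, (if J.sz (J.blk x.1) = 1 then e.repr u x.1 else 0) • e x.1 = δ₀ z := by
  refine ⟨∑ y, e.repr u y • form1Pr J e y, ?_⟩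
  have h1 := form1_sum_sub (fun x => J.pos x = 0)
    (fun x => (if J.sz (J.blk x) = 1 then e.repr u x else 0) • e x)
  rw [h1]
  rw [sub_eq_iff_eq_add]
  conv_lhs => rw [form1_dec hnx u]
  rw [add_comm]
  congr 1
  refine Finset.sum_congr rfl fun x _ => ?_
  by_cases h : J.pos x = 0
  · rw [if_pos h, if_pos h]
    by_cases hs : J.sz (J.blk x) = 1
    · rw [if_pos hs]
    · rw [if_neg hs]
      have hlt := J.pos_lt x
      obtain ⟨y, hy⟩ := form1_nx_of_sz (J := J) (x := x) (by omega)
      have := form1_repr_nx hnx hy u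
      rw [hu] at this
      rw [← this]
      simp
  · rw [if_neg h, if_neg h]

theorem form_ker2 (hsz : ∀ i, J.sz i ≤ 3) (hnx : ∀ x, δ₀ (e x) = (J.nx x).elim 0 e) {u : V}
    (hu : δ₀ (δ₀ u) = 0) :
    ∃ v z, δ₀ v = 0 ∧ u = ∑ y : Yp J, e.repr u y.1 • e y.1 + v + δ₀ z := by
  refine ⟨∑ x, (if J.pos x = 0 ∧ J.sz (J.blk x) = 1 then e.repr u x • e x else 0),
    ∑ y, e.repr u y • form1Pr J e y, ?_, ?_⟩
  · rw [map_sum]
    refine Finset.sum_eq_zero fun x _ => ?_
    by_cases h : J.pos x = 0 ∧ J.sz (J.blk x) = 1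
    · rw [if_pos h, map_smul, form1_last hnx (by omega), smul_zero]
    · rw [if_neg h, map_zero]
  · have h1 := form1_sum_sub (fun x => J.pos x = 0 ∧ J.sz (J.blk x) = 2)
      (fun x => e.repr u x • e x)
    rw [h1]
    conv_lhs => rw [form1_dec hnx u]
    congr 1
    rw [← Finset.sum_add_distrib]
    refine Finset.sum_congr rfl fun x _ => ?_
    by_cases h : J.pos x = 0
    · have hlt := J.pos_lt x
      have h3 := hsz (J.blk x)
      have hcase : J.sz (J.blk x) = 1 ∨ J.sz (J.blk x) = 2 ∨ J.sz (J.blk x) = 3 := by omega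
      rcases hcase with hs | hs | hs
      · rw [if_pos h, if_neg (by omega), if_pos ⟨h, hs⟩, zero_add]
      · rw [if_pos h, if_pos ⟨h, hs⟩, if_neg (by omega), add_zero]
      · rw [if_pos h, if_neg (by omega), if_neg (by omega), add_zero]
        obtain ⟨y, hy⟩ := form1_nx_of_sz (J := J) (x := x) (by omega)
        obtain ⟨hy1, hy2⟩ := J.nx_some hy
        obtain ⟨w, hw⟩ := form1_nx_of_sz (J := J) (x := y) (by rw [hy1]; omega)
        have e1 := form1_repr_nx hnx hy u
        have e2 := form1_repr_nx hnx hw (δ₀ u)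
        rw [hu] at e2
        rw [← e1, ← e2]
        simp
    · rw [if_neg h, if_neg (fun hh => h hh.1), if_neg (fun hh => h hh.1), add_zero]

/-- The coordinates at the heads kill `range δ₀`. -/
theorem repr_range (hnx : ∀ x, δ₀ (e x) = (J.nx x).elim 0 e) (z : V) (x : Xp J) :
    e.repr (δ₀ z) x.1 = 0 := by
  classical
  have key : (Finsupp.lapply x.1 ∘ₗ e.repr.toLinearMap ∘ₗ δ₀ : V →ₗ[k] k) = 0 := by
    refine e.ext fun w => ?_
    simp only [LinearMap.comp_apply, LinearEquiv.coe_coe, Finsupp.lapply_apply, hnx,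
      LinearMap.zero_apply]
    cases hw : J.nx w with
    | none => simp
    | some y =>
      obtain ⟨b1, b2⟩ := J.nx_some hw
      have hne : y ≠ x.1 := by
        intro h
        have := x.2
        rw [← h] at this
        omega
      show e.repr (e y) x.1 = 0
      rw [e.repr_self, Finsupp.single_apply, if_neg hne]
  exact LinearMap.congr_fun key z

theorem form_nondeg (hnx : ∀ x, δ₀ (e x) = (J.nx x).elim 0 e)
    (κ : V →ₗ[k] V →ₗ[k] k) (hsymm : ∀ v w, κ v w = κ w v) (hnd : ∀ v, (∀ w, κ v w = 0) → v = 0)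
    (hskew : ∀ v w, κ (δ₀ v) w + κ v (δ₀ w) = 0) (f : Xp J → k)
    (hf : ∀ x : Xp J, J.sz (J.blk x.1) ≠ 1 → f x = 0)
    (h : ∀ y : Xp J, J.sz (J.blk y.1) = 1 → κ (∑ x : Xp J, f x • e x.1) (e y.1) = 0) : f = 0 := by
  classical
  set w : V := ∑ x : Xp J, f x • e x.1 with hw
  have hfin : FiniteDimensional k V := Module.Finite.of_basis e
  have hδw : δ₀ w = 0 := by
    rw [hw, map_sum]
    refine Finset.sum_eq_zero fun x _ => ?_
    by_cases hs : J.sz (J.blk x.1) = 1
    · rw [map_smul, form1_last hnx (by omega), smul_zero]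
    · rw [hf x hs, zero_smul, map_zero]
  have hker : ∀ u, δ₀ u = 0 → κ w u = 0 := by
    intro u hu
    obtain ⟨z, hz⟩ := form_ker1 hnx hu
    rw [sub_eq_iff_eq_add] at hz
    have h1 : κ w (δ₀ z) = 0 := by
      have := hskew w z
      rw [hδw, map_zero, LinearMap.zero_apply, zero_add] at this
      exact this
    have h2 : κ w (∑ x : Xp J, (if J.sz (J.blk x.1) = 1 then e.repr u x.1 else 0) • e x.1) = 0 := by
      rw [map_sum]
      refine Finset.sum_eq_zero fun x _ => ?_
      by_cases hs : J.sz (J.blk x.1) = 1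
      · rw [map_smul, h x hs, smul_zero]
      · rw [if_neg hs, zero_smul, map_zero]
    rw [hz, map_add, h1, h2, add_zero]
  have hmem : κ w ∈ (LinearMap.ker δ₀).dualAnnihilator := by
    rw [Submodule.mem_dualAnnihilator]
    intro u hu
    exact hker u hu
  rw [← LinearMap.range_dualMap_eq_dualAnnihilator_ker] at hmem
  obtain ⟨ψ, hψ⟩ := hmem
  have hinj : Function.Injective (κ : V →ₗ[k] Module.Dual k V) := by
    rw [injective_iff_map_eq_zero]
    intro v hv
    exact hnd v fun w => by rw [hv]; rfl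
  have hsurj : Function.Surjective (κ : V →ₗ[k] Module.Dual k V) :=
    (LinearMap.injective_iff_surjective_of_finrank_eq_finrank
      (Subspace.dual_finrank_eq (K := k) (V := V)).symm).1 hinj
  obtain ⟨w', hw'⟩ := hsurj ψ
  have hwr : w = δ₀ (-w') := by
    have : w + δ₀ w' = 0 := by
      apply hnd
      intro u
      have h1 : κ w u = ψ (δ₀ u) := by
        rw [← hψ]
        rfl
      have h2 := hskew w' u
      rw [map_add, LinearMap.add_apply, h1, ← hw', add_comm]
      exact h2
    rw [map_neg]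
    exact eq_neg_of_add_eq_zero_left this
  funext x
  have h1 := repr_range hnx (-w') x
  rw [← hwr, hw, map_sum, Finsupp.finsetSum_apply, Finset.sum_eq_single x] at h1
  · simpa using h1
  · intro y _ hyx
    have : y.1 ≠ x.1 := fun hh => hyx (Subtype.ext hh)
    rw [map_smul, Finsupp.smul_apply, e.repr_self, Finsupp.single_apply, if_neg this, smul_zero]
  · intro hx
    exact absurd (Finset.mem_univ x) hx

end

end Pool.Agent.Helper21.KW
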