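import Pool.Agent.Helper21.KW.Form1

set_option autoImplicit false

/-!
# MODULE KW-Form2: the trace on the blocks of size 2 of a skew operator commuting with `δ₀`

`Ω y y' = κ (e y) (δ₀ (e y'))` (`y y' : Yp J`) is invertible: if `w = ∑ c_y e y` has
`κ w (δ₀ (e y')) = 0` for all `y'`, then `κ (δ₀ w) u = - κ w (δ₀ u) = 0` for all `u ∈ ker δ₀²`
(`u` = combination of the `e y'` + `ker δ₀` + `range δ₀`, and `κ w (δ₀ (δ₀ z)) = κ (δ₀ (δ₀ w)) z = 0`),
so `δ₀ w ∈ (ker δ₀²)ᗮ = range δ₀²` (dimension), `δ₀ w = δ₀ (δ₀ z)`, `w - δ₀ z ∈ ker δ₀`, and the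
coordinates at the heads of size 2 give `c = 0`.
For `T` skew commuting with `δ₀`, `a y y' = e.repr (T (e y)) y'`:
`T (e y) ∈ ker δ₀²`, so `T (e y) = ∑ a y y' e y' + (ker δ₀) + (range δ₀)`, and from
`κ (T (e y)) (δ₀ (e y'')) + κ (e y) (δ₀ (T (e y''))) = 0` one gets `a Ω + Ω aᵀ = 0`, so
`2 tr a = 0`.
-/

namespace Pool.Agent.Helper21.KW

open Module Finset Pool.Agent.Helper58.KW

section

variable {k : Type*} [Field k] {X I : Type*} [Fintype X] {J : Jd X I}
  {V : Type*} [AddCommGroup V] [Module k V] {e : Basis X k V} {δ₀ : V →ₗ[k] V}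

private theorem form2_dd (hnx : ∀ x, δ₀ (e x) = (J.nx x).elim 0 e) (y : Yp J) :
    δ₀ (δ₀ (e y.1)) = 0 := by
  rw [hnx y.1]
  cases h : J.nx y.1 with
  | none => exact map_zero _
  | some x =>
    have h1 := J.nx_some h
    change δ₀ (e x) = 0
    rw [hnx x]
    have h2 : J.nx x = none := by
      unfold Jd.nx
      rw [J.att_none, h1.1, h1.2, y.2.1, y.2.2]
    rw [h2]
    rfl

private theorem form2_pair (hsz : ∀ i, J.sz i ≤ 3)
    (hnx : ∀ x, δ₀ (e x) = (J.nx x).elim 0 e) (κ : V →ₗ[k] V →ₗ[k] k)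
    (hskew : ∀ v w, κ (δ₀ v) w + κ v (δ₀ w) = 0) {u w : V} (hu : δ₀ (δ₀ u) = 0)
    (hw : δ₀ (δ₀ w) = 0) :
    κ u (δ₀ w) = ∑ y : Yp J, e.repr u y.1 * κ (e y.1) (δ₀ w) := by
  obtain ⟨v, z, hv, huv⟩ := form_ker2 hsz hnx hu
  have h1 : κ v (δ₀ w) = 0 := by
    have h := hskew v w
    rw [hv, map_zero, LinearMap.zero_apply, zero_add] at h
    exact h
  have h2 : κ (δ₀ z) (δ₀ w) = 0 := by
    have h := hskew z (δ₀ w)
    rw [hw, map_zero, add_zero] at h
    exact h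
  have h3 : κ u (δ₀ w) = κ (∑ y : Yp J, e.repr u y.1 • e y.1 + v + δ₀ z) (δ₀ w) := by
    rw [← huv]
  rw [h3, map_add, map_add, LinearMap.add_apply, LinearMap.add_apply, h1, h2, add_zero, add_zero,
    map_sum, LinearMap.sum_apply]
  refine Finset.sum_congr rfl fun y _ => ?_
  rw [map_smul, LinearMap.smul_apply, smul_eq_mul]

private theorem form2_inj (hsz : ∀ i, J.sz i ≤ 3)
    (hnx : ∀ x, δ₀ (e x) = (J.nx x).elim 0 e)
    (κ : V →ₗ[k] V →ₗ[k] k) (hsymm : ∀ v w, κ v w = κ w v) (hnd : ∀ v, (∀ w, κ v w = 0) → v = 0)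
    (hskew : ∀ v w, κ (δ₀ v) w + κ v (δ₀ w) = 0) (c : Yp J → k)
    (hc : ∀ y' : Yp J, ∑ y : Yp J, c y * κ (e y.1) (δ₀ (e y'.1)) = 0) : c = 0 := by
  classical
  have : FiniteDimensional k V := Module.Finite.of_basis e
  set w : V := ∑ y : Yp J, c y • e y.1 with hw
  have hw' : ∀ y' : Yp J, κ w (δ₀ (e y'.1)) = 0 := by
    intro y'
    rw [hw, map_sum, LinearMap.sum_apply, ← hc y']
    refine Finset.sum_congr rfl fun y _ => ?_
    rw [map_smul, LinearMap.smul_apply, smul_eq_mul]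
  have hww : δ₀ (δ₀ w) = 0 := by
    rw [hw, map_sum, map_sum]
    refine Finset.sum_eq_zero fun y _ => ?_
    rw [map_smul, map_smul, form2_dd hnx y, smul_zero]
  -- the square of `δ₀` is self-adjoint
  have hS : ∀ v v', κ (δ₀ (δ₀ v)) v' = κ v (δ₀ (δ₀ v')) := by
    intro v v'
    have h1 := hskew (δ₀ v) v'
    have h2 := hskew v (δ₀ v')
    have h3 : κ (δ₀ (δ₀ v)) v' = - κ (δ₀ v) (δ₀ v') := eq_neg_of_add_eq_zero_left h1
    have h4 : κ v (δ₀ (δ₀ v')) = - κ (δ₀ v) (δ₀ v') := eq_neg_of_add_eq_zero_right h2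
    rw [h3, h4]
  have horth : ∀ u, δ₀ (δ₀ u) = 0 → κ (δ₀ w) u = 0 := by
    intro u hu
    have h1 := hskew w u
    have h2 : κ w (δ₀ u) = 0 := by
      obtain ⟨v, z, hv, huv⟩ := form_ker2 hsz hnx hu
      have h0 : δ₀ u = ∑ y : Yp J, e.repr u y.1 • δ₀ (e y.1) + δ₀ (δ₀ z) := by
        conv_lhs => rw [huv]
        rw [map_add, map_add, hv, add_zero, map_sum]
        simp only [map_smul]
      rw [h0, map_add, map_sum, ← hS, hww, map_zero, LinearMap.zero_apply, add_zero]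
      refine Finset.sum_eq_zero fun y _ => ?_
      rw [map_smul, hw' y, smul_zero]
    rw [h2, add_zero] at h1
    exact h1
  -- `δ₀ w` is in the range of the square
  obtain ⟨z, hz⟩ : ∃ z, δ₀ w = δ₀ (δ₀ z) := by
    have h1 : κ (δ₀ w) ∈ (LinearMap.ker (δ₀ ∘ₗ δ₀)).dualAnnihilator := by
      rw [Submodule.mem_dualAnnihilator]
      intro u hu
      exact horth u hu
    rw [← LinearMap.range_dualMap_eq_dualAnnihilator_ker] at h1
    obtain ⟨φ, hφ⟩ := h1
    have hsurj : Function.Surjective κ := by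
      have hinj : Function.Injective κ := by
        rw [injective_iff_map_eq_zero]
        intro v hv
        apply hnd v
        intro w'
        rw [hv]
        rfl
      exact (LinearMap.injective_iff_surjective_of_finrank_eq_finrank
        (Subspace.dual_finrank_eq).symm).1 hinj
    obtain ⟨z, hz⟩ := hsurj φ
    refine ⟨z, ?_⟩
    have h2 : δ₀ w - δ₀ (δ₀ z) = 0 := by
      apply hnd
      intro v
      rw [map_sub, LinearMap.sub_apply, hS, hz]
      have h3 := LinearMap.congr_fun hφ v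
      rw [← h3]
      exact sub_self _
    exact sub_eq_zero.1 h2
  have hu : δ₀ (w - δ₀ z) = 0 := by rw [map_sub, hz, sub_self]
  funext y
  obtain ⟨z', hz'⟩ := form_ker1 hnx hu
  have h1 := repr_range hnx z' ⟨y.1, y.2.1⟩
  rw [← hz', map_sub, Finsupp.sub_apply, map_sum, Finsupp.finset_sum_apply] at h1
  have h2 : ∑ x : Xp J, (e.repr ((if J.sz (J.blk x.1) = 1 then
      e.repr (w - δ₀ z) x.1 else 0) • e x.1)) y.1 = 0 := by
    refine Finset.sum_eq_zero fun x _ => ?_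
    rw [map_smul, Finsupp.smul_apply, Basis.repr_self, smul_eq_mul, Finsupp.single_apply]
    by_cases hx : x.1 = y.1
    · have h3 : J.sz (J.blk x.1) ≠ 1 := by rw [hx, y.2.2]; decide
      rw [if_neg h3, zero_mul]
    · rw [if_neg hx, mul_zero]
  have h3 : e.repr (w - δ₀ z) y.1 = 0 := by
    have h4 : (e.repr (w - δ₀ z)) y.1 - ∑ x : Xp J, (e.repr ((if J.sz (J.blk x.1) = 1 then
      e.repr (w - δ₀ z) x.1 else 0) • e x.1)) y.1 = 0 := h1
    rw [h2, sub_zero] at h4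
    exact h4
  rw [map_sub, Finsupp.sub_apply] at h3
  have h5 : e.repr (δ₀ z) y.1 = 0 := repr_range hnx z ⟨y.1, y.2.1⟩
  rw [h5, sub_zero, hw, map_sum, Finsupp.finset_sum_apply] at h3
  have h6 : ∑ y' : Yp J, (e.repr (c y' • e y'.1)) y.1 = c y := by
    rw [Finset.sum_eq_single y]
    · rw [map_smul, Finsupp.smul_apply, Basis.repr_self, Finsupp.single_eq_same, smul_eq_mul,
        mul_one]
    · intro y' _ hy'
      rw [map_smul, Finsupp.smul_apply, Basis.repr_self, Finsupp.single_apply, smul_eq_mul,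
        if_neg (fun h => hy' (Subtype.ext h)), mul_zero]
    · intro h
      exact absurd (Finset.mem_univ y) h
  rw [h6] at h3
  exact h3

theorem form_trace (h2 : (2 : k) ≠ 0) (hsz : ∀ i, J.sz i ≤ 3)
    (hnx : ∀ x, δ₀ (e x) = (J.nx x).elim 0 e)
    (κ : V →ₗ[k] V →ₗ[k] k) (hsymm : ∀ v w, κ v w = κ w v) (hnd : ∀ v, (∀ w, κ v w = 0) → v = 0)
    (hskew : ∀ v w, κ (δ₀ v) w + κ v (δ₀ w) = 0) (T : V →ₗ[k] V) (hT : ∀ v, T (δ₀ v) = δ₀ (T v))
    (hTskew : ∀ v w, κ (T v) w + κ v (T w) = 0) :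
    ∑ y : Yp J, e.repr (T (e y.1)) y.1 = 0 := by
  classical
  let Ω : Matrix (Yp J) (Yp J) k := Matrix.of fun y y' => κ (e y.1) (δ₀ (e y'.1))
  let a : Matrix (Yp J) (Yp J) k := Matrix.of fun y y' => e.repr (T (e y.1)) y'.1
  have hTk : ∀ y : Yp J, δ₀ (δ₀ (T (e y.1))) = 0 := by
    intro y
    rw [← hT, ← hT, form2_dd hnx y, map_zero]
  have hΩ : ∀ y y' : Yp J, κ (e y'.1) (δ₀ (e y.1)) = - κ (e y.1) (δ₀ (e y'.1)) := by
    intro y y'
    have h1 := hskew (e y.1) (e y'.1)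
    rw [hsymm] at h1
    exact eq_neg_of_add_eq_zero_left h1
  have haΩ : a * Ω = - (Ω * a.transpose) := by
    ext y y''
    rw [Matrix.neg_apply, Matrix.mul_apply, Matrix.mul_apply]
    have h1 : ∑ j : Yp J, a y j * Ω j y'' = κ (T (e y.1)) (δ₀ (e y''.1)) :=
      (form2_pair hsz hnx κ hskew (hTk y) (form2_dd hnx y'')).symm
    have h2 : ∑ j : Yp J, a y'' j * Ω j y = κ (T (e y''.1)) (δ₀ (e y.1)) :=
      (form2_pair hsz hnx κ hskew (hTk y'') (form2_dd hnx y)).symm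
    have h3 : ∑ j : Yp J, Ω y j * a.transpose j y'' = - κ (T (e y''.1)) (δ₀ (e y.1)) := by
      rw [← h2, ← Finset.sum_neg_distrib]
      refine Finset.sum_congr rfl fun j _ => ?_
      rw [Matrix.transpose_apply]
      have h4 : Ω j y = - Ω y j := hΩ y j
      rw [h4]
      ring
    rw [h1, h3, neg_neg]
    have h5 := hTskew (e y.1) (δ₀ (e y''.1))
    rw [hT] at h5
    have h6 := hskew (e y.1) (T (e y''.1))
    have h7 : κ (T (e y.1)) (δ₀ (e y''.1)) = - κ (e y.1) (δ₀ (T (e y''.1))) :=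
      eq_neg_of_add_eq_zero_left h5
    have h8 : κ (δ₀ (e y.1)) (T (e y''.1)) = - κ (e y.1) (δ₀ (T (e y''.1))) :=
      eq_neg_of_add_eq_zero_left h6
    rw [h7, ← h8, hsymm]
  have hunit : IsUnit Ω := by
    rw [← Matrix.vecMul_injective_iff_isUnit]
    intro c c' hcc
    have h1 : c - c' = 0 := by
      apply form2_inj hsz hnx κ hsymm hnd hskew
      intro y'
      have h2 := congrFun hcc y'
      have h3 : ∑ y, c y * Ω y y' = ∑ y, c' y * Ω y y' := h2
      have h4 : ∑ y : Yp J, (c - c') y * κ (e y.1) (δ₀ (e y'.1)) =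
          ∑ y, c y * Ω y y' - ∑ y, c' y * Ω y y' := by
        rw [← Finset.sum_sub_distrib]
        refine Finset.sum_congr rfl fun y _ => ?_
        rw [Pi.sub_apply, sub_mul]
        rfl
      rw [h4, h3, sub_self]
    exact sub_eq_zero.1 h1
  obtain ⟨U, hU⟩ := hunit
  have h1 : a.trace = - a.trace := by
    have h2 : a = a * Ω * (↑U⁻¹ : Matrix (Yp J) (Yp J) k) := by
      rw [Matrix.mul_assoc, ← hU, Units.mul_inv, Matrix.mul_one]
    have h3 : (Ω * a.transpose * (↑U⁻¹ : Matrix (Yp J) (Yp J) k)).trace = a.trace := by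
      rw [Matrix.mul_assoc, Matrix.trace_mul_comm, Matrix.mul_assoc, ← hU, Units.inv_mul,
        Matrix.mul_one, Matrix.trace_transpose]
    conv_lhs => rw [h2, haΩ]
    rw [Matrix.neg_mul, Matrix.trace_neg, h3]
  have h4 : (2 : k) * a.trace = 0 := by
    rw [two_mul]
    nth_rewrite 1 [h1]
    exact neg_add_cancel _
  rcases mul_eq_zero.1 h4 with h | h
  · exact absurd h h2
  · exact h

end

end Pool.Agent.Helper21.KW
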