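import Mathlib

set_option autoImplicit false

/-!
# The ghost element of a Frobenius extension

`j : R → S` with a bimodule map `E : S → R`, dual bases `x`, `y`; an automorphism `σ` of `S` fixing
`R` and a derivation commuting with everything.  Then `a = ∑ y_i σ (x_i)` is killed by the
derivation, and `u ↦ E (a u)` is equivariant.
-/

namespace Pool.Agent.Helper21.KW

theorem frob_ghost {S R : Type*} [Ring S] [Ring R] (j : R →+* S) (σ : S →+* S)
    (hσj : ∀ r, σ (j r) = j r) (DS : S →+ S) (hDS : ∀ a b, DS (a * b) = DS a * b + a * DS b)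
    (DR : R →+ R) (_hDj : ∀ r, DS (j r) = j (DR r)) (hσD : ∀ s, σ (DS s) = DS (σ s)) (E : S →+ R)
    (hED : ∀ s, E (DS s) = DR (E s)) {ι : Type*} [Fintype ι]
    [DecidableEq ι] (x y : ι → S) (hxy : ∀ i l, E (x i * y l) = if i = l then 1 else 0)
    (hDR : DR 1 = 0)
    (hy : ∀ s, s = ∑ i, y i * j (E (x i * s))) (hx : ∀ s, s = ∑ i, j (E (s * y i)) * x i) :
    DS (∑ i, y i * σ (x i)) = 0 := by
  have h1 : ∀ i l, E (DS (x i) * y l) = - E (x i * DS (y l)) := by
    intro i l
    have h2 : E (DS (x i * y l)) = 0 := by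
      rw [hED, hxy]
      split_ifs
      · exact hDR
      · exact map_zero _
    rw [hDS, map_add] at h2
    exact eq_neg_of_add_eq_zero_left h2
  have h3 : ∀ l, DS (y l) = ∑ i, y i * j (E (x i * DS (y l))) := fun l => hy _
  have h4 : ∀ i, DS (x i) = ∑ l, j (E (DS (x i) * y l)) * x l := fun i => hx _
  rw [map_sum]
  have h5 : ∀ l, DS (y l * σ (x l)) = (∑ i, y i * j (E (x i * DS (y l))) * σ (x l)) +
      y l * σ (DS (x l)) := by
    intro l
    rw [hDS, hσD]
    congr 1
    conv_lhs => rw [h3 l]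
    rw [Finset.sum_mul]
  have h6 : ∀ i, y i * σ (DS (x i)) = - ∑ l, y i * j (E (x i * DS (y l))) * σ (x l) := by
    intro i
    conv_lhs => rw [h4 i]
    rw [map_sum, Finset.mul_sum, ← Finset.sum_neg_distrib]
    refine Finset.sum_congr rfl fun l _ => ?_
    rw [map_mul, hσj, h1, map_neg, neg_mul, mul_neg, mul_assoc]
  rw [Finset.sum_congr rfl fun l _ => h5 l, Finset.sum_add_distrib,
    Finset.sum_congr rfl fun i _ => h6 i, Finset.sum_neg_distrib, Finset.sum_comm]
  exact add_neg_cancel _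

end Pool.Agent.Helper21.KW
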