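import Mathlib

set_option autoImplicit false

/-!
# MODULE KW-Jor1 (stub): Jordan decomposition by `p`-polynomials

The powers `T ^ (p ^ i)` span a finite-dimensional space, so there is a relation
`∑_{i ≥ s} f_i T ^ (p ^ i) = 0` with `f_s ≠ 0`, i.e. `T ^ (p ^ s)` is in the span of the
`T ^ (p ^ i)`, `i > s`, hence (raising the relation to `p`-th powers: all these operators commute,
`(a + b) ^ p = a ^ p + b ^ p`) also in the span of the `T ^ (p ^ i)`, `i ≥ M`, for every `M`:
`T ^ (p ^ s) = ∑_{i ≥ 2 s + 1} c_i T ^ (p ^ i)`.  `k` is perfect: `c_i = c'_i ^ (p ^ s)`, so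
`(T - ∑ c'_i T ^ (p ^ (i - s))) ^ (p ^ s) = 0`.  Put `Ts = ∑ c'_i T ^ (p ^ (i - s))` (here
`i - s ≥ s + 1`); as `(T - Ts) ^ (p ^ s) = 0`, `T ^ (p ^ j) = Ts ^ (p ^ j)` for `j ≥ s`, so
`Ts = ∑ c'_i Ts ^ (p ^ (i - s))`.
-/

namespace Pool.Agent.Helper21.KW

open Module Finset

/-- `p`-power of a polynomial in `T`. -/
theorem jor_frob (p : ℕ) [Fact p.Prime] {k : Type*} [Field k] [CharP k p]
    {V : Type*} [AddCommGroup V] [Module k V] (T : V →ₗ[k] V) (S : Finset ℕ) (c : ℕ → k)
    (n : ℕ → ℕ) (t : ℕ) :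
    (∑ i ∈ S, c i • T ^ (n i)) ^ (p ^ t) = ∑ i ∈ S, (c i) ^ (p ^ t) • T ^ (n i * p ^ t) := by
  have h1 : (∑ i ∈ S, c i • T ^ (n i)) =
      Polynomial.aeval T (∑ i ∈ S, Polynomial.C (c i) * Polynomial.X ^ (n i)) := by
    rw [map_sum]
    refine Finset.sum_congr rfl fun i _ => ?_
    rw [map_mul, Polynomial.aeval_C, map_pow, Polynomial.aeval_X, Algebra.smul_def]
  have h2 : (∑ i ∈ S, (c i) ^ (p ^ t) • T ^ (n i * p ^ t)) =
      Polynomial.aeval T (∑ i ∈ S, Polynomial.C ((c i) ^ (p ^ t)) *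
        Polynomial.X ^ (n i * p ^ t)) := by
    rw [map_sum]
    refine Finset.sum_congr rfl fun i _ => ?_
    rw [map_mul, Polynomial.aeval_C, map_pow (Polynomial.aeval T) Polynomial.X,
      Polynomial.aeval_X, Algebra.smul_def]
  rw [h1, h2, ← map_pow, sum_pow_char_pow]
  congr 1
  refine Finset.sum_congr rfl fun i _ => ?_
  rw [mul_pow, ← pow_mul, map_pow]

/-- `p`-power of a difference. -/
theorem jor_sub (p : ℕ) [Fact p.Prime] {k : Type*} [Field k] [CharP k p]
    {V : Type*} [AddCommGroup V] [Module k V] (T : V →ₗ[k] V) (S : Finset ℕ) (c : ℕ → k)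
    (n : ℕ → ℕ) (t : ℕ) :
    (T - ∑ i ∈ S, c i • T ^ (n i)) ^ (p ^ t) =
      T ^ (p ^ t) - (∑ i ∈ S, c i • T ^ (n i)) ^ (p ^ t) := by
  have h1 : (∑ i ∈ S, c i • T ^ (n i)) =
      Polynomial.aeval T (∑ i ∈ S, Polynomial.C (c i) * Polynomial.X ^ (n i)) := by
    rw [map_sum]
    refine Finset.sum_congr rfl fun i _ => ?_
    rw [map_mul, Polynomial.aeval_C, map_pow, Polynomial.aeval_X, Algebra.smul_def]
  have h2 : T = Polynomial.aeval T (Polynomial.X : Polynomial k) := by
    rw [Polynomial.aeval_X]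
  rw [h1]
  nth_rw 1 [h2]
  rw [← map_sub, ← map_pow, sub_pow_char_pow, map_sub, map_pow, map_pow, Polynomial.aeval_X]

/-- The span of the powers with exponents `p ^ i`, `i ≥ M`. -/
def jorW (p : ℕ) {k : Type*} [Field k] {V : Type*} [AddCommGroup V] [Module k V]
    (T : V →ₗ[k] V) (M : ℕ) : Submodule k (V →ₗ[k] V) :=
  Submodule.span k (Set.range (fun i : ℕ => T ^ (p ^ (M + i))))

theorem jorW_mem (p : ℕ) {k : Type*} [Field k] {V : Type*} [AddCommGroup V] [Module k V]
    (T : V →ₗ[k] V) {M m : ℕ} (h : M ≤ m) : T ^ (p ^ m) ∈ jorW p T M := by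
  obtain ⟨i, rfl⟩ := Nat.exists_eq_add_of_le h
  exact Submodule.subset_span ⟨i, rfl⟩

theorem jorW_exists {p : ℕ} {k : Type*} [Field k] {V : Type*} [AddCommGroup V] [Module k V]
    {T : V →ₗ[k] V} {M : ℕ} {x : V →ₗ[k] V} (h : x ∈ jorW p T M) :
    ∃ (R : ℕ) (d : ℕ → k), x = ∑ i ∈ range R, d i • T ^ (p ^ (M + i)) := by
  unfold jorW at h
  rw [Finsupp.mem_span_range_iff_exists_finsupp] at h
  obtain ⟨d, hd⟩ := h
  refine ⟨d.support.sup id + 1, d, ?_⟩
  rw [← hd, Finsupp.sum]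
  apply Finset.sum_subset
  · intro i hi
    rw [mem_range]
    have := Finset.le_sup (f := id) hi
    simp only [id] at this
    omega
  · intro i _ hi
    rw [Finsupp.notMem_support_iff.1 hi, zero_smul]

theorem jorW_frob (p : ℕ) [Fact p.Prime] {k : Type*} [Field k] [CharP k p]
    {V : Type*} [AddCommGroup V] [Module k V] {T : V →ₗ[k] V} {M : ℕ} {x : V →ₗ[k] V}
    (h : x ∈ jorW p T M) (t : ℕ) : x ^ (p ^ t) ∈ jorW p T (M + t) := by
  obtain ⟨R, d, rfl⟩ := jorW_exists h
  rw [jor_frob]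
  refine Submodule.sum_mem _ fun i _ => Submodule.smul_mem _ _ ?_
  rw [← pow_add]
  exact jorW_mem p T (by omega)

theorem exists_jor (p : ℕ) [Fact p.Prime] {k : Type*} [Field k] [CharP k p] [PerfectRing k p]
    {V : Type*} [AddCommGroup V] [Module k V] [FiniteDimensional k V] (T : V →ₗ[k] V) :
    ∃ (r s : ℕ) (c : ℕ → k),
      (T - ∑ i ∈ range r, c i • T ^ (p ^ (i + 1))) ^ (p ^ s) = 0 ∧
      (∑ i ∈ range r, c i • T ^ (p ^ (i + 1))) =
        ∑ j ∈ range r, c j • (∑ i ∈ range r, c i • T ^ (p ^ (i + 1))) ^ (p ^ (j + 1)) := by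
  classical
  -- a relation
  have h0 : ¬ LinearIndependent k (fun i : ℕ => T ^ (p ^ i)) := by
    intro h
    have := h.finite
    exact not_finite ℕ
  rw [not_linearIndependent_iff] at h0
  obtain ⟨S, g, hg, i0, hi0, hgi0⟩ := h0
  have hne : (S.filter (fun i => g i ≠ 0)).Nonempty := ⟨i0, by simp [hi0, hgi0]⟩
  set s := (S.filter (fun i => g i ≠ 0)).min' hne with hs
  have hsm := Finset.min'_mem _ hne
  rw [← hs, mem_filter] at hsm
  have hmin : ∀ i ∈ S, g i ≠ 0 → s ≤ i := fun i hi hgi =>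
    Finset.min'_le _ _ (by rw [mem_filter]; exact ⟨hi, hgi⟩)
  have h1 : T ^ (p ^ s) ∈ jorW p T (s + 1) := by
    rw [← Finset.add_sum_erase S _ hsm.1] at hg
    have h2 : g s • T ^ (p ^ s) ∈ jorW p T (s + 1) := by
      rw [eq_neg_of_add_eq_zero_left hg]
      refine Submodule.neg_mem _ (Submodule.sum_mem _ fun i hi => ?_)
      rw [mem_erase] at hi
      by_cases hgi : g i = 0
      · rw [hgi, zero_smul]
        exact Submodule.zero_mem _
      · have := hmin i hi.2 hgi
        exact Submodule.smul_mem _ _ (jorW_mem p T (by omega))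
    exact (Submodule.smul_mem_iff _ hsm.2).1 h2
  have h2 : ∀ t, T ^ (p ^ s) ∈ jorW p T (s + 1 + t) := by
    intro t
    induction t with
    | zero => exact h1
    | succ t ih =>
      have h3 : jorW p T (s + 1 + t) ≤ jorW p T (s + 1 + (t + 1)) := by
        unfold jorW
        rw [Submodule.span_le]
        rintro _ ⟨i, rfl⟩
        dsimp only
        rcases Nat.eq_zero_or_pos i with rfl | hi
        · have h4 := jorW_frob p h1 (t + 1)
          rw [← pow_mul, ← pow_add] at h4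
          have e : s + (t + 1) = s + 1 + t + 0 := by omega
          rw [e] at h4
          exact h4
        · exact jorW_mem p T (by omega)
      exact h3 ih
  have h3 := h2 s
  obtain ⟨R, d, hd⟩ := jorW_exists h3
  -- roots
  have hroot : ∀ x : k, ∃ y : k, y ^ (p ^ s) = x := by
    intro x
    obtain ⟨y, hy⟩ := (iterateFrobeniusEquiv k p s).surjective x
    refine ⟨y, ?_⟩
    rw [← hy]
    rfl
  choose ro hro using hroot
  set c : ℕ → k := fun j => if j < s then 0 else ro (d (j - s)) with hc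
  have hc1 : ∀ j, j < s → c j = 0 := fun j hj => by rw [hc]; exact if_pos hj
  have hc2 : ∀ i, (c (s + i)) ^ (p ^ s) = d i := by
    intro i
    have : c (s + i) = ro (d i) := by
      rw [hc]
      dsimp only
      rw [if_neg (by omega)]
      congr 2
      omega
    rw [this, hro]
  have hp : 0 < p ^ s := pow_pos (Fact.out : p.Prime).pos s
  have hTs : (∑ i ∈ range (s + R), c i • T ^ (p ^ (i + 1))) ^ (p ^ s) = T ^ (p ^ s) := by
    rw [jor_frob, hd, Finset.sum_range_add]
    have e1 : ∑ x ∈ range s, c x ^ p ^ s • T ^ (p ^ (x + 1) * p ^ s) = 0 := by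
      refine Finset.sum_eq_zero fun i hi => ?_
      rw [hc1 i (mem_range.1 hi), zero_pow hp.ne', zero_smul]
    rw [e1, zero_add]
    refine Finset.sum_congr rfl fun i _ => ?_
    rw [hc2, ← pow_add]
    congr 3
    omega
  refine ⟨s + R, s, c, ?_, ?_⟩
  · rw [jor_sub, hTs, sub_self]
  · set Ts := ∑ i ∈ range (s + R), c i • T ^ (p ^ (i + 1)) with hTsdef
    rw [hTsdef]
    refine Finset.sum_congr rfl fun j _ => ?_
    rw [← hTsdef]
    by_cases hj : j < s
    · rw [hc1 j hj, zero_smul, zero_smul]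
    · congr 1
      have e : p ^ (j + 1) = p ^ s * p ^ (j + 1 - s) := by
        rw [← pow_add]
        congr 1
        omega
      rw [e, pow_mul, pow_mul, hTs]

end Pool.Agent.Helper21.KW
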