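import Pool.Agent.Helper21.KW.OddDefs

set_option autoImplicit false

/-!
# MODULE KW-Odd1: the top coefficient

Write `N = card Y`, `Fil m = {∑_T yT T * j (c T) : c T = 0 for T.card > m}` (right `R`-submodules,
increasing).
(1) `j r * Fil m ⊆ Fil m`: for `r = ι v` from `comm` (the commutator of `j (ι v)` with a word is a
  combination of words of the same length) and `word`; then for all `r` by `gen`.
  `Fil a * Fil b ⊆ Fil (a + b)` by (1) and `word`.
(2) `E s` = the coefficient `c univ` of `yT univ` (unique by `bas`).  `E` is `k`-linear, right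
  `R`-linear, `E (Fil m) = 0` for `m < N`, `E (yT univ) = 1`.
(3) Words: if `|u| + |v| + 2 = N` then `E (yw (u ++ i :: l :: v)) = - E (yw (u ++ l :: i :: v))`
  (`y i * y l + y l * y i = j g` and `yw u * j g * yw v ∈ Fil (N - 2)`), and words of length `N`
  with a repeated letter have `E = 0` (bring the two letters together, `2 (y i) ^ 2 = j g`,
  `2 ≠ 0`).  A word of length `N` without repetition is a permutation of `univ.sort`, so `E = ± 1`.
  Moving the block `T` through the block `Tᶜ` takes `|T| |Tᶜ|` transpositions.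
(4) `E (j r * s) = r * E s` (enough: `r = ι v`, `s = yT T`; for `T = univ` only the diagonal terms of
  `a v` count).  `E (DS s) = DR (E s)` (for `T = univ` the trace of `d`).
-/

namespace Pool.Agent.Helper21.KW

section odd1

variable {k : Type*} [Field k] {R S : Type*} [Ring R] [Algebra k R]
  [Ring S] [Algebra k S] {Y : Type*} [Fintype Y] [LinearOrder Y] {j : R →ₐ[k] S} {y : Y → S}

/-- the coefficients -/
private noncomputable def cf (hb : ∀ s, ∃! c : Finset Y → R, s = ∑ T, yT y T * j (c T)) (s : S) :
    Finset Y → R := (hb s).exists.choose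

variable (hb : ∀ s, ∃! c : Finset Y → R, s = ∑ T, yT y T * j (c T))

private theorem cf_spec (s : S) : s = ∑ T, yT y T * j (cf hb s T) := (hb s).exists.choose_spec

private theorem cf_eq {s : S} {c : Finset Y → R} (h : s = ∑ T, yT y T * j (c T)) :
    cf hb s = c := (hb s).unique (cf_spec hb s) h

private theorem cf_zero : cf hb 0 = 0 := cf_eq hb (by simp)

private theorem cf_add (s t : S) : cf hb (s + t) = cf hb s + cf hb t := by
  apply cf_eq hb
  conv_lhs => rw [cf_spec hb s, cf_spec hb t]
  rw [← Finset.sum_add_distrib]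
  refine Finset.sum_congr rfl fun T _ => ?_
  rw [Pi.add_apply, map_add, mul_add]

private theorem cf_smul (c : k) (s : S) : cf hb (c • s) = c • cf hb s := by
  apply cf_eq hb
  conv_lhs => rw [cf_spec hb s]
  rw [Finset.smul_sum]
  refine Finset.sum_congr rfl fun T _ => ?_
  rw [Pi.smul_apply, map_smul, mul_smul_comm]

private theorem cf_mul (s : S) (r : R) : cf hb (s * j r) = fun T => cf hb s T * r := by
  apply cf_eq hb
  conv_lhs => rw [cf_spec hb s]
  rw [Finset.sum_mul]
  refine Finset.sum_congr rfl fun T _ => ?_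
  rw [map_mul, mul_assoc]

private theorem cf_yT [DecidableEq Y] (T : Finset Y) : cf hb (yT y T) = Pi.single T 1 := by
  apply cf_eq hb
  rw [Finset.sum_eq_single T]
  · simp
  · intro U _ hU
    rw [Pi.single_eq_of_ne hU, map_zero, mul_zero]
  · intro h
    exact absurd (Finset.mem_univ T) h

/-- the filtration -/
private noncomputable def Fil (m : ℕ) : Submodule k S where
  carrier := {s | ∀ T : Finset Y, m < T.card → cf hb s T = 0}
  zero_mem' := by
    intro T _
    rw [cf_zero]
    rfl
  add_mem' := by
    intro s t hs ht T hT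
    rw [cf_add, Pi.add_apply, hs T hT, ht T hT, add_zero]
  smul_mem' := by
    intro c s hs T hT
    rw [cf_smul, Pi.smul_apply, hs T hT, smul_zero]

private theorem mem_Fil {m : ℕ} {s : S} :
    s ∈ Fil hb m ↔ ∀ T : Finset Y, m < T.card → cf hb s T = 0 := Iff.rfl

private theorem Fil_mono {m n : ℕ} (h : m ≤ n) : Fil hb m ≤ Fil hb n :=
  fun _ hs T hT => hs T (lt_of_le_of_lt h hT)

private theorem Fil_mul_right {m : ℕ} {s : S} (hs : s ∈ Fil hb m) (r : R) :
    s * j r ∈ Fil hb m := by
  intro T hT
  rw [cf_mul]
  simp only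
  rw [hs T hT, zero_mul]

variable (hw : ∀ l : List Y, ∃ c : Finset Y → R, (∀ T, l.length < T.card → c T = 0) ∧
    yw y l = ∑ T, yT y T * j (c T))

include hw

private theorem yw_mem (l : List Y) : yw y l ∈ Fil hb l.length := by
  obtain ⟨c, hc, h⟩ := hw l
  intro T hT
  rw [cf_eq hb h]
  exact hc T hT

private theorem yT_mem (T : Finset Y) : yT y T ∈ Fil hb T.card := by
  have := yw_mem hb hw (T.sort (· ≤ ·))
  rwa [Finset.length_sort] at this

omit hw in
private theorem mem_of_terms {m n : ℕ} {s : S} (hs : s ∈ Fil hb m) (φ : S →+ S)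
    (h : ∀ T : Finset Y, T.card ≤ m → ∀ r, φ (yT y T * j r) ∈ Fil hb n) : φ s ∈ Fil hb n := by
  rw [cf_spec hb s, map_sum]
  refine Submodule.sum_mem _ fun T _ => ?_
  by_cases hT : m < T.card
  · rw [hs T hT, map_zero, mul_zero, map_zero]
    exact Submodule.zero_mem _
  · exact h T (not_lt.1 hT) _

private theorem yw_mul_mem {m : ℕ} {s : S} (hs : s ∈ Fil hb m) (l : List Y) :
    yw y l * s ∈ Fil hb (l.length + m) := by
  refine mem_of_terms hb hs (AddMonoidHom.mulLeft (yw y l)) fun T hT r => ?_
  rw [AddMonoidHom.coe_mulLeft, ← mul_assoc]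
  refine Fil_mul_right hb ?_ r
  have h1 : yw y l * yT y T = yw y (l ++ T.sort (· ≤ ·)) := by
    simp [yw, yT]
  rw [h1]
  refine Fil_mono hb ?_ (yw_mem hb hw _)
  rw [List.length_append, Finset.length_sort]
  omega

variable {V : Type*} {ι : V → R} {a : V → Y → Y → k}
  (hg : Algebra.adjoin k (Set.range ι) = ⊤)
  (hc : ∀ v i, j (ι v) * y i - y i * j (ι v) = ∑ l, a v i l • y l)

/-- a derivation maps words to the filtration -/
private theorem der_mem {δ : S →+ S} (hδ : ∀ a b, δ (a * b) = δ a * b + a * δ b)
    {b : Y → Y → k} (hy : ∀ i, δ (y i) = ∑ l, b i l • y l) (l : List Y) :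
    δ (yw y l) ∈ Fil hb l.length := by
  have h1 : δ 1 = 0 := by
    have := hδ 1 1
    rw [mul_one, one_mul, mul_one] at this
    exact (left_eq_add.1 this)
  induction l with
  | nil =>
    simp only [yw, List.map_nil, List.prod_nil, h1]
    exact Submodule.zero_mem _
  | cons i l ih =>
    have e : yw y (i :: l) = y i * yw y l := by simp [yw]
    rw [e, hδ, hy, Finset.sum_mul]
    refine Submodule.add_mem _ (Submodule.sum_mem _ fun m _ => ?_) ?_
    · rw [smul_mul_assoc]
      refine Submodule.smul_mem _ _ ?_
      have := yw_mem hb hw (m :: l)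
      simpa [yw] using this
    · have := yw_mul_mem hb hw ih [i]
      simpa [yw, add_comm] using this

include hg hc

private theorem j_mul_mem {m : ℕ} {s : S} (hs : s ∈ Fil hb m) (r : R) :
    j r * s ∈ Fil hb m := by
  let A : Subalgebra k R :=
    { carrier := {r | ∀ s ∈ Fil hb m, j r * s ∈ Fil hb m}
      mul_mem' := by
        intro r r' hr hr' s hs
        rw [map_mul, mul_assoc]
        exact hr _ (hr' s hs)
      add_mem' := by
        intro r r' hr hr' s hs
        rw [map_add, add_mul]
        exact Submodule.add_mem _ (hr s hs) (hr' s hs)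
      algebraMap_mem' := by
        intro c s hs
        rw [AlgHom.commutes, ← Algebra.smul_def]
        exact Submodule.smul_mem _ _ hs }
  have hA : A = ⊤ := by
    rw [eq_top_iff, ← hg]
    refine Algebra.adjoin_le ?_
    rintro _ ⟨v, rfl⟩ s hs
    refine mem_of_terms hb hs (AddMonoidHom.mulLeft (j (ι v))) fun T hT r => ?_
    rw [AddMonoidHom.coe_mulLeft, ← mul_assoc]
    refine Fil_mul_right hb ?_ r
    let δ : S →+ S := AddMonoidHom.mulLeft (j (ι v)) - AddMonoidHom.mulRight (j (ι v))
    have e : j (ι v) * yT y T = δ (yT y T) + yT y T * j (ι v) := by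
      simp [δ]
    rw [e]
    refine Fil_mono hb hT (Submodule.add_mem _ ?_ (Fil_mul_right hb (yT_mem hb hw T) _))
    have := der_mem hb hw (δ := δ) (b := a v) (by
      intro a b
      simp only [δ, AddMonoidHom.sub_apply, AddMonoidHom.coe_mulLeft, AddMonoidHom.coe_mulRight]
      noncomm_ring) (by
      intro i
      simpa [δ] using hc v i) (T.sort (· ≤ ·))
    rwa [Finset.length_sort] at this
  have : r ∈ A := by rw [hA]; trivial
  exact this s hs

private theorem mul_mem_Fil {m n : ℕ} {s t : S} (hs : s ∈ Fil hb m) (ht : t ∈ Fil hb n) :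
    s * t ∈ Fil hb (m + n) := by
  refine mem_of_terms hb hs (AddMonoidHom.mulRight t) fun T hT r => ?_
  show yT y T * j r * t ∈ Fil hb (m + n)
  rw [mul_assoc]
  have h1 := j_mul_mem hb hw hg hc ht r
  have h2 := yw_mul_mem hb hw h1 (T.sort (· ≤ ·))
  rw [Finset.length_sort] at h2
  exact Fil_mono hb (by omega) h2

omit hw hg hc

/-- the top coefficient -/
private noncomputable def topE : S →ₗ[k] R where
  toFun s := cf hb s Finset.univ
  map_add' s t := by rw [cf_add]; rfl
  map_smul' c s := by rw [cf_smul]; rfl

private theorem topE_mul (s : S) (r : R) : topE hb (s * j r) = topE hb s * r := by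
  show cf hb (s * j r) Finset.univ = cf hb s Finset.univ * r
  rw [cf_mul]

private theorem topE_Fil {m : ℕ} {s : S} (hs : s ∈ Fil hb m) (hm : m < Fintype.card Y) :
    topE hb s = 0 := hs _ (by rwa [Finset.card_univ])

private theorem topE_univ : topE hb (yT y Finset.univ) = 1 := by
  classical
  show cf hb (yT y Finset.univ) Finset.univ = 1
  rw [cf_yT, Pi.single_eq_same]

private theorem topE_ne {T : Finset Y} (hT : T ≠ Finset.univ) : topE hb (yT y T) = 0 := by
  classical
  show cf hb (yT y T) Finset.univ = 0
  rw [cf_yT, Pi.single_eq_of_ne hT.symm]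

variable (ho : ∀ i l, ∃ g, y i * y l + y l * y i = j g)

include hw hg hc ho

private theorem yw_swap (u v : List Y) (i l : Y) (h : u.length + v.length + 2 = Fintype.card Y) :
    topE hb (yw y (u ++ i :: l :: v)) = - topE hb (yw y (u ++ l :: i :: v)) := by
  obtain ⟨g, hg'⟩ := ho i l
  rw [eq_neg_iff_add_eq_zero, ← map_add]
  have e : yw y (u ++ i :: l :: v) + yw y (u ++ l :: i :: v) = yw y u * (j g * yw y v) := by
    rw [← hg']
    simp only [yw, List.map_append, List.map_cons, List.prod_append, List.prod_cons]
    noncomm_ring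
  rw [e]
  refine topE_Fil hb (mul_mem_Fil hb hw hg hc (yw_mem hb hw u)
    (j_mul_mem hb hw hg hc (yw_mem hb hw v) g)) ?_
  omega

private theorem yw_double (h2 : (2 : k) ≠ 0) (u v : List Y) (i : Y)
    (h : u.length + v.length + 2 = Fintype.card Y) :
    topE hb (yw y (u ++ i :: i :: v)) = 0 := by
  have h1 := yw_swap hb hw hg hc ho u v i i h
  rw [eq_neg_iff_add_eq_zero, ← two_smul k] at h1
  exact (smul_eq_zero.1 h1).resolve_left h2

private theorem yw_perm {l l' : List Y} (hp : l.Perm l') : ∀ u v : List Y,
    u.length + l.length + v.length = Fintype.card Y →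
    ∃ ε : k, ε * ε = 1 ∧ topE hb (yw y (u ++ l ++ v)) = ε • topE hb (yw y (u ++ l' ++ v)) := by
  induction hp with
  | nil =>
    intro u v _
    exact ⟨1, by ring, by simp⟩
  | cons x _ ih =>
    intro u v h
    obtain ⟨ε, h1, h2⟩ := ih (u ++ [x]) v (by simp at h ⊢; omega)
    refine ⟨ε, h1, ?_⟩
    simpa using h2
  | swap x z l =>
    intro u v h
    refine ⟨-1, by ring, ?_⟩
    have h1 := yw_swap hb hw hg hc ho u (l ++ v) z x (by simp at h ⊢; omega)
    simpa using h1
  | trans hp _ ih1 ih2 =>
    intro u v h
    obtain ⟨ε, h1, h2⟩ := ih1 u v h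
    obtain ⟨ε', h3, h4⟩ := ih2 u v (by rw [← hp.length_eq]; exact h)
    refine ⟨ε * ε', ?_, ?_⟩
    · calc ε * ε' * (ε * ε') = (ε * ε) * (ε' * ε') := by ring
        _ = 1 := by rw [h1, h3, one_mul]
    · rw [h2, h4, smul_smul]

private theorem yw_perm' {l l' : List Y} (hp : l.Perm l') (h : l.length = Fintype.card Y) :
    ∃ ε : k, ε * ε = 1 ∧ topE hb (yw y l) = ε • topE hb (yw y l') := by
  have := yw_perm hb hw hg hc ho hp [] [] (by simpa using h)
  simpa using this

private theorem yw_dup (h2 : (2 : k) ≠ 0) {l w : List Y} {i : Y} (hp : l.Perm (i :: i :: w))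
    (h : l.length = Fintype.card Y) : topE hb (yw y l) = 0 := by
  obtain ⟨ε, -, h1⟩ := yw_perm' hb hw hg hc ho hp h
  rw [h1]
  have h3 := yw_double hb hw hg hc ho h2 [] w i (by
    have := hp.length_eq
    simp at this ⊢
    omega)
  rw [List.nil_append] at h3
  rw [h3, smul_zero]

private theorem yw_not_nodup (h2 : (2 : k) ≠ 0) {l : List Y} (hn : ¬ l.Nodup)
    (h : l.length = Fintype.card Y) : topE hb (yw y l) = 0 := by
  have h1 : ∃ i w, l.Perm (i :: i :: w) := by
    clear h
    induction l with
    | nil => exact absurd List.nodup_nil hn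
    | cons x l ih =>
      by_cases hx : x ∈ l
      · exact ⟨x, l.erase x, (List.perm_cons_erase hx).cons x⟩
      · have : ¬ l.Nodup := fun h => hn (List.nodup_cons.2 ⟨hx, h⟩)
        obtain ⟨i, w, h1⟩ := ih this
        refine ⟨i, x :: w, (h1.cons x).trans ?_⟩
        exact (List.Perm.swap i x (i :: w)).trans ((List.Perm.swap i x w).cons i)
  obtain ⟨i, w, hp⟩ := h1
  exact yw_dup hb hw hg hc ho h2 hp h

private theorem yw_move1 (i : Y) (B : List Y) : ∀ u v : List Y,
    u.length + B.length + v.length + 1 = Fintype.card Y →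
    topE hb (yw y (u ++ i :: (B ++ v))) = (-1) ^ B.length * topE hb (yw y (u ++ (B ++ i :: v))) := by
  induction B with
  | nil =>
    intro u v _
    simp
  | cons b B ih =>
    intro u v h
    have h1 := yw_swap hb hw hg hc ho u (B ++ v) i b (by simp at h ⊢; omega)
    have h2 := ih (u ++ [b]) v (by simp at h ⊢; omega)
    simp only [List.append_assoc, List.cons_append, List.nil_append] at h2
    rw [List.cons_append, h1, h2]
    simp only [List.length_cons, pow_succ, List.cons_append]
    noncomm_ring

private theorem yw_move (A : List Y) : ∀ B u v : List Y,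
    u.length + A.length + B.length + v.length = Fintype.card Y →
    topE hb (yw y (u ++ (A ++ (B ++ v)))) =
      (-1) ^ (A.length * B.length) * topE hb (yw y (u ++ (B ++ (A ++ v)))) := by
  induction A with
  | nil =>
    intro B u v _
    simp
  | cons a A ih =>
    intro B u v h
    have h1 := ih B (u ++ [a]) v (by simp at h ⊢; omega)
    simp only [List.append_assoc, List.cons_append, List.nil_append] at h1
    have h2 := yw_move1 hb hw hg hc ho a B u (A ++ v) (by simp at h ⊢; omega)
    rw [List.cons_append, h1, h2, ← mul_assoc, ← pow_add]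
    congr 2
    simp only [List.length_cons]
    ring

private theorem topE_der (h2 : (2 : k) ≠ 0) {δ : S →+ S}
    (hδ : ∀ a b, δ (a * b) = δ a * b + a * δ b)
    {b : Y → Y → k} (hy : ∀ i, δ (y i) = ∑ l, b i l • y l) (l : List Y) : ∀ u v : List Y,
    (u ++ l ++ v).length = Fintype.card Y → (u ++ l ++ v).Nodup →
    topE hb (yw y u * δ (yw y l) * yw y v) =
      (l.map fun i => b i i).sum • topE hb (yw y (u ++ l ++ v)) := by
  have h1 : δ 1 = 0 := by
    have := hδ 1 1
    rw [mul_one, one_mul, mul_one] at this
    exact (left_eq_add.1 this)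
  induction l with
  | nil =>
    intro u v _ _
    simp only [yw, List.map_nil, List.prod_nil, h1, mul_zero, zero_mul, map_zero, List.sum_nil,
      zero_smul]
  | cons i l ih =>
    intro u v hl hn
    have e : yw y (i :: l) = y i * yw y l := by simp [yw]
    have e1 : yw y u * δ (yw y (i :: l)) * yw y v =
        (∑ m, b i m • yw y (u ++ m :: (l ++ v))) + yw y (u ++ [i]) * δ (yw y l) * yw y v := by
      rw [e, hδ, hy, mul_add, add_mul, Finset.sum_mul, Finset.mul_sum, Finset.sum_mul]
      congr 1
      · refine Finset.sum_congr rfl fun m _ => ?_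
        simp only [yw, List.map_append, List.map_cons, List.prod_append, List.prod_cons,
          smul_mul_assoc, mul_smul_comm, mul_assoc]
      · simp [yw, mul_assoc]
    rw [e1, map_add, map_sum, ih (u ++ [i]) v (by simpa using hl) (by simpa using hn)]
    have e2 : ∑ m, topE hb (b i m • yw y (u ++ m :: (l ++ v))) =
        b i i • topE hb (yw y (u ++ (i :: l) ++ v)) := by
      rw [Finset.sum_eq_single i]
      · rw [map_smul]
        simp
      · intro m _ hm
        rw [map_smul, yw_not_nodup hb hw hg hc ho h2 ?_ (by simpa using hl), smul_zero]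
        intro hn'
        have hall : ∀ x, x ∈ u ++ (i :: l) ++ v := by
          intro x
          have h3 : (⟨u ++ (i :: l) ++ v, hn⟩ : Finset Y) = Finset.univ := by
            apply Finset.eq_univ_of_card
            simpa using hl
          have h4 : x ∈ (⟨u ++ (i :: l) ++ v, hn⟩ : Finset Y) := by
            rw [h3]; exact Finset.mem_univ x
          simpa using h4
        have hm' := hall m
        rw [List.nodup_middle] at hn'
        have h5 := (List.nodup_cons.1 hn').1
        simp only [List.mem_append, List.mem_cons, not_or] at hm' h5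
        tauto
      · intro h
        exact absurd (Finset.mem_univ i) h
    rw [e2, List.map_cons, List.sum_cons, add_smul]
    simp

end odd1

theorem exists_topCoef {k : Type*} [Field k] (h2 : (2 : k) ≠ 0) {R S : Type*} [Ring R] [Algebra k R]
    [Ring S] [Algebra k S] {V Y : Type*} [Fintype Y] [LinearOrder Y] {j : R →ₐ[k] S}
    {σ : S →ₐ[k] S} {DS : S →ₗ[k] S} {DR : R →ₗ[k] R} {ι : V → R} {y : Y → S}
    {a : V → Y → Y → k} {d : Y → Y → k} (H : OddHyp j σ DS DR ι y a d) :
    ∃ E : S →ₗ[k] R, TopCoef j DS DR y E := by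
  classical
  have hb := H.bas
  have hw := H.word
  have hg := H.gen
  have hc := H.comm
  have ho := H.odd
  -- the trace lemma for the full word
  have htr : ∀ (δ : S →+ S) (b : Y → Y → k), (∀ a b, δ (a * b) = δ a * b + a * δ b) →
      (∀ i, δ (y i) = ∑ l, b i l • y l) → ∑ i, b i i = 0 →
      ∀ T, topE hb (δ (yT y T)) = 0 := by
    intro δ b hδ hy hb0 T
    by_cases hT : T = Finset.univ
    · subst hT
      have h1 := topE_der hb hw hg hc ho h2 hδ hy
        ((Finset.univ : Finset Y).sort (· ≤ ·)) [] [] (by simp) (by simp)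
      have h3 : (((Finset.univ : Finset Y).sort (· ≤ ·)).map fun i => b i i).sum = 0 := by
        rw [← hb0]
        have h4 : (Finset.univ : Finset Y).sum (fun i => b i i)
            = (((Finset.univ : Finset Y).sort (· ≤ ·) : Multiset Y).map fun i => b i i).sum := by
          rw [Finset.sort_eq]
          rfl
        rw [h4, Multiset.map_coe, Multiset.sum_coe]
      rw [h3, zero_smul] at h1
      simpa [yw, yT] using h1
    · refine topE_Fil hb (m := T.card) ?_ ?_
      · have := der_mem hb hw hδ hy (T.sort (· ≤ ·))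
        rwa [Finset.length_sort] at this
      · exact lt_of_le_of_ne (Finset.card_le_univ T) (fun h => hT (Finset.eq_univ_of_card T h))
  have hTE : ∀ T : Finset Y, ∀ r : R, topE hb (yT y T * j r) = topE hb (yT y T) * r :=
    fun T r => topE_mul hb _ _
  refine ⟨topE hb, ?_⟩
  refine ⟨topE_mul hb, ?_, ?_, ?_, ?_, ?_, ?_⟩
  · -- left
    intro r
    let A : Subalgebra k R :=
      { carrier := {r | ∀ s, topE hb (j r * s) = r * topE hb s}
        mul_mem' := by
          intro r r' hr hr' s
          have e1 : j (r * r') = j r * j r' := map_mul j r r'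
          rw [e1, mul_assoc, hr, hr', mul_assoc]
        add_mem' := by
          intro r r' hr hr' s
          have e1 : j (r + r') = j r + j r' := map_add j r r'
          rw [e1, add_mul, map_add, hr, hr', add_mul]
        algebraMap_mem' := by
          intro c s
          rw [AlgHom.commutes, ← Algebra.smul_def, map_smul, Algebra.smul_def] }
    have hA : A = ⊤ := by
      rw [eq_top_iff, ← hg]
      refine Algebra.adjoin_le ?_
      rintro _ ⟨v, rfl⟩ s
      rw [cf_spec hb s, Finset.mul_sum, map_sum, map_sum, Finset.mul_sum]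
      refine Finset.sum_congr rfl fun T _ => ?_
      rw [← mul_assoc, topE_mul, topE_mul]
      let δ : S →+ S := AddMonoidHom.mulLeft (j (ι v)) - AddMonoidHom.mulRight (j (ι v))
      have e : j (ι v) * yT y T = δ (yT y T) + yT y T * j (ι v) := by
        simp [δ]
      have h3 := htr δ (a v) (by
        intro a b
        simp only [δ, AddMonoidHom.sub_apply, AddMonoidHom.coe_mulLeft, AddMonoidHom.coe_mulRight]
        noncomm_ring) (by
        intro i
        simpa [δ] using hc v i) (H.tr v) T
      rw [e, map_add, h3, zero_add, topE_mul, ← mul_assoc]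
      congr 1
      by_cases hT : T = Finset.univ
      · subst hT
        rw [topE_univ, one_mul, mul_one]
      · rw [topE_ne hb hT, zero_mul, mul_zero]
    have : r ∈ A := by rw [hA]; trivial
    exact this
  · -- D
    intro s
    conv_lhs => rw [cf_spec hb s]
    conv_rhs => rw [cf_spec hb s]
    rw [map_sum, map_sum, map_sum, map_sum]
    refine Finset.sum_congr rfl fun T _ => ?_
    have h3 := htr DS.toAddMonoidHom d (by
      intro a b
      exact H.der a b) (by
      intro i
      exact H.hd i) H.trd T
    have h4 : topE hb (DS (yT y T)) = 0 := h3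
    rw [H.der, map_add, topE_mul, h4, zero_mul, zero_add, H.Dj, topE_mul, topE_mul]
    by_cases hT : T = Finset.univ
    · subst hT
      rw [topE_univ, one_mul, one_mul]
    · rw [topE_ne hb hT, zero_mul, zero_mul, map_zero]
  · -- low
    intro T U r h
    rw [mul_assoc]
    exact topE_Fil hb (mul_mem_Fil hb hw hg hc (yT_mem hb hw T)
      (j_mul_mem hb hw hg hc (yT_mem hb hw U) r)) h
  · -- ne
    intro T U h hU
    have h3 : ∃ i, i ∈ T ∧ i ∈ U := by
      by_contra hcon
      push Not at hcon
      apply hU
      have hsub : U ⊆ Tᶜ := by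
        intro i hi
        rw [Finset.mem_compl]
        exact fun hi' => hcon i hi' hi
      refine Finset.eq_of_subset_of_card_le hsub ?_
      rw [Finset.card_compl]
      omega
    obtain ⟨i, hi, hi'⟩ := h3
    have e : yT y T * yT y U = yw y (T.sort (· ≤ ·) ++ U.sort (· ≤ ·)) := by
      simp [yw, yT]
    rw [e]
    refine yw_not_nodup hb hw hg hc ho h2 ?_ (by simpa using h)
    intro hn
    rw [List.nodup_append] at hn
    exact hn.2.2 i (by simpa using hi) i (by simpa using hi') rfl
  · -- pm
    intro T
    have e : yT y T * yT y Tᶜ = yw y (T.sort (· ≤ ·) ++ Tᶜ.sort (· ≤ ·)) := by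
      simp [yw, yT]
    have hp : (T.sort (· ≤ ·) ++ Tᶜ.sort (· ≤ ·)).Perm ((Finset.univ : Finset Y).sort (· ≤ ·)) := by
      rw [← Multiset.coe_eq_coe, ← Multiset.coe_add, Finset.sort_eq, Finset.sort_eq,
        Finset.sort_eq]
      have h3 : (T.disjUnion Tᶜ disjoint_compl_right) = Finset.univ := by
        rw [Finset.disjUnion_eq_union, Finset.union_compl]
      rw [← h3]
      rfl
    obtain ⟨ε, h3, h4⟩ := yw_perm' hb hw hg hc ho hp (by simp)
    refine ⟨ε, h3, ?_⟩
    rw [e, h4]
    have h5 : topE hb (yw y ((Finset.univ : Finset Y).sort (· ≤ ·))) = 1 := topE_univ hb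
    rw [h5, Algebra.smul_def, mul_one]
  · -- swap
    intro T
    have e : yT y T * yT y Tᶜ = yw y ([] ++ (T.sort (· ≤ ·) ++ (Tᶜ.sort (· ≤ ·) ++ []))) := by
      simp [yw, yT]
    have e' : yT y Tᶜ * yT y T = yw y ([] ++ (Tᶜ.sort (· ≤ ·) ++ (T.sort (· ≤ ·) ++ []))) := by
      simp [yw, yT]
    rw [e, e', yw_move hb hw hg hc ho (Tᶜ.sort (· ≤ ·)) (T.sort (· ≤ ·)) [] [] (by
      simp)]
    simp only [Finset.length_sort]
    rw [mul_comm T.card]

end Pool.Agent.Helper21.KW
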