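import Pool.Agent.Helper21.KW.OddDefs
import Pool.Agent.Helper21.KW.Frob

set_option autoImplicit false

/-!
# MODULE KW-Odd2 (stub): the retraction (Gorelik's ghost element)

With `N = card Y`:
(5) The matrix `M U T = E (yT Uᶜ * yT T)` over `R` (indices `Finset Y`) is `0` if `|T| < |U|`
  (`low` with `r = 1`), `0` if `|T| = |U|`, `T ≠ U` (`ne`), and `ε_U = ± 1` if `T = U` (`pm` for `Uᶜ`):
  hence it has an inverse `M'` (`M = diagonal + strictly triangular = diagonal * (1 + nilpotent)`;
  or define the rows of `M'` by induction on `N - |U|`), with `M' U T = 0` unless `|U| < |T|` or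
  `T = U`, and `M' U U = ε_U`.  Put `x U = ∑_T j (M' U T) * yT Tᶜ`: `E (x U * yT T) = δ_UT`;
  `s = ∑_T yT T * j (E (x T * s))` (`bas`, `right`); by `H.left`, as `yT T` is a left combination of
  the `x`'s (`M` is invertible), also `s = ∑_T j (E (s * yT T)) * x T`.
(6) If `N` is even let `τ = σ`, otherwise `τ = id`; `g = ∑_T yT T * τ (x T)`.  By `frob_ghost`
  `DS g = 0`, and `E g = ∑_T E (yT T * τ (x T)) = ∑_T 1 = 2 ^ N`: only the term `T` of
  `x T = ∑_U j (M' T U) * yT Uᶜ` counts (the others vanish by `low`), and gives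
  `(sign of τ on |Tᶜ| letters) * ε_T * E (yT T * yT Tᶜ)
     = (sign of τ on |Tᶜ| letters) * (-1) ^ (|T| |Tᶜ|) = 1`.
  `ρ s = (2 ^ N)⁻¹ • E (g * s)`.
-/

namespace Pool.Agent.Helper21.KW

section aux

variable {k : Type*} [Field k] {R S : Type*} [Ring R] [Algebra k R]
    [Ring S] [Algebra k S] {V Y : Type*} [Fintype Y] [LinearOrder Y] {j : R →ₐ[k] S}
    {σ : S →ₐ[k] S} {DS : S →ₗ[k] S} {DR : R →ₗ[k] R} {ι : V → R} {y : Y → S}
    {a : V → Y → Y → k} {d : Y → Y → k}

/-- `E (yT T * yT U) = 0` below the top degree -/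
private lemma o2_low {E : S →ₗ[k] R} (hE : TopCoef j DS DR y E) (T U : Finset Y)
    (h : T.card + U.card < Fintype.card Y) : E (yT y T * yT y U) = 0 := by
  have h1 := hE.low T U 1 h
  rwa [map_one, mul_one] at h1

private lemma o2_compl (U : Finset Y) : Uᶜ.card + U.card = Fintype.card Y := by
  rw [add_comm, Finset.card_add_card_compl]

/-- the pairing is nondegenerate -/
private lemma o2_nondeg {E : S →ₗ[k] R} (H : OddHyp j σ DS DR ι y a d)
    (hE : TopCoef j DS DR y E) (s : S) (hs : ∀ T, E (s * yT y T) = 0) : s = 0 := by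
  obtain ⟨c, hc⟩ := H.left s
  have key : ∀ n, ∀ T : Finset Y, Tᶜ.card = n → c T = 0 := by
    intro n
    induction n using Nat.strong_induction_on with
    | _ n ih =>
      intro T hT
      have h1 := hs Tᶜ
      rw [hc, Finset.sum_mul, map_sum, Finset.sum_eq_single T] at h1
      · obtain ⟨ε, hε, hε2⟩ := hE.pm T
        rw [mul_assoc, hE.left, hε2] at h1
        calc c T = c T * (algebraMap k R ε * algebraMap k R ε) := by
              rw [← map_mul, hε, map_one, mul_one]
          _ = (c T * algebraMap k R ε) * algebraMap k R ε := by rw [mul_assoc]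
          _ = 0 := by rw [h1, zero_mul]
      · intro U _ hU
        rw [mul_assoc, hE.left]
        have e1 := o2_compl T
        have e2 := o2_compl U
        rcases lt_trichotomy U.card T.card with h2 | h2 | h2
        · rw [o2_low hE _ _ (by omega), mul_zero]
        · rw [hE.ne U Tᶜ (by omega) (fun h => hU (compl_injective h).symm), mul_zero]
        · rw [ih Uᶜ.card (by omega) U rfl, zero_mul]
      · intro h
        exact absurd (Finset.mem_univ _) h
  rw [hc]
  refine Finset.sum_eq_zero fun T _ => ?_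
  rw [key _ T rfl, map_zero, zero_mul]

/-- dual elements -/
private lemma o2_dual {E : S →ₗ[k] R} (hE : TopCoef j DS DR y E) (eps : Finset Y → k)
    (heps : ∀ U, eps U * eps U = 1)
    (hM : ∀ U, E (yT y Uᶜ * yT y U) = algebraMap k R (eps U)) :
    ∀ n, ∀ U : Finset Y, Uᶜ.card = n → ∃ (x : S) (c : Finset Y → R),
      x = ∑ T, j (c T) * yT y Tᶜ ∧ (∀ T, T.card < U.card → c T = 0) ∧
      (∀ T, T.card = U.card → T ≠ U → c T = 0) ∧ c U = algebraMap k R (eps U) ∧
      ∀ T, E (x * yT y T) = if U = T then 1 else 0 := by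
  intro n
  induction n using Nat.strong_induction_on with
  | _ n ih =>
    intro U hU
    have hex : ∀ W : Finset Y, ∃ (x : S) (c : Finset Y → R), U.card < W.card →
        (x = ∑ T, j (c T) * yT y Tᶜ ∧ (∀ T, T.card < W.card → c T = 0) ∧
        (∀ T, T.card = W.card → T ≠ W → c T = 0) ∧ c W = algebraMap k R (eps W) ∧
        ∀ T, E (x * yT y T) = if W = T then 1 else 0) := by
      intro W
      by_cases hW : U.card < W.card
      · have e1 := o2_compl U
        have e2 := o2_compl W
        obtain ⟨x, c, h⟩ := ih Wᶜ.card (by omega) W rfl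
        exact ⟨x, c, fun _ => h⟩
      · exact ⟨0, 0, fun h => absurd h hW⟩
    choose X C hXC using hex
    set F : Finset (Finset Y) := Finset.univ.filter (fun W => U.card < W.card) with hF
    have hFm : ∀ W, W ∈ F ↔ U.card < W.card := fun W => by
      rw [hF, Finset.mem_filter]
      exact ⟨fun h => h.2, fun h => ⟨Finset.mem_univ _, h⟩⟩
    refine ⟨eps U • (yT y Uᶜ - ∑ W ∈ F, j (E (yT y Uᶜ * yT y W)) * X W),
      fun T => eps U • ((if T = U then 1 else 0) - ∑ W ∈ F, E (yT y Uᶜ * yT y W) * C W T),
      ?_, ?_, ?_, ?_, ?_⟩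
    · have h1 : ∀ T, j (eps U • ((if T = U then 1 else 0) -
          ∑ W ∈ F, E (yT y Uᶜ * yT y W) * C W T)) * yT y Tᶜ =
          eps U • ((if T = U then yT y Uᶜ else 0) -
            ∑ W ∈ F, j (E (yT y Uᶜ * yT y W)) * (j (C W T) * yT y Tᶜ)) := by
        intro T
        rw [map_smul, smul_mul_assoc, map_sub, sub_mul, map_sum, Finset.sum_mul]
        congr 2
        · split_ifs with h2
          · rw [h2, map_one, one_mul]
          · rw [map_zero, zero_mul]
        · refine Finset.sum_congr rfl fun W _ => ?_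
          rw [map_mul, mul_assoc]
      rw [Finset.sum_congr rfl fun T _ => h1 T, ← Finset.smul_sum, Finset.sum_sub_distrib,
        Finset.sum_ite_eq' Finset.univ U, if_pos (Finset.mem_univ U), Finset.sum_comm]
      congr 2
      refine Finset.sum_congr rfl fun W hW => ?_
      rw [← Finset.mul_sum, ← (hXC W ((hFm W).1 hW)).1]
    · intro T hT
      have h1 : T ≠ U := by rintro rfl; omega
      beta_reduce
      rw [if_neg h1, Finset.sum_eq_zero, sub_zero, smul_zero]
      intro W hW
      have h2 := (hFm W).1 hW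
      rw [(hXC W h2).2.1 T (by omega), mul_zero]
    · intro T hT hTU
      beta_reduce
      rw [if_neg hTU, Finset.sum_eq_zero, sub_zero, smul_zero]
      intro W hW
      have h2 := (hFm W).1 hW
      rw [(hXC W h2).2.1 T (by omega), mul_zero]
    · beta_reduce
      rw [if_pos rfl, Finset.sum_eq_zero, sub_zero, Algebra.smul_def, mul_one]
      intro W hW
      have h2 := (hFm W).1 hW
      rw [(hXC W h2).2.1 U h2, mul_zero]
    · intro T
      rw [smul_mul_assoc, map_smul, sub_mul, map_sub, Finset.sum_mul, map_sum]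
      have h1 : ∀ W ∈ F, E (j (E (yT y Uᶜ * yT y W)) * X W * yT y T) =
          if W = T then E (yT y Uᶜ * yT y T) else 0 := by
        intro W hW
        rw [mul_assoc, hE.left, (hXC W ((hFm W).1 hW)).2.2.2.2 T]
        split_ifs with h2
        · rw [h2, mul_one]
        · rw [mul_zero]
      rw [Finset.sum_congr rfl h1, Finset.sum_ite_eq']
      have e1 := o2_compl U
      by_cases h2 : U.card < T.card
      · have h3 : U ≠ T := by rintro rfl; omega
        rw [if_pos ((hFm T).2 h2), if_neg h3, sub_self, smul_zero]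
      · rw [if_neg (fun h => h2 ((hFm T).1 h)), sub_zero]
        by_cases h3 : U = T
        · subst h3
          rw [if_pos rfl, hM, Algebra.smul_def, ← map_mul, heps, map_one]
        · rw [if_neg h3]
          rcases Nat.lt_or_ge T.card U.card with h4 | h4
          · rw [o2_low hE _ _ (by omega), smul_zero]
          · rw [hE.ne Uᶜ T (by omega) (by rw [compl_compl]; exact fun h => h3 h.symm),
              smul_zero]

private lemma o2_yw {τ : S →ₐ[k] S} {t : k} (ht : ∀ i, τ (y i) = t • y i) (l : List Y) :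
    τ (yw y l) = t ^ l.length • yw y l := by
  induction l with
  | nil => simp [yw]
  | cons i l ih =>
    have h1 : yw y (i :: l) = y i * yw y l := by simp [yw]
    rw [h1, map_mul, ih, ht, List.length_cons, pow_succ, smul_mul_smul_comm, mul_comm t]

private lemma o2_yT {τ : S →ₐ[k] S} {t : k} (ht : ∀ i, τ (y i) = t • y i) (T : Finset Y) :
    τ (yT y T) = t ^ T.card • yT y T := by
  unfold yT
  rw [o2_yw ht, Finset.length_sort]

end aux

theorem odd_retraction {k : Type*} [Field k] (h2 : (2 : k) ≠ 0) {R S : Type*} [Ring R] [Algebra k R]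
    [Ring S] [Algebra k S] {V Y : Type*} [Fintype Y] [LinearOrder Y] {j : R →ₐ[k] S}
    {σ : S →ₐ[k] S} {DS : S →ₗ[k] S} {DR : R →ₗ[k] R} {ι : V → R} {y : Y → S}
    {a : V → Y → Y → k} {d : Y → Y → k} (H : OddHyp j σ DS DR ι y a d) {E : S →ₗ[k] R}
    (hE : TopCoef j DS DR y E) :
    ∃ ρ : S →ₗ[k] R, (∀ s, ρ (DS s) = DR (ρ s)) ∧ ∀ r, ρ (j r) = r := by

  classical
  -- the signs
  have hpm : ∀ U : Finset Y, ∃ ε : k, ε * ε = 1 ∧ E (yT y Uᶜ * yT y U) = algebraMap k R ε := by
    intro U
    obtain ⟨ε, h3, h4⟩ := hE.pm Uᶜ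
    rw [compl_compl] at h4
    exact ⟨ε, h3, h4⟩
  choose eps heps hM using hpm
  have hd := fun U : Finset Y => o2_dual hE eps heps hM _ U rfl
  choose x c hx0 hx1 hx2 hx3 hxy using hd
  -- expansions
  have hy : ∀ s, s = ∑ T, yT y T * j (E (x T * s)) := by
    intro s
    obtain ⟨e, he, -⟩ := H.bas s
    have h3 : ∀ U, E (x U * s) = e U := by
      intro U
      rw [he, Finset.mul_sum, map_sum]
      have h4 : ∀ T, E (x U * (yT y T * j (e T))) = if U = T then e T else 0 := by
        intro T
        rw [← mul_assoc, hE.right, hxy]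
        split_ifs
        · rw [one_mul]
        · rw [zero_mul]
      rw [Finset.sum_congr rfl fun T _ => h4 T, Finset.sum_ite_eq, if_pos (Finset.mem_univ _)]
    rw [Finset.sum_congr rfl fun T _ => by rw [h3 T]]
    exact he
  have hx : ∀ s, s = ∑ T, j (E (s * yT y T)) * x T := by
    intro s
    have h3 := o2_nondeg H hE (s - ∑ T, j (E (s * yT y T)) * x T) (by
      intro U
      rw [sub_mul, map_sub, Finset.sum_mul, map_sum]
      have h4 : ∀ T, E (j (E (s * yT y T)) * x T * yT y U) =
          if T = U then E (s * yT y U) else 0 := by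
        intro T
        rw [mul_assoc, hE.left, hxy]
        split_ifs with h5
        · rw [h5, mul_one]
        · rw [mul_zero]
      rw [Finset.sum_congr rfl fun T _ => h4 T, Finset.sum_ite_eq',
        if_pos (Finset.mem_univ _), sub_self])
    exact sub_eq_zero.1 h3
  -- the automorphism
  obtain ⟨τ, t, hτ1, hτ2, hτ3, ht⟩ : ∃ (τ : S →ₐ[k] S) (t : k), (∀ r, τ (j r) = j r) ∧
      (∀ s, τ (DS s) = DS (τ s)) ∧ (∀ i, τ (y i) = t • y i) ∧
      ∀ T : Finset Y, t ^ Tᶜ.card * (-1) ^ (T.card * Tᶜ.card) = 1 := by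
    rcases Nat.even_or_odd (Fintype.card Y) with h3 | h3
    · refine ⟨σ, -1, H.σj, H.σD, fun i => by rw [H.σy, neg_one_smul], fun T => ?_⟩
      rw [← pow_add]
      apply Even.neg_one_pow
      have h4 := o2_compl T
      rw [← h4, Nat.even_add] at h3
      have h5 : Tᶜ.card + T.card * Tᶜ.card = Tᶜ.card * (T.card + 1) := by ring
      rw [h5, Nat.even_mul, Nat.even_add_one]
      tauto
    · refine ⟨AlgHom.id k S, 1, fun r => rfl, fun s => rfl, fun i => (one_smul k _).symm,
        fun T => ?_⟩
      rw [one_pow, one_mul]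
      apply Even.neg_one_pow
      have h4 := o2_compl T
      rw [← h4, Nat.odd_add] at h3
      rw [Nat.even_mul]
      rcases Nat.even_or_odd T.card with h5 | h5
      · exact Or.inl h5
      · right
        by_contra h6
        rw [Nat.not_even_iff_odd] at h6
        exact (Nat.not_even_iff_odd.2 h5) (h3.1 h6)
  -- the ghost element
  have hinj : ∀ r, j r = 0 → r = 0 := by
    intro r hr
    obtain ⟨ε, h3, h4⟩ := hE.pm (Finset.univ : Finset Y)
    have h5 : yT y ((Finset.univ : Finset Y)ᶜ) = 1 := by
      rw [Finset.compl_univ]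
      simp [yT, yw]
    rw [h5, mul_one] at h4
    have h6 : E (yT y Finset.univ * j r) = algebraMap k R ε * r := by rw [hE.right, h4]
    rw [hr, mul_zero, map_zero] at h6
    calc r = algebraMap k R ε * (algebraMap k R ε * r) := by
          rw [← mul_assoc, ← map_mul, h3, map_one, one_mul]
      _ = 0 := by rw [← h6, mul_zero]
  have hDS1 : DS 1 = 0 := by
    have h3 := H.der 1 1
    rw [mul_one, mul_one, one_mul] at h3
    exact left_eq_add.1 h3
  have hDR1 : DR 1 = 0 := by
    apply hinj
    rw [← H.Dj, map_one, hDS1]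
  obtain ⟨g, hg⟩ : ∃ g : S, g = ∑ T, yT y T * τ (x T) := ⟨_, rfl⟩
  have hDg : DS g = 0 := by
    rw [hg]
    exact frob_ghost (j : R →+* S) (τ : S →+* S) hτ1 DS.toAddMonoidHom H.der
      DR.toAddMonoidHom H.Dj hτ2 E.toAddMonoidHom hE.D x (yT y) hxy hDR1 hy hx
  have hEg : E g = algebraMap k R (2 ^ Fintype.card Y) := by
    rw [hg, map_sum]
    have h3 : ∀ T, E (yT y T * τ (x T)) = 1 := by
      intro T
      rw [hx0 T, map_sum, Finset.mul_sum, map_sum, Finset.sum_eq_single T]
      · rw [map_mul τ, hτ1, o2_yT hτ3, hx3 T, mul_smul_comm, mul_smul_comm, map_smul]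
        have h4 : j (algebraMap k R (eps T)) = algebraMap k S (eps T) := j.commutes _
        have h5 := hE.swap T
        rw [hM T] at h5
        have h6 : E (yT y T * yT y Tᶜ) = (-1) ^ (T.card * Tᶜ.card) * algebraMap k R (eps T) := by
          have h5a : ((-1 : R)) ^ (T.card * Tᶜ.card) * (-1) ^ (T.card * Tᶜ.card) = 1 := by
            rw [← pow_add]
            exact Even.neg_one_pow ⟨_, rfl⟩
          rw [h5, ← mul_assoc, h5a, one_mul]
        have h7 : yT y T * (j (algebraMap k R (eps T)) * yT y Tᶜ) =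
            eps T • (yT y T * yT y Tᶜ) := by
          rw [h4, ← Algebra.smul_def, mul_smul_comm]
        rw [h7, map_smul, h6, Algebra.smul_def, Algebra.smul_def]
        have h8 : ((-1 : R)) ^ (T.card * Tᶜ.card) =
            algebraMap k R ((-1) ^ (T.card * Tᶜ.card)) := by
          rw [map_pow, map_neg, map_one]
        rw [h8, ← map_mul, ← map_mul, ← map_mul]
        have h9 : t ^ Tᶜ.card * (eps T * ((-1) ^ (T.card * Tᶜ.card) * eps T)) = 1 := by
          have := ht T
          have h10 := heps T
          calc t ^ Tᶜ.card * (eps T * ((-1) ^ (T.card * Tᶜ.card) * eps T)) =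
                (t ^ Tᶜ.card * (-1) ^ (T.card * Tᶜ.card)) * (eps T * eps T) := by ring
            _ = 1 := by rw [this, h10, one_mul]
        rw [h9, map_one]
      · intro U _ hU
        rw [map_mul τ, hτ1, o2_yT hτ3, mul_smul_comm, mul_smul_comm, map_smul]
        rcases lt_trichotomy U.card T.card with h4 | h4 | h4
        · rw [hx1 T U h4, map_zero, zero_mul, mul_zero, map_zero, smul_zero]
        · rw [hx2 T U h4 hU, map_zero, zero_mul, mul_zero, map_zero, smul_zero]
        · have e1 := o2_compl U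
          rw [← mul_assoc, hE.low T Uᶜ _ (by omega), smul_zero]
      · intro h
        exact absurd (Finset.mem_univ _) h
    rw [Finset.sum_congr rfl fun T _ => h3 T, Finset.sum_const, Finset.card_univ,
      Fintype.card_finset, nsmul_eq_mul, mul_one, map_pow]
    push_cast
    rw [map_ofNat]
  have h2N : (2 : k) ^ Fintype.card Y ≠ 0 := pow_ne_zero _ h2
  refine ⟨((2 : k) ^ Fintype.card Y)⁻¹ • (E.comp (LinearMap.mulLeft k g)), fun s => ?_,
    fun r => ?_⟩
  · simp only [LinearMap.smul_apply, LinearMap.comp_apply, LinearMap.mulLeft_apply, map_smul]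
    congr 1
    have h3 : g * DS s = DS (g * s) := by rw [H.der, hDg, zero_mul, zero_add]
    rw [h3, hE.D]
  · simp only [LinearMap.smul_apply, LinearMap.comp_apply, LinearMap.mulLeft_apply]
    rw [hE.right, hEg, ← Algebra.smul_def, smul_smul, inv_mul_cancel₀ h2N, one_smul]

end Pool.Agent.Helper21.KW
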