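import Mathlib

set_option autoImplicit false

/-!
# Definitions for the modules KW-Odd1, KW-Odd2

`S` is free over `R` on the ordered products `yT T` of the odd elements `y i` (`i : Y`), the even
generators act on the odd ones with trace 0.
-/

namespace Pool.Agent.Helper21.KW

/-- The product of a list of odd elements. -/
def yw {S Y : Type*} [Ring S] (y : Y → S) (l : List Y) : S := (l.map y).prod

/-- The ordered product of a set of odd elements. -/
def yT {S Y : Type*} [Ring S] [LinearOrder Y] (y : Y → S) (T : Finset Y) : S :=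
  yw y (T.sort (· ≤ ·))

section

variable {k : Type*} [Field k] {R S : Type*} [Ring R] [Algebra k R] [Ring S] [Algebra k S]
  {V Y : Type*} [Fintype Y] [LinearOrder Y]

/-- The hypotheses on the superalgebra `S` over `R`. -/
structure OddHyp (j : R →ₐ[k] S) (σ : S →ₐ[k] S) (DS : S →ₗ[k] S) (DR : R →ₗ[k] R)
    (ι : V → R) (y : Y → S) (a : V → Y → Y → k) (d : Y → Y → k) : Prop where
  σj : ∀ r, σ (j r) = j r
  der : ∀ a b, DS (a * b) = DS a * b + a * DS b
  Dj : ∀ r, DS (j r) = j (DR r)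
  σD : ∀ s, σ (DS s) = DS (σ s)
  gen : Algebra.adjoin k (Set.range ι) = ⊤
  σy : ∀ i, σ (y i) = - y i
  bas : ∀ s, ∃! c : Finset Y → R, s = ∑ T, yT y T * j (c T)
  left : ∀ s, ∃ c : Finset Y → R, s = ∑ T, j (c T) * yT y T
  word : ∀ l : List Y, ∃ c : Finset Y → R, (∀ T, l.length < T.card → c T = 0) ∧
    yw y l = ∑ T, yT y T * j (c T)
  odd : ∀ i l, ∃ g, y i * y l + y l * y i = j g
  comm : ∀ v i, j (ι v) * y i - y i * j (ι v) = ∑ l, a v i l • y l
  tr : ∀ v, ∑ i, a v i i = 0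
  hd : ∀ i, DS (y i) = ∑ l, d i l • y l
  trd : ∑ i, d i i = 0

/-- The properties of the top coefficient. -/
structure TopCoef (j : R →ₐ[k] S) (DS : S →ₗ[k] S) (DR : R →ₗ[k] R) (y : Y → S)
    (E : S →ₗ[k] R) : Prop where
  right : ∀ s r, E (s * j r) = E s * r
  left : ∀ r s, E (j r * s) = r * E s
  D : ∀ s, E (DS s) = DR (E s)
  low : ∀ (T U : Finset Y) (r : R), T.card + U.card < Fintype.card Y →
    E (yT y T * j r * yT y U) = 0
  ne : ∀ T U : Finset Y, T.card + U.card = Fintype.card Y → U ≠ Tᶜ → E (yT y T * yT y U) = 0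
  pm : ∀ T : Finset Y, ∃ ε : k, ε * ε = 1 ∧ E (yT y T * yT y Tᶜ) = algebraMap k R ε
  swap : ∀ T : Finset Y, E (yT y Tᶜ * yT y T) =
    (-1) ^ (T.card * Tᶜ.card) * E (yT y T * yT y Tᶜ)

end

end Pool.Agent.Helper21.KW
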