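import Pool.Agent.Helper21.KW.Defs
import Pool.Agent.Helper56.SKR.Dom

set_option autoImplicit false

/-!
# MODULE KW-PBWof: from independence of the ordered monomials to a PBW theorem

`A` is generated by a space `ι V` closed under commutators, and the ordered monomials in a basis
are linearly independent.  Then helper58's `PBW` holds, with `symb (monomial ν 1) = omon ν`.
(Words can be reordered modulo shorter words: `G ι d` is spanned by the ordered monomials of degree
`< d`.  See Helper56/SKR/Dom.lean (`perm_one`, `mon_mul`, `symb_mul`, `symb_lead`) and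
Helper58/KW/PBWEnv.lean for the same proof in another setting.)
-/

namespace Pool.Agent.Helper21.KW

open MvPolynomial Module Finset Pool.Agent.Helper58.KW

section word

variable {X : Type*} [Fintype X] [LinearOrder X] {A : Type*} [Ring A]

/-- The sorted word of a monomial. -/
def wdo (ν : X →₀ ℕ) : List X :=
  (Finset.univ.sort (· ≤ ·)).flatMap fun x => List.replicate (ν x) x

theorem sum_sortl (g : X → ℕ) : (((Finset.univ : Finset X).sort (· ≤ ·)).map g).sum = ∑ x, g x := by
  have h1 : (((Finset.univ : Finset X).sort (· ≤ ·)).map g).sum =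
      (Multiset.map g (((Finset.univ : Finset X).sort (· ≤ ·) : List X) : Multiset X)).sum := by
    rw [Multiset.map_coe, Multiset.sum_coe]
  rw [h1, Finset.sort_eq]
  rfl

theorem count_wdo (ν : X →₀ ℕ) (x : X) : (wdo ν).count x = ν x := by
  unfold wdo
  rw [List.count_flatMap, sum_sortl, Finset.sum_eq_single x]
  · simp
  · intro y _ hy
    simp only [Function.comp_apply, List.count_replicate]
    rw [if_neg (by simpa using hy)]
  · intro h
    exact absurd (Finset.mem_univ x) h

theorem length_wdo (ν : X →₀ ℕ) : (wdo ν).length = ν.degree := by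
  unfold wdo
  rw [List.length_flatMap, sum_sortl, Finsupp.degree_eq_sum]
  simp

theorem omon_wdo (f : X → A) (ν : X →₀ ℕ) : omon f ν = ((wdo ν).map f).prod := by
  unfold omon wdo
  generalize (Finset.univ : Finset X).sort (· ≤ ·) = L
  induction L with
  | nil => simp
  | cons x L ih =>
    rw [List.map_cons, List.prod_cons, List.flatMap_cons, List.map_append, List.prod_append, ih,
      List.map_replicate, List.prod_replicate]

theorem omon_zero (f : X → A) : omon f (0 : X →₀ ℕ) = 1 := by
  rw [omon_wdo]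
  have h : wdo (0 : X →₀ ℕ) = [] := by
    apply List.eq_nil_of_length_eq_zero
    rw [length_wdo]
    simp
  rw [h]
  rfl

theorem omon_single (f : X → A) (x : X) : omon f (Finsupp.single x 1) = f x := by
  rw [omon_wdo]
  have h1 : (wdo (Finsupp.single x 1 : X →₀ ℕ)).length = 1 := by
    rw [length_wdo]
    simp
  obtain ⟨y, hy⟩ := List.length_eq_one_iff.1 h1
  have h2 := count_wdo (Finsupp.single x 1 : X →₀ ℕ) x
  rw [hy, Finsupp.single_eq_same] at h2
  rw [hy]
  by_cases h : y = x
  · rw [h]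
    simp
  · rw [List.count_singleton, if_neg (by simpa using h)] at h2
    exact absurd h2 (by simp)

end word

section

variable {k : Type*} [Field k] {X : Type*} [Fintype X] [LinearOrder X]
  {V : Type*} [AddCommGroup V] [Module k V] {A : Type*} [Ring A] [Algebra k A]

omit [Fintype X] [LinearOrder X] in
theorem G_eq_FF (ι : V →ₗ[k] A) (e : Basis X k V) (d : ℕ) :
    G ι d = Helper56.SKU.FF k (fun x => ι (e x)) d := by
  rw [G_eq_basis ι e]
  unfold Helper56.SKU.FF
  congr 1
  ext u
  constructor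
  · rintro ⟨l, hl, rfl⟩
    exact ⟨l, hl, rfl⟩
  · rintro ⟨l, hl, rfl⟩
    exact ⟨l, hl, rfl⟩

omit [Fintype X] [LinearOrder X] in
/-- Words can be reordered modulo shorter words. -/
theorem perm_G (ι : V →ₗ[k] A) (e : Basis X k V)
    (hcl : ∀ v w, ∃ u, ι v * ι w - ι w * ι v = ι u) {l l' : List X} (h : l.Perm l') :
    (l.map fun x => ι (e x)).prod - (l'.map fun x => ι (e x)).prod ∈ G ι l.length := by
  rw [G_eq_FF ι e]
  refine Helper56.SKR.perm_one (f := fun x => ι (e x)) ?_ h
  intro x y
  rw [← G_eq_FF ι e]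
  obtain ⟨u, hu⟩ := hcl (e x) (e y)
  show ι (e x) * ι (e y) - ι (e y) * ι (e x) ∈ G ι 2
  rw [hu]
  exact iota_mem_G ι u (by omega)

theorem omon_mem_G (ι : V →ₗ[k] A) (e : Basis X k V) (ν : X →₀ ℕ) {d : ℕ} (h : ν.degree < d) :
    omon (fun x => ι (e x)) ν ∈ G ι d := by
  rw [omon_wdo, G_eq_basis ι e]
  exact Submodule.subset_span ⟨wdo ν, by rw [length_wdo]; exact h, rfl⟩

theorem omon_mul (ι : V →ₗ[k] A) (e : Basis X k V)
    (hcl : ∀ v w, ∃ u, ι v * ι w - ι w * ι v = ι u) (ν μ : X →₀ ℕ) :
    omon (fun x => ι (e x)) ν * omon (fun x => ι (e x)) μ - omon (fun x => ι (e x)) (ν + μ) ∈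
      G ι (ν.degree + μ.degree) := by
  have hp : (wdo ν ++ wdo μ).Perm (wdo (ν + μ)) := by
    rw [List.perm_iff_count]
    intro x
    rw [List.count_append, count_wdo, count_wdo, count_wdo]
    rfl
  have h := perm_G ι e hcl hp
  rw [List.map_append, List.prod_append, List.length_append, length_wdo, length_wdo] at h
  rw [omon_wdo, omon_wdo, omon_wdo]
  exact h

theorem G_omon (ι : V →ₗ[k] A) (e : Basis X k V)
    (hcl : ∀ v w, ∃ u, ι v * ι w - ι w * ι v = ι u) (d : ℕ) :
    G ι d ≤ Submodule.span k {a | ∃ ν : X →₀ ℕ, ν.degree < d ∧ a = omon (fun x => ι (e x)) ν} := by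
  induction d with
  | zero =>
    rw [G_zero]
    exact bot_le
  | succ d ih =>
    have ih' : G ι d ≤ Submodule.span k
        {a | ∃ ν : X →₀ ℕ, ν.degree < d + 1 ∧ a = omon (fun x => ι (e x)) ν} := by
      refine ih.trans (Submodule.span_mono ?_)
      rintro a ⟨ν, hν, rfl⟩
      exact ⟨ν, by omega, rfl⟩
    rw [G_eq_basis ι e, Submodule.span_le]
    rintro a ⟨l, hl, rfl⟩
    let ν : X →₀ ℕ := Finsupp.equivFunOnFinite.symm fun x => l.count x
    have hp : l.Perm (wdo ν) := by
      rw [List.perm_iff_count]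
      intro x
      rw [count_wdo]
      rfl
    have h1 := perm_G ι e hcl hp
    have h2 : ν.degree < d + 1 := by
      rw [← length_wdo, ← hp.length_eq]
      exact hl
    have h3 := ih' (G_mono ι (show l.length ≤ d by omega) h1)
    have h4 : omon (fun x => ι (e x)) ν ∈ Submodule.span k
        {a | ∃ ν : X →₀ ℕ, ν.degree < d + 1 ∧ a = omon (fun x => ι (e x)) ν} :=
      Submodule.subset_span ⟨ν, h2, rfl⟩
    have h5 := Submodule.add_mem _ h3 h4
    rw [omon_wdo, sub_add_cancel] at h5
    exact h5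

/-- The symbol map. -/
noncomputable def symbo (ι : V →ₗ[k] A) (e : Basis X k V) : MvPolynomial X k →ₗ[k] A :=
  (MvPolynomial.basisMonomials X k).constr k fun ν => omon (fun x => ι (e x)) ν

theorem symbo_monomial (ι : V →ₗ[k] A) (e : Basis X k V) (ν : X →₀ ℕ) (c : k) :
    symbo ι e (MvPolynomial.monomial ν c) = c • omon (fun x => ι (e x)) ν := by
  have h1 : MvPolynomial.monomial ν c = c • MvPolynomial.basisMonomials X k ν := by
    rw [MvPolynomial.coe_basisMonomials, MvPolynomial.smul_monomial, smul_eq_mul, mul_one]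
  rw [h1, map_smul]
  unfold symbo
  rw [Basis.constr_basis]

theorem symbo_eq (ι : V →ₗ[k] A) (e : Basis X k V) (q : MvPolynomial X k) :
    symbo ι e q = ∑ ν ∈ q.support, q.coeff ν • omon (fun x => ι (e x)) ν := by
  conv_lhs => rw [q.as_sum]
  rw [map_sum]
  exact Finset.sum_congr rfl fun ν _ => symbo_monomial ι e ν _

omit [LinearOrder X] in
theorem deg_of_hom {d : ℕ} {q : MvPolynomial X k} (hq : q.IsHomogeneous d) {ν : X →₀ ℕ}
    (hν : ν ∈ q.support) : ν.degree = d := by
  have := hq (MvPolynomial.mem_support_iff.1 hν)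
  rw [Finsupp.weight_apply, Finsupp.sum_fintype _ _ (by simp)] at this
  rw [Finsupp.degree_eq_sum]
  simpa using this

theorem symbo_mul (ι : V →ₗ[k] A) (e : Basis X k V)
    (hcl : ∀ v w, ∃ u, ι v * ι w - ι w * ι v = ι u) {d d' : ℕ} {q r : MvPolynomial X k}
    (hq : q.IsHomogeneous d) (hr : r.IsHomogeneous d') :
    symbo ι e q * symbo ι e r - symbo ι e (q * r) ∈ G ι (d + d') := by
  have h1 : symbo ι e (q * r) = ∑ ν ∈ q.support, ∑ μ ∈ r.support,
      (q.coeff ν * r.coeff μ) • omon (fun x => ι (e x)) (ν + μ) := by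
    conv_lhs => rw [q.as_sum, r.as_sum, Finset.sum_mul_sum]
    rw [map_sum]
    refine Finset.sum_congr rfl fun ν _ => ?_
    rw [map_sum]
    refine Finset.sum_congr rfl fun μ _ => ?_
    rw [MvPolynomial.monomial_mul, symbo_monomial]
  have h2 : symbo ι e q * symbo ι e r = ∑ ν ∈ q.support, ∑ μ ∈ r.support,
      (q.coeff ν * r.coeff μ) •
        (omon (fun x => ι (e x)) ν * omon (fun x => ι (e x)) μ) := by
    rw [symbo_eq, symbo_eq, Finset.sum_mul_sum]
    refine Finset.sum_congr rfl fun ν _ => Finset.sum_congr rfl fun μ _ => ?_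
    rw [smul_mul_smul_comm]
  rw [h1, h2, ← Finset.sum_sub_distrib]
  refine Submodule.sum_mem _ fun ν hν => ?_
  rw [← Finset.sum_sub_distrib]
  refine Submodule.sum_mem _ fun μ hμ => ?_
  rw [← smul_sub]
  refine Submodule.smul_mem _ _ ?_
  have h3 := omon_mul ι e hcl ν μ
  rw [deg_of_hom hq hν, deg_of_hom hr hμ] at h3
  exact h3

theorem symbo_lead (ι : V →ₗ[k] A) (e : Basis X k V)
    (hcl : ∀ v w, ∃ u, ι v * ι w - ι w * ι v = ι u)
    (hind : LinearIndependent k (fun ν : X →₀ ℕ => omon (fun x => ι (e x)) ν)) {d : ℕ}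
    {q : MvPolynomial X k} (hq : q.IsHomogeneous d) (h : symbo ι e q ∈ G ι d) : q = 0 := by
  have h1 : symbo ι e q ∈ Submodule.span k
      ((fun ν : X →₀ ℕ => omon (fun x => ι (e x)) ν) '' {ν | ν.degree < d}) := by
    refine (Submodule.span_mono ?_) (G_omon ι e hcl d h)
    rintro _ ⟨ν, hν, rfl⟩
    exact ⟨ν, hν, rfl⟩
  have h3 : symbo ι e q ∈ Submodule.span k
      ((fun ν : X →₀ ℕ => omon (fun x => ι (e x)) ν) '' {ν | ν.degree = d}) := by
    rw [symbo_eq]
    refine Submodule.sum_mem _ fun ν hν => Submodule.smul_mem _ _ (Submodule.subset_span ⟨ν, ?_, rfl⟩)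
    exact deg_of_hom hq hν
  have hdis := hind.disjoint_span_image (s := {ν | ν.degree < d}) (t := {ν | ν.degree = d}) (by
    rw [Set.disjoint_left]
    intro ν h4 h5
    have h4' : ν.degree < d := h4
    have h5' : ν.degree = d := h5
    omega)
  have h4 : symbo ι e q = 0 := (Submodule.disjoint_def.1 hdis) _ h1 h3
  rw [symbo_eq] at h4
  have h5 : ∀ ν ∈ q.support, q.coeff ν = 0 := linearIndependent_iff'.1 hind q.support q.coeff h4
  ext ν
  rw [MvPolynomial.coeff_zero]
  by_cases hν : ν ∈ q.support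
  · exact h5 ν hν
  · exact MvPolynomial.notMem_support_iff.1 hν

theorem symbo_surj (ι : V →ₗ[k] A) (e : Basis X k V)
    (hcl : ∀ v w, ∃ u, ι v * ι w - ι w * ι v = ι u) {d : ℕ} {a : A} (ha : a ∈ G ι (d + 1)) :
    ∃ q : MvPolynomial X k, q.IsHomogeneous d ∧ a - symbo ι e q ∈ G ι d := by
  have h3 := G_omon ι e hcl (d + 1) ha
  clear ha
  induction h3 using Submodule.span_induction with
  | mem a ha =>
    obtain ⟨ν, hν, rfl⟩ := ha
    by_cases hd : ν.degree = d
    · refine ⟨MvPolynomial.monomial ν 1, ?_, ?_⟩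
      · apply MvPolynomial.isHomogeneous_monomial
        exact hd
      · rw [symbo_monomial, one_smul, sub_self]
        exact Submodule.zero_mem _
    · refine ⟨0, MvPolynomial.isHomogeneous_zero _ _ _, ?_⟩
      rw [map_zero, sub_zero]
      exact omon_mem_G ι e ν (by omega)
  | zero =>
    refine ⟨0, MvPolynomial.isHomogeneous_zero _ _ _, ?_⟩
    rw [map_zero, sub_zero]
    exact Submodule.zero_mem _
  | add x y _ _ hx hy =>
    obtain ⟨q, hq, hq2⟩ := hx
    obtain ⟨r, hr, hr2⟩ := hy
    refine ⟨q + r, hq.add hr, ?_⟩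
    have := Submodule.add_mem _ hq2 hr2
    rw [map_add]
    convert this using 1
    abel
  | smul c x _ hx =>
    obtain ⟨q, hq, hq2⟩ := hx
    refine ⟨c • q, (MvPolynomial.homogeneousSubmodule X k d).smul_mem c hq, ?_⟩
    rw [map_smul, ← smul_sub]
    exact Submodule.smul_mem _ _ hq2

theorem pbw_of (ι : V →ₗ[k] A) (e : Basis X k V)
    (hcl : ∀ v w, ∃ u, ι v * ι w - ι w * ι v = ι u) (hex : ∀ a : A, ∃ d, a ∈ G ι d)
    (hind : LinearIndependent k (fun ν : X →₀ ℕ => omon (fun x => ι (e x)) ν)) :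
    ∃ symb : MvPolynomial X k →ₗ[k] A, PBW ι e symb := by
  refine ⟨symbo ι e, ?_, ?_, ?_, ?_, ?_, ?_, hex⟩
  · intro x
    have h1 : (MvPolynomial.X x : MvPolynomial X k) =
      MvPolynomial.monomial (Finsupp.single x 1) 1 := rfl
    rw [h1, symbo_monomial, one_smul, omon_single]
  · have h1 : (1 : MvPolynomial X k) = MvPolynomial.monomial 0 1 := rfl
    rw [h1, symbo_monomial, one_smul, omon_zero]
  · intro d q hq
    rw [symbo_eq]
    refine Submodule.sum_mem _ fun ν hν => Submodule.smul_mem _ _ (omon_mem_G ι e ν ?_)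
    rw [deg_of_hom hq hν]
    exact Nat.lt_succ_self d
  · intro d d' q r hq hr
    exact symbo_mul ι e hcl hq hr
  · intro d q hq h
    exact symbo_lead ι e hcl hind hq h
  · intro d a ha
    exact symbo_surj ι e hcl ha

end

end Pool.Agent.Helper21.KW
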