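import Pool.Agent.Helper21.KW.Defs

set_option autoImplicit false

/-!
# MODULE KW-SDer (stub): derivations act on the superalgebra attached to `(A, δ)`

`Φ : ker δ × ker δ² → S`, `(n, w) ↦ c0 n + c1 w` is linear and surjective (`M.surj`), and
`Ψ : (n, w) ↦ c0 (D n) + c1 (D w)` kills its kernel (`M.ker`, `D δ = δ D`); so `Ψ = DS ∘ Φ`
(take a linear right inverse of `Φ`).  The derivation property on `c0 n + c1 w` by `mul00`, ...
-/

namespace Pool.Agent.Helper21.KW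

open Module

private theorem sder_mul {k : Type*} [Field k] {A : Type*} [Ring A] [Algebra k A]
    {δ : A →ₗ[k] A} (hδ : ∀ a b, δ (a * b) = δ a * b + a * δ b) {S : Type*} [Ring S] [Algebra k S]
    (M : SData δ S) {n n' w w' : A} (hn : δ n = 0) (hn' : δ n' = 0) (hw : δ (δ w) = 0)
    (hw' : δ (δ w') = 0) :
    (δ (n * n' + (w * δ w' - δ w * w')) = 0 ∧ δ (δ (n * w' + w * n')) = 0) ∧
    (M.c0 n + M.c1 w) * (M.c0 n' + M.c1 w') =
      M.c0 (n * n' + (w * δ w' - δ w * w')) + M.c1 (n * w' + w * n') := by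
  refine ⟨⟨?_, ?_⟩, ?_⟩
  · rw [map_add, map_sub, hδ, hδ, hδ, hn, hn', hw, hw']
    noncomm_ring
  · simp only [map_add, hδ, hn, hn', hw, hw', map_zero, zero_mul, mul_zero, add_zero]
  · rw [add_mul, mul_add, mul_add, M.mul00 n n' hn hn', M.mul01 n w' hn hw', M.mul10 w n' hw hn',
      M.mul11 w w' hw hw', map_add, map_add]
    abel

theorem SData.exists_der {k : Type*} [Field k] {A : Type*} [Ring A] [Algebra k A]
    {δ : A →ₗ[k] A} (hδ : ∀ a b, δ (a * b) = δ a * b + a * δ b) {S : Type*} [Ring S] [Algebra k S]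
    (M : SData δ S) (D : A →ₗ[k] A) (hD : ∀ a b, D (a * b) = D a * b + a * D b)
    (hδD : ∀ a, δ (D a) = D (δ a)) :
    ∃ DS : S →ₗ[k] S, (∀ a b, DS (a * b) = DS a * b + a * DS b) ∧
      (∀ n, δ n = 0 → DS (M.c0 n) = M.c0 (D n)) ∧
      (∀ w, δ (δ w) = 0 → DS (M.c1 w) = M.c1 (D w)) ∧ ∀ s, M.σ (DS s) = DS (M.σ s) := by
  have hD0 : ∀ n, δ n = 0 → δ (D n) = 0 := fun n hn => by rw [hδD, hn, map_zero]
  have hD1 : ∀ w, δ (δ w) = 0 → δ (δ (D w)) = 0 := fun w hw => by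
    rw [hδD, hδD, hw, map_zero]
  obtain ⟨DS, hDS⟩ : ∃ DS : S →ₗ[k] S, ∀ n w, δ n = 0 → δ (δ w) = 0 →
      DS (M.c0 n + M.c1 w) = M.c0 (D n) + M.c1 (D w) := by
    let K0 := LinearMap.ker δ
    let K1 := LinearMap.ker (δ ∘ₗ δ)
    let Φ : (K0 × K1) →ₗ[k] S :=
      (M.c0 ∘ₗ K0.subtype) ∘ₗ LinearMap.fst k K0 K1 + (M.c1 ∘ₗ K1.subtype) ∘ₗ LinearMap.snd k K0 K1
    let Ψ : (K0 × K1) →ₗ[k] S :=
      (M.c0 ∘ₗ D ∘ₗ K0.subtype) ∘ₗ LinearMap.fst k K0 K1 +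
        (M.c1 ∘ₗ D ∘ₗ K1.subtype) ∘ₗ LinearMap.snd k K0 K1
    have hΦ : ∀ x : K0 × K1, Φ x = M.c0 x.1 + M.c1 x.2 := fun x => rfl
    have hΨ : ∀ x : K0 × K1, Ψ x = M.c0 (D x.1) + M.c1 (D x.2) := fun x => rfl
    have hker : ∀ x : K0 × K1, Φ x = 0 → Ψ x = 0 := by
      rintro ⟨⟨n, hn⟩, ⟨w, hw⟩⟩ h
      have hn' : δ n = 0 := hn
      have hw' : δ (δ w) = 0 := hw
      rw [hΦ] at h
      rw [hΨ]
      obtain ⟨⟨a, ha⟩, n', a', hn'', hwe⟩ := (M.ker n w hn' hw').1 h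
      refine (M.ker (D n) (D w) (hD0 n hn') (hD1 w hw')).2 ⟨⟨D a, ?_⟩, D n', D a', hD0 n' hn'', ?_⟩
      · rw [hδD, ha]
      · rw [hδD, hwe, map_add]
    have hsurj : Function.Surjective Φ := by
      intro s
      obtain ⟨n, w, hn, hw, rfl⟩ := M.surj s
      exact ⟨(⟨n, hn⟩, ⟨w, hw⟩), rfl⟩
    obtain ⟨r, hr⟩ := Φ.exists_rightInverse_of_surjective (LinearMap.range_eq_top.2 hsurj)
    refine ⟨Ψ ∘ₗ r, fun n w hn hw => ?_⟩
    let x : K0 × K1 := (⟨n, hn⟩, ⟨w, hw⟩)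
    have h1 : Φ x = M.c0 n + M.c1 w := rfl
    have h2 : Ψ x = M.c0 (D n) + M.c1 (D w) := rfl
    rw [← h1, ← h2, LinearMap.comp_apply]
    have h3 : Φ (r (Φ x) - x) = 0 := by
      rw [map_sub, ← LinearMap.comp_apply Φ r, hr, LinearMap.id_apply, sub_self]
    have h4 := hker _ h3
    rw [map_sub, sub_eq_zero] at h4
    exact h4
  refine ⟨DS, ?_, ?_, ?_, ?_⟩
  · intro a b
    obtain ⟨n, w, hn, hw, rfl⟩ := M.surj a
    obtain ⟨n', w', hn', hw', rfl⟩ := M.surj b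
    obtain ⟨⟨m1, m2⟩, m3⟩ := sder_mul hδ M hn hn' hw hw'
    obtain ⟨-, m4⟩ := sder_mul hδ M (hD0 n hn) hn' (hD1 w hw) hw'
    obtain ⟨-, m5⟩ := sder_mul hδ M hn (hD0 n' hn') hw (hD1 w' hw')
    rw [m3, hDS _ _ m1 m2, hDS n w hn hw, hDS n' w' hn' hw', m4, m5]
    have e1 : D (n * n' + (w * δ w' - δ w * w')) =
        (D n * n' + (D w * δ w' - δ (D w) * w')) + (n * D n' + (w * δ (D w') - δ w * D w')) := by
      rw [map_add, map_sub, hD, hD, hD, hδD, hδD]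
      abel
    have e2 : D (n * w' + w * n') = (D n * w' + D w * n') + (n * D w' + w * D n') := by
      rw [map_add, hD, hD]
      abel
    rw [e1, e2, map_add M.c0, map_add M.c1]
    abel
  · intro n hn
    have h := hDS n 0 hn (by rw [map_zero, map_zero])
    simpa using h
  · intro w hw
    have h := hDS 0 w (map_zero δ) hw
    simpa using h
  · intro s
    obtain ⟨n, w, hn, hw, rfl⟩ := M.surj s
    have h1 : M.σ (M.c0 n + M.c1 w) = M.c0 n + M.c1 (-w) := by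
      rw [map_add, M.σ0 n hn, M.σ1 w hw, map_neg]
    have hw' : δ (δ (-w)) = 0 := by rw [map_neg, map_neg, hw, neg_zero]
    rw [h1, hDS n w hn hw, hDS n (-w) hn hw', map_add, M.σ0 _ (hD0 n hn), M.σ1 _ (hD1 w hw),
      map_neg, map_neg]

end Pool.Agent.Helper21.KW
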