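import Pool.Agent.Helper21.KW.SPDefs

set_option autoImplicit false

/-!
# MODULE KW-SP1: representatives of the products

By induction on the list: `wA l ∈ ker δ` (even length) or `ker δ²` (odd length) [`b δ w - δ b w` is
killed by `δ` for `b, w ∈ ker δ²`], `(l.map c1).prod = c0 (wA l)` or `c1 (wA l)` (`mul01`, `mul11`,
`M.one`), `wL k J l` is homogeneous of degree `l.length` (`DX_hom`), and
`wA l - symb (wL k J l) ∈ G ι l.length` (`PBW.compat`, `der_G`, `symb_mul`, `symb_X`, `G_mul`,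
`G_mul'`, as in helper58's `Lft.mul`).
-/

namespace Pool.Agent.Helper21.KW

open MvPolynomial Module Finset Pool.Agent.Helper58.KW

section

variable {k : Type*} [Field k] {X I : Type*} [Fintype X] [LinearOrder X] {J : Jd X I}
  {V : Type*} [AddCommGroup V] [Module k V] {A : Type*} [Ring A] [Algebra k A]
  {S : Type*} [Ring S] [Algebra k S] {ι : V →ₗ[k] A} {e : Basis X k V}
  {symb : MvPolynomial X k →ₗ[k] A} {δ₀ : V →ₗ[k] V} {δ : A →ₗ[k] A} {n : (Xp J →₀ ℕ) → A}

theorem wdp_even {δ : A →ₗ[k] A} (b : A) (l : List A) (h : l.length % 2 = 0) :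
    wdp δ (b :: l) = b * wdp δ l := by
  show (if Even l.length then b * wdp δ l else b * δ (wdp δ l) - δ b * wdp δ l) = _
  rw [if_pos (Nat.even_iff.2 h)]

theorem wdp_odd {δ : A →ₗ[k] A} (b : A) (l : List A) (h : l.length % 2 = 1) :
    wdp δ (b :: l) = b * δ (wdp δ l) - δ b * wdp δ l := by
  show (if Even l.length then b * wdp δ l else b * δ (wdp δ l) - δ b * wdp δ l) = _
  rw [if_neg]
  rw [Nat.even_iff]
  omega

/-- Products of elements of `ker δ²`. -/
theorem wdp_ker (hder : ∀ a b, δ (a * b) = δ a * b + a * δ b) (l : List A)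
    (hl : ∀ b ∈ l, δ (δ b) = 0) :
    (l.length % 2 = 0 → δ (wdp δ l) = 0) ∧ δ (δ (wdp δ l)) = 0 := by
  induction l with
  | nil =>
    have h1 : δ (1 : A) = 0 := leib_one δ hder
    refine ⟨fun _ => h1, ?_⟩
    show δ (δ (1 : A)) = 0
    rw [h1, map_zero]
  | cons b l ih =>
    have hb := hl b (List.mem_cons_self)
    obtain ⟨i1, i2⟩ := ih fun c hc => hl c (List.mem_cons_of_mem _ hc)
    rcases Nat.mod_two_eq_zero_or_one l.length with h | h
    · rw [wdp_even b l h]
      refine ⟨fun h' => ?_, ?_⟩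
      · rw [List.length_cons] at h'
        omega
      · rw [hder, i1 h, mul_zero, add_zero, hder, hb, i1 h, mul_zero, zero_mul, add_zero]
    · have key : δ (wdp δ (b :: l)) = 0 := by
        rw [wdp_odd b l h, map_sub, hder, hder, i2, hb, mul_zero, zero_mul, add_zero, zero_add,
          sub_self]
      refine ⟨fun _ => key, ?_⟩
      rw [key, map_zero]

/-- The heads of the blocks of size 2 are in `ker δ²`. -/
theorem head_ker2 (H : SHyp J ι e symb δ₀ δ n) (y : Yp J) : δ (δ (ι (e y.1))) = 0 := by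
  rw [H.hι, H.hι, H.hnx]
  cases h : J.nx y.1 with
  | none => simp
  | some z =>
    have h1 := J.nx_some h
    rw [Option.elim_some, H.hnx]
    have h2 : J.nx z = none := by
      unfold Jd.nx
      rw [J.att_none, h1.1, h1.2]
      have := y.2.1
      have := y.2.2
      omega
    rw [h2]
    simp

theorem wA_both (H : SHyp J ι e symb δ₀ δ n) (l : List (Yp J)) :
    (l.length % 2 = 0 → δ (wA J δ ι e l) = 0) ∧ δ (δ (wA J δ ι e l)) = 0 := by
  have := wdp_ker (δ := δ) H.der (l.map fun y => ι (e y.1)) (by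
    intro b hb
    rw [List.mem_map] at hb
    obtain ⟨y, _, rfl⟩ := hb
    exact head_ker2 H y)
  rw [List.length_map] at this
  exact this

theorem wA_ker (H : SHyp J ι e symb δ₀ δ n) {l : List (Yp J)} (hl : l.length % 2 = 0) :
    δ (wA J δ ι e l) = 0 := (wA_both H l).1 hl

theorem wA_ker2 (H : SHyp J ι e symb δ₀ δ n) (l : List (Yp J)) :
    δ (δ (wA J δ ι e l)) = 0 := (wA_both H l).2

theorem wA_even (y : Yp J) {l : List (Yp J)} (h : l.length % 2 = 0) :
    wA J δ ι e (y :: l) = ι (e y.1) * wA J δ ι e l := by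
  unfold wA
  rw [List.map_cons, wdp_even]
  rwa [List.length_map]

theorem wA_odd (y : Yp J) {l : List (Yp J)} (h : l.length % 2 = 1) :
    wA J δ ι e (y :: l) = ι (e y.1) * δ (wA J δ ι e l) - δ (ι (e y.1)) * wA J δ ι e l := by
  unfold wA
  rw [List.map_cons, wdp_odd]
  rwa [List.length_map]

theorem sp1_wL_even (y : Yp J) {l : List (Yp J)} (h : l.length % 2 = 0) :
    wL k J (y :: l) = MvPolynomial.X y.1 * wL k J l := by
  unfold wL
  rw [List.map_cons, wdp_even]
  rwa [List.length_map]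

theorem sp1_wL_odd (y : Yp J) {l : List (Yp J)} (h : l.length % 2 = 1) :
    wL k J (y :: l) = MvPolynomial.X y.1 * dP k J (wL k J l) -
      dP k J (MvPolynomial.X y.1) * wL k J l := by
  unfold wL
  rw [List.map_cons, wdp_odd]
  rwa [List.length_map]

theorem prod_both (H : SHyp J ι e symb δ₀ δ n) (M : SData δ S) (l : List (Yp J)) :
    (l.length % 2 = 0 → (l.map fun y => M.c1 (ι (e y.1))).prod = M.c0 (wA J δ ι e l)) ∧
    (l.length % 2 = 1 → (l.map fun y => M.c1 (ι (e y.1))).prod = M.c1 (wA J δ ι e l)) := by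
  induction l with
  | nil =>
    refine ⟨fun _ => ?_, fun h => ?_⟩
    · show (1 : S) = M.c0 1
      exact M.one.symm
    · rw [List.length_nil] at h
      omega
  | cons y l ih =>
    rcases Nat.mod_two_eq_zero_or_one l.length with h | h
    · refine ⟨fun h' => ?_, fun _ => ?_⟩
      · rw [List.length_cons] at h'
        omega
      · rw [List.map_cons, List.prod_cons, ih.1 h, wA_even y h,
          M.mul10 _ _ (head_ker2 H y) (wA_ker H h)]
    · refine ⟨fun _ => ?_, fun h' => ?_⟩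
      · rw [List.map_cons, List.prod_cons, ih.2 h, wA_odd y h,
          M.mul11 _ _ (head_ker2 H y) (wA_ker2 H l)]
      · rw [List.length_cons] at h'
        omega

theorem prod_c0 (H : SHyp J ι e symb δ₀ δ n) (M : SData δ S) {l : List (Yp J)}
    (hl : l.length % 2 = 0) : (l.map fun y => M.c1 (ι (e y.1))).prod = M.c0 (wA J δ ι e l) :=
  (prod_both H M l).1 hl

theorem prod_c1 (H : SHyp J ι e symb δ₀ δ n) (M : SData δ S) {l : List (Yp J)}
    (hl : l.length % 2 = 1) : (l.map fun y => M.c1 (ι (e y.1))).prod = M.c1 (wA J δ ι e l) :=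
  (prod_both H M l).2 hl

theorem sp1_dP_hom {m : ℕ} {q : MvPolynomial X k} (hq : q.IsHomogeneous m) :
    (dP k J q).IsHomogeneous m := DX_hom J.nx hq

theorem wL_hom (l : List (Yp J)) : (wL k J l).IsHomogeneous l.length := by
  induction l with
  | nil => exact isHomogeneous_one _ _
  | cons y l ih =>
    have hX : (MvPolynomial.X y.1 : MvPolynomial X k).IsHomogeneous 1 := isHomogeneous_X _ _
    rw [List.length_cons, add_comm]
    rcases Nat.mod_two_eq_zero_or_one l.length with h | h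
    · rw [sp1_wL_even y h]
      exact hX.mul ih
    · rw [sp1_wL_odd y h]
      exact (hX.mul (sp1_dP_hom ih)).sub ((sp1_dP_hom hX).mul ih)

/-- Products of representatives. -/
theorem symb_mul' (h : PBW ι e symb) {a b : A} {q r : MvPolynomial X k} {d d' : ℕ}
    (hq : q.IsHomogeneous d) (hr : r.IsHomogeneous d') (ha : a - symb q ∈ G ι d)
    (hb : b - symb r ∈ G ι d') : a * b - symb (q * r) ∈ G ι (d + d') := by
  have e1 := h.symb_mul hq hr
  have hb3 : b ∈ G ι (d' + 1) := by
    have := Submodule.add_mem _ (G_mono ι (Nat.le_succ d') hb) (h.symb_hom hr)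
    rwa [sub_add_cancel] at this
  have e2 := G_mul' ι ha hb3
  have e3 := G_mul ι (h.symb_hom hq) hb
  have e4 := Submodule.add_mem _ (Submodule.add_mem _ e1 e2) e3
  convert e4 using 1
  noncomm_ring

theorem der_symb (H : SHyp J ι e symb δ₀ δ n) {a : A} {q : MvPolynomial X k} {d : ℕ}
    (hq : q.IsHomogeneous d) (ha : a - symb q ∈ G ι d) : δ a - symb (dP k J q) ∈ G ι d := by
  have h1 := der_G ι δ H.der δ₀ H.hι ha
  have h2 := H.pbw.compat δ H.der δ₀ H.hι J.nx H.hnx hq
  rw [map_sub] at h1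
  have h3 := Submodule.add_mem _ h1 h2
  rw [sub_add_sub_cancel] at h3
  exact h3

theorem wA_symb (H : SHyp J ι e symb δ₀ δ n) (l : List (Yp J)) :
    wA J δ ι e l - symb (wL k J l) ∈ G ι l.length := by
  induction l with
  | nil =>
    have h1 : wA J δ ι e ([] : List (Yp J)) = 1 := rfl
    have h2 : wL k J ([] : List (Yp J)) = 1 := rfl
    rw [h1, h2, H.pbw.symb_one, sub_self]
    exact Submodule.zero_mem _
  | cons y l ih =>
    have hX : (MvPolynomial.X y.1 : MvPolynomial X k).IsHomogeneous 1 := isHomogeneous_X _ _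
    have hX' : ι (e y.1) - symb (MvPolynomial.X y.1) ∈ G ι 1 := by
      rw [H.pbw.symb_X, sub_self]
      exact Submodule.zero_mem _
    rw [List.length_cons, add_comm]
    rcases Nat.mod_two_eq_zero_or_one l.length with h | h
    · rw [sp1_wL_even y h, wA_even y h]
      exact symb_mul' H.pbw hX (wL_hom l) hX' ih
    · rw [sp1_wL_odd y h, wA_odd y h]
      have h1 := symb_mul' H.pbw hX (sp1_dP_hom (wL_hom l)) hX' (der_symb H (wL_hom l) ih)
      have h2 := symb_mul' H.pbw (sp1_dP_hom hX) (wL_hom l) (der_symb H hX hX') ih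
      have h3 := Submodule.sub_mem _ h1 h2
      rw [map_sub]
      convert h3 using 1
      abel

theorem lam_hom (μ : Xp J →₀ ℕ) :
    (monomial (lam J μ) (1 : k)).IsHomogeneous (lam J μ).degree :=
  isHomogeneous_monomial _ rfl

theorem wAn_symb (H : SHyp J ι e symb δ₀ δ n) (l : List (Yp J)) (μ : Xp J →₀ ℕ) :
    wA J δ ι e l * n μ - symb (monomial (lam J μ) 1 * wL k J l) ∈
      G ι ((lam J μ).degree + l.length) := by
  have := symb_mul' H.pbw (wL_hom l) (lam_hom (k := k) μ) (wA_symb H l) (H.hnG μ)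
  rwa [mul_comm (wL k J l), add_comm l.length] at this

theorem nwA_symb (H : SHyp J ι e symb δ₀ δ n) (l : List (Yp J)) (μ : Xp J →₀ ℕ) :
    n μ * wA J δ ι e l - symb (monomial (lam J μ) 1 * wL k J l) ∈
      G ι ((lam J μ).degree + l.length) :=
  symb_mul' H.pbw (lam_hom (k := k) μ) (wL_hom l) (H.hnG μ) (wA_symb H l)

/-- Lifts of the elements of a span. -/
theorem lift_span {s : Set (MvPolynomial X k)} {P : A → Prop} (h0 : P 0)
    (hadd : ∀ a b, P a → P b → P (a + b)) (hsmul : ∀ (c : k) a, P a → P (c • a))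
    (c : A →ₗ[k] S) (N : Submodule k S) (d : ℕ)
    (hs : ∀ f ∈ s, ∃ a, P a ∧ a - symb f ∈ G ι d ∧ c a ∈ N) {f : MvPolynomial X k}
    (hf : f ∈ Submodule.span k s) : ∃ a, P a ∧ a - symb f ∈ G ι d ∧ c a ∈ N := by
  induction hf using Submodule.span_induction with
  | mem f hf => exact hs f hf
  | zero =>
    refine ⟨0, h0, ?_, ?_⟩
    · rw [map_zero, sub_zero]
      exact Submodule.zero_mem _
    · rw [map_zero]
      exact Submodule.zero_mem _
  | add f g _ _ hf hg =>
    obtain ⟨a, ha1, ha2, ha3⟩ := hf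
    obtain ⟨b, hb1, hb2, hb3⟩ := hg
    refine ⟨a + b, hadd a b ha1 hb1, ?_, ?_⟩
    · rw [map_add, add_sub_add_comm]
      exact Submodule.add_mem _ ha2 hb2
    · rw [map_add]
      exact Submodule.add_mem _ ha3 hb3
  | smul r f _ hf =>
    obtain ⟨a, ha1, ha2, ha3⟩ := hf
    refine ⟨r • a, hsmul r a ha1, ?_, ?_⟩
    · rw [map_smul, ← smul_sub]
      exact Submodule.smul_mem _ _ ha2
    · rw [map_smul]
      exact Submodule.smul_mem _ _ ha3

/-- Lifts of the elements of `SP k J 0 d`. -/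
theorem lift_SP0 (H : SHyp J ι e symb δ₀ δ n) (M : SData δ S) {d : ℕ} {f : MvPolynomial X k}
    (hf : f ∈ SP k J 0 d) : (∃ a, δ a = 0 ∧ a - symb f ∈ G ι d ∧ M.c0 a ∈ Rsp J M ι e n d) ∧
      ∃ a, δ a = 0 ∧ a - symb f ∈ G ι d ∧ M.c0 a ∈ Lsp J M ι e n d := by
  have h0 : δ (0 : A) = 0 := map_zero δ
  have hadd : ∀ a b, δ a = 0 → δ b = 0 → δ (a + b) = 0 := by
    intro a b ha hb
    rw [map_add, ha, hb, add_zero]
  have hsmul : ∀ (c : k) a, δ a = 0 → δ (c • a) = 0 := by
    intro c a ha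
    rw [map_smul, ha, smul_zero]
  refine ⟨lift_span (P := fun a => δ a = 0) h0 hadd hsmul M.c0 _ d ?_ hf,
    lift_span (P := fun a => δ a = 0) h0 hadd hsmul M.c0 _ d ?_ hf⟩
  · rintro f ⟨μ, T, hT, hd, rfl⟩
    have hl : (T.sort (· ≤ ·)).length % 2 = 0 := by rwa [Finset.length_sort]
    have hk := wA_ker H hl
    refine ⟨wA J δ ι e (T.sort (· ≤ ·)) * n μ, ?_, ?_, ?_⟩
    · show δ _ = 0
      rw [H.der, hk, H.hn, zero_mul, mul_zero, add_zero]
    · have := wAn_symb H (T.sort (· ≤ ·)) μ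
      rw [Finset.length_sort, hd] at this
      exact this
    · rw [← M.mul00 _ _ hk (H.hn μ), ← prod_c0 H M hl]
      exact Submodule.subset_span ⟨μ, T, hd.le, rfl⟩
  · rintro f ⟨μ, T, hT, hd, rfl⟩
    have hl : (T.sort (· ≤ ·)).length % 2 = 0 := by rwa [Finset.length_sort]
    have hk := wA_ker H hl
    refine ⟨n μ * wA J δ ι e (T.sort (· ≤ ·)), ?_, ?_, ?_⟩
    · show δ _ = 0
      rw [H.der, hk, H.hn, zero_mul, mul_zero, add_zero]
    · have := nwA_symb H (T.sort (· ≤ ·)) μ
      rw [Finset.length_sort, hd] at this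
      exact this
    · rw [← M.mul00 _ _ (H.hn μ) hk, ← prod_c0 H M hl]
      exact Submodule.subset_span ⟨μ, T, hd.le, rfl⟩

/-- Lifts of the elements of `SP k J 1 d`. -/
theorem lift_SP1 (H : SHyp J ι e symb δ₀ δ n) (M : SData δ S) {d : ℕ} {f : MvPolynomial X k}
    (hf : f ∈ SP k J 1 d) : (∃ a, δ (δ a) = 0 ∧ a - symb f ∈ G ι d ∧ M.c1 a ∈ Rsp J M ι e n d) ∧
      ∃ a, δ (δ a) = 0 ∧ a - symb f ∈ G ι d ∧ M.c1 a ∈ Lsp J M ι e n d := by
  have h0 : δ (δ (0 : A)) = 0 := by rw [map_zero, map_zero]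
  have hadd : ∀ a b, δ (δ a) = 0 → δ (δ b) = 0 → δ (δ (a + b)) = 0 := by
    intro a b ha hb
    rw [map_add, map_add, ha, hb, add_zero]
  have hsmul : ∀ (c : k) a, δ (δ a) = 0 → δ (δ (c • a)) = 0 := by
    intro c a ha
    rw [map_smul, map_smul, ha, smul_zero]
  refine ⟨lift_span (P := fun a => δ (δ a) = 0) h0 hadd hsmul M.c1 _ d ?_ hf,
    lift_span (P := fun a => δ (δ a) = 0) h0 hadd hsmul M.c1 _ d ?_ hf⟩
  · rintro f ⟨μ, T, hT, hd, rfl⟩
    have hl : (T.sort (· ≤ ·)).length % 2 = 1 := by rwa [Finset.length_sort]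
    have hk := wA_ker2 H (T.sort (· ≤ ·))
    refine ⟨wA J δ ι e (T.sort (· ≤ ·)) * n μ, ?_, ?_, ?_⟩
    · show δ (δ _) = 0
      rw [H.der, H.hn, mul_zero, add_zero, H.der, hk, H.hn, zero_mul, mul_zero, add_zero]
    · have := wAn_symb H (T.sort (· ≤ ·)) μ
      rw [Finset.length_sort, hd] at this
      exact this
    · rw [← M.mul10 _ _ hk (H.hn μ), ← prod_c1 H M hl]
      exact Submodule.subset_span ⟨μ, T, hd.le, rfl⟩
  · rintro f ⟨μ, T, hT, hd, rfl⟩
    have hl : (T.sort (· ≤ ·)).length % 2 = 1 := by rwa [Finset.length_sort]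
    have hk := wA_ker2 H (T.sort (· ≤ ·))
    refine ⟨n μ * wA J δ ι e (T.sort (· ≤ ·)), ?_, ?_, ?_⟩
    · show δ (δ _) = 0
      rw [H.der, H.hn, zero_mul, zero_add, H.der, hk, H.hn, zero_mul, mul_zero, add_zero]
    · have := nwA_symb H (T.sort (· ≤ ·)) μ
      rw [Finset.length_sort, hd] at this
      exact this
    · rw [← M.mul01 _ _ (H.hn μ) hk, ← prod_c1 H M hl]
      exact Submodule.subset_span ⟨μ, T, hd.le, rfl⟩

/-- `SP` is homogeneous. -/
theorem SP_hom {b d : ℕ} {f : MvPolynomial X k} (hf : f ∈ SP k J b d) : f.IsHomogeneous d := by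
  induction hf using Submodule.span_induction with
  | mem f hf =>
    obtain ⟨μ, T, _, hd, rfl⟩ := hf
    rw [← hd]
    have h1 := wL_hom (k := k) (T.sort (· ≤ ·))
    rw [Finset.length_sort] at h1
    exact (lam_hom μ).mul h1
  | zero => exact isHomogeneous_zero _ _ _
  | add f g _ _ hf hg => exact hf.add hg
  | smul r f _ hf => exact (homogeneousSubmodule X k d).smul_mem r hf

end

end Pool.Agent.Helper21.KW
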