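import Pool.Agent.Helper21.KW.SP1

set_option autoImplicit false

/-!
# MODULE KW-SP2: the products span

Induction on `d`: `x ∈ ker δ ∩ G (d+1)`: `x - symb q ∈ G d` (`symb_surj`); `δ x = 0` gives
`dP q = 0` (`compat`, `der_G`, `symb_lead`, see helper58's `E1_basis`); write `q` as in `ha` and
subtract from `x` the lift of `f₀`, `δ` of the lift of `f₁` (`lift_SP0`, `lift_SP1`) and
`δ (δ (symb g))` (`pow_compat`): the last two have `c0 = 0` (`M.ker` with `w = 0`; for `δ a ∈ ker δ`).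
What remains is in `ker δ ∩ G d`.
`x ∈ ker δ² ∩ G (d+1)`: `dP (dP q) = 0`, `hb`; subtract the lift of `f₁`, a lift of `κ` in `ker δ`
(`hlft`), and `δ (symb g)` (in `ker δ²` by `cube`); the last two have `c1 = 0`.
-/

namespace Pool.Agent.Helper21.KW

open MvPolynomial Module Finset Pool.Agent.Helper58.KW

section

variable {k : Type*} [Field k] {X I : Type*} [Fintype X] [LinearOrder X] {J : Jd X I}
  {V : Type*} [AddCommGroup V] [Module k V] {A : Type*} [Ring A] [Algebra k A]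
  {S : Type*} [Ring S] [Algebra k S] {ι : V →ₗ[k] A} {e : Basis X k V}
  {symb : MvPolynomial X k →ₗ[k] A} {δ₀ : V →ₗ[k] V} {δ : A →ₗ[k] A} {n : (Xp J →₀ ℕ) → A}

theorem sp_c0_im (M : SData δ S) {x : A} (hx : δ (δ x) = 0) : M.c0 (δ x) = 0 := by
  have h := (M.ker (δ x) 0 hx (by rw [map_zero, map_zero])).2
    ⟨⟨x, rfl⟩, 0, 0, by rw [map_zero], by rw [map_zero, add_zero]⟩
  rwa [map_zero, add_zero] at h

theorem sp_c1_ker (M : SData δ S) {x : A} (hx : δ x = 0) : M.c1 x = 0 := by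
  have h := (M.ker 0 x (by rw [map_zero]) (by rw [hx, map_zero])).2
    ⟨⟨0, by rw [map_zero]⟩, x, 0, hx, by rw [map_zero, add_zero]⟩
  rwa [map_zero, zero_add] at h

theorem sp_c1_im (M : SData δ S) {x : A} (hx : δ (δ (δ x)) = 0) : M.c1 (δ x) = 0 := by
  have h := (M.ker 0 (δ x) (by rw [map_zero]) hx).2
    ⟨⟨0, by rw [map_zero]⟩, 0, x, by rw [map_zero], by rw [zero_add]⟩
  rwa [map_zero, zero_add] at h

theorem sp_compat (H : SHyp J ι e symb δ₀ δ n) {d : ℕ} {q : MvPolynomial X k}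
    (hq : q.IsHomogeneous d) : δ (symb q) - symb (dP k J q) ∈ G ι d :=
  H.pbw.compat δ H.der δ₀ H.hι J.nx H.hnx hq

theorem sp_dP_hom {d : ℕ} {q : MvPolynomial X k} (hq : q.IsHomogeneous d) :
    (dP k J q).IsHomogeneous d := DX_hom J.nx hq

theorem sp_der_G (H : SHyp J ι e symb δ₀ δ n) {d : ℕ} {a : A} (ha : a ∈ G ι d) :
    δ a ∈ G ι d := der_G ι δ H.der δ₀ H.hι ha

/-- If `a` lifts `q` then `δ a` lifts `dP q`. -/
theorem sp_lift_d (H : SHyp J ι e symb δ₀ δ n) {d : ℕ} {q : MvPolynomial X k}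
    (hq : q.IsHomogeneous d) {a : A} (ha : a - symb q ∈ G ι d) :
    δ a - symb (dP k J q) ∈ G ι d := by
  have h1 := sp_der_G H ha
  rw [map_sub] at h1
  have h2 := Submodule.add_mem _ h1 (sp_compat H hq)
  rwa [sub_add_sub_cancel] at h2

theorem sp_stepA (H : SHyp J ι e symb δ₀ δ n) (M : SData δ S) (R : ℕ → Submodule k S) (d : ℕ)
    (l0 : ∀ f ∈ SP k J 0 d, ∃ a, δ a = 0 ∧ a - symb f ∈ G ι d ∧ M.c0 a ∈ R d)
    (l1 : ∀ f ∈ SP k J 1 d, ∃ a, δ (δ a) = 0 ∧ a - symb f ∈ G ι d ∧ M.c1 a ∈ R d)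
    (ih : ∀ a ∈ G ι d, δ a = 0 → M.c0 a ∈ R d) :
    ∀ a ∈ G ι (d + 1), δ a = 0 → M.c0 a ∈ R d := by
  intro x hx hδ
  obtain ⟨q, hq, hxq⟩ := H.pbw.symb_surj hx
  have h1 := sp_lift_d H hq hxq
  rw [hδ, zero_sub, Submodule.neg_mem_iff] at h1
  have h2 : dP k J q = 0 := H.pbw.symb_lead (sp_dP_hom hq) h1
  obtain ⟨f₀, hf₀, f₁, hf₁, g, hg, hqe⟩ := H.ha hq h2
  obtain ⟨a0, ha0, ha0s, ha0R⟩ := l0 f₀ hf₀
  obtain ⟨b1, hb1, hb1s, -⟩ := l1 f₁ hf₁
  have h3 := sp_lift_d H (SP_hom hf₁) hb1s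
  have h4 := sp_lift_d H (sp_dP_hom hg) (sp_compat H hg)
  have e0 : δ (x - a0 - δ b1 - δ (δ (symb g))) = 0 := by
    rw [map_sub, map_sub, map_sub, hδ, ha0, hb1, H.cube]
    simp
  have e1 : x - a0 - δ b1 - δ (δ (symb g)) ∈ G ι d := by
    have h5 := Submodule.sub_mem _ (Submodule.sub_mem _ (Submodule.sub_mem _ hxq ha0s) h3) h4
    have h6 : x - symb q - (a0 - symb f₀) - (δ b1 - symb (dP k J f₁)) -
        (δ (δ (symb g)) - symb (dP k J (dP k J g))) = x - a0 - δ b1 - δ (δ (symb g)) := by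
      rw [hqe, map_add, map_add]
      abel
    rwa [h6] at h5
  have h7 := ih _ e1 e0
  rw [map_sub, map_sub, map_sub, sp_c0_im M hb1, sp_c0_im M (H.cube _), sub_zero, sub_zero] at h7
  have h8 := Submodule.add_mem _ h7 ha0R
  rwa [sub_add_cancel] at h8

theorem sp_stepB (H : SHyp J ι e symb δ₀ δ n) (M : SData δ S) (R : ℕ → Submodule k S) (d : ℕ)
    (l1 : ∀ f ∈ SP k J 1 d, ∃ a, δ (δ a) = 0 ∧ a - symb f ∈ G ι d ∧ M.c1 a ∈ R d)
    (ih : ∀ a ∈ G ι d, δ (δ a) = 0 → M.c1 a ∈ R d) :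
    ∀ a ∈ G ι (d + 1), δ (δ a) = 0 → M.c1 a ∈ R d := by
  intro x hx hδ
  obtain ⟨q, hq, hxq⟩ := H.pbw.symb_surj hx
  have h1 := sp_lift_d H (sp_dP_hom hq) (sp_lift_d H hq hxq)
  rw [hδ, zero_sub, Submodule.neg_mem_iff] at h1
  have h2 : dP k J (dP k J q) = 0 := H.pbw.symb_lead (sp_dP_hom (sp_dP_hom hq)) h1
  obtain ⟨f₁, hf₁, κ, g, hκ, hg, hκ0, hqe⟩ := H.hb hq h2
  obtain ⟨b1, hb1, hb1s, hb1R⟩ := l1 f₁ hf₁
  obtain ⟨-, v, hv, hvs⟩ := H.hlft hκ hκ0
  have h3 := sp_compat H hg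
  have e0 : δ (δ (x - b1 - v - δ (symb g))) = 0 := by
    rw [map_sub, map_sub, map_sub, map_sub, map_sub, map_sub, hδ, hb1, hv, H.cube, map_zero]
    simp
  have e1 : x - b1 - v - δ (symb g) ∈ G ι d := by
    have h5 := Submodule.sub_mem _ (Submodule.sub_mem _ (Submodule.sub_mem _ hxq hb1s) hvs) h3
    have h6 : x - symb q - (b1 - symb f₁) - (v - symb κ) -
        (δ (symb g) - symb (dP k J g)) = x - b1 - v - δ (symb g) := by
      rw [hqe, map_add, map_add]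
      abel
    rwa [h6] at h5
  have h7 := ih _ e1 e0
  rw [map_sub, map_sub, map_sub, sp_c1_ker M hv, sp_c1_im M (H.cube _), sub_zero, sub_zero] at h7
  have h8 := Submodule.add_mem _ h7 hb1R
  rwa [sub_add_cancel] at h8

theorem sp_main (H : SHyp J ι e symb δ₀ δ n) (M : SData δ S) (R : ℕ → Submodule k S)
    (hR : Monotone R)
    (l0 : ∀ d, ∀ f ∈ SP k J 0 d, ∃ a, δ a = 0 ∧ a - symb f ∈ G ι d ∧ M.c0 a ∈ R d)
    (l1 : ∀ d, ∀ f ∈ SP k J 1 d, ∃ a, δ (δ a) = 0 ∧ a - symb f ∈ G ι d ∧ M.c1 a ∈ R d) (d : ℕ) :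
    (∀ a ∈ G ι (d + 1), δ a = 0 → M.c0 a ∈ R d) ∧
      (∀ a ∈ G ι (d + 1), δ (δ a) = 0 → M.c1 a ∈ R d) := by
  induction d with
  | zero =>
    refine ⟨sp_stepA H M R 0 (l0 0) (l1 0) ?_, sp_stepB H M R 0 (l1 0) ?_⟩
    · intro a ha _
      rw [G_zero, Submodule.mem_bot] at ha
      rw [ha, map_zero]
      exact Submodule.zero_mem _
    · intro a ha _
      rw [G_zero, Submodule.mem_bot] at ha
      rw [ha, map_zero]
      exact Submodule.zero_mem _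
  | succ d ih =>
    exact ⟨sp_stepA H M R _ (l0 _) (l1 _) fun a ha h => hR (Nat.le_succ d) (ih.1 a ha h),
      sp_stepB H M R _ (l1 _) fun a ha h => hR (Nat.le_succ d) (ih.2 a ha h)⟩

theorem sp_right (H : SHyp J ι e symb δ₀ δ n) (M : SData δ S) (d : ℕ) {a b : A} (ha : δ a = 0)
    (hb : δ (δ b) = 0) (haG : a ∈ G ι (d + 1)) (hbG : b ∈ G ι (d + 1)) :
    M.c0 a + M.c1 b ∈ Rsp J M ι e n d := by
  have h := sp_main H M (Rsp J M ι e n) (fun d d' hd => by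
      refine Submodule.span_mono ?_
      rintro s ⟨μ, T, h1, h2⟩
      exact ⟨μ, T, by omega, h2⟩) (fun d f hf => (lift_SP0 H M hf).1)
    (fun d f hf => (lift_SP1 H M hf).1) d
  exact Submodule.add_mem _ (h.1 a haG ha) (h.2 b hbG hb)

theorem sp_left (H : SHyp J ι e symb δ₀ δ n) (M : SData δ S) (d : ℕ) {a b : A} (ha : δ a = 0)
    (hb : δ (δ b) = 0) (haG : a ∈ G ι (d + 1)) (hbG : b ∈ G ι (d + 1)) :
    M.c0 a + M.c1 b ∈ Lsp J M ι e n d := by
  have h := sp_main H M (Lsp J M ι e n) (fun d d' hd => by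
      refine Submodule.span_mono ?_
      rintro s ⟨μ, T, h1, h2⟩
      exact ⟨μ, T, by omega, h2⟩) (fun d f hf => (lift_SP0 H M hf).2)
    (fun d f hf => (lift_SP1 H M hf).2) d
  exact Submodule.add_mem _ (h.1 a haG ha) (h.2 b hbG hb)

/-- The words have the expected degree. -/
theorem sp_word (H : SHyp J ι e symb δ₀ δ n) (M : SData δ S) (l : List (Yp J)) :
    (l.map fun y => M.c1 (ι (e y.1))).prod ∈ Rsp J M ι e n l.length := by
  have hG : wA J δ ι e l ∈ G ι (l.length + 1) := by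
    have h1 := G_mono ι (Nat.le_succ _) (wA_symb H l)
    have h2 := Submodule.add_mem _ h1 (H.pbw.symb_hom (wL_hom (k := k) (J := J) l))
    rwa [sub_add_cancel] at h2
  rcases Nat.mod_two_eq_zero_or_one l.length with h | h
  · rw [prod_c0 H M h]
    have := sp_right H M l.length (wA_ker H h) (b := 0) (by rw [map_zero, map_zero]) hG
      (Submodule.zero_mem _)
    rwa [map_zero, add_zero] at this
  · rw [prod_c1 H M h]
    have := sp_right H M l.length (a := 0) (by rw [map_zero]) (wA_ker2 H l)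
      (Submodule.zero_mem _) hG
    rwa [map_zero, zero_add] at this

end

end Pool.Agent.Helper21.KW
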