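import Pool.Agent.Helper21.KW.SP1

set_option autoImplicit false

/-!
# MODULE KW-SP3 (stub): the products are linearly independent

Uses the (sorried, being proved in parallel) module SP1.
A finite relation `∑ c (μ, T) • cw T * c0 (n μ) = 0`: with `n₁ = ∑_{T even} c • wA T * n μ ∈ ker δ`,
`w₁ = ∑_{T odd} c • wA T * n μ ∈ ker δ²` it says `c0 n₁ + c1 w₁ = 0`, so (`M.ker`) `n₁ = δ a`,
`w₁ = n' + δ a'`, `δ n' = 0`.
Even part, if not trivial: let `d` be the largest degree (degree of `lam J μ` + card) with a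
coefficient `≠ 0`.  One may take `a ∈ G (d+1)`: if `a ∈ G (m+1)`, `m > d`, with symbol `q`, then
`δ a ∈ G m` gives `dP q = 0`, so `q` lifts to an element of `ker δ` (`hlft`); subtract it from `a`.
Then the symbols of degree `d` give `∑_{degree d} c • monomial * wP = dP q`, and `hc0`.
Odd part: if `a' ∈ G (m+1)`, `m > d`, with symbol `q`: `δ w₁ = δ (δ a')` gives `dP (dP q) = 0`, so by
`hb`, `lift_SP1`, `hlft`, `q` is the symbol of an element `w''` of `ker δ²`; replace `a'` by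
`a' - w''`, `n'` by `n' + δ w''`.  Then `n' = w₁ - δ a' ∈ G (d+1)` and the symbols give
`∑_{degree d} c • monomial * wP = κ + dP q` with `dP κ = 0`, and `hc1`.
-/

namespace Pool.Agent.Helper21.KW

open MvPolynomial Module Finset Pool.Agent.Helper58.KW

section

variable {k : Type*} [Field k] {X I : Type*} [Fintype X] [LinearOrder X] {J : Jd X I}
  {V : Type*} [AddCommGroup V] [Module k V] {A : Type*} [Ring A] [Algebra k A]
  {S : Type*} [Ring S] [Algebra k S] {ι : V →ₗ[k] A} {e : Basis X k V}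
  {symb : MvPolynomial X k →ₗ[k] A} {δ₀ : V →ₗ[k] V} {δ : A →ₗ[k] A} {n : (Xp J →₀ ℕ) → A}

namespace SP3

/-- The degree of a product. -/
noncomputable def dg (J : Jd X I) (p : (Xp J →₀ ℕ) × Finset (Yp J)) : ℕ :=
  (lam J p.1).degree + p.2.card

/-- The representative of a product. -/
noncomputable def rep (J : Jd X I) (δ : A →ₗ[k] A) (ι : V →ₗ[k] A) (e : Basis X k V)
    (n : (Xp J →₀ ℕ) → A) (p : (Xp J →₀ ℕ) × Finset (Yp J)) : A :=
  wA J δ ι e (p.2.sort (· ≤ ·)) * n p.1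

/-- The symbol of a product. -/
noncomputable def sy (k : Type*) [Field k] (J : Jd X I) (p : (Xp J →₀ ℕ) × Finset (Yp J)) :
    MvPolynomial X k := monomial (lam J p.1) 1 * wP k J p.2

theorem rep_ker2 (H : SHyp J ι e symb δ₀ δ n) (p : (Xp J →₀ ℕ) × Finset (Yp J)) :
    δ (δ (rep J δ ι e n p)) = 0 := by
  unfold rep
  rw [H.der, H.hn, mul_zero, add_zero, H.der, H.hn, mul_zero, add_zero, wA_ker2 H, zero_mul]

theorem rep_ker (H : SHyp J ι e symb δ₀ δ n) {p : (Xp J →₀ ℕ) × Finset (Yp J)}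
    (hp : p.2.card % 2 = 0) : δ (rep J δ ι e n p) = 0 := by
  unfold rep
  rw [H.der, H.hn, mul_zero, add_zero, wA_ker H (by rw [Finset.length_sort]; exact hp), zero_mul]

theorem val0 (H : SHyp J ι e symb δ₀ δ n) (M : SData δ S) {p : (Xp J →₀ ℕ) × Finset (Yp J)}
    (hp : p.2.card % 2 = 0) : cw J M ι e p.2 * M.c0 (n p.1) = M.c0 (rep J δ ι e n p) := by
  have hl : (p.2.sort (· ≤ ·)).length % 2 = 0 := by rw [Finset.length_sort]; exact hp
  unfold cw rep
  rw [prod_c0 H M hl, M.mul00 _ _ (wA_ker H hl) (H.hn _)]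

theorem val1 (H : SHyp J ι e symb δ₀ δ n) (M : SData δ S) {p : (Xp J →₀ ℕ) × Finset (Yp J)}
    (hp : p.2.card % 2 = 1) : cw J M ι e p.2 * M.c0 (n p.1) = M.c1 (rep J δ ι e n p) := by
  have hl : (p.2.sort (· ≤ ·)).length % 2 = 1 := by rw [Finset.length_sort]; exact hp
  unfold cw rep
  rw [prod_c1 H M hl, M.mul10 _ _ (wA_ker2 H _) (H.hn _)]

theorem rep_symb (H : SHyp J ι e symb δ₀ δ n) (p : (Xp J →₀ ℕ) × Finset (Yp J)) :
    rep J δ ι e n p - symb (sy k J p) ∈ G ι (dg J p) := by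
  have h1 := wAn_symb H (p.2.sort (· ≤ ·)) p.1
  rw [Finset.length_sort] at h1
  exact h1

theorem sy_hom (p : (Xp J →₀ ℕ) × Finset (Yp J)) : (sy k J p).IsHomogeneous (dg J p) := by
  have h1 : (monomial (lam J p.1) (1 : k)).IsHomogeneous (lam J p.1).degree :=
    isHomogeneous_monomial _ rfl
  have h2 := wL_hom (k := k) (J := J) (p.2.sort (· ≤ ·))
  rw [Finset.length_sort] at h2
  exact h1.mul h2

theorem rep_G (H : SHyp J ι e symb δ₀ δ n) (p : (Xp J →₀ ℕ) × Finset (Yp J)) :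
    rep J δ ι e n p ∈ G ι (dg J p + 1) := by
  have h1 := G_mono ι (Nat.le_succ (dg J p)) (rep_symb H p)
  have h2 := H.pbw.symb_hom (sy_hom (k := k) p)
  have h3 := Submodule.add_mem _ h1 h2
  rwa [sub_add_cancel] at h3

theorem delta_G (H : SHyp J ι e symb δ₀ δ n) {d : ℕ} {a : A} (ha : a ∈ G ι d) :
    δ a ∈ G ι d := der_G ι δ H.der δ₀ H.hι ha

theorem sp3_dP_hom {d : ℕ} {q : MvPolynomial X k} (hq : q.IsHomogeneous d) :
    (dP k J q).IsHomogeneous d := DX_hom J.nx hq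

theorem comp (H : SHyp J ι e symb δ₀ δ n) {m : ℕ} {q : MvPolynomial X k}
    (hq : q.IsHomogeneous m) : δ (symb q) - symb (dP k J q) ∈ G ι m :=
  H.pbw.compat δ H.der δ₀ H.hι J.nx H.hnx hq

theorem comp' (H : SHyp J ι e symb δ₀ δ n) {m : ℕ} {q : MvPolynomial X k}
    (hq : q.IsHomogeneous m) {a : A} (ha : a - symb q ∈ G ι m) :
    δ a - symb (dP k J q) ∈ G ι m := by
  have h1 := delta_G H ha
  rw [map_sub] at h1
  have h2 := Submodule.add_mem _ h1 (comp H hq)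
  rwa [sub_add_sub_cancel] at h2

theorem lead1 (H : SHyp J ι e symb δ₀ δ n) {m : ℕ} {q : MvPolynomial X k}
    (hq : q.IsHomogeneous m) {a : A} (ha : a - symb q ∈ G ι m) (hd : δ a ∈ G ι m) :
    dP k J q = 0 := by
  refine H.pbw.symb_lead (sp3_dP_hom hq) ?_
  have h1 := Submodule.sub_mem _ hd (comp' H hq ha)
  rwa [sub_sub_cancel] at h1

theorem lead2 (H : SHyp J ι e symb δ₀ δ n) {m : ℕ} {q : MvPolynomial X k}
    (hq : q.IsHomogeneous m) {a : A} (ha : a - symb q ∈ G ι m) (hd : δ (δ a) ∈ G ι m) :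
    dP k J (dP k J q) = 0 := lead1 H (sp3_dP_hom hq) (comp' H hq ha) hd

theorem down0 (H : SHyp J ι e symb δ₀ δ n) (d : ℕ) : ∀ m : ℕ, ∀ a ∈ G ι m,
    δ a ∈ G ι (d + 1) → ∃ b ∈ G ι (d + 1), δ b = δ a := by
  intro m
  induction m with
  | zero =>
    intro a ha _
    exact ⟨a, G_mono ι (Nat.zero_le _) ha, rfl⟩
  | succ m ih =>
    intro a ha hda
    by_cases hm : m + 1 ≤ d + 1
    · exact ⟨a, G_mono ι hm ha, rfl⟩
    · obtain ⟨q, hq, hq2⟩ := H.pbw.symb_surj ha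
      have h1 : dP k J q = 0 := lead1 H hq hq2 (G_mono ι (by omega) hda)
      obtain ⟨-, v, hv, hv2⟩ := H.hlft hq h1
      have h2 : a - v ∈ G ι m := by
        have h3 := Submodule.sub_mem _ hq2 hv2
        rwa [sub_sub_sub_cancel_right] at h3
      have h3 : δ (a - v) = δ a := by rw [map_sub, hv, sub_zero]
      obtain ⟨b, hb, hb2⟩ := ih (a - v) h2 (by rw [h3]; exact hda)
      exact ⟨b, hb, hb2.trans h3⟩

theorem down1 (H : SHyp J ι e symb δ₀ δ n) (M : SData δ S) (d : ℕ) : ∀ m : ℕ, ∀ a ∈ G ι m,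
    δ (δ a) ∈ G ι (d + 1) → ∃ b ∈ G ι (d + 1), ∃ w, δ (δ w) = 0 ∧ a = b + w := by
  intro m
  induction m with
  | zero =>
    intro a ha _
    exact ⟨a, G_mono ι (Nat.zero_le _) ha, 0, by simp, by simp⟩
  | succ m ih =>
    intro a ha hda
    by_cases hm : m + 1 ≤ d + 1
    · exact ⟨a, G_mono ι hm ha, 0, by simp, by simp⟩
    · obtain ⟨q, hq, hq2⟩ := H.pbw.symb_surj ha
      have h1 : dP k J (dP k J q) = 0 := lead2 H hq hq2 (G_mono ι (by omega) hda)
      obtain ⟨f, hf, κ, g, hκ, hg, hκ0, hsum⟩ := H.hb hq h1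
      obtain ⟨⟨u, hu, hu2, -⟩, -⟩ := lift_SP1 H M hf
      obtain ⟨-, v, hv, hv2⟩ := H.hlft hκ hκ0
      have hw : δ (δ (u + v + δ (symb g))) = 0 := by
        rw [map_add, map_add, map_add, map_add, hu, hv, H.cube, map_zero, add_zero, add_zero]
      have h2 : a - (u + v + δ (symb g)) ∈ G ι m := by
        have h3 := Submodule.sub_mem _ (Submodule.sub_mem _ (Submodule.sub_mem _ hq2 hu2) hv2)
          (comp H hg)
        rw [hsum, map_add, map_add] at h3
        convert h3 using 1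
        abel
      have h3 : δ (δ (a - (u + v + δ (symb g)))) = δ (δ a) := by
        rw [map_sub, map_sub, hw, sub_zero]
      obtain ⟨b, hb, w, hw2, hbw⟩ := ih _ h2 (by rw [h3]; exact hda)
      refine ⟨b, hb, w + (u + v + δ (symb g)), ?_, ?_⟩
      · rw [map_add, map_add, hw2, hw, add_zero]
      · rw [← add_assoc, ← hbw, sub_add_cancel]

theorem sum_symb (H : SHyp J ι e symb δ₀ δ n) (s : Finset ((Xp J →₀ ℕ) × Finset (Yp J)))
    (c : (Xp J →₀ ℕ) × Finset (Yp J) → k) {d : ℕ} (hd : ∀ p ∈ s, dg J p ≤ d) :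
    ∑ p ∈ s, c p • rep J δ ι e n p -
      symb (∑ p ∈ s.filter (fun p => dg J p = d), c p • sy k J p) ∈ G ι d := by
  classical
  have h1 : ∑ p ∈ s, c p • rep J δ ι e n p =
      ∑ p ∈ s.filter (fun p => dg J p = d), c p • rep J δ ι e n p +
        ∑ p ∈ s.filter (fun p => ¬ dg J p = d), c p • rep J δ ι e n p :=
    (Finset.sum_filter_add_sum_filter_not s (fun p => dg J p = d) _).symm
  rw [h1, map_sum, add_sub_right_comm, ← Finset.sum_sub_distrib]
  refine Submodule.add_mem _ (Submodule.sum_mem _ fun p hp => ?_)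
    (Submodule.sum_mem _ fun p hp => ?_)
  · obtain ⟨-, hp2⟩ := Finset.mem_filter.1 hp
    rw [map_smul, ← smul_sub, ← hp2]
    exact Submodule.smul_mem _ _ (rep_symb H p)
  · obtain ⟨hp1, hp2⟩ := Finset.mem_filter.1 hp
    have h3 := hd p hp1
    exact Submodule.smul_mem _ _ (G_mono ι (by omega) (rep_G H p))

theorem sum_hom (s : Finset ((Xp J →₀ ℕ) × Finset (Yp J)))
    (c : (Xp J →₀ ℕ) × Finset (Yp J) → k) (d : ℕ) :
    (∑ p ∈ s.filter (fun p => dg J p = d), c p • sy k J p).IsHomogeneous d := by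
  classical
  refine (homogeneousSubmodule X k d).sum_mem fun p hp => ?_
  obtain ⟨-, hp2⟩ := Finset.mem_filter.1 hp
  refine (homogeneousSubmodule X k d).smul_mem _ ?_
  rw [← hp2]
  exact sy_hom p

theorem sum_G (H : SHyp J ι e symb δ₀ δ n) (s : Finset ((Xp J →₀ ℕ) × Finset (Yp J)))
    (c : (Xp J →₀ ℕ) × Finset (Yp J) → k) {d : ℕ} (hd : ∀ p ∈ s, dg J p ≤ d) :
    ∑ p ∈ s, c p • rep J δ ι e n p ∈ G ι (d + 1) := by
  refine Submodule.sum_mem _ fun p hp => ?_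
  have h3 := hd p hp
  exact Submodule.smul_mem _ _ (G_mono ι (by omega) (rep_G H p))

theorem main0 (H : SHyp J ι e symb δ₀ δ n) (s : Finset ((Xp J →₀ ℕ) × Finset (Yp J)))
    (c : (Xp J →₀ ℕ) × Finset (Yp J) → k) (hc : ∀ p ∈ s, c p ≠ 0)
    (he : ∀ p ∈ s, p.2.card % 2 = 0) {a : A} (ha : δ a = ∑ p ∈ s, c p • rep J δ ι e n p) :
    s = ∅ := by
  classical
  by_contra hne
  obtain ⟨p0, hp0, hmax⟩ := Finset.exists_max_image s (dg J) (Finset.nonempty_iff_ne_empty.2 hne)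
  have hG := sum_G H s c hmax
  obtain ⟨m, hm⟩ := H.pbw.exhaust a
  obtain ⟨b, hb, hb2⟩ := down0 H (dg J p0) m a hm (by rw [ha]; exact hG)
  obtain ⟨q, hq, hq2⟩ := H.pbw.symb_surj hb
  have h1 := comp' H hq hq2
  rw [hb2, ha] at h1
  have h2 := sum_symb H s c hmax
  have h3 := Submodule.sub_mem _ h1 h2
  rw [sub_sub_sub_cancel_left, ← map_sub] at h3
  have h4 := H.pbw.symb_lead ((sum_hom s c (dg J p0)).sub (sp3_dP_hom hq)) h3
  refine hc p0 hp0 (H.hc0 _ c (fun p hp => he p (Finset.mem_filter.1 hp).1) q (sub_eq_zero.1 h4)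
    p0 (Finset.mem_filter.2 ⟨hp0, rfl⟩))

theorem main1 (H : SHyp J ι e symb δ₀ δ n) (M : SData δ S)
    (s : Finset ((Xp J →₀ ℕ) × Finset (Yp J)))
    (c : (Xp J →₀ ℕ) × Finset (Yp J) → k) (hc : ∀ p ∈ s, c p ≠ 0)
    (he : ∀ p ∈ s, p.2.card % 2 = 1) {a n' : A} (hn' : δ n' = 0)
    (ha : ∑ p ∈ s, c p • rep J δ ι e n p = n' + δ a) : s = ∅ := by
  classical
  by_contra hne
  obtain ⟨p0, hp0, hmax⟩ := Finset.exists_max_image s (dg J) (Finset.nonempty_iff_ne_empty.2 hne)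
  have hG := sum_G H s c hmax
  obtain ⟨m, hm⟩ := H.pbw.exhaust a
  have hda : δ (δ a) ∈ G ι (dg J p0 + 1) := by
    have h1 := delta_G H hG
    rw [ha, map_add, hn', zero_add] at h1
    exact h1
  obtain ⟨b, hb, w, hw, hbw⟩ := down1 H M (dg J p0) m a hm hda
  -- the sum is `n'' + δ b`
  have ha2 : ∑ p ∈ s, c p • rep J δ ι e n p = (n' + δ w) + δ b := by
    rw [ha, hbw, map_add]
    abel
  have hn2 : δ (n' + δ w) = 0 := by rw [map_add, hn', hw, add_zero]
  obtain ⟨q, hq, hq2⟩ := H.pbw.symb_surj hb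
  have h1 := comp' H hq hq2
  have hnG : n' + δ w ∈ G ι (dg J p0 + 1) := by
    have h2 := Submodule.sub_mem _ hG (delta_G H hb)
    rwa [ha2, add_sub_cancel_right] at h2
  obtain ⟨κ, hκ, hκ2⟩ := H.pbw.symb_surj hnG
  have hκ0 : dP k J κ = 0 := lead1 H hκ hκ2 (by rw [hn2]; exact Submodule.zero_mem _)
  have h2 := sum_symb H s c hmax
  have h3 := Submodule.sub_mem _ (Submodule.add_mem _ hκ2 h1) h2
  have h4 : symb (∑ p ∈ s.filter (fun p => dg J p = dg J p0), c p • sy k J p - (κ + dP k J q)) ∈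
      G ι (dg J p0) := by
    rw [ha2] at h3
    rw [map_sub, map_add]
    convert h3 using 1
    abel
  have h5 := H.pbw.symb_lead ((sum_hom s c (dg J p0)).sub (hκ.add (sp3_dP_hom hq))) h4
  refine hc p0 hp0 (H.hc1 _ c (fun p hp => he p (Finset.mem_filter.1 hp).1) κ q hκ0
    (sub_eq_zero.1 h5) p0 (Finset.mem_filter.2 ⟨hp0, rfl⟩))

end SP3

theorem sp_indep (H : SHyp J ι e symb δ₀ δ n) (M : SData δ S) :
    LinearIndependent k (fun p : (Xp J →₀ ℕ) × Finset (Yp J) =>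
      cw J M ι e p.2 * M.c0 (n p.1)) := by
  classical
  rw [linearIndependent_iff']
  intro s c hs p hp
  by_contra hcp
  set s' := s.filter (fun p => c p ≠ 0) with hs'
  have hsum : ∑ p ∈ s', c p • (cw J M ι e p.2 * M.c0 (n p.1)) = 0 := by
    rw [← hs, hs']
    refine Finset.sum_filter_of_ne fun p _ h => ?_
    intro h0
    rw [h0, zero_smul] at h
    exact h rfl
  set s0 := s'.filter (fun p => p.2.card % 2 = 0) with hs0
  set s1 := s'.filter (fun p => ¬ p.2.card % 2 = 0) with hs1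
  have he0 : ∀ p ∈ s0, p.2.card % 2 = 0 := fun p hp => (Finset.mem_filter.1 hp).2
  have he1 : ∀ p ∈ s1, p.2.card % 2 = 1 := fun p hp => by
    have h1 := (Finset.mem_filter.1 hp).2
    omega
  have hc' : ∀ p ∈ s', c p ≠ 0 := fun p hp => (Finset.mem_filter.1 hp).2
  have hc0 : ∀ p ∈ s0, c p ≠ 0 := fun p hp => hc' p (Finset.mem_filter.1 hp).1
  have hc1 : ∀ p ∈ s1, c p ≠ 0 := fun p hp => hc' p (Finset.mem_filter.1 hp).1
  have hsplit : M.c0 (∑ p ∈ s0, c p • SP3.rep J δ ι e n p) +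
      M.c1 (∑ p ∈ s1, c p • SP3.rep J δ ι e n p) = 0 := by
    rw [← hsum, map_sum, map_sum, hs0, hs1,
      ← Finset.sum_filter_add_sum_filter_not s' (fun p => p.2.card % 2 = 0)
        (fun p => c p • (cw J M ι e p.2 * M.c0 (n p.1)))]
    congr 1
    · refine Finset.sum_congr rfl fun p hp => ?_
      rw [map_smul, SP3.val0 H M (he0 p hp)]
    · refine Finset.sum_congr rfl fun p hp => ?_
      rw [map_smul, SP3.val1 H M (he1 p hp)]
  have hk0 : δ (∑ p ∈ s0, c p • SP3.rep J δ ι e n p) = 0 := by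
    rw [map_sum]
    refine Finset.sum_eq_zero fun p hp => ?_
    rw [map_smul, SP3.rep_ker H (he0 p hp), smul_zero]
  have hk1 : δ (δ (∑ p ∈ s1, c p • SP3.rep J δ ι e n p)) = 0 := by
    rw [map_sum, map_sum]
    refine Finset.sum_eq_zero fun p hp => ?_
    rw [map_smul, map_smul, SP3.rep_ker2 H, smul_zero]
  obtain ⟨⟨a, ha⟩, n', a', hn', ha'⟩ := (M.ker _ _ hk0 hk1).1 hsplit
  have h0 := SP3.main0 H s0 c hc0 he0 ha
  have h1 := SP3.main1 H M s1 c hc1 he1 hn' ha'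
  have hps : p ∈ s' := Finset.mem_filter.2 ⟨hp, hcp⟩
  by_cases hpe : p.2.card % 2 = 0
  · have h2 : p ∈ s0 := Finset.mem_filter.2 ⟨hps, hpe⟩
    rw [h0] at h2
    exact Finset.notMem_empty p h2
  · have h2 : p ∈ s1 := Finset.mem_filter.2 ⟨hps, hpe⟩
    rw [h1] at h2
    exact Finset.notMem_empty p h2

end

end Pool.Agent.Helper21.KW
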