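import Pool.Agent.Helper21.KW.Defs

set_option autoImplicit false

/-!
# Definitions for the modules KW-SP1, KW-SP2, KW-SP3

`A` with a PBW theorem (helper58's `PBW`), `e` adapted to the Jordan blocks of `δ₀`; for every `μ`
an element `n μ` of `ker δ` with symbol `monomial (lam J μ) 1`.

The hypotheses `ha`, `hb`, `hc0`, `hc1` are the statements of module CommL3, `hlft` is helper58's
`Lft.main` (every homogeneous `q` with `δ q = 0` lifts to an element of `ker δ`).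
-/

namespace Pool.Agent.Helper21.KW

open MvPolynomial Module Finset Pool.Agent.Helper58.KW

section

variable {k : Type*} [Field k] {X I : Type*} [Fintype X] [LinearOrder X] (J : Jd X I)
  {V : Type*} [AddCommGroup V] [Module k V] {A : Type*} [Ring A] [Algebra k A]
  {S : Type*} [Ring S] [Algebra k S]

/-- The ordered product of odd elements. -/
noncomputable def cw {δ : A →ₗ[k] A} (M : SData δ S) (ι : V →ₗ[k] A) (e : Basis X k V)
    (T : Finset (Yp J)) : S := ((T.sort (· ≤ ·)).map fun y => M.c1 (ι (e y.1))).prod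

/-- The hypotheses of the modules. -/
structure SHyp (ι : V →ₗ[k] A) (e : Basis X k V) (symb : MvPolynomial X k →ₗ[k] A)
    (δ₀ : V →ₗ[k] V) (δ : A →ₗ[k] A) (n : (Xp J →₀ ℕ) → A) : Prop where
  pbw : PBW ι e symb
  h3 : (3 : k) = 0
  der : ∀ a b, δ (a * b) = δ a * b + a * δ b
  cube : ∀ a, δ (δ (δ a)) = 0
  hι : ∀ v, δ (ι v) = ι (δ₀ v)
  hnx : ∀ x, δ₀ (e x) = (J.nx x).elim 0 e
  ha : ∀ {d : ℕ} {q : MvPolynomial X k}, q.IsHomogeneous d → dP k J q = 0 →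
    ∃ f₀ ∈ SP k J 0 d, ∃ f₁ ∈ SP k J 1 d, ∃ g : MvPolynomial X k,
      g.IsHomogeneous d ∧ q = f₀ + dP k J f₁ + dP k J (dP k J g)
  hb : ∀ {d : ℕ} {q : MvPolynomial X k}, q.IsHomogeneous d → dP k J (dP k J q) = 0 →
    ∃ f₁ ∈ SP k J 1 d, ∃ κ g : MvPolynomial X k,
      κ.IsHomogeneous d ∧ g.IsHomogeneous d ∧ dP k J κ = 0 ∧ q = f₁ + κ + dP k J g
  hc0 : ∀ (s : Finset ((Xp J →₀ ℕ) × Finset (Yp J))) (c : (Xp J →₀ ℕ) × Finset (Yp J) → k),
    (∀ p ∈ s, p.2.card % 2 = 0) → ∀ g : MvPolynomial X k,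
    ∑ p ∈ s, c p • (monomial (lam J p.1) 1 * wP k J p.2) = dP k J g → ∀ p ∈ s, c p = 0
  hc1 : ∀ (s : Finset ((Xp J →₀ ℕ) × Finset (Yp J))) (c : (Xp J →₀ ℕ) × Finset (Yp J) → k),
    (∀ p ∈ s, p.2.card % 2 = 1) → ∀ κ g : MvPolynomial X k, dP k J κ = 0 →
    ∑ p ∈ s, c p • (monomial (lam J p.1) 1 * wP k J p.2) = κ + dP k J g → ∀ p ∈ s, c p = 0
  hlft : ∀ {d : ℕ} {q : MvPolynomial X k}, q.IsHomogeneous d → dP k J q = 0 → Lft δ ι symb d q
  hn : ∀ μ, δ (n μ) = 0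
  hnG : ∀ μ, n μ - symb (monomial (lam J μ) 1) ∈ G ι (lam J μ).degree

/-- The product in `A` that represents `cw`. -/
noncomputable def wA (δ : A →ₗ[k] A) (ι : V →ₗ[k] A) (e : Basis X k V) (l : List (Yp J)) : A :=
  wdp δ (l.map fun y => ι (e y.1))

/-- The span of the right products of degree `≤ d`. -/
noncomputable def Rsp {δ : A →ₗ[k] A} (M : SData δ S) (ι : V →ₗ[k] A) (e : Basis X k V)
    (n : (Xp J →₀ ℕ) → A) (d : ℕ) : Submodule k S :=
  Submodule.span k {s | ∃ (μ : Xp J →₀ ℕ) (T : Finset (Yp J)),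
    (lam J μ).degree + T.card ≤ d ∧ s = cw J M ι e T * M.c0 (n μ)}

/-- The span of the left products of degree `≤ d`. -/
noncomputable def Lsp {δ : A →ₗ[k] A} (M : SData δ S) (ι : V →ₗ[k] A) (e : Basis X k V)
    (n : (Xp J →₀ ℕ) → A) (d : ℕ) : Submodule k S :=
  Submodule.span k {s | ∃ (μ : Xp J →₀ ℕ) (T : Finset (Yp J)),
    (lam J μ).degree + T.card ≤ d ∧ s = M.c0 (n μ) * cw J M ι e T}

end

end Pool.Agent.Helper21.KW
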