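import Pool.Agent.Helper21.KW.Defs

set_option autoImplicit false

/-!
# MODULE KW-SRing (stub): the superalgebra attached to `(A, δ)`

Carrier: `(ker δ ⧸ I₀) × (ker δ² ⧸ I₁)`, `I₀ = ker δ ⊓ range δ`,
`I₁ = ker δ² ⊓ (ker δ ⊔ range δ)`, product
`(n, w) (n', w') = (n n' + (w δ w' - δ w w'), n w' + w n')`.

Everything is checked with `δ ^ 3 = 0`, `3 = 0`:
* `w * w' := w δ w' - δ w w'` is in `ker δ`;
* well defined: `n * δ a = δ (n a)`; for `w' = n'` in `ker δ`: `w * n' = - δ (w n')`; for
  `w' = δ a`: `w * δ a = δ (w δ a + δ w a)` (and symmetrically); for `i = δ a ∈ ker δ`: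
  `δ a w = (a δ w - δ a w) - δ (a w)` with `a δ w - δ a w ∈ ker δ` (note `a ∈ ker δ²`), and
  similarly `w δ a`;
* associativity: the only non-trivial case is odd * odd * odd:
  `(w * w') w'' - w (w' * w'') = - δ (w w' w'')`; the others are equalities up to `δ (ker δ² ...)`:
  e.g. `(n w) * w' = n (w * w')`, `(w * w') n = w * (w' n)`, `(w n) * w' = w * (n w')`.
`c0`, `c1` are linear extensions to `A` (`LinearMap.exists_extend`) of the quotient maps.
`σ (n, w) = (n, - w)`.
-/

namespace Pool.Agent.Helper21.KW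

open Module

universe u w

/-- The data of a superalgebra with even part `S0` and odd part `S1`. -/
structure SPre (k : Type u) [Field k] (S0 S1 : Type w) [AddCommGroup S0] [Module k S0]
    [AddCommGroup S1] [Module k S1] where
  m00 : S0 →ₗ[k] S0 →ₗ[k] S0
  m01 : S0 →ₗ[k] S1 →ₗ[k] S1
  m10 : S1 →ₗ[k] S0 →ₗ[k] S1
  m11 : S1 →ₗ[k] S1 →ₗ[k] S0
  e : S0
  e00 : ∀ x, m00 e x = x
  e00' : ∀ x, m00 x e = x
  e01 : ∀ x, m01 e x = x
  e10 : ∀ x, m10 x e = x
  a000 : ∀ x y z, m00 (m00 x y) z = m00 x (m00 y z)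
  a001 : ∀ x y z, m01 (m00 x y) z = m01 x (m01 y z)
  a010 : ∀ x y z, m10 (m01 x y) z = m01 x (m10 y z)
  a100 : ∀ x y z, m10 (m10 x y) z = m10 x (m00 y z)
  a011 : ∀ x y z, m11 (m01 x y) z = m00 x (m11 y z)
  a101 : ∀ x y z, m11 (m10 x y) z = m11 x (m01 y z)
  a110 : ∀ x y z, m00 (m11 x y) z = m11 x (m10 y z)
  a111 : ∀ x y z, m01 (m11 x y) z = m10 x (m11 y z)

namespace SPre

variable {k : Type u} [Field k] {S0 S1 : Type w} [AddCommGroup S0] [Module k S0]
    [AddCommGroup S1] [Module k S1]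

/-- The carrier. -/
def Car (_P : SPre k S0 S1) : Type w := S0 × S1

variable (P : SPre k S0 S1)

instance : AddCommGroup P.Car := inferInstanceAs (AddCommGroup (S0 × S1))

instance : Module k P.Car := inferInstanceAs (Module k (S0 × S1))

instance : Mul P.Car :=
  ⟨fun x y => (P.m00 x.1 y.1 + P.m11 x.2 y.2, P.m01 x.1 y.2 + P.m10 x.2 y.1)⟩

instance : One P.Car := ⟨(P.e, 0)⟩

theorem mul_def (x y : P.Car) :
    x * y = (P.m00 x.1 y.1 + P.m11 x.2 y.2, P.m01 x.1 y.2 + P.m10 x.2 y.1) := rfl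

theorem one_def : (1 : P.Car) = (P.e, 0) := rfl

theorem fst_add (x y : P.Car) : (x + y).1 = x.1 + y.1 := rfl

theorem snd_add (x y : P.Car) : (x + y).2 = x.2 + y.2 := rfl

theorem fst_smul (a : k) (x : P.Car) : (a • x).1 = a • x.1 := rfl

theorem snd_smul (a : k) (x : P.Car) : (a • x).2 = a • x.2 := rfl

theorem fst_zero : (0 : P.Car).1 = 0 := rfl

theorem snd_zero : (0 : P.Car).2 = 0 := rfl

theorem fst_mul (x y : P.Car) : (x * y).1 = P.m00 x.1 y.1 + P.m11 x.2 y.2 := rfl

theorem snd_mul (x y : P.Car) : (x * y).2 = P.m01 x.1 y.2 + P.m10 x.2 y.1 := rfl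

theorem fst_one : (1 : P.Car).1 = P.e := rfl

theorem snd_one : (1 : P.Car).2 = 0 := rfl

theorem ext' {x y : P.Car} (h1 : x.1 = y.1) (h2 : x.2 = y.2) : x = y := Prod.ext h1 h2

instance : Ring P.Car :=
  { (inferInstance : AddCommGroup P.Car), (inferInstance : Mul P.Car),
    (inferInstance : One P.Car) with
    left_distrib := fun x y z => by
      apply P.ext'
      · simp only [fst_mul, fst_add, snd_add, map_add]
        abel
      · simp only [snd_mul, fst_add, snd_add, map_add]
        abel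
    right_distrib := fun x y z => by
      apply P.ext'
      · simp only [fst_mul, fst_add, snd_add, map_add, LinearMap.add_apply]
        abel
      · simp only [snd_mul, fst_add, snd_add, map_add, LinearMap.add_apply]
        abel
    zero_mul := fun x => by
      apply P.ext'
      · simp only [fst_mul, fst_zero, snd_zero, map_zero, LinearMap.zero_apply, add_zero]
      · simp only [snd_mul, fst_zero, snd_zero, map_zero, LinearMap.zero_apply, add_zero]
    mul_zero := fun x => by
      apply P.ext'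
      · simp only [fst_mul, fst_zero, snd_zero, map_zero, add_zero]
      · simp only [snd_mul, fst_zero, snd_zero, map_zero, add_zero]
    mul_assoc := fun x y z => by
      apply P.ext'
      · simp only [fst_mul, snd_mul, map_add, LinearMap.add_apply, P.a000, P.a011, P.a101, P.a110]
        abel
      · simp only [fst_mul, snd_mul, map_add, LinearMap.add_apply, P.a001, P.a010, P.a100, P.a111]
        abel
    one_mul := fun x => by
      apply P.ext'
      · simp only [fst_mul, fst_one, snd_one, map_zero, LinearMap.zero_apply, add_zero, P.e00]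
      · simp only [snd_mul, fst_one, snd_one, map_zero, LinearMap.zero_apply, add_zero, P.e01]
    mul_one := fun x => by
      apply P.ext'
      · simp only [fst_mul, fst_one, snd_one, map_zero, add_zero, P.e00']
      · simp only [snd_mul, fst_one, snd_one, map_zero, zero_add, P.e10] }

instance : Algebra k P.Car :=
  Algebra.ofModule
    (fun a x y => by
      apply P.ext'
      · simp only [fst_mul, fst_smul, snd_smul, map_smul, LinearMap.smul_apply, smul_add]
      · simp only [snd_mul, fst_smul, snd_smul, map_smul, LinearMap.smul_apply, smul_add])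
    (fun a x y => by
      apply P.ext'
      · simp only [fst_mul, fst_smul, snd_smul, map_smul, smul_add]
      · simp only [snd_mul, fst_smul, snd_smul, map_smul, smul_add])

/-- The even part. -/
def in0 : S0 →ₗ[k] P.Car where
  toFun x := (x, 0)
  map_add' x y := by
    apply P.ext'
    · rfl
    · exact (add_zero (0 : S1)).symm
  map_smul' a x := by
    apply P.ext'
    · rfl
    · exact (smul_zero a : a • (0 : S1) = 0).symm

/-- The odd part. -/
def in1 : S1 →ₗ[k] P.Car where
  toFun x := (0, x)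
  map_add' x y := by
    apply P.ext'
    · exact (add_zero (0 : S0)).symm
    · rfl
  map_smul' a x := by
    apply P.ext'
    · exact (smul_zero a : a • (0 : S0) = 0).symm
    · rfl

theorem in0_fst (x : S0) : (P.in0 x).1 = x := rfl

theorem in0_snd (x : S0) : (P.in0 x).2 = 0 := rfl

theorem in1_fst (x : S1) : (P.in1 x).1 = 0 := rfl

theorem in1_snd (x : S1) : (P.in1 x).2 = x := rfl

/-- The parity automorphism. -/
def sg : P.Car →ₗ[k] P.Car where
  toFun x := (x.1, - x.2)
  map_add' x y := by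
    apply P.ext'
    · rfl
    · show - (x.2 + y.2) = - x.2 + - y.2
      abel
  map_smul' a x := by
    apply P.ext'
    · rfl
    · show - (a • x.2) = a • (- x.2)
      rw [smul_neg]

theorem sg_fst (x : P.Car) : (P.sg x).1 = x.1 := rfl

theorem sg_snd (x : P.Car) : (P.sg x).2 = - x.2 := rfl

/-- The parity automorphism, as a homomorphism of algebras. -/
def sgA : P.Car →ₐ[k] P.Car :=
  AlgHom.ofLinearMap P.sg
    (by
      apply P.ext'
      · rfl
      · exact (neg_zero : - (0 : S1) = 0))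
    (fun x y => by
      apply P.ext'
      · simp only [sg_fst, fst_mul, sg_snd, map_neg, LinearMap.neg_apply, neg_neg]
      · simp only [sg_fst, snd_mul, sg_snd, map_neg, LinearMap.neg_apply, neg_add])

theorem sgA_fst (x : P.Car) : (P.sgA x).1 = x.1 := rfl

theorem sgA_snd (x : P.Car) : (P.sgA x).2 = - x.2 := rfl

end SPre

theorem lift2 {k : Type u} [Field k] {M N T : Type w} [AddCommGroup M] [Module k M]
    [AddCommGroup N] [Module k N] [AddCommGroup T] [Module k T] (p : Submodule k M)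
    (q : Submodule k N) (B : M →ₗ[k] N →ₗ[k] T) (h1 : ∀ x ∈ p, ∀ y, B x y = 0)
    (h2 : ∀ x, ∀ y ∈ q, B x y = 0) :
    ∃ C : (M ⧸ p) →ₗ[k] (N ⧸ q) →ₗ[k] T, ∀ x y, C (p.mkQ x) (q.mkQ y) = B x y := by
  have e2 : q ≤ LinearMap.ker B.flip := by
    intro y hy
    rw [LinearMap.mem_ker]
    ext x
    exact h2 x y hy
  have e1 : p ≤ LinearMap.ker (q.liftQ B.flip e2).flip := by
    intro x hx
    rw [LinearMap.mem_ker]
    ext y
    exact h1 x hx y
  exact ⟨p.liftQ (q.liftQ B.flip e2).flip e1, fun x y => rfl⟩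

theorem exists_SData {k : Type u} [Field k] (h3 : (3 : k) = 0) {A : Type w} [Ring A] [Algebra k A]
    (δ : A →ₗ[k] A) (hδ : ∀ a b, δ (a * b) = δ a * b + a * δ b) (hδ3 : ∀ a, δ (δ (δ a)) = 0) :
    ∃ (S : Type w) (_ : Ring S) (_ : Algebra k S), Nonempty (SData δ S) := by
  have hA3 : ∀ a : A, a + a + a = 0 := by
    intro a
    have h := congrArg (fun t : k => t • a) h3
    simp only [zero_smul] at h
    rw [← h, show (3 : k) = 1 + 1 + 1 by norm_num, add_smul, add_smul, one_smul]
  have h1 : δ 1 = 0 := by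
    have h := hδ 1 1
    rw [mul_one, mul_one, one_mul] at h
    have h' : δ 1 + 0 = δ 1 + δ 1 := by rw [add_zero]; exact h
    exact (add_left_cancel h').symm
  -- the submodules
  set K0 : Submodule k A := LinearMap.ker δ with hK0
  set K1 : Submodule k A := LinearMap.ker (δ ∘ₗ δ) with hK1
  have mK0 : ∀ {a : A}, a ∈ K0 ↔ δ a = 0 := fun {a} => LinearMap.mem_ker
  have mK1 : ∀ {a : A}, a ∈ K1 ↔ δ (δ a) = 0 := fun {a} => LinearMap.mem_ker
  set I0 : Submodule k K0 := (LinearMap.range δ).comap K0.subtype with hI0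
  set I1 : Submodule k K1 := (LinearMap.ker δ ⊔ LinearMap.range δ).comap K1.subtype with hI1
  have mI0 : ∀ {x : K0}, x ∈ I0 ↔ ∃ a, δ a = (x : A) := fun {x} => Iff.rfl
  have mI1 : ∀ {x : K1}, x ∈ I1 ↔ ∃ n a, δ n = 0 ∧ (x : A) = n + δ a := by
    intro x
    rw [hI1, Submodule.mem_comap, Submodule.mem_sup]
    constructor
    · rintro ⟨y, hy, z, ⟨a, rfl⟩, hx⟩
      exact ⟨y, a, LinearMap.mem_ker.1 hy, hx.symm⟩
    · rintro ⟨n, a, hn, hx⟩
      exact ⟨n, LinearMap.mem_ker.2 hn, δ a, ⟨a, rfl⟩, hx.symm⟩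
  have p00 : ∀ n n' : K0, (n : A) * n' ∈ K0 := by
    intro n n'
    rw [mK0, hδ, mK0.1 n.2, mK0.1 n'.2, zero_mul, mul_zero, add_zero]
  have p01 : ∀ (n : K0) (w' : K1), (n : A) * w' ∈ K1 := by
    intro n w'
    rw [mK1, hδ, mK0.1 n.2, zero_mul, zero_add, hδ, mK0.1 n.2, mK1.1 w'.2, zero_mul, mul_zero,
      add_zero]
  have p10 : ∀ (w' : K1) (n : K0), (w' : A) * n ∈ K1 := by
    intro w' n
    rw [mK1, hδ, mK0.1 n.2, mul_zero, add_zero, hδ, mK0.1 n.2, mK1.1 w'.2, zero_mul, mul_zero,
      add_zero]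
  have p11 : ∀ w₁ w₂ : K1, (w₁ : A) * δ w₂ - δ w₁ * w₂ ∈ K0 := by
    intro w₁ w₂
    rw [mK0, map_sub, hδ, hδ, mK1.1 w₁.2, mK1.1 w₂.2, mul_zero, zero_mul, add_zero, zero_add,
      sub_self]
  -- the bilinear maps on representatives
  let B00 : K0 →ₗ[k] K0 →ₗ[k] K0 := LinearMap.mk₂ k (fun n n' => ⟨(n : A) * n', p00 n n'⟩)
    (fun a b c => Subtype.ext (by simp [add_mul])) (fun a b c => Subtype.ext (by simp))
    (fun a b c => Subtype.ext (by simp [mul_add])) (fun a b c => Subtype.ext (by simp))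
  let B01 : K0 →ₗ[k] K1 →ₗ[k] K1 := LinearMap.mk₂ k (fun n n' => ⟨(n : A) * n', p01 n n'⟩)
    (fun a b c => Subtype.ext (by simp [add_mul])) (fun a b c => Subtype.ext (by simp))
    (fun a b c => Subtype.ext (by simp [mul_add])) (fun a b c => Subtype.ext (by simp))
  let B10 : K1 →ₗ[k] K0 →ₗ[k] K1 := LinearMap.mk₂ k (fun n n' => ⟨(n : A) * n', p10 n n'⟩)
    (fun a b c => Subtype.ext (by simp [add_mul])) (fun a b c => Subtype.ext (by simp))
    (fun a b c => Subtype.ext (by simp [mul_add])) (fun a b c => Subtype.ext (by simp))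
  let B11 : K1 →ₗ[k] K1 →ₗ[k] K0 :=
    LinearMap.mk₂ k (fun n n' => ⟨(n : A) * δ n' - δ n * n', p11 n n'⟩)
      (fun a b c => Subtype.ext (by simp [add_mul]; abel))
      (fun a b c => Subtype.ext (by simp [smul_sub]))
      (fun a b c => Subtype.ext (by simp [mul_add]; abel))
      (fun a b c => Subtype.ext (by simp [smul_sub]))
  have b00 : ∀ n n' : K0, ((B00 n n' : K0) : A) = n * n' := fun _ _ => rfl
  have b01 : ∀ (n : K0) (n' : K1), ((B01 n n' : K1) : A) = n * n' := fun _ _ => rfl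
  have b10 : ∀ (n : K1) (n' : K0), ((B10 n n' : K1) : A) = n * n' := fun _ _ => rfl
  have b11 : ∀ n n' : K1, ((B11 n n' : K0) : A) = (n : A) * δ n' - δ n * n' := fun _ _ => rfl
  have z0 : ∀ x : K0, x ∈ I0 → I0.mkQ x = 0 := fun x hx =>
    (Submodule.Quotient.mk_eq_zero I0).2 hx
  have z1 : ∀ x : K1, x ∈ I1 → I1.mkQ x = 0 := fun x hx =>
    (Submodule.Quotient.mk_eq_zero I1).2 hx
  obtain ⟨m00, hm00⟩ := lift2 I0 I0 (B00.compr₂ I0.mkQ)
    (by
      intro x hx y
      obtain ⟨a, ha⟩ := mI0.1 hx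
      refine z0 _ (mI0.2 ⟨a * y, ?_⟩)
      rw [b00, hδ, ha, mK0.1 y.2, mul_zero, add_zero])
    (by
      intro x y hy
      obtain ⟨a, ha⟩ := mI0.1 hy
      refine z0 _ (mI0.2 ⟨x * a, ?_⟩)
      rw [b00, hδ, ha, mK0.1 x.2, zero_mul, zero_add])
  obtain ⟨m01, hm01⟩ := lift2 I0 I1 (B01.compr₂ I1.mkQ)
    (by
      intro x hx y
      obtain ⟨a, ha⟩ := mI0.1 hx
      have hda : δ (δ a) = 0 := by rw [ha]; exact mK0.1 x.2
      refine z1 _ (mI1.2 ⟨a * δ y - δ a * y, - (a * y), ?_, ?_⟩)
      · rw [map_sub, hδ, hδ, hda, mK1.1 y.2, mul_zero, zero_mul, add_zero, zero_add, sub_self]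
      · rw [b01, map_neg, hδ, ← ha]
        have h := hA3 (δ a * y)
        have h' : a * δ y - δ a * y + -(δ a * y + a * δ y) = δ a * y -
          (δ a * y + δ a * y + δ a * y) := by abel
        rw [h', h, sub_zero])
    (by
      intro x y hy
      obtain ⟨n, a, hn, ha⟩ := mI1.1 hy
      refine z1 _ (mI1.2 ⟨x * n, x * a, ?_, ?_⟩)
      · rw [hδ, hn, mK0.1 x.2, zero_mul, mul_zero, add_zero]
      · rw [b01, ha, hδ, mK0.1 x.2, zero_mul, zero_add, mul_add])
  obtain ⟨m10, hm10⟩ := lift2 I1 I0 (B10.compr₂ I1.mkQ)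
    (by
      intro x hx y
      obtain ⟨n, a, hn, ha⟩ := mI1.1 hx
      refine z1 _ (mI1.2 ⟨n * y, a * y, ?_, ?_⟩)
      · rw [hδ, hn, mK0.1 y.2, zero_mul, mul_zero, add_zero]
      · rw [b10, ha, hδ, mK0.1 y.2, mul_zero, add_zero, add_mul])
    (by
      intro x y hy
      obtain ⟨a, ha⟩ := mI0.1 hy
      have hda : δ (δ a) = 0 := by rw [ha]; exact mK0.1 y.2
      refine z1 _ (mI1.2 ⟨- (x * δ a - δ x * a), - (x * a), ?_, ?_⟩)
      · rw [map_neg, map_sub, hδ, hδ, hda, mK1.1 x.2, mul_zero, zero_mul, add_zero, zero_add,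
          sub_self, neg_zero]
      · rw [b10, map_neg, hδ, ← ha]
        have h := hA3 ((x : A) * δ a)
        have h' : -((x : A) * δ a - δ x * a) + -(δ x * a + x * δ a) = x * δ a -
          (x * δ a + x * δ a + x * δ a) := by abel
        rw [h', h, sub_zero])
  obtain ⟨m11, hm11⟩ := lift2 I1 I1 (B11.compr₂ I0.mkQ)
    (by
      intro x hx y
      obtain ⟨n, a, hn, ha⟩ := mI1.1 hx
      refine z0 _ (mI0.2 ⟨n * y - (a * δ y + δ a * y), ?_⟩)
      rw [b11, ha, map_sub, map_add, hδ, hδ, hδ, map_add, hn, mK1.1 y.2, zero_mul, mul_zero,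
        zero_add, add_zero, zero_add, add_mul]
      have h := hA3 (δ a * δ y)
      have h' : n * δ y - (δ a * δ y + (δ (δ a) * y + δ a * δ y)) =
        n * δ y + δ a * δ y - δ (δ a) * y - (δ a * δ y + δ a * δ y + δ a * δ y) := by abel
      rw [h', h, sub_zero])
    (by
      intro x y hy
      obtain ⟨n, a, hn, ha⟩ := mI1.1 hy
      refine z0 _ (mI0.2 ⟨- (x * n) + (x * δ a + δ x * a), ?_⟩)
      rw [b11, ha, map_add, map_neg, map_add, hδ, hδ, hδ, map_add, hn, mK1.1 x.2, zero_mul,
        mul_zero, zero_add, add_zero, zero_add, mul_add]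
      have h := hA3 (δ x * δ a)
      have h' : -(δ x * n) + (δ x * δ a + x * δ (δ a) + δ x * δ a) =
        x * δ (δ a) - (δ x * n + δ x * δ a) + (δ x * δ a + δ x * δ a + δ x * δ a) := by abel
      rw [h', h, add_zero])
  have s0 : Function.Surjective I0.mkQ := Submodule.mkQ_surjective I0
  have s1 : Function.Surjective I1.mkQ := Submodule.mkQ_surjective I1
  have hm00' : ∀ x y, m00 (I0.mkQ x) (I0.mkQ y) = I0.mkQ (B00 x y) := hm00
  have hm01' : ∀ x y, m01 (I0.mkQ x) (I1.mkQ y) = I1.mkQ (B01 x y) := hm01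
  have hm10' : ∀ x y, m10 (I1.mkQ x) (I0.mkQ y) = I1.mkQ (B10 x y) := hm10
  have hm11' : ∀ x y, m11 (I1.mkQ x) (I1.mkQ y) = I0.mkQ (B11 x y) := hm11
  let P : SPre k (K0 ⧸ I0) (K1 ⧸ I1) :=
    { m00 := m00
      m01 := m01
      m10 := m10
      m11 := m11
      e := I0.mkQ ⟨1, mK0.2 h1⟩
      e00 := by
        intro x
        obtain ⟨x, rfl⟩ := s0 x
        rw [hm00']
        congr 1
        exact Subtype.ext (one_mul _)
      e00' := by
        intro x
        obtain ⟨x, rfl⟩ := s0 x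
        rw [hm00']
        congr 1
        exact Subtype.ext (mul_one _)
      e01 := by
        intro x
        obtain ⟨x, rfl⟩ := s1 x
        rw [hm01']
        congr 1
        exact Subtype.ext (one_mul _)
      e10 := by
        intro x
        obtain ⟨x, rfl⟩ := s1 x
        rw [hm10']
        congr 1
        exact Subtype.ext (mul_one _)
      a000 := by
        intro x y z
        obtain ⟨x, rfl⟩ := s0 x
        obtain ⟨y, rfl⟩ := s0 y
        obtain ⟨z, rfl⟩ := s0 z
        rw [hm00', hm00', hm00', hm00']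
        congr 1
        exact Subtype.ext (mul_assoc _ _ _)
      a001 := by
        intro x y z
        obtain ⟨x, rfl⟩ := s0 x
        obtain ⟨y, rfl⟩ := s0 y
        obtain ⟨z, rfl⟩ := s1 z
        rw [hm00', hm01', hm01', hm01']
        congr 1
        exact Subtype.ext (mul_assoc _ _ _)
      a010 := by
        intro x y z
        obtain ⟨x, rfl⟩ := s0 x
        obtain ⟨y, rfl⟩ := s1 y
        obtain ⟨z, rfl⟩ := s0 z
        rw [hm01', hm10', hm10', hm01']
        congr 1
        exact Subtype.ext (mul_assoc _ _ _)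
      a100 := by
        intro x y z
        obtain ⟨x, rfl⟩ := s1 x
        obtain ⟨y, rfl⟩ := s0 y
        obtain ⟨z, rfl⟩ := s0 z
        rw [hm10', hm10', hm00', hm10']
        congr 1
        exact Subtype.ext (mul_assoc _ _ _)
      a011 := by
        intro x y z
        obtain ⟨x, rfl⟩ := s0 x
        obtain ⟨y, rfl⟩ := s1 y
        obtain ⟨z, rfl⟩ := s1 z
        rw [hm01', hm11', hm11', hm00']
        congr 1
        apply Subtype.ext
        rw [b11, b01, b00, b11, hδ, mK0.1 x.2, zero_mul, zero_add, mul_sub, mul_assoc, mul_assoc]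
      a101 := by
        intro x y z
        obtain ⟨x, rfl⟩ := s1 x
        obtain ⟨y, rfl⟩ := s0 y
        obtain ⟨z, rfl⟩ := s1 z
        rw [hm10', hm11', hm01', hm11']
        congr 1
        apply Subtype.ext
        rw [b11, b10, b11, b01, hδ, hδ, mK0.1 y.2, zero_mul, zero_add, mul_zero, add_zero,
          mul_assoc, mul_assoc]
      a110 := by
        intro x y z
        obtain ⟨x, rfl⟩ := s1 x
        obtain ⟨y, rfl⟩ := s1 y
        obtain ⟨z, rfl⟩ := s0 z
        rw [hm11', hm00', hm10', hm11']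
        congr 1
        apply Subtype.ext
        rw [b00, b11, b11, b10, hδ, mK0.1 z.2, mul_zero, add_zero, sub_mul, mul_assoc, mul_assoc]
      a111 := by
        intro x y z
        obtain ⟨x, rfl⟩ := s1 x
        obtain ⟨y, rfl⟩ := s1 y
        obtain ⟨z, rfl⟩ := s1 z
        rw [hm11', hm01', hm11', hm10', ← sub_eq_zero, ← map_sub]
        refine z1 _ (mI1.2 ⟨0, - ((x : A) * y * z), map_zero δ, ?_⟩)
        have e1 : ((B01 (B11 x y) z - B10 x (B11 y z) : K1) : A) =
            ((x : A) * δ y - δ x * y) * z - x * ((y : A) * δ z - δ y * z) := rfl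
        rw [e1, map_neg, hδ, hδ, zero_add]
        have h := hA3 ((x : A) * δ y * z)
        have h' : ((x : A) * δ y - δ x * y) * z - x * ((y : A) * δ z - δ y * z) =
          -((δ x * y + x * δ y) * z + x * y * δ z) + ((x : A) * δ y * z + x * δ y * z
            + x * δ y * z) := by
          noncomm_ring
        rw [h', h, add_zero] }
  obtain ⟨c0, hc0⟩ := LinearMap.exists_extend (P.in0 ∘ₗ I0.mkQ)
  obtain ⟨c1, hc1⟩ := LinearMap.exists_extend (P.in1 ∘ₗ I1.mkQ)
  have hc0' : ∀ n (hn : δ n = 0), c0 n = P.in0 (I0.mkQ ⟨n, mK0.2 hn⟩) := fun n hn =>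
    LinearMap.congr_fun hc0 ⟨n, mK0.2 hn⟩
  have hc1' : ∀ n (hn : δ (δ n) = 0), c1 n = P.in1 (I1.mkQ ⟨n, mK1.2 hn⟩) := fun n hn =>
    LinearMap.congr_fun hc1 ⟨n, mK1.2 hn⟩
  refine ⟨P.Car, inferInstance, inferInstance, ⟨?_⟩⟩
  exact
    { c0 := c0
      c1 := c1
      one := by
        rw [hc0' 1 h1]
        rfl
      mul00 := by
        intro n n' hn hn'
        have h : δ (n * n') = 0 := mK0.1 (p00 ⟨n, mK0.2 hn⟩ ⟨n', mK0.2 hn'⟩)
        rw [hc0' n hn, hc0' n' hn', hc0' _ h]
        apply P.ext'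
        · rw [P.fst_mul, P.in0_fst, P.in0_fst, P.in0_snd, P.in0_snd, map_zero, add_zero, P.in0_fst]
          exact hm00' _ _
        · rw [P.snd_mul, P.in0_snd, P.in0_snd, map_zero, map_zero, LinearMap.zero_apply, add_zero,
            P.in0_snd]
      mul01 := by
        intro n n' hn hn'
        have h : δ (δ (n * n')) = 0 := mK1.1 (p01 ⟨n, mK0.2 hn⟩ ⟨n', mK1.2 hn'⟩)
        rw [hc0' n hn, hc1' n' hn', hc1' _ h]
        apply P.ext'
        · rw [P.fst_mul, P.in0_snd, P.in1_fst, map_zero, map_zero, LinearMap.zero_apply, add_zero,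
            P.in1_fst]
        · rw [P.snd_mul, P.in0_fst, P.in1_snd, P.in0_snd, map_zero, LinearMap.zero_apply, add_zero,
            P.in1_snd]
          exact hm01' _ _
      mul10 := by
        intro n n' hn hn'
        have h : δ (δ (n * n')) = 0 := mK1.1 (p10 ⟨n, mK1.2 hn⟩ ⟨n', mK0.2 hn'⟩)
        rw [hc1' n hn, hc0' n' hn', hc1' _ h]
        apply P.ext'
        · rw [P.fst_mul, P.in1_fst, P.in0_snd, map_zero, map_zero, LinearMap.zero_apply, add_zero,
            P.in1_fst]
        · rw [P.snd_mul, P.in1_fst, P.in0_snd, P.in1_snd, P.in0_fst, map_zero, zero_add,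
            P.in1_snd]
          exact hm10' _ _
      mul11 := by
        intro n n' hn hn'
        have h : δ (n * δ n' - δ n * n') = 0 := mK0.1 (p11 ⟨n, mK1.2 hn⟩ ⟨n', mK1.2 hn'⟩)
        rw [hc1' n hn, hc1' n' hn', hc0' _ h]
        apply P.ext'
        · rw [P.fst_mul, P.in1_fst, P.in1_fst, P.in1_snd, P.in1_snd, map_zero, zero_add,
            P.in0_fst]
          exact hm11' _ _
        · rw [P.snd_mul, P.in1_fst, P.in1_fst, map_zero, map_zero, LinearMap.zero_apply, add_zero,
            P.in0_snd]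
      surj := by
        rintro ⟨x, y⟩
        obtain ⟨n, rfl⟩ := s0 x
        obtain ⟨v, rfl⟩ := s1 y
        refine ⟨n, v, mK0.1 n.2, mK1.1 v.2, ?_⟩
        rw [hc0' _ (mK0.1 n.2), hc1' _ (mK1.1 v.2)]
        apply P.ext'
        · rw [P.fst_add, P.in0_fst, P.in1_fst, add_zero]
        · rw [P.snd_add, P.in0_snd, P.in1_snd, zero_add]
      ker := by
        intro n v hn hv
        rw [hc0' n hn, hc1' v hv]
        have e1 : P.in0 (I0.mkQ ⟨n, mK0.2 hn⟩) + P.in1 (I1.mkQ ⟨v, mK1.2 hv⟩) = 0 ↔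
            I0.mkQ ⟨n, mK0.2 hn⟩ = 0 ∧ I1.mkQ ⟨v, mK1.2 hv⟩ = 0 := by
          constructor
          · intro h
            constructor
            · have := congrArg (fun z : P.Car => z.1) h
              simp only [P.fst_add, P.in0_fst, P.in1_fst, add_zero] at this
              exact this
            · have := congrArg (fun z : P.Car => z.2) h
              simp only [P.snd_add, P.in0_snd, P.in1_snd, zero_add] at this
              exact this
          · rintro ⟨h, h'⟩
            rw [h, h', map_zero, map_zero, add_zero]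
        rw [e1]
        constructor
        · rintro ⟨h, h'⟩
          exact ⟨mI0.1 ((Submodule.Quotient.mk_eq_zero I0).1 h),
            mI1.1 ((Submodule.Quotient.mk_eq_zero I1).1 h')⟩
        · rintro ⟨h, h'⟩
          exact ⟨z0 _ (mI0.2 h), z1 _ (mI1.2 h')⟩
      σ := P.sgA
      σ0 := by
        intro n hn
        rw [hc0' n hn]
        apply P.ext'
        · rfl
        · rw [P.sgA_snd, P.in0_snd, neg_zero]
      σ1 := by
        intro n hn
        rw [hc1' n hn]
        apply P.ext'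
        · rw [P.sgA_fst, P.in1_fst]
          exact (neg_zero : - (0 : K0 ⧸ I0) = 0).symm
        · rw [P.sgA_snd, P.in1_snd]
          rfl }

end Pool.Agent.Helper21.KW
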