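import Pool.Agent.Helper21.KW.StepD
import Pool.Agent.Helper21.KW.SRing
import Pool.Agent.Helper21.KW.SDer

set_option autoImplicit false

/-!
# Project KW, step (4): the theorem for quadratic Lie algebras and nilpotent derivations
-/

namespace Pool.Agent.Helper21.KW

open MvPolynomial Module Finset Pool.Agent.Helper58.KW

universe u w

/-- The statement for derivations with `D₀ ^ (3 ^ m) = 0`. -/
def Pq (k : Type u) [Field k] (m : ℕ) : Prop :=
  ∀ (V : Type u) (_ : AddCommGroup V) (_ : Module k V) (A : Type w) (_ : Ring A) (_ : Algebra k A)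
    (X : Type) (_ : Fintype X) (ι : V →ₗ[k] A) (b : Basis X k V)
    (symb : MvPolynomial X k →ₗ[k] A) (br : V →ₗ[k] V →ₗ[k] V) (κ : V →ₗ[k] V →ₗ[k] k)
    (D₀ : V →ₗ[k] V) (D : A →ₗ[k] A), PBW ι b symb → QD ι br κ D₀ D → D₀ ^ (3 ^ m) = 0 →
    ∀ (u : A) (y : V), D u = ι y → ∃ z, D₀ z = y

theorem step_ctx {k : Type u} [Field k] [CharP k 3] {X : Type} [Fintype X] [LinearOrder X]
    {I : Type} [Fintype I] [DecidableEq I]
    {V : Type u} [AddCommGroup V] [Module k V] {A : Type w} [Ring A] [Algebra k A]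
    {J : Jd X I} {ι : V →ₗ[k] A} {e : Basis X k V} {symb : MvPolynomial X k →ₗ[k] A}
    {br : V →ₗ[k] V →ₗ[k] V} {κ : V →ₗ[k] V →ₗ[k] k} {D₀ : V →ₗ[k] V} {D : A →ₗ[k] A}
    {m : ℕ} {cb : V → V} (C : Ctx J ι e symb br κ D₀ D m cb) (IH : Pq.{u, w} k m)
    {u : A} {y : V} (hu : D u = ι y) : ∃ z, D₀ z = y := by
  haveI : Fact (Nat.Prime 3) := ⟨by norm_num⟩
  haveI : FiniteDimensional k V := Module.Finite.of_basis e
  set δ := D ^ (3 ^ m) with hδ
  set δ₀ := D₀ ^ (3 ^ m) with hδ₀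
  -- helper58's theorem for `δ`
  have E1δ : ∀ (u : A) (y : V), δ u = ι y → ∃ z, δ₀ z = y := by
    intro u y h
    exact E1 3 ι e symb C.pbw δ₀ C.δ₀3 δ C.δder C.δι (fun v => ⟨_, C.δcb v⟩) h
  obtain ⟨n, hn⟩ : ∃ n, 3 ^ m = n + 1 := ⟨3 ^ m - 1, by
    have : 0 < 3 ^ m := by positivity
    omega⟩
  have hδu : δ u = ι ((D₀ ^ n) y) := by
    rw [hδ, hn, pow_succ, Module.End.mul_apply, hu, pow_ι C.Dι]
  obtain ⟨z, hz⟩ := E1δ _ _ hδu
  have hu' : δ (u - ι z) = 0 := by rw [map_sub, hδu, C.δι, hz, sub_self]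
  have hDu' : D (u - ι z) = ι (y - D₀ z) := by rw [map_sub, hu, C.Dι, ← map_sub]
  have hcomm : ∀ a, δ (D a) = D (δ a) := by
    intro a
    rw [hδ, ← Module.End.mul_apply, ← Module.End.mul_apply, ← pow_succ, ← pow_succ']
  have hy' : δ₀ (y - D₀ z) = 0 := by
    apply C.inj
    rw [← C.δι, ← hDu', hcomm, hu', map_zero]
  have h3 : (3 : k) = 0 := by
    have := CharP.cast_eq_zero k 3
    exact_mod_cast this
  obtain ⟨S, _, _, ⟨M⟩⟩ := exists_SData h3 δ C.δder C.δ3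
  obtain ⟨DS, hDS, h0, h1, hσ⟩ := SData.exists_der C.δder M D C.der hcomm
  obtain ⟨DR, hDR, hDRd, hDRι⟩ := C.exists_DR M hDS h0
  have H := C.oddHyp M hDS h1 hσ hDR
  obtain ⟨E, hE⟩ := exists_topCoef C.two_ne H
  obtain ⟨ρ, hρ, hρj⟩ := odd_retraction C.two_ne H hE
  obtain ⟨symb', hpbw⟩ := C.pbwp M
  have hqd := C.qdp M hDS h0 hDR hDRd hDRι
  have key : DR (ρ (M.c0 (u - ι z))) = ιp J ι e cb M (pr J e (y - D₀ z)) := by
    rw [← hρ, h0 _ hu', hDu', C.c0_ι M hy']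
    exact hρj _
  obtain ⟨l, hl⟩ := IH (Xp J → k) _ _ (Rp J ι e cb M) _ _ (Xp J) inferInstance (ιp J ι e cb M)
    (Pi.basisFun k (Xp J)) symb' (brp J e br) (κp J e κ) (D₀p J e D₀) DR hpbw hqd C.D₀p_nil
    _ _ key
  have h4 : M.c0 (ι (y - D₀ z - D₀ (em J e l))) = 0 := by
    rw [map_sub ι, map_sub, C.c0_ι M hy', C.c0_ι M (C.δ₀D₀ (C.δ₀em l)), ← D₀p_apply, hl, sub_self]
  obtain ⟨a, ha⟩ := M.of_c0 (by
    rw [C.δι, map_sub, hy', zero_sub, C.δ₀D₀ (C.δ₀em l), neg_zero, map_zero]) h4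
  obtain ⟨z', hz'⟩ := E1δ _ _ ha
  refine ⟨z + em J e l + (D₀ ^ n) z', ?_⟩
  have h5 : D₀ ((D₀ ^ n) z') = δ₀ z' := by
    rw [hδ₀, hn, pow_succ', Module.End.mul_apply]
  rw [map_add, map_add, h5, hz']
  abel

theorem all_Pq (k : Type u) [Field k] [CharP k 3] (m : ℕ) : Pq.{u, w} k m := by
  haveI : Fact (Nat.Prime 3) := ⟨by norm_num⟩
  induction m with
  | zero =>
    intro V _ _ A _ _ X _ ι b symb br κ D₀ D hP hQ hD u y hu
    rw [pow_zero, pow_one] at hD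
    haveI : FiniteDimensional k V := Module.Finite.of_basis b
    refine E1 3 ι b symb hP D₀ (by rw [hD]; rfl) D hQ.der hQ.Dι (fun v => ?_) hu
    obtain ⟨v', -, hv'⟩ := hQ.cube v
    exact ⟨v', hv'⟩
  | succ m IH =>
    intro V _ _ A _ _ X _ ι b symb br κ D₀ D hP hQ hD u y hu
    haveI : FiniteDimensional k V := Module.Finite.of_basis b
    have hδ₀ : (D₀ ^ (3 ^ m)) ^ 3 = 0 := by
      rw [← pow_mul, ← pow_succ]
      exact hD
    obtain ⟨d, n, e, hn, he⟩ := exists_jd (D₀ ^ (3 ^ m)) 3 hδ₀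
    choose cb hcb using hQ.cube
    letI : LinearOrder (Σ i, Fin (n i)) :=
      LinearOrder.lift' (Fintype.equivFin (Σ i, Fin (n i))) (Fintype.equivFin _).injective
    have C : Ctx (jd n) ι e (symb ∘ₗ (Pool.Agent.Helper58.KW.cob b e).toLinearMap) br κ D₀ D m cb :=
      { hsz := hn
        pbw := hP.cob e
        br_eq := hQ.br_eq
        symm := hQ.symm
        nondeg := hQ.nondeg
        inv := hQ.inv
        skew := hQ.skew
        der := hQ.der
        Dι := hQ.Dι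
        cent := fun v a => (hcb v).1 a
        Dcb := fun v => (hcb v).2
        hnx := he
        nil := hD }
    exact step_ctx C IH hu

end Pool.Agent.Helper21.KW
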