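import Pool.Agent.Helper21.KW.SP3
import Pool.Agent.Helper21.KW.CommL3

set_option autoImplicit false

/-!
# Project KW, the induction step: the even generators
-/

namespace Pool.Agent.Helper21.KW

open MvPolynomial Module Finset Pool.Agent.Helper58.KW

theorem list_ker {k : Type*} [Field k] {B : Type*} [Ring B] [Algebra k B] (δ : B →ₗ[k] B)
    (hδ : ∀ a b, δ (a * b) = δ a * b + a * δ b) (l : List B) (hl : ∀ a ∈ l, δ a = 0) :
    δ l.prod = 0 := by
  induction l with
  | nil => simpa using leib_one δ hδ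
  | cons a l ih =>
    rw [List.prod_cons, hδ, hl a (by simp), ih (fun b hb => hl b (by simp [hb])), zero_mul,
      mul_zero, add_zero]

theorem pow_ker {k : Type*} [Field k] {B : Type*} [Ring B] [Algebra k B] (δ : B →ₗ[k] B)
    (hδ : ∀ a b, δ (a * b) = δ a * b + a * δ b) {a : B} (ha : δ a = 0) (n : ℕ) : δ (a ^ n) = 0 := by
  induction n with
  | zero => simpa using leib_one δ hδ
  | succ n ih => rw [pow_succ, hδ, ih, ha, zero_mul, mul_zero, add_zero]

section

variable {k : Type*} [Field k] [CharP k 3] {X I : Type*} [Fintype X] [LinearOrder X] [Fintype I]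
  [DecidableEq I]
  {V : Type*} [AddCommGroup V] [Module k V] {A : Type*} [Ring A] [Algebra k A]

/-- The situation of the induction step. -/
structure Ctx (J : Jd X I) (ι : V →ₗ[k] A) (e : Basis X k V) (symb : MvPolynomial X k →ₗ[k] A)
    (br : V →ₗ[k] V →ₗ[k] V) (κ : V →ₗ[k] V →ₗ[k] k) (D₀ : V →ₗ[k] V) (D : A →ₗ[k] A)
    (m : ℕ) (cb : V → V) : Prop where
  hsz : ∀ i, J.sz i ≤ 3
  pbw : PBW ι e symb
  br_eq : ∀ v w, ι (br v w) = ι v * ι w - ι w * ι v
  symm : ∀ v w, κ v w = κ w v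
  nondeg : ∀ v, (∀ w, κ v w = 0) → v = 0
  inv : ∀ u v w, κ (br u v) w + κ v (br u w) = 0
  skew : ∀ v w, κ (D₀ v) w + κ v (D₀ w) = 0
  der : ∀ a b, D (a * b) = D a * b + a * D b
  Dι : ∀ v, D (ι v) = ι (D₀ v)
  cent : ∀ v a, (ι v ^ 3 - ι (cb v)) * a = a * (ι v ^ 3 - ι (cb v))
  Dcb : ∀ v, D (ι v ^ 3 - ι (cb v)) = 0
  hnx : ∀ x, (D₀ ^ (3 ^ m)) (e x) = (J.nx x).elim 0 e
  nil : D₀ ^ (3 ^ (m + 1)) = 0

variable {J : Jd X I} {ι : V →ₗ[k] A} {e : Basis X k V} {symb : MvPolynomial X k →ₗ[k] A}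
  {br : V →ₗ[k] V →ₗ[k] V} {κ : V →ₗ[k] V →ₗ[k] k} {D₀ : V →ₗ[k] V} {D : A →ₗ[k] A}
  {m : ℕ} {cb : V → V}

/-- `p`-power-th powers of a derivation. -/
theorem der_pow (hD : ∀ a b, D (a * b) = D a * b + a * D b) (m : ℕ) (a b : A) :
    (D ^ (3 ^ m)) (a * b) = (D ^ (3 ^ m)) a * b + a * (D ^ (3 ^ m)) b := by
  haveI : Fact (Nat.Prime 3) := ⟨by norm_num⟩
  induction m generalizing a b with
  | zero => simpa using hD a b
  | succ m ih =>
    rw [pow_succ, pow_mul]
    exact leib_char 3 (D ^ (3 ^ m)) ih a b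

theorem pow_ι (hι : ∀ v, D (ι v) = ι (D₀ v)) (n : ℕ) (v : V) : (D ^ n) (ι v) = ι ((D₀ ^ n) v) := by
  induction n generalizing v with
  | zero => simp
  | succ n ih =>
    rw [pow_succ, pow_succ, Module.End.mul_apply, Module.End.mul_apply, hι, ih]

theorem pow_zero_of {M : Type*} [AddCommGroup M] [Module k M] (D : M →ₗ[k] M) {a : M}
    (h : D a = 0) {n : ℕ} (hn : n ≠ 0) : (D ^ n) a = 0 := by
  obtain ⟨n, rfl⟩ := Nat.exists_eq_succ_of_ne_zero hn
  rw [Nat.succ_eq_add_one, pow_succ, Module.End.mul_apply, h, map_zero]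

namespace Ctx

variable (C : Ctx J ι e symb br κ D₀ D m cb)

include C

theorem δder (a b : A) :
    (D ^ (3 ^ m)) (a * b) = (D ^ (3 ^ m)) a * b + a * (D ^ (3 ^ m)) b := der_pow C.der m a b

theorem δι (v : V) : (D ^ (3 ^ m)) (ι v) = ι ((D₀ ^ (3 ^ m)) v) := pow_ι C.Dι _ v

theorem δ₀3 : (D₀ ^ (3 ^ m)) ^ 3 = 0 := by
  rw [← pow_mul, ← pow_succ]
  exact C.nil

theorem δ3 (a : A) : (D ^ (3 ^ m)) ((D ^ (3 ^ m)) ((D ^ (3 ^ m)) a)) = 0 := by
  haveI : Fact (Nat.Prime 3) := ⟨by norm_num⟩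
  have h := C.pbw.pow_char 3 (D ^ (3 ^ m)) C.δder (D₀ ^ (3 ^ m)) C.δι C.δ₀3 a
  rw [pow_succ, pow_succ, pow_one] at h
  simpa [Module.End.mul_apply] using h

theorem δcb (v : V) : (D ^ (3 ^ m)) (ι v ^ 3 - ι (cb v)) = 0 :=
  pow_zero_of D (C.Dcb v) (by positivity)

theorem inj {v : V} (hv : ι v = 0) : v = 0 := by
  classical
  have h0 : symb (linf e v) = ι v := by
    have h1 : symb ∘ₗ linf e = ι := by
      refine e.ext fun x => ?_
      rw [LinearMap.comp_apply, linf_basis, C.pbw.symb_X]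
    exact LinearMap.congr_fun h1 v
  have h3 := C.pbw.symb_lead (linf_hom e v) (by rw [h0, hv]; exact Submodule.zero_mem _)
  have h4 : linf e v = ∑ x, e.repr v x • MvPolynomial.X x := by
    conv_lhs => rw [← e.sum_repr v]
    rw [map_sum]
    exact Finset.sum_congr rfl fun x _ => by rw [map_smul, linf_basis]
  have h5 : ∀ x, e.repr v x = 0 := by
    intro x
    have h6 := congrArg (coeff (Finsupp.single x 1)) h3
    rw [h4, coeff_sum, coeff_zero] at h6
    simp only [coeff_smul, coeff_X, smul_eq_mul, mul_ite, mul_one, mul_zero] at h6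
    rw [Finset.sum_eq_single x] at h6
    · simpa using h6
    · intro z _ hz
      rw [if_neg]
      intro h7
      exact hz (Finsupp.single_left_injective one_ne_zero h7)
    · intro h7
      exact absurd (Finset.mem_univ x) h7
  rw [← e.sum_repr v]
  exact Finset.sum_eq_zero fun x _ => by rw [h5, zero_smul]

end Ctx

/-- The even generators. -/
noncomputable def bt (J : Jd X I) (ι : V →ₗ[k] A) (e : Basis X k V) (cb : V → V) (x : Xp J) : A :=
  if J.sz (J.blk x.1) = 1 then ι (e x.1) else ι (e x.1) ^ 3 - ι (cb (e x.1))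

/-- The even monomials. -/
noncomputable def nA (J : Jd X I) (ι : V →ₗ[k] A) (e : Basis X k V) (cb : V → V)
    (μ : Xp J →₀ ℕ) : A := omon (bt J ι e cb) μ

namespace Ctx

variable (C : Ctx J ι e symb br κ D₀ D m cb)

include C

theorem head_one {x : Xp J} (hx : J.sz (J.blk x.1) = 1) : J.nx x.1 = none := by
  unfold Jd.nx
  rw [J.att_none]
  omega

theorem δ₀_one {x : Xp J} (hx : J.sz (J.blk x.1) = 1) : (D₀ ^ (3 ^ m)) (e x.1) = 0 := by
  rw [C.hnx, C.head_one hx]
  rfl

theorem δbt (x : Xp J) : (D ^ (3 ^ m)) (bt J ι e cb x) = 0 := by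
  unfold bt
  split_ifs with h
  · rw [C.δι, C.δ₀_one h, map_zero]
  · exact C.δcb _

theorem δnA (μ : Xp J →₀ ℕ) : (D ^ (3 ^ m)) (nA J ι e cb μ) = 0 := by
  unfold nA omon
  apply list_ker _ C.δder
  intro a ha
  rw [List.mem_map] at ha
  obtain ⟨x, -, rfl⟩ := ha
  exact pow_ker _ C.δder (C.δbt x) _

/-- The symbol of a generator. -/
theorem bt_symb (x : Xp J) : bt J ι e cb x - symb ((MvPolynomial.X x.1 : MvPolynomial X k) ^ wt J x) ∈
    G ι (wt J x) := by
  unfold bt wt
  split_ifs with h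
  · rw [pow_one, C.pbw.symb_X, sub_self]
    exact Submodule.zero_mem _
  · have h1 : ∀ n : ℕ, ι (e x.1) ^ n - symb ((MvPolynomial.X x.1 : MvPolynomial X k) ^ n) ∈
        G ι n := by
      intro n
      induction n with
      | zero =>
        rw [pow_zero, pow_zero, C.pbw.symb_one, sub_self]
        exact Submodule.zero_mem _
      | succ n ih =>
        have hn : ((MvPolynomial.X x.1 : MvPolynomial X k) ^ n).IsHomogeneous n := by
          simpa using (isHomogeneous_X k x.1).pow n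
        have e1 := C.pbw.symb_mul hn (isHomogeneous_X k x.1)
        have e2 := G_mul' ι ih (iota_mem_G ι (e x.1) (d := 1 + 1) (by omega))
        rw [C.pbw.symb_X] at e1
        rw [pow_succ, pow_succ]
        have e3 := Submodule.add_mem _ e1 e2
        convert e3 using 1
        noncomm_ring
    have h2 := Submodule.sub_mem _ (h1 3) (iota_mem_G ι (cb (e x.1)) (d := 3) (by omega))
    convert h2 using 1
    abel

/-- `a` has symbol `q` of degree `d`. -/
theorem symb_mul_aux {d d' : ℕ} {a b : A} {q r : MvPolynomial X k} (hq : q.IsHomogeneous d)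
    (hr : r.IsHomogeneous d') (ha : a - symb q ∈ G ι d) (hb : b - symb r ∈ G ι d') :
    a * b - symb (q * r) ∈ G ι (d + d') := by
  have e1 := C.pbw.symb_mul hq hr
  have hb' : b ∈ G ι (d' + 1) := by
    have := Submodule.add_mem _ (G_mono ι (Nat.le_succ d') hb) (C.pbw.symb_hom hr)
    rwa [sub_add_cancel] at this
  have e2 := G_mul' ι ha hb'
  have e3 := G_mul ι (C.pbw.symb_hom hq) hb
  have e4 := Submodule.add_mem _ (Submodule.add_mem _ e1 e2) e3
  convert e4 using 1
  noncomm_ring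

theorem symb_pow_aux {d : ℕ} {a : A} {q : MvPolynomial X k} (hq : q.IsHomogeneous d)
    (ha : a - symb q ∈ G ι d) (n : ℕ) : a ^ n - symb (q ^ n) ∈ G ι (n * d) := by
  induction n with
  | zero =>
    rw [pow_zero, pow_zero, C.pbw.symb_one, sub_self]
    exact Submodule.zero_mem _
  | succ n ih =>
    have hqn : (q ^ n).IsHomogeneous (n * d) := by
      have := hq.pow n
      rwa [mul_comm] at this
    have := C.symb_mul_aux hqn hq ih ha
    rw [pow_succ, pow_succ, add_mul, one_mul]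
    exact this

theorem list_symb (l : List (Xp J)) (μ : Xp J →₀ ℕ) :
    (l.map fun x => (MvPolynomial.X x.1 : MvPolynomial X k) ^ (wt J x * μ x)).prod.IsHomogeneous
      (l.map fun x => wt J x * μ x).sum ∧
    (l.map fun x => bt J ι e cb x ^ μ x).prod -
      symb (l.map fun x => (MvPolynomial.X x.1 : MvPolynomial X k) ^ (wt J x * μ x)).prod ∈
      G ι (l.map fun x => wt J x * μ x).sum := by
  induction l with
  | nil =>
    simp only [List.map_nil, List.prod_nil, List.sum_nil]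
    refine ⟨isHomogeneous_one _ _, ?_⟩
    rw [C.pbw.symb_one, sub_self]
    exact Submodule.zero_mem _
  | cons x l ih =>
    simp only [List.map_cons, List.prod_cons, List.sum_cons]
    have h1 : ((MvPolynomial.X x.1 : MvPolynomial X k) ^ (wt J x)).IsHomogeneous (wt J x) := by
      simpa using (isHomogeneous_X k x.1).pow (wt J x)
    have h2 : ((MvPolynomial.X x.1 : MvPolynomial X k) ^ (wt J x * μ x)).IsHomogeneous
        (wt J x * μ x) := by
      simpa using (isHomogeneous_X k x.1).pow (wt J x * μ x)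
    refine ⟨h2.mul ih.1, ?_⟩
    have h3 := C.symb_pow_aux h1 (C.bt_symb x) (μ x)
    rw [← pow_mul, mul_comm (μ x)] at h3
    exact C.symb_mul_aux h2 ih.1 h3 ih.2

omit C in
theorem lam_apply (μ : Xp J →₀ ℕ) (x : Xp J) : lam J μ x.1 = wt J x * μ x := by
  have h1 : lam J μ x.1 = if h : J.pos x.1 = 0 then wt J ⟨x.1, h⟩ * μ ⟨x.1, h⟩ else 0 := rfl
  rw [h1, dif_pos x.2]

omit C in
theorem lam_apply' (μ : Xp J →₀ ℕ) {x : X} (hx : J.pos x ≠ 0) : lam J μ x = 0 := by
  have h1 : lam J μ x = if h : J.pos x = 0 then wt J ⟨x, h⟩ * μ ⟨x, h⟩ else 0 := rfl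
  rw [h1, dif_neg hx]

omit C in
theorem lam_degree (μ : Xp J →₀ ℕ) : (lam J μ).degree = ∑ x : Xp J, wt J x * μ x := by
  rw [Finsupp.degree_eq_sum]
  have h1 : ∑ x : X, lam J μ x = ∑ x ∈ univ.filter (fun x => J.pos x = 0), lam J μ x := by
    symm
    refine Finset.sum_subset (Finset.filter_subset _ _) ?_
    intro x _ hx
    apply lam_apply'
    simpa using hx
  rw [h1, Finset.sum_subtype (univ.filter fun x => J.pos x = 0) (p := fun x => J.pos x = 0)
    (fun x => by simp)]
  exact Finset.sum_congr rfl fun x _ => lam_apply μ x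

omit C in
theorem lam_monomial (μ : Xp J →₀ ℕ) : (monomial (lam J μ) (1 : k)) =
    ∏ x : Xp J, (MvPolynomial.X x.1 : MvPolynomial X k) ^ (wt J x * μ x) := by
  rw [monomial_eq, C_1, one_mul, Finsupp.prod_fintype _ _ (fun x => pow_zero _)]
  have h1 : ∏ x : X, (MvPolynomial.X x : MvPolynomial X k) ^ (lam J μ x) =
      ∏ x ∈ univ.filter (fun x => J.pos x = 0), (MvPolynomial.X x : MvPolynomial X k) ^ (lam J μ x) := by
    symm
    refine Finset.prod_subset (Finset.filter_subset _ _) ?_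
    intro x _ hx
    rw [lam_apply', pow_zero]
    simpa using hx
  rw [h1, Finset.prod_subtype (univ.filter fun x => J.pos x = 0) (p := fun x => J.pos x = 0)
    (fun x => by simp)]
  exact Finset.prod_congr rfl fun x _ => by rw [lam_apply]

theorem nA_symb (μ : Xp J →₀ ℕ) :
    nA J ι e cb μ - symb (monomial (lam J μ) 1) ∈ G ι (lam J μ).degree := by
  have h1 := (C.list_symb (Finset.univ.sort (· ≤ ·)) μ).2
  have h2 : ((Finset.univ.sort (· ≤ ·)).map fun x : Xp J =>
      (MvPolynomial.X x.1 : MvPolynomial X k) ^ (wt J x * μ x)).prod =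
      ∏ x : Xp J, (MvPolynomial.X x.1 : MvPolynomial X k) ^ (wt J x * μ x) := by
    rw [← List.prod_toFinset _ (Finset.sort_nodup _ _), Finset.sort_toFinset]
  have h3 : ((Finset.univ.sort (· ≤ ·)).map fun x : Xp J => wt J x * μ x).sum =
      ∑ x : Xp J, wt J x * μ x := by
    rw [← List.sum_toFinset _ (Finset.sort_nodup _ _), Finset.sort_toFinset]
  rw [h2, h3] at h1
  rw [lam_monomial, lam_degree]
  exact h1

theorem shyp : SHyp J ι e symb (D₀ ^ (3 ^ m)) (D ^ (3 ^ m)) (nA J ι e cb) where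
  pbw := C.pbw
  h3 := by
    have := CharP.cast_eq_zero k 3
    exact_mod_cast this
  der := C.δder
  cube := C.δ3
  hι := C.δι
  hnx := C.hnx
  ha := fun hq h => comm_a J C.hsz hq h
  hb := fun hq h => comm_b J C.hsz hq h
  hc0 := fun s c hs g h => comm_c0 J C.hsz s c hs g h
  hc1 := fun s c hs κ g hκ h => comm_c1 J C.hsz s c hs κ g hκ h
  hlft := fun hq h => by
    haveI : Fact (Nat.Prime 3) := ⟨by norm_num⟩
    exact Lft.main C.pbw J 3 C.hsz C.δder _ C.δι C.δ₀3 C.hnx (fun v => ⟨_, C.δcb v⟩) hq h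
  hn := C.δnA
  hnG := C.nA_symb

end Ctx

end

end Pool.Agent.Helper21.KW
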