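import Pool.Agent.Helper21.KW.StepA
import Pool.Agent.Helper21.KW.SP2
import Pool.Agent.Helper21.KW.PBWof
import Pool.Agent.Helper21.KW.Form1

set_option autoImplicit false

/-!
# Project KW, the induction step: the even subalgebra
-/

namespace Pool.Agent.Helper21.KW

open MvPolynomial Module Finset Pool.Agent.Helper58.KW

section sdata

variable {k : Type*} [Field k] {A : Type*} [Ring A] [Algebra k A] {δ : A →ₗ[k] A}
  {S : Type*} [Ring S] [Algebra k S] (M : SData δ S)

theorem SData.c0_range {a : A} (ha : δ (δ a) = 0) : M.c0 (δ a) = 0 := by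
  have h := (M.ker (δ a) 0 ha (by rw [map_zero, map_zero])).2
    ⟨⟨a, rfl⟩, 0, 0, map_zero _, by rw [map_zero, add_zero]⟩
  rwa [map_zero, add_zero] at h

theorem SData.c1_ker {n : A} (hn : δ n = 0) : M.c1 n = 0 := by
  have h := (M.ker 0 n (map_zero _) (by rw [hn, map_zero])).2
    ⟨⟨0, map_zero _⟩, n, 0, hn, by rw [map_zero, add_zero]⟩
  rwa [map_zero, zero_add] at h

theorem SData.c1_range (h3 : ∀ a, δ (δ (δ a)) = 0) (a : A) : M.c1 (δ a) = 0 := by
  have h := (M.ker 0 (δ a) (map_zero _) (h3 a)).2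
    ⟨⟨0, map_zero _⟩, 0, a, map_zero _, by rw [zero_add]⟩
  rwa [map_zero, zero_add] at h

theorem SData.of_c0 {n : A} (hn : δ n = 0) (h : M.c0 n = 0) : ∃ a, δ a = n :=
  ((M.ker n 0 hn (by rw [map_zero, map_zero])).1 (by rw [h, map_zero, add_zero])).1

theorem SData.c0_pow (hδ : ∀ a b, δ (a * b) = δ a * b + a * δ b) {a : A} (ha : δ a = 0) (n : ℕ) :
    M.c0 (a ^ n) = M.c0 a ^ n := by
  induction n with
  | zero => rw [pow_zero, pow_zero, M.one]
  | succ n ih => rw [pow_succ, pow_succ, ← M.mul00 _ _ (pow_ker δ hδ ha n) ha, ih]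

theorem SData.c0_list (hδ : ∀ a b, δ (a * b) = δ a * b + a * δ b) (l : List A)
    (hl : ∀ a ∈ l, δ a = 0) : M.c0 l.prod = (l.map M.c0).prod := by
  induction l with
  | nil => simpa using M.one
  | cons a l ih =>
    rw [List.prod_cons, List.map_cons, List.prod_cons, ← M.mul00 _ _ (hl a (by simp))
      (list_ker δ hδ l fun b hb => hl b (by simp [hb])), ih fun b hb => hl b (by simp [hb])]

/-- A central element of `ker δ` gives a central element. -/
theorem SData.c0_central {z : A} (hz : δ z = 0) (hc : ∀ a, z * a = a * z) (s : S) :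
    M.c0 z * s = s * M.c0 z := by
  obtain ⟨n, w, hn, hw, rfl⟩ := M.surj s
  rw [mul_add, add_mul, M.mul00 _ _ hz hn, M.mul00 _ _ hn hz, M.mul01 _ _ hz hw,
    M.mul10 _ _ hw hz, hc n, hc w]

end sdata

section

variable {k : Type*} [Field k] [CharP k 3] {X I : Type*} [Fintype X] [LinearOrder X] [Fintype I]
  [DecidableEq I]
  {V : Type*} [AddCommGroup V] [Module k V] {A : Type*} [Ring A] [Algebra k A]
  {J : Jd X I} {ι : V →ₗ[k] A} {e : Basis X k V} {symb : MvPolynomial X k →ₗ[k] A}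
  {br : V →ₗ[k] V →ₗ[k] V} {κ : V →ₗ[k] V →ₗ[k] k} {D₀ : V →ₗ[k] V} {D : A →ₗ[k] A}
  {m : ℕ} {cb : V → V} {S : Type*} [Ring S] [Algebra k S]

/-- The even subalgebra. -/
noncomputable def Rp (J : Jd X I) (ι : V →ₗ[k] A) (e : Basis X k V) (cb : V → V)
    {δ : A →ₗ[k] A} (M : SData δ S) : Subalgebra k S :=
  Algebra.adjoin k (Set.range fun x : Xp J => M.c0 (bt J ι e cb x))

/-- The generators. -/
noncomputable def gp (J : Jd X I) (ι : V →ₗ[k] A) (e : Basis X k V) (cb : V → V)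
    {δ : A →ₗ[k] A} (M : SData δ S) (x : Xp J) : Rp J ι e cb M :=
  ⟨M.c0 (bt J ι e cb x), Algebra.subset_adjoin ⟨x, rfl⟩⟩

/-- The space of generators. -/
noncomputable def ιp (J : Jd X I) (ι : V →ₗ[k] A) (e : Basis X k V) (cb : V → V)
    {δ : A →ₗ[k] A} (M : SData δ S) : (Xp J → k) →ₗ[k] Rp J ι e cb M :=
  (Pi.basisFun k (Xp J)).constr k (gp J ι e cb M)

theorem ιp_basis {δ : A →ₗ[k] A} (M : SData δ S) (x : Xp J) :
    ιp J ι e cb M (Pi.basisFun k (Xp J) x) = gp J ι e cb M x :=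
  (Pi.basisFun k (Xp J)).constr_basis k _ x

/-- The part in `V`. -/
noncomputable def em (J : Jd X I) (e : Basis X k V) : (Xp J → k) →ₗ[k] V where
  toFun f := ∑ x : Xp J, (if J.sz (J.blk x.1) = 1 then f x else 0) • e x.1
  map_add' f g := by
    rw [← Finset.sum_add_distrib]
    refine Finset.sum_congr rfl fun x _ => ?_
    rw [← add_smul]
    split_ifs <;> simp
  map_smul' c f := by
    rw [RingHom.id_apply, Finset.smul_sum]
    refine Finset.sum_congr rfl fun x _ => ?_
    rw [smul_smul]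
    split_ifs <;> simp

theorem em_apply (f : Xp J → k) :
    em J e f = ∑ x : Xp J, (if J.sz (J.blk x.1) = 1 then f x else 0) • e x.1 := rfl

/-- The central part. -/
noncomputable def zz (J : Jd X I) (ι : V →ₗ[k] A) (e : Basis X k V) (cb : V → V)
    (f : Xp J → k) : A :=
  ∑ x : Xp J, (if J.sz (J.blk x.1) = 1 then 0 else f x) • bt J ι e cb x

/-- The projection of `V`. -/
noncomputable def pr (J : Jd X I) (e : Basis X k V) : V →ₗ[k] (Xp J → k) where
  toFun v := fun x => if J.sz (J.blk x.1) = 1 then e.repr v x.1 else 0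
  map_add' v w := by
    funext x
    simp only [map_add, Finsupp.add_apply, Pi.add_apply]
    split_ifs <;> simp
  map_smul' c v := by
    funext x
    simp only [map_smul, Finsupp.smul_apply, Pi.smul_apply, RingHom.id_apply]
    split_ifs <;> simp

theorem pr_apply (v : V) (x : Xp J) :
    pr J e v x = if J.sz (J.blk x.1) = 1 then e.repr v x.1 else 0 := rfl

theorem val_ιp {δ : A →ₗ[k] A} (M : SData δ S) (f : Xp J → k) :
    (ιp J ι e cb M f : S) = M.c0 (ι (em J e f) + zz J ι e cb f) := by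
  have h1 : ιp J ι e cb M f = ∑ x, f x • gp J ι e cb M x := by
    unfold ιp
    rw [Basis.constr_apply_fintype]
    exact Finset.sum_congr rfl fun x _ => by simp
  rw [h1]
  rw [AddSubmonoidClass.coe_finset_sum]
  rw [em_apply, map_sum, zz, ← Finset.sum_add_distrib, map_sum]
  refine Finset.sum_congr rfl fun x _ => ?_
  rw [Subalgebra.coe_smul, map_add, map_smul, map_smul, map_smul]
  show f x • M.c0 (bt J ι e cb x) = _
  by_cases h : J.sz (J.blk x.1) = 1
  · rw [if_pos h, if_pos h, zero_smul, add_zero]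
    unfold bt
    rw [if_pos h]
  · rw [if_neg h, if_neg h, zero_smul, zero_add]

namespace Ctx

variable (C : Ctx J ι e symb br κ D₀ D m cb)

include C

theorem δ₀em (f : Xp J → k) : (D₀ ^ (3 ^ m)) (em J e f) = 0 := by
  rw [em_apply, map_sum]
  refine Finset.sum_eq_zero fun x _ => ?_
  rw [map_smul]
  split_ifs with h
  · rw [C.δ₀_one h, smul_zero]
  · rw [zero_smul]

theorem δem (f : Xp J → k) : (D ^ (3 ^ m)) (ι (em J e f)) = 0 := by
  rw [C.δι, C.δ₀em, map_zero]

theorem zz_central (f : Xp J → k) (a : A) : zz J ι e cb f * a = a * zz J ι e cb f := by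
  unfold zz
  rw [Finset.sum_mul, Finset.mul_sum]
  refine Finset.sum_congr rfl fun x _ => ?_
  rw [smul_mul_assoc, mul_smul_comm]
  split_ifs with h
  · rw [zero_smul, zero_smul]
  · unfold bt
    rw [if_neg h, C.cent]

theorem Dzz (f : Xp J → k) : D (zz J ι e cb f) = 0 := by
  unfold zz
  rw [map_sum]
  refine Finset.sum_eq_zero fun x _ => ?_
  rw [map_smul]
  split_ifs with h
  · rw [zero_smul]
  · unfold bt
    rw [if_neg h, C.Dcb, smul_zero]

theorem δzz (f : Xp J → k) : (D ^ (3 ^ m)) (zz J ι e cb f) = 0 :=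
  pow_zero_of D (C.Dzz f) (by positivity)

/-- `c0 (ι v)` for `v ∈ ker δ₀`. -/
theorem c0_ι (M : SData (D ^ (3 ^ m)) S) {v : V} (hv : (D₀ ^ (3 ^ m)) v = 0) :
    M.c0 (ι v) = (ιp J ι e cb M (pr J e v) : S) := by
  obtain ⟨z, hz⟩ := form_ker1 C.hnx hv
  have h1 : zz J ι e cb (pr J e v) = 0 := by
    unfold zz
    refine Finset.sum_eq_zero fun x _ => ?_
    rw [pr_apply]
    split_ifs <;> simp
  have h2 : em J e (pr J e v) =
      ∑ x : Xp J, (if J.sz (J.blk x.1) = 1 then e.repr v x.1 else 0) • e x.1 := by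
    rw [em_apply]
    refine Finset.sum_congr rfl fun x _ => ?_
    rw [pr_apply]
    split_ifs <;> rfl
  rw [val_ιp, h1, add_zero, h2]
  have h3 : v = (∑ x : Xp J, (if J.sz (J.blk x.1) = 1 then e.repr v x.1 else 0) • e x.1) +
      (D₀ ^ (3 ^ m)) z := by
    rw [← hz]
    abel
  conv_lhs => rw [h3]
  rw [map_add, map_add, ← C.δι z]
  rw [M.c0_range, add_zero]
  rw [C.δι, C.δι]
  have h4 : (D₀ ^ (3 ^ m)) ((D₀ ^ (3 ^ m)) z) = 0 := by
    rw [← hz, map_sub, hv, zero_sub, neg_eq_zero, ← h2]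
    exact C.δ₀em _
  rw [h4, map_zero]

theorem pr_δ₀ (z : V) : pr J e ((D₀ ^ (3 ^ m)) z) = 0 := by
  funext x
  rw [pr_apply, repr_range C.hnx, ite_self]
  rfl

/-- `em (pr v) = v` modulo `range δ₀` for `v ∈ ker δ₀`. -/
theorem em_pr {v : V} (hv : (D₀ ^ (3 ^ m)) v = 0) : ∃ z, v = em J e (pr J e v) + (D₀ ^ (3 ^ m)) z := by
  obtain ⟨z, hz⟩ := form_ker1 C.hnx hv
  refine ⟨z, ?_⟩
  have h2 : em J e (pr J e v) =
      ∑ x : Xp J, (if J.sz (J.blk x.1) = 1 then e.repr v x.1 else 0) • e x.1 := by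
    rw [em_apply]
    refine Finset.sum_congr rfl fun x _ => ?_
    rw [pr_apply]
    split_ifs <;> rfl
  rw [← hz, h2]
  abel

omit C in
theorem pr_em (f : Xp J → k) (x : Xp J) :
    pr J e (em J e f) x = if J.sz (J.blk x.1) = 1 then f x else 0 := by
  rw [pr_apply]
  split_ifs with h
  · rw [em_apply, map_sum, Finsupp.finset_sum_apply, Finset.sum_eq_single x]
    · rw [if_pos h, map_smul, e.repr_self, Finsupp.smul_apply, Finsupp.single_eq_same, smul_eq_mul,
        mul_one]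
    · intro y _ hy
      rw [map_smul, e.repr_self, Finsupp.smul_apply, Finsupp.single_eq_of_ne, smul_zero]
      intro h2
      exact hy (Subtype.ext h2).symm
    · intro h2
      exact absurd (Finset.mem_univ x) h2
  · rfl

theorem omon_c0 (M : SData (D ^ (3 ^ m)) S) (μ : Xp J →₀ ℕ) :
    M.c0 (nA J ι e cb μ) = omon (fun x => M.c0 (bt J ι e cb x)) μ := by
  unfold nA omon
  rw [M.c0_list C.δder]
  · rw [List.map_map]
    congr 1
    refine List.map_congr_left fun x _ => ?_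
    exact M.c0_pow C.δder (C.δbt x) _
  · intro a ha
    rw [List.mem_map] at ha
    obtain ⟨x, -, rfl⟩ := ha
    exact pow_ker _ C.δder (C.δbt x) _

omit C in
theorem omon_gp {δ : A →ₗ[k] A} (M : SData δ S) (μ : Xp J →₀ ℕ) :
    ((omon (fun x => ιp J ι e cb M (Pi.basisFun k (Xp J) x)) μ : Rp J ι e cb M) : S) =
      omon (fun x => M.c0 (bt J ι e cb x)) μ := by
  unfold omon
  rw [← Subalgebra.val_apply, map_list_prod, List.map_map]
  congr 1
  refine List.map_congr_left fun x _ => ?_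
  rw [Function.comp_apply, map_pow]
  beta_reduce
  rw [ιp_basis]
  rfl

/-- The generators are closed under commutators. -/
theorem cl (M : SData (D ^ (3 ^ m)) S) (f g : Xp J → k) :
    ιp J ι e cb M f * ιp J ι e cb M g - ιp J ι e cb M g * ιp J ι e cb M f =
      ιp J ι e cb M (pr J e (br (em J e f) (em J e g))) := by
  apply Subtype.ext
  have h1 : (D₀ ^ (3 ^ m)) (br (em J e f) (em J e g)) = 0 := by
    apply C.inj
    rw [← C.δι, C.br_eq, map_sub, C.δder, C.δder, C.δem, C.δem]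
    simp
  have h2 : ∀ f : Xp J → k, (D ^ (3 ^ m)) (ι (em J e f) + zz J ι e cb f) = 0 := by
    intro f
    rw [map_add, C.δem, C.δzz, add_zero]
  rw [← C.c0_ι M h1]
  show (ιp J ι e cb M f : S) * (ιp J ι e cb M g : S) -
    (ιp J ι e cb M g : S) * (ιp J ι e cb M f : S) = _
  rw [val_ιp, val_ιp, M.mul00 _ _ (h2 f) (h2 g), M.mul00 _ _ (h2 g) (h2 f), ← map_sub, C.br_eq]
  congr 1
  have e1 := C.zz_central f (ι (em J e g))
  have e2 := C.zz_central g (ι (em J e f))
  have e3 := C.zz_central f (zz J ι e cb g)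
  simp only [mul_add, add_mul]
  rw [e1, e2, e3]
  abel

theorem ex (M : SData (D ^ (3 ^ m)) S) (a : Rp J ι e cb M) : ∃ d, a ∈ G (ιp J ι e cb M) d := by
  obtain ⟨a, ha⟩ := a
  induction ha using Algebra.adjoin_induction with
  | mem x hx =>
    obtain ⟨x, rfl⟩ := hx
    refine ⟨2, ?_⟩
    have := iota_mem_G (ιp J ι e cb M) (Pi.basisFun k (Xp J) x) (d := 2) (by omega)
    rw [ιp_basis] at this
    exact this
  | algebraMap r =>
    refine ⟨1, ?_⟩
    have h1 := Submodule.smul_mem _ r (one_mem_G (ιp J ι e cb M) (d := 1) (by omega))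
    convert h1 using 1
    apply Subtype.ext
    show algebraMap k S r = _
    rw [Algebra.algebraMap_eq_smul_one]
    rfl
  | add x y hx hy h1 h2 =>
    obtain ⟨d, hd⟩ := h1
    obtain ⟨d', hd'⟩ := h2
    exact ⟨max d d', Submodule.add_mem _ (G_mono _ (le_max_left _ _) hd)
      (G_mono _ (le_max_right _ _) hd')⟩
  | mul x y hx hy h1 h2 =>
    obtain ⟨d, hd⟩ := h1
    obtain ⟨d', hd'⟩ := h2
    exact ⟨d + d', G_mul _ (G_mono _ (Nat.le_succ d) hd) hd'⟩

theorem ind (M : SData (D ^ (3 ^ m)) S) : LinearIndependent k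
    (fun ν : Xp J →₀ ℕ => omon (fun x => ιp J ι e cb M (Pi.basisFun k (Xp J) x)) ν) := by
  have h1 := sp_indep C.shyp M
  have h2 := h1.comp (fun μ : Xp J →₀ ℕ => (μ, (∅ : Finset (Yp J))))
    (fun a b hab => congrArg Prod.fst hab)
  have h3 : LinearIndependent k (fun μ : Xp J →₀ ℕ =>
      ((Rp J ι e cb M).val.toLinearMap)
        (omon (fun x => ιp J ι e cb M (Pi.basisFun k (Xp J) x)) μ)) := by
    convert h2 using 1
    funext μ
    show ((omon (fun x => ιp J ι e cb M (Pi.basisFun k (Xp J) x)) μ : Rp J ι e cb M) : S) = _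
    rw [omon_gp, Function.comp_apply, C.omon_c0 M μ]
    unfold cw
    simp
  exact LinearIndependent.of_comp _ h3

theorem pbwp (M : SData (D ^ (3 ^ m)) S) :
    ∃ symb' : MvPolynomial (Xp J) k →ₗ[k] Rp J ι e cb M,
      PBW (ιp J ι e cb M) (Pi.basisFun k (Xp J)) symb' :=
  pbw_of _ _ (fun f g => ⟨_, C.cl M f g⟩) (C.ex M) (C.ind M)

/-- The ordered monomials span the even subalgebra. -/
theorem omon_span (M : SData (D ^ (3 ^ m)) S) (a : Rp J ι e cb M) :
    a ∈ Submodule.span k (Set.range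
      (fun ν : Xp J →₀ ℕ => omon (fun x => ιp J ι e cb M (Pi.basisFun k (Xp J) x)) ν)) := by
  obtain ⟨d, hd⟩ := C.ex M a
  have h1 := G_omon (ιp J ι e cb M) (Pi.basisFun k (Xp J)) (fun f g => ⟨_, C.cl M f g⟩) d hd
  refine Submodule.span_mono ?_ h1
  rintro _ ⟨ν, -, rfl⟩
  exact ⟨ν, rfl⟩

end Ctx

end

end Pool.Agent.Helper21.KW
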