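import Pool.Agent.Helper21.KW.StepB
import Pool.Agent.Helper21.KW.Form2

set_option autoImplicit false

/-!
# Project KW, the induction step: the form, the derivation and the cubes on the even part
-/

namespace Pool.Agent.Helper21.KW

open MvPolynomial Module Finset Pool.Agent.Helper58.KW

section

variable {k : Type*} [Field k] [CharP k 3] {X I : Type*} [Fintype X] [LinearOrder X] [Fintype I]
  [DecidableEq I]
  {V : Type*} [AddCommGroup V] [Module k V] {A : Type*} [Ring A] [Algebra k A]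
  {J : Jd X I} {ι : V →ₗ[k] A} {e : Basis X k V} {symb : MvPolynomial X k →ₗ[k] A}
  {br : V →ₗ[k] V →ₗ[k] V} {κ : V →ₗ[k] V →ₗ[k] k} {D₀ : V →ₗ[k] V} {D : A →ₗ[k] A}
  {m : ℕ} {cb : V → V} {S : Type*} [Ring S] [Algebra k S]

/-- The bracket on the even part. -/
noncomputable def brp (J : Jd X I) (e : Basis X k V) (br : V →ₗ[k] V →ₗ[k] V) :
    (Xp J → k) →ₗ[k] (Xp J → k) →ₗ[k] (Xp J → k) :=
  LinearMap.mk₂ k (fun f g => pr J e (br (em J e f) (em J e g)))
    (fun f f' g => by simp only [map_add, LinearMap.add_apply])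
    (fun c f g => by simp only [map_smul, LinearMap.smul_apply])
    (fun f g g' => by simp only [map_add])
    (fun c f g => by simp only [map_smul])

theorem brp_apply (f g : Xp J → k) : brp J e br f g = pr J e (br (em J e f) (em J e g)) := rfl

/-- The form on the even part. -/
noncomputable def κp (J : Jd X I) (e : Basis X k V) (κ : V →ₗ[k] V →ₗ[k] k) :
    (Xp J → k) →ₗ[k] (Xp J → k) →ₗ[k] k :=
  LinearMap.mk₂ k (fun f g => κ (em J e f) (em J e g) +
      ∑ x : Xp J, (if J.sz (J.blk x.1) = 1 then 0 else f x) * g x)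
    (fun f f' g => by
      simp only [map_add, LinearMap.add_apply]
      have h1 : ∑ x : Xp J, (if J.sz (J.blk x.1) = 1 then 0 else (f + f') x) * g x =
          (∑ x : Xp J, (if J.sz (J.blk x.1) = 1 then 0 else f x) * g x) +
          ∑ x : Xp J, (if J.sz (J.blk x.1) = 1 then 0 else f' x) * g x := by
        rw [← Finset.sum_add_distrib]
        refine Finset.sum_congr rfl fun x _ => ?_
        split_ifs
        · simp
        · rw [Pi.add_apply, add_mul]
      rw [h1]
      ring)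
    (fun c f g => by
      simp only [map_smul, LinearMap.smul_apply, smul_eq_mul]
      rw [mul_add, Finset.mul_sum]
      congr 1
      refine Finset.sum_congr rfl fun x _ => ?_
      split_ifs
      · simp
      · rw [Pi.smul_apply, smul_eq_mul, mul_assoc])
    (fun f g g' => by
      simp only [map_add]
      have h1 : ∑ x : Xp J, (if J.sz (J.blk x.1) = 1 then 0 else f x) * (g + g') x =
          (∑ x : Xp J, (if J.sz (J.blk x.1) = 1 then 0 else f x) * g x) +
          ∑ x : Xp J, (if J.sz (J.blk x.1) = 1 then 0 else f x) * g' x := by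
        rw [← Finset.sum_add_distrib]
        refine Finset.sum_congr rfl fun x _ => ?_
        rw [Pi.add_apply, mul_add]
      rw [h1]
      ring)
    (fun c f g => by
      simp only [map_smul, smul_eq_mul]
      rw [mul_add, Finset.mul_sum]
      congr 1
      refine Finset.sum_congr rfl fun x _ => ?_
      rw [Pi.smul_apply, smul_eq_mul]
      ring)

theorem κp_apply (f g : Xp J → k) : κp J e κ f g = κ (em J e f) (em J e g) +
      ∑ x : Xp J, (if J.sz (J.blk x.1) = 1 then 0 else f x) * g x := rfl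

/-- The derivation on the even part. -/
noncomputable def D₀p (J : Jd X I) (e : Basis X k V) (D₀ : V →ₗ[k] V) :
    (Xp J → k) →ₗ[k] (Xp J → k) := pr J e ∘ₗ D₀ ∘ₗ em J e

theorem D₀p_apply (f : Xp J → k) : D₀p J e D₀ f = pr J e (D₀ (em J e f)) := rfl

theorem commute_pow (D₀ : V →ₗ[k] V) (n : ℕ) (v : V) : (D₀ ^ n) (D₀ v) = D₀ ((D₀ ^ n) v) := by
  rw [← Module.End.mul_apply, ← Module.End.mul_apply, ← pow_succ, ← pow_succ']

namespace Ctx

variable (C : Ctx J ι e symb br κ D₀ D m cb)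

include C

theorem skew_pow (n : ℕ) (v w : V) : κ ((D₀ ^ n) v) w = (-1) ^ n * κ v ((D₀ ^ n) w) := by
  induction n generalizing v w with
  | zero => simp
  | succ n ih =>
    rw [pow_succ', Module.End.mul_apply]
    have h1 := C.skew ((D₀ ^ n) v) w
    have h2 := ih v (D₀ w)
    rw [commute_pow, ← Module.End.mul_apply, ← pow_succ'] at h2
    rw [eq_neg_of_add_eq_zero_left h1, h2, ← pow_succ']
    ring

theorem skewδ (v w : V) : κ ((D₀ ^ (3 ^ m)) v) w + κ v ((D₀ ^ (3 ^ m)) w) = 0 := by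
  rw [C.skew_pow]
  have h : (-1 : k) ^ (3 ^ m) = -1 := by
    apply Odd.neg_one_pow
    exact Odd.pow (by decide)
  rw [h]
  ring

/-- `κ (em (pr v)) (em w) = κ v (em w)` for `v ∈ ker δ₀`. -/
theorem κ_em {v : V} (hv : (D₀ ^ (3 ^ m)) v = 0) (g : Xp J → k) :
    κ (em J e (pr J e v)) (em J e g) = κ v (em J e g) := by
  obtain ⟨z, hz⟩ := C.em_pr hv
  conv_rhs => rw [hz]
  rw [map_add, LinearMap.add_apply]
  have h1 := C.skewδ z (em J e g)
  rw [C.δ₀em, map_zero, add_zero] at h1
  rw [h1, add_zero]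

theorem δ₀br {v w : V} (hv : (D₀ ^ (3 ^ m)) v = 0) (hw : (D₀ ^ (3 ^ m)) w = 0) :
    (D₀ ^ (3 ^ m)) (br v w) = 0 := by
  apply C.inj
  rw [← C.δι, C.br_eq, map_sub, C.δder, C.δder, C.δι, C.δι, hv, hw]
  simp

theorem κp_left (f g : Xp J → k) (v : V) (hv : (D₀ ^ (3 ^ m)) v = 0) :
    κp J e κ (pr J e v) g = κ v (em J e g) := by
  rw [κp_apply, C.κ_em hv]
  have h1 : ∑ x : Xp J, (if J.sz (J.blk x.1) = 1 then 0 else pr J e v x) * g x = 0 := by
    refine Finset.sum_eq_zero fun x _ => ?_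
    rw [pr_apply]
    split_ifs <;> simp
  rw [h1, add_zero]

theorem κp_symm (f g : Xp J → k) : κp J e κ f g = κp J e κ g f := by
  rw [κp_apply, κp_apply, C.symm]
  congr 1
  refine Finset.sum_congr rfl fun x _ => ?_
  split_ifs
  · simp
  · ring

theorem κp_nondeg (f : Xp J → k) (hf : ∀ g, κp J e κ f g = 0) : f = 0 := by
  classical
  have h1 : ∀ x : Xp J, J.sz (J.blk x.1) ≠ 1 → f x = 0 := by
    intro x hx
    have h2 := hf (Pi.single x 1)
    have h3 : em J e (Pi.single x (1 : k)) = 0 := by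
      rw [em_apply]
      refine Finset.sum_eq_zero fun y _ => ?_
      split_ifs with hy
      · have hxy : y ≠ x := by
          rintro rfl
          exact hx hy
        rw [Pi.single_eq_of_ne hxy, zero_smul]
      · rw [zero_smul]
    rw [κp_apply, h3, map_zero, zero_add, Finset.sum_eq_single x] at h2
    · rw [if_neg hx, Pi.single_eq_same, mul_one] at h2
      exact h2
    · intro y _ hy
      rw [Pi.single_eq_of_ne hy, mul_zero]
    · intro h4
      exact absurd (Finset.mem_univ x) h4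
  refine form_nondeg C.hnx κ C.symm C.nondeg C.skewδ f h1 ?_
  intro y hy
  have h2 := hf (Pi.single y 1)
  have h3 : em J e (Pi.single y (1 : k)) = e y.1 := by
    rw [em_apply, Finset.sum_eq_single y]
    · rw [if_pos hy, Pi.single_eq_same, one_smul]
    · intro z _ hz
      rw [Pi.single_eq_of_ne hz, ite_self, zero_smul]
    · intro h4
      exact absurd (Finset.mem_univ y) h4
  have h4 : em J e f = ∑ x : Xp J, f x • e x.1 := by
    rw [em_apply]
    refine Finset.sum_congr rfl fun x _ => ?_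
    split_ifs with hx
    · rfl
    · rw [h1 x hx]
  rw [κp_apply, h3, h4] at h2
  have h5 : ∑ x : Xp J, (if J.sz (J.blk x.1) = 1 then 0 else f x) * (Pi.single y 1 : Xp J → k) x = 0 := by
    refine Finset.sum_eq_zero fun x _ => ?_
    split_ifs with hx
    · simp
    · rw [h1 x hx, zero_mul]
  rw [h5, add_zero] at h2
  exact h2

theorem κp_inv (u v w : Xp J → k) :
    κp J e κ (brp J e br u v) w + κp J e κ v (brp J e br u w) = 0 := by
  rw [C.κp_symm v, brp_apply, brp_apply, C.κp_left u w _ (C.δ₀br (C.δ₀em u) (C.δ₀em v)),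
    C.κp_left u v _ (C.δ₀br (C.δ₀em u) (C.δ₀em w)), C.symm _ (em J e v)]
  exact C.inv _ _ _

theorem δ₀D₀ {v : V} (hv : (D₀ ^ (3 ^ m)) v = 0) : (D₀ ^ (3 ^ m)) (D₀ v) = 0 := by
  rw [commute_pow, hv, map_zero]

theorem κp_skew (v w : Xp J → k) :
    κp J e κ (D₀p J e D₀ v) w + κp J e κ v (D₀p J e D₀ w) = 0 := by
  rw [C.κp_symm v, D₀p_apply, D₀p_apply, C.κp_left v w _ (C.δ₀D₀ (C.δ₀em v)),
    C.κp_left v v _ (C.δ₀D₀ (C.δ₀em w)), C.symm _ (em J e v)]
  exact C.skew _ _

/-- `(D₀p) ^ n (pr v) = pr (D₀ ^ n v)` for `v ∈ ker δ₀`. -/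
theorem D₀p_pow (n : ℕ) {v : V} (hv : (D₀ ^ (3 ^ m)) v = 0) :
    ((D₀p J e D₀) ^ n) (pr J e v) = pr J e ((D₀ ^ n) v) := by
  induction n generalizing v with
  | zero => simp
  | succ n ih =>
    rw [pow_succ, Module.End.mul_apply, D₀p_apply]
    obtain ⟨z, hz⟩ := C.em_pr hv
    have h1 : em J e (pr J e v) = v - (D₀ ^ (3 ^ m)) z := by
      rw [eq_sub_iff_add_eq]
      exact hz.symm
    rw [h1, map_sub, ← commute_pow, map_sub, C.pr_δ₀, sub_zero, ih (C.δ₀D₀ hv), pow_succ,
      Module.End.mul_apply]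

theorem D₀p_nil : (D₀p J e D₀) ^ (3 ^ m) = 0 := by
  apply LinearMap.ext
  intro f
  obtain ⟨n, hn⟩ : ∃ n, 3 ^ m = n + 1 := ⟨3 ^ m - 1, by
    have : 0 < 3 ^ m := by positivity
    omega⟩
  have h1 : ((D₀p J e D₀) ^ (3 ^ m)) f = ((D₀p J e D₀) ^ (3 ^ m)) (pr J e (em J e f)) := by
    rw [hn, pow_succ, Module.End.mul_apply, Module.End.mul_apply]
    congr 1
    rw [D₀p_apply, D₀p_apply]
    congr 2
    rw [em_apply (pr J e (em J e f))]
    conv_lhs => rw [em_apply]
    refine Finset.sum_congr rfl fun x _ => ?_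
    rw [pr_em]
    split_ifs <;> rfl
  rw [h1, C.D₀p_pow _ (C.δ₀em f), C.δ₀em, map_zero, LinearMap.zero_apply]

/-- The derivation on the even subalgebra. -/
theorem exists_DR (M : SData (D ^ (3 ^ m)) S) {DS : S →ₗ[k] S}
    (hDS : ∀ a b, DS (a * b) = DS a * b + a * DS b)
    (h0 : ∀ n, (D ^ (3 ^ m)) n = 0 → DS (M.c0 n) = M.c0 (D n)) :
    ∃ DR : Rp J ι e cb M →ₗ[k] Rp J ι e cb M,
      (∀ a, ((DR a : Rp J ι e cb M) : S) = DS (a : S)) ∧
      (∀ a b, DR (a * b) = DR a * b + a * DR b) ∧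
      ∀ f, DR (ιp J ι e cb M f) = ιp J ι e cb M (D₀p J e D₀ f) := by
  have hf : ∀ f : Xp J → k, DS (ιp J ι e cb M f : S) = (ιp J ι e cb M (D₀p J e D₀ f) : S) := by
    intro f
    rw [val_ιp, h0 _ (by rw [map_add, C.δem, C.δzz, add_zero]), map_add, C.Dzz, add_zero, C.Dι,
      C.c0_ι M (C.δ₀D₀ (C.δ₀em f))]
    rfl
  have hmem : ∀ a ∈ Rp J ι e cb M, DS a ∈ Rp J ι e cb M := by
    intro a ha
    induction ha using Algebra.adjoin_induction with
    | mem x hx =>
      obtain ⟨x, rfl⟩ := hx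
      have h1 := hf (Pi.basisFun k (Xp J) x)
      rw [ιp_basis] at h1
      have h2 : DS (M.c0 (bt J ι e cb x)) = DS ((gp J ι e cb M x : Rp J ι e cb M) : S) := rfl
      show DS (M.c0 (bt J ι e cb x)) ∈ _
      rw [h2, h1]
      exact Subtype.property _
    | algebraMap r =>
      rw [Algebra.algebraMap_eq_smul_one, map_smul, leib_one DS hDS, smul_zero]
      exact zero_mem _
    | add x y hx hy h1 h2 =>
      rw [map_add]
      exact add_mem h1 h2
    | mul x y hx hy h1 h2 =>
      rw [hDS]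
      exact add_mem (mul_mem h1 hy) (mul_mem hx h2)
  refine ⟨(DS.restrict (p := Subalgebra.toSubmodule (Rp J ι e cb M))
    (q := Subalgebra.toSubmodule (Rp J ι e cb M)) hmem), fun a => rfl, ?_, ?_⟩
  · intro a b
    apply Subtype.ext
    exact hDS _ _
  · intro f
    apply Subtype.ext
    exact hf f

/-- The quadratic data of the even part. -/
theorem qdp (M : SData (D ^ (3 ^ m)) S) {DS : S →ₗ[k] S}
    (hDS : ∀ a b, DS (a * b) = DS a * b + a * DS b)
    (h0 : ∀ n, (D ^ (3 ^ m)) n = 0 → DS (M.c0 n) = M.c0 (D n))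
    {DR : Rp J ι e cb M →ₗ[k] Rp J ι e cb M}
    (hDR : ∀ a, ((DR a : Rp J ι e cb M) : S) = DS (a : S))
    (hDRd : ∀ a b, DR (a * b) = DR a * b + a * DR b)
    (hDRι : ∀ f, DR (ιp J ι e cb M f) = ιp J ι e cb M (D₀p J e D₀ f)) :
    QD (ιp J ι e cb M) (brp J e br) (κp J e κ) (D₀p J e D₀) DR where
  br_eq f g := (C.cl M f g).symm
  symm := C.κp_symm
  nondeg := C.κp_nondeg
  inv := C.κp_inv
  skew := C.κp_skew
  der := hDRd
  Dι := hDRι
  cube f := by
    set v := em J e f with hv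
    have hδv : (D₀ ^ (3 ^ m)) v = 0 := C.δ₀em f
    have hδcb : (D₀ ^ (3 ^ m)) (cb v) = 0 := by
      apply C.inj
      rw [← C.δι]
      have h1 := C.δcb v
      rw [map_sub, pow_ker _ C.δder (by rw [C.δι, hδv, map_zero]), zero_sub, neg_eq_zero] at h1
      exact h1
    have h3 : ∀ a : A, (3 : ℕ) • a = 0 := by
      intro a
      rw [← Nat.cast_smul_eq_nsmul k]
      have : ((3 : ℕ) : k) = 0 := CharP.cast_eq_zero k 3
      rw [this, zero_smul]
    set z := zz J ι e cb f with hz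
    have hzc : ∀ a, z * a = a * z := C.zz_central f
    have hcube : (ι v + z) ^ 3 = ι v ^ 3 + z ^ 3 := by
      have e1 := hzc (ι v)
      have e2 : (ι v + z) ^ 3 = ι v ^ 3 + z ^ 3 + 3 • (ι v * ι v * z) + 3 • (ι v * z * z) := by
        have e3 : (ι v + z) ^ 3 = ι v * ι v * ι v + ι v * ι v * z + ι v * (z * ι v) +
            ι v * z * z + (z * ι v) * ι v + (z * ι v) * z + z * (z * ι v) + z * z * z := by
          noncomm_ring
        rw [e3, e1]
        have e4 : ι v * z * ι v = ι v * ι v * z := by rw [mul_assoc, e1, mul_assoc]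
        have e5 : z * (ι v * z) = ι v * z * z := by rw [← mul_assoc, e1]
        rw [e4, e5]
        have e6 : ι v * (ι v * z) = ι v * ι v * z := (mul_assoc _ _ _).symm
        rw [e6]
        have e7 : ι v ^ 3 = ι v * ι v * ι v := by rw [pow_succ, pow_two]
        have e8 : z ^ 3 = z * z * z := by rw [pow_succ, pow_two]
        rw [e7, e8, show (3 : ℕ) = 1 + 1 + 1 from rfl]
        simp only [add_smul, one_smul]
        abel
      rw [e2, h3, h3, add_zero, add_zero]
    have hδz : (D ^ (3 ^ m)) z = 0 := C.δzz f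
    have hδv' : (D ^ (3 ^ m)) (ι v) = 0 := by rw [C.δι, hδv, map_zero]
    set ζ := ι v ^ 3 - ι (cb v) + z ^ 3 with hζ
    have hζc : ∀ a, ζ * a = a * ζ := by
      intro a
      rw [hζ, add_mul, mul_add, C.cent]
      congr 1
      have : Commute z a := hzc a
      exact (this.pow_left 3)
    have hζδ : (D ^ (3 ^ m)) ζ = 0 := by
      rw [hζ, map_add, C.δcb, pow_ker _ C.δder hδz, add_zero]
    have hζD : D ζ = 0 := by
      rw [hζ, map_add, C.Dcb, pow_ker _ C.der (C.Dzz f), add_zero]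
    have key : ((ιp J ι e cb M f : S)) ^ 3 - (ιp J ι e cb M (pr J e (cb v)) : S) = M.c0 ζ := by
      rw [val_ιp, ← hv, ← hz, ← C.c0_ι M hδcb,
        ← M.c0_pow C.δder (by rw [map_add, hδz, hδv', add_zero]), hcube, ← map_sub]
      congr 1
      rw [hζ]
      abel
    refine ⟨pr J e (cb v), ?_, ?_⟩
    · intro a
      apply Subtype.ext
      have h4 : (((ιp J ι e cb M f ^ 3 - ιp J ι e cb M (pr J e (cb v)) : Rp J ι e cb M)) : S) =
          M.c0 ζ := key
      show (((ιp J ι e cb M f ^ 3 - ιp J ι e cb M (pr J e (cb v)) : Rp J ι e cb M)) : S) * (a : S) =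
        (a : S) * (((ιp J ι e cb M f ^ 3 - ιp J ι e cb M (pr J e (cb v)) : Rp J ι e cb M)) : S)
      rw [h4]
      exact M.c0_central hζδ hζc _
    · apply Subtype.ext
      rw [hDR]
      have h4 : (((ιp J ι e cb M f ^ 3 - ιp J ι e cb M (pr J e (cb v)) : Rp J ι e cb M)) : S) =
          M.c0 ζ := key
      rw [h4, h0 _ hζδ, hζD, map_zero]
      rfl

end Ctx

end

end Pool.Agent.Helper21.KW
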