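import Pool.Agent.Helper21.KW.StepC
import Pool.Agent.Helper21.KW.Odd1
import Pool.Agent.Helper21.KW.Odd2

set_option autoImplicit false

/-!
# Project KW, the induction step: the superalgebra over its even part
-/

namespace Pool.Agent.Helper21.KW

open MvPolynomial Module Finset Pool.Agent.Helper58.KW

section

variable {k : Type*} [Field k] [CharP k 3] {X I : Type*} [Fintype X] [LinearOrder X] [Fintype I]
  [DecidableEq I]
  {V : Type*} [AddCommGroup V] [Module k V] {A : Type*} [Ring A] [Algebra k A]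
  {J : Jd X I} {ι : V →ₗ[k] A} {e : Basis X k V} {symb : MvPolynomial X k →ₗ[k] A}
  {br : V →ₗ[k] V →ₗ[k] V} {κ : V →ₗ[k] V →ₗ[k] k} {D₀ : V →ₗ[k] V} {D : A →ₗ[k] A}
  {m : ℕ} {cb : V → V} {S : Type*} [Ring S] [Algebra k S]

/-- The odd generators. -/
noncomputable def yo (J : Jd X I) (ι : V →ₗ[k] A) (e : Basis X k V) {δ : A →ₗ[k] A}
    (M : SData δ S) (y : Yp J) : S := M.c1 (ι (e y.1))

/-- The action of the even generators on the odd ones. -/
noncomputable def ao (J : Jd X I) (e : Basis X k V) (br : V →ₗ[k] V →ₗ[k] V) (x : Xp J)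
    (y l : Yp J) : k := if J.sz (J.blk x.1) = 1 then e.repr (br (e x.1) (e y.1)) l.1 else 0

theorem yT_cw {δ : A →ₗ[k] A} (M : SData δ S) (T : Finset (Yp J)) :
    yT (yo J ι e M) T = cw J M ι e T := rfl

namespace Ctx

variable (C : Ctx J ι e symb br κ D₀ D m cb)

include C

theorem δ₀head (y : Yp J) : (D₀ ^ (3 ^ m)) ((D₀ ^ (3 ^ m)) (e y.1)) = 0 := by
  rw [C.hnx]
  cases h : J.nx y.1 with
  | none => simp
  | some z =>
    rw [Option.elim_some, C.hnx]
    have h1 : J.nx z = none := by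
      obtain ⟨h2, h3⟩ := J.nx_some h
      unfold Jd.nx
      rw [h2, h3, J.att_none, y.2.1, y.2.2]
    rw [h1]
    rfl

theorem δhead (y : Yp J) : (D ^ (3 ^ m)) ((D ^ (3 ^ m)) (ι (e y.1))) = 0 := by
  rw [C.δι, C.δι, C.δ₀head, map_zero]

/-- `c1 (ι v)` for `v ∈ ker δ₀²`. -/
theorem c1_ι (M : SData (D ^ (3 ^ m)) S) {v : V}
    (hv : (D₀ ^ (3 ^ m)) ((D₀ ^ (3 ^ m)) v) = 0) :
    M.c1 (ι v) = ∑ l : Yp J, e.repr v l.1 • yo J ι e M l := by
  obtain ⟨w, z, hw, hz⟩ := form_ker2 C.hsz C.hnx hv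
  conv_lhs => rw [hz]
  rw [map_add, map_add, map_add, map_add, M.c1_ker (n := ι w) (by rw [C.δι, hw, map_zero]),
    ← C.δι, M.c1_range C.δ3, add_zero, add_zero, map_sum, map_sum]
  refine Finset.sum_congr rfl fun l _ => ?_
  rw [map_smul, map_smul]
  rfl

theorem δ₀br' (u v : V) : (D₀ ^ (3 ^ m)) (br u v) =
    br ((D₀ ^ (3 ^ m)) u) v + br u ((D₀ ^ (3 ^ m)) v) := by
  have h1 : ι ((D₀ ^ (3 ^ m)) (br u v) - (br ((D₀ ^ (3 ^ m)) u) v +
      br u ((D₀ ^ (3 ^ m)) v))) = 0 := by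
    rw [map_sub, map_add, C.br_eq, C.br_eq, ← C.δι, C.br_eq, map_sub, C.δder, C.δder, C.δι, C.δι]
    abel
  exact sub_eq_zero.1 (C.inj h1)

theorem D₀br (u v : V) : D₀ (br u v) = br (D₀ u) v + br u (D₀ v) := by
  have h1 : ι (D₀ (br u v) - (br (D₀ u) v + br u (D₀ v))) = 0 := by
    rw [map_sub, map_add, C.br_eq, C.br_eq, ← C.Dι, C.br_eq, map_sub, C.der, C.der, C.Dι, C.Dι]
    abel
  exact sub_eq_zero.1 (C.inj h1)

theorem br_antisymm (u v : V) : br u v = - br v u := by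
  have h1 : ι (br u v + br v u) = 0 := by
    rw [map_add, C.br_eq, C.br_eq]
    abel
  exact eq_neg_of_add_eq_zero_left (C.inj h1)

theorem ao_comm (M : SData (D ^ (3 ^ m)) S) (x : Xp J) (y : Yp J) :
    (Rp J ι e cb M).val (gp J ι e cb M x) * yo J ι e M y -
      yo J ι e M y * (Rp J ι e cb M).val (gp J ι e cb M x) =
      ∑ l, ao J e br x y l • yo J ι e M l := by
  show M.c0 (bt J ι e cb x) * M.c1 (ι (e y.1)) - M.c1 (ι (e y.1)) * M.c0 (bt J ι e cb x) = _
  rw [M.mul01 _ _ (C.δbt x) (C.δhead y), M.mul10 _ _ (C.δhead y) (C.δbt x), ← map_sub]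
  unfold ao
  by_cases hx : J.sz (J.blk x.1) = 1
  · simp only [if_pos hx]
    have h1 : bt J ι e cb x = ι (e x.1) := by
      unfold bt
      rw [if_pos hx]
    rw [h1, ← C.br_eq]
    apply C.c1_ι
    rw [C.δ₀br', C.δ₀_one hx, map_zero, LinearMap.zero_apply, zero_add, C.δ₀br', C.δ₀_one hx,
      map_zero, LinearMap.zero_apply, zero_add, C.δ₀head, map_zero]
  · simp only [if_neg hx, zero_smul, Finset.sum_const_zero]
    have h1 : bt J ι e cb x = ι (e x.1) ^ 3 - ι (cb (e x.1)) := by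
      unfold bt
      rw [if_neg hx]
    rw [h1, C.cent, sub_self, map_zero]

theorem ao_tr (x : Xp J) : ∑ y, ao J e br x y y = 0 := by
  unfold ao
  by_cases hx : J.sz (J.blk x.1) = 1
  · simp only [if_pos hx]
    have h2 : (2 : k) ≠ 0 := by
      intro h
      have h3 : ((3 : ℕ) : k) = 0 := CharP.cast_eq_zero k 3
      have h4 : (1 : k) = ((3 : ℕ) : k) - 2 := by push_cast; ring
      rw [h3, h, sub_zero] at h4
      exact one_ne_zero h4
    refine form_trace h2 C.hsz C.hnx κ C.symm C.nondeg C.skewδ (br (e x.1)) ?_ (C.inv (e x.1))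
    intro v
    rw [C.δ₀br', C.δ₀_one hx, map_zero, LinearMap.zero_apply, zero_add]
  · simp only [if_neg hx, Finset.sum_const_zero]

theorem two_ne : (2 : k) ≠ 0 := by
  intro h
  have h3 : ((3 : ℕ) : k) = 0 := CharP.cast_eq_zero k 3
  have h4 : (1 : k) = ((3 : ℕ) : k) - 2 := by push_cast; ring
  rw [h3, h, sub_zero] at h4
  exact one_ne_zero h4

theorem odd_yo (M : SData (D ^ (3 ^ m)) S) (i l : Yp J) :
    ∃ g : Rp J ι e cb M, yo J ι e M i * yo J ι e M l + yo J ι e M l * yo J ι e M i =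
      (Rp J ι e cb M).val g := by
  refine ⟨ιp J ι e cb M (pr J e (br (e i.1) ((D₀ ^ (3 ^ m)) (e l.1)) +
    br (e l.1) ((D₀ ^ (3 ^ m)) (e i.1)))), ?_⟩
  have h1 : (D₀ ^ (3 ^ m)) (br (e i.1) ((D₀ ^ (3 ^ m)) (e l.1)) +
      br (e l.1) ((D₀ ^ (3 ^ m)) (e i.1))) = 0 := by
    rw [map_add, C.δ₀br', C.δ₀br', C.δ₀head, C.δ₀head, map_zero, map_zero, add_zero, add_zero,
      C.br_antisymm]
    exact neg_add_cancel _
  rw [Subalgebra.val_apply, ← C.c0_ι M h1]
  unfold yo
  rw [M.mul11 _ _ (C.δhead i) (C.δhead l), M.mul11 _ _ (C.δhead l) (C.δhead i), ← map_add]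
  congr 1
  rw [map_add, C.br_eq, C.br_eq, C.δι, C.δι]
  abel

theorem sub_span (M : SData (D ^ (3 ^ m)) S) (a : Rp J ι e cb M) :
    ∃ c : (Xp J →₀ ℕ) →₀ k, (a : S) = c.sum fun μ r => r • M.c0 (nA J ι e cb μ) := by
  have h1 := C.omon_span M a
  rw [Finsupp.mem_span_range_iff_exists_finsupp] at h1
  obtain ⟨c, hc⟩ := h1
  refine ⟨c, ?_⟩
  rw [← hc, Finsupp.sum, Finsupp.sum, AddSubmonoidClass.coe_finset_sum]
  refine Finset.sum_congr rfl fun μ _ => ?_
  rw [Subalgebra.coe_smul, omon_gp, C.omon_c0 M μ]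

theorem c0_mem (M : SData (D ^ (3 ^ m)) S) (μ : Xp J →₀ ℕ) :
    M.c0 (nA J ι e cb μ) ∈ Rp J ι e cb M := by
  rw [C.omon_c0 M μ, ← omon_gp]
  exact Subtype.property _

/-- From the span to coefficients in the even part. -/
theorem coef_of_Rsp (M : SData (D ^ (3 ^ m)) S) (d : ℕ) {s : S}
    (hs : s ∈ Rsp J M ι e (nA J ι e cb) d) :
    ∃ c : Finset (Yp J) → Rp J ι e cb M, (∀ T, d < T.card → c T = 0) ∧
      s = ∑ T, yT (yo J ι e M) T * (Rp J ι e cb M).val (c T) := by
  classical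
  unfold Rsp at hs
  induction hs using Submodule.span_induction with
  | mem s hs =>
    obtain ⟨μ, T, hd, rfl⟩ := hs
    refine ⟨fun U => if U = T then ⟨M.c0 (nA J ι e cb μ), C.c0_mem M μ⟩ else 0, ?_, ?_⟩
    · intro U hU
      refine if_neg ?_
      rintro rfl
      omega
    · rw [Finset.sum_eq_single T]
      · beta_reduce
        rw [if_pos rfl]
        rfl
      · intro U _ hU
        beta_reduce
        rw [if_neg hU, map_zero, mul_zero]
      · intro h
        exact absurd (Finset.mem_univ T) h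
  | zero => exact ⟨fun _ => 0, fun _ _ => rfl, by simp⟩
  | add x y _ _ hx hy =>
    obtain ⟨c, hc, hc2⟩ := hx
    obtain ⟨c', hc', hc2'⟩ := hy
    refine ⟨fun T => c T + c' T, fun T hT => by
      beta_reduce
      rw [hc T hT, hc' T hT, add_zero], ?_⟩
    rw [hc2, hc2', ← Finset.sum_add_distrib]
    exact Finset.sum_congr rfl fun T _ => by rw [map_add, mul_add]
  | smul r x _ hx =>
    obtain ⟨c, hc, hc2⟩ := hx
    refine ⟨fun T => r • c T, fun T hT => by
      beta_reduce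
      rw [hc T hT, smul_zero], ?_⟩
    rw [hc2, Finset.smul_sum]
    exact Finset.sum_congr rfl fun T _ => by rw [map_smul, mul_smul_comm]

theorem coef_of_Lsp (M : SData (D ^ (3 ^ m)) S) (d : ℕ) {s : S}
    (hs : s ∈ Lsp J M ι e (nA J ι e cb) d) :
    ∃ c : Finset (Yp J) → Rp J ι e cb M,
      s = ∑ T, (Rp J ι e cb M).val (c T) * yT (yo J ι e M) T := by
  classical
  unfold Lsp at hs
  induction hs using Submodule.span_induction with
  | mem s hs =>
    obtain ⟨μ, T, hd, rfl⟩ := hs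
    refine ⟨fun U => if U = T then ⟨M.c0 (nA J ι e cb μ), C.c0_mem M μ⟩ else 0, ?_⟩
    rw [Finset.sum_eq_single T]
    · beta_reduce
      rw [if_pos rfl]
      rfl
    · intro U _ hU
      beta_reduce
      rw [if_neg hU, map_zero, zero_mul]
    · intro h
      exact absurd (Finset.mem_univ T) h
  | zero => exact ⟨fun _ => 0, by simp⟩
  | add x y _ _ hx hy =>
    obtain ⟨c, hc2⟩ := hx
    obtain ⟨c', hc2'⟩ := hy
    refine ⟨fun T => c T + c' T, ?_⟩
    rw [hc2, hc2', ← Finset.sum_add_distrib]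
    exact Finset.sum_congr rfl fun T _ => by rw [map_add, add_mul]
  | smul r x _ hx =>
    obtain ⟨c, hc2⟩ := hx
    refine ⟨fun T => r • c T, ?_⟩
    rw [hc2, Finset.smul_sum]
    exact Finset.sum_congr rfl fun T _ => by rw [map_smul, smul_mul_assoc]

theorem exists_deg (M : SData (D ^ (3 ^ m)) S) (s : S) : ∃ d a b, (D ^ (3 ^ m)) a = 0 ∧
    (D ^ (3 ^ m)) ((D ^ (3 ^ m)) b) = 0 ∧ a ∈ G ι (d + 1) ∧ b ∈ G ι (d + 1) ∧
      s = M.c0 a + M.c1 b := by
  obtain ⟨a, b, ha, hb, hs⟩ := M.surj s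
  obtain ⟨d, hd⟩ := C.pbw.exhaust a
  obtain ⟨d', hd'⟩ := C.pbw.exhaust b
  exact ⟨max d d', a, b, ha, hb, G_mono _ (by omega) hd, G_mono _ (by omega) hd', hs⟩

theorem bas_uniq (M : SData (D ^ (3 ^ m)) S) (c : Finset (Yp J) → Rp J ι e cb M)
    (hc : ∑ T, yT (yo J ι e M) T * (Rp J ι e cb M).val (c T) = 0) : c = 0 := by
  classical
  choose f hf using fun T => C.sub_span M (c T)
  have h1 := sp_indep C.shyp M
  rw [linearIndependent_iff] at h1
  -- the total coefficient function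
  let F : ((Xp J →₀ ℕ) × Finset (Yp J)) →₀ k :=
    ∑ T : Finset (Yp J), (f T).mapDomain (fun μ => (μ, T))
  have h2 : Finsupp.linearCombination k
      (fun p : (Xp J →₀ ℕ) × Finset (Yp J) => cw J M ι e p.2 * M.c0 (nA J ι e cb p.1)) F = 0 := by
    show Finsupp.linearCombination k _ (∑ T : Finset (Yp J), (f T).mapDomain (fun μ => (μ, T))) = 0
    rw [map_sum, ← hc]
    refine Finset.sum_congr rfl fun T _ => ?_
    rw [Finsupp.linearCombination_mapDomain, Subalgebra.val_apply, hf T, Finsupp.mul_sum,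
      Finsupp.linearCombination_apply, Finsupp.sum, Finsupp.sum]
    refine Finset.sum_congr rfl fun μ _ => ?_
    rw [mul_smul_comm]
    rfl
  have h3 := h1 F h2
  funext T
  apply Subtype.ext
  rw [hf T]
  have h4 : f T = 0 := by
    ext μ
    have h5 := DFunLike.congr_fun h3 (μ, T)
    have h6 : F (μ, T) = ∑ U : Finset (Yp J), (f U).mapDomain (fun μ => (μ, U)) (μ, T) :=
      Finsupp.finset_sum_apply _ _ _
    rw [h6, Finset.sum_eq_single T] at h5
    · have h7 : (f T).mapDomain (fun μ => (μ, T)) (μ, T) = f T μ :=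
        Finsupp.mapDomain_apply (fun a b hab => congrArg Prod.fst hab) (f T) μ
      rw [h7] at h5
      exact h5
    · intro U _ hU
      apply Finsupp.mapDomain_notin_range
      rintro ⟨ν, hν⟩
      exact hU (congrArg Prod.snd hν)
    · intro h
      exact absurd (Finset.mem_univ T) h
  rw [h4, Finsupp.sum_zero_index]
  rfl

/-- The hypotheses of the retraction theorem. -/
theorem oddHyp (M : SData (D ^ (3 ^ m)) S) {DS : S →ₗ[k] S}
    (hDS : ∀ a b, DS (a * b) = DS a * b + a * DS b)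
    (h1 : ∀ w, (D ^ (3 ^ m)) ((D ^ (3 ^ m)) w) = 0 → DS (M.c1 w) = M.c1 (D w))
    (hσ : ∀ s, M.σ (DS s) = DS (M.σ s))
    {DR : Rp J ι e cb M →ₗ[k] Rp J ι e cb M}
    (hDR : ∀ a, ((DR a : Rp J ι e cb M) : S) = DS (a : S)) :
    OddHyp (Rp J ι e cb M).val M.σ DS DR (gp J ι e cb M) (yo J ι e M) (ao J e br)
      (fun y l => e.repr (D₀ (e y.1)) l.1) where
  σj r := by
    obtain ⟨r, hr⟩ := r
    show M.σ r = r
    induction hr using Algebra.adjoin_induction with
    | mem x hx =>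
      obtain ⟨x, rfl⟩ := hx
      exact M.σ0 _ (C.δbt x)
    | algebraMap r => exact AlgHom.commutes _ _
    | add x y hx hy h1 h2 => rw [map_add, h1, h2]
    | mul x y hx hy h1 h2 => rw [map_mul, h1, h2]
  der := hDS
  Dj r := (hDR r).symm
  σD := hσ
  gen := by
    have h2 : Algebra.adjoin k (Set.range (gp J ι e cb M)) =
        Algebra.adjoin k (((↑) : Rp J ι e cb M → S) ⁻¹'
          (Set.range fun x : Xp J => M.c0 (bt J ι e cb x))) := by
      congr 1
      ext r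
      constructor
      · rintro ⟨x, rfl⟩
        exact ⟨x, rfl⟩
      · rintro ⟨x, hx⟩
        exact ⟨x, Subtype.ext hx⟩
    rw [h2]
    exact Algebra.adjoin_adjoin_coe_preimage
  σy i := M.σ1 _ (C.δhead i)
  bas s := by
    obtain ⟨d, a, b, ha, hb, haG, hbG, rfl⟩ := C.exists_deg M s
    obtain ⟨c, -, hc⟩ := C.coef_of_Rsp M d (sp_right C.shyp M d ha hb haG hbG)
    refine ⟨c, hc, ?_⟩
    intro c' hc'
    have h2 : ∑ T, yT (yo J ι e M) T * (Rp J ι e cb M).val ((c' - c) T) = 0 := by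
      have h3 : ∀ T, yT (yo J ι e M) T * (Rp J ι e cb M).val ((c' - c) T) =
          yT (yo J ι e M) T * (Rp J ι e cb M).val (c' T) -
            yT (yo J ι e M) T * (Rp J ι e cb M).val (c T) := by
        intro T
        rw [Pi.sub_apply, map_sub, mul_sub]
      rw [Finset.sum_congr rfl fun T _ => h3 T, Finset.sum_sub_distrib, ← hc, ← hc', sub_self]
    exact sub_eq_zero.1 (C.bas_uniq M _ h2)
  left s := by
    obtain ⟨d, a, b, ha, hb, haG, hbG, rfl⟩ := C.exists_deg M s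
    exact C.coef_of_Lsp M d (sp_left C.shyp M d ha hb haG hbG)
  word l := C.coef_of_Rsp M l.length (sp_word C.shyp M l)
  odd := C.odd_yo M
  comm := C.ao_comm M
  tr := C.ao_tr
  hd i := by
    unfold yo
    rw [h1 _ (C.δhead i), C.Dι]
    apply C.c1_ι
    rw [commute_pow, commute_pow, C.δ₀head, map_zero]
  trd := form_trace C.two_ne C.hsz C.hnx κ C.symm C.nondeg C.skewδ D₀
    (fun v => (commute_pow D₀ _ v).symm) C.skew

end Ctx

end

end Pool.Agent.Helper21.KW
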